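import Pool.Agent.U379.TR.Fac2

set_option autoImplicit false

/-!
# Actions of `Mod_g` on abelian groups which have a sequence with small factors
-/

namespace Pool.Agent.U379.TR.Fi

open Pool.Agent.H29R2.MG Pool.Agent.TH35.MG Pool.Agent.R352.MG Pool.Agent.R665.MGR
  Pool.Agent.N66.CQ Pool.Agent.U379.PI Pool.Agent.Helper58.EN
open Pool.Agent.Q290.MG (homMat homM hc_aut hc_gen)
open Pool.Agent.N66.TA (GrpRel)

section assembly
variable {g : ℕ} {M : Type} [AddCommGroup M]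

/-- the data, for a sequence with small factors -/
theorem data3 (hg : 18 ≤ g) (htf : ∀ x : M, (2 * g - 2) • x = 0 → x = 0)
    (f : Mod g →* AddMonoid.End M) (W : ℕ → AddSubgroup M) (hW0 : W 0 = ⊥)
    (hun : ∀ m, ∃ i, m ∈ W i) (hW : ∀ i, ∀ y : Mod g, ∀ m ∈ W i, f y m ∈ W i)
    (hfac : ∀ i, SmallFactor f (W i) (W (i + 1))) :
    ∃ (Γ : Subgroup (Mod g)) (c a : ℕ → Γ) (F : Γ →* AddMonoid.End M)
      (σ : Γ →* Matrix (Fin g ⊕ Fin g) (Fin g ⊕ Fin g) ℤ), Humphries g ≤ Γ ∧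
      (∀ y : Γ, F y = f y) ∧ (∀ y : Γ, σ y = homMat g y) ∧
      (∀ j < 2 * g, (c j : Mod g) = tt g j) ∧
      Subgroup.closure ({x | ∃ j < 2 * g, x = c j} ∪ {x | ∃ m < g, x = a m}) = ⊤ ∧
      GrpRel g c a ∧ (σ (c 0) - 1) * (σ (c 0) - 1) = 0 ∧ (σ (a 1) - 1) * (σ (c 0) - 1) = 0 ∧
      (∃ i0 j0, (σ (c 0) - 1) i0 j0 = 1) ∧ (F (c 0) - 1) * (F (c 0) - 1) = 0 ∧
      LRel g (fun j => F (c j) - 1) (fun m => F (a m) - 1) ∧
      RRel g (fun j => F (c j) - 1) (fun m => F (a m) - 1) := by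
  obtain ⟨Γ, c, a, A', B, al, be, T, tau, hH, hc, ha, hcl, hR, r, hA0, hA1⟩ :=
    Lick.lick (g := g) (by omega)
  let F : Γ →* AddMonoid.End M := f.comp Γ.subtype
  let σ : Γ →* Matrix (Fin g ⊕ Fin g) (Fin g ⊕ Fin g) ℤ := (homMat g).comp Γ.subtype
  have s0 : σ (c 0) - 1 = Matrix.single (Sum.inl ⟨0, by omega⟩) (Sum.inr ⟨0, by omega⟩) 1 := by
    refine homMat_at (by omega) ?_
    show IsTwistAt g 0 (c 0 : Mod g)
    rw [hc 0 (by omega)]
    exact tt_zero (by omega)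
  have s1 : σ (a 1) - 1 = Matrix.single (Sum.inl ⟨1, by omega⟩) (Sum.inr ⟨1, by omega⟩) 1 :=
    homMat_at (by omega) ha
  have e0 : (σ (c 0) - 1) * (σ (c 0) - 1) = 0 := by
    rw [s0, Matrix.single_mul_single_of_ne]
    simp
  have e1 : (σ (a 1) - 1) * (σ (c 0) - 1) = 0 := by
    rw [s0, s1, Matrix.single_mul_single_of_ne]
    simp
  have hij : (σ (c 0) - 1) (Sum.inl ⟨0, by omega⟩) (Sum.inr ⟨0, by omega⟩) = 1 := by
    rw [s0, Matrix.single_apply_same]
  have hsq : Univ.Sq g c a := fun k _ hk =>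
    Univ.group_sq hg hR hcl r hA0 hA1 σ e0 e1 _ _ hij hk
  have hsm : ∀ (K : Type) [Field K] (d : ℕ) (f : Γ →* Module.End K (Fin d → K)),
      d < (g - 5).choose 2 → (f (c 0) - 1) * (f (c 0) - 1) = 0 ∧
        (f (a 1) - 1) * (f (c 0) - 1) = 0 := by
    intro K _ d f' hd
    have h3 := Small.small r (by omega) f' (by
      rw [Module.finrank_fin_fun, show g - 3 - 2 = g - 5 by omega]
      exact hd)
    rw [hA0, hA1] at h3
    exact h3
  have hX := Univ.chain_zero' hg hR hcl r hA0 hA1 σ e0 e1 _ _ hij htf F W hW0 hun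
    (fun i y m hm => hW i y m hm) (by
      intro i
      obtain ⟨X, _, π, hπ, hsmall⟩ := hfac i
      rcases hsmall with ⟨A, _, _, n, s, τ, hn, hs, heq⟩ | ⟨A, _, k, n, _, τ, hA, hn, heq⟩
      · have h3 := Univ.few' hsq r hg hA0 hA1 hcl hn s hs (τ.comp Γ.subtype)
        have key : ∀ y z : Γ, (∀ v, ∃ d : ℕ, (2 * g - 2) ^ d •
            (((τ.comp Γ.subtype) y - 1) * ((τ.comp Γ.subtype) z - 1)) v = 0) →
            Univ.Low g (W i) (W (i + 1)) ((F y - 1) * (F z - 1)) := by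
          intro y z h
          refine low_of F (fun y m hm => hW (i + 1) y m hm) π hπ (fun y v => τ y v)
            (fun y m m' h => heq y m m' h) y z ?_
          intro v
          obtain ⟨d, hd⟩ := h v
          refine ⟨d, ?_⟩
          rw [Module.End.mul_apply, LinearMap.sub_apply, LinearMap.sub_apply,
            Module.End.one_apply, Module.End.one_apply] at hd
          exact hd
        exact ⟨key _ _ fun v => (h3 v).1, key _ _ fun v => (h3 v).2⟩
      · obtain ⟨J, hJ2, hJLN, hJ⟩ := hA.reps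
        let F' : Γ →* Matrix (Fin n) (Fin n) A :=
          ((Units.coeHom (Matrix (Fin n) (Fin n) A)).comp τ).comp Γ.subtype
        have h3 := Univ.X_tors hg hR hcl r hA0 hA1 σ e0 e1 _ _ hij
          (R := Matrix (Fin n) (Fin n) A) F' (matI n J) (matI_two n J hJ2) (LN_matrix n hJLN)
          (fun i j => pair_mem J hJ hn (c 0) (c 0) (fun K _ d f' hd => (hsm K d f' hd).1) F' i j)
          (fun i j => pair_mem J hJ hn (a 1) (c 0) (fun K _ d f' hd => (hsm K d f' hd).2) F' i j)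
        have key : ∀ y z : Γ, (∃ d : ℕ, (2 * g - 2) ^ d • ((F' y - 1) * (F' z - 1)) = 0) →
            Univ.Low g (W i) (W (i + 1)) ((F y - 1) * (F z - 1)) := by
          rintro y z ⟨d, hd⟩
          refine low_of F (fun y m hm => hW (i + 1) y m hm) π hπ (fun y v => F' y • v)
            (fun y m m' h => heq y m m' h) y z ?_
          intro v
          refine ⟨d, ?_⟩
          have h4 : ((2 * g - 2) ^ d • ((F' y - 1) * (F' z - 1))) • v = 0 := by
            rw [hd, zero_smul]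
          rw [smul_assoc, mul_smul, sub_smul, sub_smul, one_smul, one_smul] at h4
          exact h4
        exact ⟨key _ _ h3.1, key _ _ h3.2⟩)
  have htfR : ∀ x : AddMonoid.End M, (2 * g - 2) • x = 0 → x = 0 := by
    intro x hx
    apply AddMonoidHom.ext
    intro m
    apply htf
    exact DFunLike.congr_fun hx m
  obtain ⟨hL, hRR⟩ := Univ.rels_tf (by omega) hR htfR F hX.1 hX.2
  exact ⟨Γ, c, a, F, σ, hH, fun _ => rfl, fun _ => rfl, hc, hcl, hR, e0, e1, ⟨_, _, hij⟩, hX.1,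
    hL, hRR⟩

theorem order_eq' {R : Type} [Ring R] (u : R) (h : (u - 1) * (u - 1) = 0) :
    addOrderOf (u - 1) = orderOf u := by
  have key : ∀ d : ℕ, u ^ d = 1 + d • (u - 1) := by
    intro d
    induction d with
    | zero => simp
    | succ d ih =>
      rw [pow_succ, ih]
      have e : u = 1 + (u - 1) := by abel
      calc (1 + d • (u - 1)) * u = (1 + d • (u - 1)) * (1 + (u - 1)) := by
            rw [← e]
        _ = 1 + d • (u - 1) + (u - 1) + d • ((u - 1) * (u - 1)) := by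
            rw [add_mul, one_mul, mul_add, mul_one, smul_mul_assoc]
            abel
        _ = 1 + (d + 1) • (u - 1) := by
            rw [h, smul_zero, add_zero, add_smul, one_smul, add_assoc]
  apply Nat.dvd_antisymm
  · rw [addOrderOf_dvd_iff_nsmul_eq_zero]
    have h1 := key (orderOf u)
    rw [pow_orderOf_eq_one] at h1
    exact left_eq_add.1 h1
  · rw [orderOf_dvd_iff_pow_eq_one]
    rw [key, addOrderOf_nsmul_eq_zero, add_zero]

/-- the kernel -/
theorem kernel3 (hg : 18 ≤ g) (htf : ∀ x : M, (2 * g - 2) • x = 0 → x = 0)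
    (f : Mod g →* AddMonoid.End M) (W : ℕ → AddSubgroup M) (hW0 : W 0 = ⊥)
    (hun : ∀ m, ∃ i, m ∈ W i) (hW : ∀ i, ∀ y : Mod g, ∀ m ∈ W i, f y m ∈ W i)
    (hfac : ∀ i, SmallFactor f (W i) (W (i + 1)))
    {T : Mod g} (hT : IsTwistAt g 0 T) :
    (∀ y ∈ Humphries g, f y = 1 ↔ y ∈ Level g (orderOf (f T))) ∧
      ∀ q : ℕ, (∀ x : M, q • x = 0) → orderOf (f T) ∣ q := by
  obtain ⟨Γ, c, a, F, σ, hH, hF, hσ, hc, hcl, hR, e0, e1, ⟨i0, j0, hij⟩, h0, hL, hRR⟩ :=
    data3 hg htf f W hW0 hun hW hfac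
  have hc0 : (c 0 : Mod g) = T := by
    rw [hc 0 (by omega), twist_eq_at (by omega) (by omega) _ (tt_zero (by omega)),
      twist_eq_at (by omega) (by omega) _ hT]
  have h4 : addOrderOf (F (c 0) - 1) = orderOf (f T) := by
    rw [order_eq' _ h0, hF, hc0]
  refine ⟨?_, ?_⟩
  · intro y hy
    have h3 := Univ.ker_iff (by omega) hR hcl σ e0 e1 i0 j0 hij F hL hRR ⟨y, hH hy⟩
    rw [h4] at h3
    have h5 : f y = 1 ↔ F ⟨y, hH hy⟩ = 1 := by rw [hF]
    have h6 : (∀ i j, ((orderOf (f T) : ℕ) : ℤ) ∣ (σ ⟨y, hH hy⟩ - 1) i j) ↔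
        y ∈ Level g (orderOf (f T)) := by
      rw [mem_Level, hσ]
    exact h5.trans (h3.trans h6)
  · intro q hq
    rw [← h4, addOrderOf_dvd_iff_nsmul_eq_zero]
    apply AddMonoidHom.ext
    intro m
    exact hq _

/-- the matrix units -/
theorem units3 (hg : 18 ≤ g) (htf : ∀ x : M, (2 * g - 2) • x = 0 → x = 0)
    (f : Mod g →* AddMonoid.End M) (W : ℕ → AddSubgroup M) (hW0 : W 0 = ⊥)
    (hun : ∀ m, ∃ i, m ∈ W i) (hW : ∀ i, ∀ y : Mod g, ∀ m ∈ W i, f y m ∈ W i)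
    (hfac : ∀ i, SmallFactor f (W i) (W (i + 1))) :
    ∃ e : Fin g ⊕ Fin g → Fin g ⊕ Fin g → AddMonoid.End M,
      (∀ i j, e i j ∈ Subring.closure {φ | ∃ y ∈ Humphries g, φ = f y}) ∧
      (∀ i j k l, e i j * e k l = if j = k then e i l else 0) ∧
      ∀ y ∈ Humphries g, f y = 1 + ∑ i, ∑ j, (homMat g y - 1) i j • e i j := by
  obtain ⟨Γ, c, a, F, σ, hH, hF, hσ, hc, hcl, hR, e0, e1, ⟨i0, j0, hij⟩, h0, hL, hRR⟩ :=
    data3 hg htf f W hW0 hun hW hfac
  obtain ⟨e, he1, he, h3⟩ := Univ.units2 (by omega) hR hcl σ (by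
    rw [Fintype.card_sum, Fintype.card_fin]
    omega) e0 e1 i0 j0 hij F hL hRR (Subring.closure {φ | ∃ y ∈ Humphries g, φ = f y}) (by
      intro j hj
      refine Subring.sub_mem _ (Subring.subset_closure ⟨tt g j, tt_mem hj, ?_⟩) (Subring.one_mem _)
      rw [hF, hc j hj])
  refine ⟨e, he1, he, ?_⟩
  intro y hy
  have h4 := h3 ⟨y, hH hy⟩
  rw [hF, hσ] at h4
  exact h4

end assembly

end Pool.Agent.U379.TR.Fi
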