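import Pool.Agent.U379.TR.Iota
import Pool.Agent.U379.TR.Fac3

set_option autoImplicit false

/-!
# Crossed homomorphisms with values in small modules
-/

namespace Pool.Agent.U379.TR.Fi

open Pool.Agent.H29R2.MG Pool.Agent.TH35.MG Pool.Agent.R352.MG Pool.Agent.R665.MGR
  Pool.Agent.N66.CQ Pool.Agent.U379.PI Pool.Agent.Helper58.EN
open Pool.Agent.Q290.MG (homMat homM hc_aut hc_gen)
open Pool.Agent.N66.TA

/-- `X` is a module with fewer than `binom (g - 5) 2` generators over a commutative ring, on which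
`Mod_g` acts by linear maps, or a module over `M_n(A)`, the action of `Mod_g` is by a homomorphism
to `GL_n(A)`, and `A` is locally nilpotent by PI of degree `k`, `n * ⌊k / 2⌋ < binom (g - 5) 2`. -/
def SmallMod (g : ℕ) {X : Type} [AddCommGroup X] (ρ : Mod g →* AddMonoid.End X) : Prop :=
  (∃ (A : Type) (_ : CommRing A) (_ : Module A X) (n : ℕ) (s : Fin n → X),
    n < (g - 5).choose 2 ∧ Submodule.span A (Set.range s) = ⊤ ∧
      ∀ (y : Mod g) (r : A) (x : X), ρ y (r • x) = r • ρ y x) ∨
  ∃ (A : Type) (_ : Ring A) (k n : ℕ) (_ : Module (Matrix (Fin n) (Fin n) A) X)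
    (τ : Mod g →* (Matrix (Fin n) (Fin n) A)ˣ), NilByPIdeg k A ∧ n * (k / 2) < (g - 5).choose 2 ∧
      ∀ (y : Mod g) (x : X), ρ y x = (τ y : Matrix (Fin n) (Fin n) A) • x

section perfect
variable {g : ℕ} {G : Type} [Group G] {c a : ℕ → G}

/-- the group of the relations is perfect -/
theorem perfect_of (hg : 3 ≤ g) (hR : GrpRel g c a)
    (hcl : Subgroup.closure ({x | ∃ j < 2 * g, x = c j} ∪ {x | ∃ m < g, x = a m}) = ⊤)
    {B : Type} [CommGroup B] (φ : G →* B) (y : G) : φ y = 1 := by
  have hcc : ∀ j < 2 * g, φ (c j) = φ (c 0) := by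
    intro j
    induction j with
    | zero => intro _; rfl
    | succ j ih =>
      intro hj
      have h1 := congrArg φ (hR.lick.braid j hj)
      simp only [map_mul] at h1
      have h2 : φ (c j) = φ (c (j + 1)) := by
        have h3 : φ (c j) * φ (c (j + 1)) * φ (c j) = φ (c j) * φ (c (j + 1)) * φ (c (j + 1)) := by
          rw [h1, mul_comm (φ (c (j + 1))) (φ (c j))]
        exact mul_left_cancel h3
      rw [← h2]
      exact ih (by omega)
  have haa : ∀ m < g, φ (a m) = φ (c 0) := by
    intro m hm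
    have h1 := congrArg φ (hR.lick.braidA m hm)
    simp only [map_mul] at h1
    rw [← hcc (2 * m + 1) (by omega)]
    have h3 : φ (c (2 * m + 1)) * φ (a m) * φ (a m) =
        φ (c (2 * m + 1)) * φ (a m) * φ (c (2 * m + 1)) := by
      rw [h1, mul_comm (φ (c (2 * m + 1))) (φ (a m))]
    exact mul_left_cancel h3
  have hTT : ∀ i, i + 1 < g → φ (TT c a i) = φ (c 0) := by
    intro i hi
    unfold TT
    rw [map_mul, map_mul, map_inv, mul_comm (φ (_ * _)), mul_inv_cancel_right,
      hcc (2 * i + 2) (by omega)]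
  obtain ⟨D, hD⟩ := hR.k 0 (by omega)
  have hDφ : φ D = φ (c 0) := by
    have h1 := congrArg φ hD.d1
    simp only [map_mul, map_inv] at h1
    have h2 : φ (Si c a (0 + 1)) * φ (Qi c a (0 + 1)) * φ D =
        φ (Si c a (0 + 1)) * φ (Qi c a (0 + 1)) * φ (TT c a 0) := by
      calc φ (Si c a (0 + 1)) * φ (Qi c a (0 + 1)) * φ D =
          φ (Si c a (0 + 1)) * φ D * φ (Qi c a (0 + 1)) := by
            rw [mul_assoc, mul_comm (φ (Qi c a (0 + 1))) (φ D), mul_assoc]
        _ = _ := by
            rw [h1, mul_comm (φ (Qi c a (0 + 1))) (φ (TT c a 0)), mul_inv_cancel_right, mul_assoc,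
              mul_comm (φ (TT c a 0))]
    rw [mul_left_cancel h2, hTT 0 (by omega)]
  have h0 : φ (c 0) = 1 := by
    have h1 := congrArg φ hD.lan
    unfold Li at h1
    simp only [map_mul, map_inv] at h1
    rw [hTT 0 (by omega), hTT (0 + 1) (by omega), hDφ, haa 0 (by omega), haa (0 + 1) (by omega),
      haa (0 + 2) (by omega), hcc (2 * 0 + 1) (by omega), mul_inv_cancel, one_mul, mul_one] at h1
    exact (mul_eq_left.1 h1.symm)
  have h1 : φ.ker = ⊤ := by
    rw [eq_top_iff, ← hcl, Subgroup.closure_le]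
    rintro x (⟨j, hj, rfl⟩ | ⟨m, hm, rfl⟩)
    · exact MonoidHom.mem_ker.2 ((hcc j hj).trans h0)
    · exact MonoidHom.mem_ker.2 ((haa m hm).trans h0)
  have h2 : y ∈ φ.ker := by rw [h1]; exact Subgroup.mem_top y
  exact MonoidHom.mem_ker.1 h2

end perfect

/-- The group `Γ`: it contains `Humphries g`, an element acting as `-1` on the homology, it is
perfect, and the extensions of trivial modules by small modules have matrix units. -/
theorem gamma_data {g : ℕ} (hg : 18 ≤ g) : ∃ Γ : Subgroup (Mod g), Humphries g ≤ Γ ∧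
    (∃ ι : Γ, homMat g ι = -1) ∧ (∀ (B : Type) [CommGroup B] (φ : Γ →* B) (y : Γ), φ y = 1) ∧
    ∀ (M : Type) [AddCommGroup M] (F : Γ →* AddMonoid.End M) (V : AddSubgroup M) (X : Type)
      [AddCommGroup X] (ρ : Mod g →* AddMonoid.End X) (π : V →+ X), SmallMod g ρ →
      (∀ x : M, (2 * g - 2) • x = 0 → x = 0) → (∀ y, ∀ m ∈ V, F y m ∈ V) →
      (∀ y m, F y m - m ∈ V) → (∀ m, π m = 0 → m = 0) →
      (∀ (y : Γ) (m m' : V), (m' : M) = F y m → π m' = ρ y (π m)) →
      ∃ e : Fin g ⊕ Fin g → Fin g ⊕ Fin g → AddMonoid.End M,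
        (∀ i j k l, e i j * e k l = if j = k then e i l else 0) ∧
        ∀ y : Γ, F y = 1 + ∑ i, ∑ j, (homMat g y - 1) i j • e i j := by
  obtain ⟨Γ, c, a, A', B, al, be, T, tau, hH, hc, ha, hcl, hR, r, hA0, hA1⟩ :=
    Lick.lick2 (g := g) (by omega)
  refine ⟨Γ, hH, exists_iota hc ha, fun B _ φ y => perfect_of (by omega) hR hcl φ y, ?_⟩
  intro M _ F V X _ ρX π hsmall htf hV hquot hπ heq
  let σ : Γ →* Matrix (Fin g ⊕ Fin g) (Fin g ⊕ Fin g) ℤ := (homMat g).comp Γ.subtype
  have s0 : σ (c 0) - 1 = Matrix.single (Sum.inl ⟨0, by omega⟩) (Sum.inr ⟨0, by omega⟩) 1 := by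
    refine homMat_at (by omega) ?_
    show IsTwistAt g 0 (c 0 : Mod g)
    rw [hc 0 (by omega)]
    exact tt_zero (by omega)
  have s1 : σ (a 1) - 1 = Matrix.single (Sum.inl ⟨1, by omega⟩) (Sum.inr ⟨1, by omega⟩) 1 :=
    homMat_at (by omega) (ha 1 (by omega))
  have e0 : (σ (c 0) - 1) * (σ (c 0) - 1) = 0 := by
    rw [s0, Matrix.single_mul_single_of_ne]
    simp
  have e1 : (σ (a 1) - 1) * (σ (c 0) - 1) = 0 := by
    rw [s0, s1, Matrix.single_mul_single_of_ne]
    simp
  have hij : (σ (c 0) - 1) (Sum.inl ⟨0, by omega⟩) (Sum.inr ⟨0, by omega⟩) = 1 := by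
    rw [s0, Matrix.single_apply_same]
  have hsq : Univ.Sq g c a := fun k _ hk =>
    Univ.group_sq hg hR hcl r hA0 hA1 σ e0 e1 _ _ hij hk
  have hsm : ∀ (K : Type) [Field K] (d : ℕ) (f : Γ →* Module.End K (Fin d → K)),
      d < (g - 5).choose 2 → (f (c 0) - 1) * (f (c 0) - 1) = 0 ∧
        (f (a 1) - 1) * (f (c 0) - 1) = 0 := by
    intro K _ d f' hd
    have h3 := Small.small r (by omega) f' (by
      rw [Module.finrank_fin_fun, show g - 3 - 2 = g - 5 by omega]
      exact hd)
    rw [hA0, hA1] at h3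
    exact h3
  let W : ℕ → AddSubgroup M := fun i => if i = 0 then ⊥ else if i = 1 then V else ⊤
  have hW : ∀ i, ∀ y : Γ, ∀ m ∈ W i, F y m ∈ W i := by
    intro i y m hm
    by_cases h0 : i = 0
    · subst h0
      have h1 : m = 0 := hm
      rw [h1, map_zero]
      exact AddSubgroup.zero_mem _
    · by_cases h1 : i = 1
      · subst h1
        exact hV y m hm
      · show F y m ∈ (if i = 0 then ⊥ else if i = 1 then V else ⊤ : AddSubgroup M)
        rw [if_neg h0, if_neg h1]
        exact AddSubgroup.mem_top _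
  have hX := Univ.chain_zero' hg hR hcl r hA0 hA1 σ e0 e1 _ _ hij htf F W rfl
    (fun m => ⟨2, AddSubgroup.mem_top m⟩) hW (by
      intro i
      rcases i with _ | _ | i
      · have hπ' : ∀ m : V, π m = 0 → (m : M) ∈ (⊥ : AddSubgroup M) := by
          intro m hm
          rw [hπ m hm]
          exact AddSubgroup.zero_mem _
        show Univ.Low g ⊥ V _ ∧ Univ.Low g ⊥ V _
        rcases hsmall with ⟨A, _, _, n, s, hn, hs, hlin⟩ | ⟨A, _, k, n, _, τ, hA, hn, hlin⟩
        · let τ : Mod g →* Module.End A X :=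
            { toFun := fun y =>
                { toFun := fun x => ρX y x
                  map_add' := fun x x' => map_add (ρX y) x x'
                  map_smul' := fun r x => hlin y r x }
              map_one' := by
                apply LinearMap.ext
                intro x
                show ρX 1 x = x
                rw [map_one]
                rfl
              map_mul' := fun y z => by
                apply LinearMap.ext
                intro x
                show ρX (y * z) x = ρX y (ρX z x)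
                rw [map_mul]
                rfl }
          have h3 := Univ.few' hsq r hg hA0 hA1 hcl hn s hs (τ.comp Γ.subtype)
          have key : ∀ y z : Γ, (∀ v, ∃ d : ℕ, (2 * g - 2) ^ d •
              (((τ.comp Γ.subtype) y - 1) * ((τ.comp Γ.subtype) z - 1)) v = 0) →
              Univ.Low g ⊥ V ((F y - 1) * (F z - 1)) := by
            intro y z h
            refine low_of F hV π hπ' (fun y v => τ y v)
              (fun y m m' h => heq y m m' h) y z ?_
            intro v
            obtain ⟨d, hd⟩ := h v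
            refine ⟨d, ?_⟩
            rw [Module.End.mul_apply, LinearMap.sub_apply, LinearMap.sub_apply,
              Module.End.one_apply, Module.End.one_apply] at hd
            exact hd
          exact ⟨key _ _ fun v => (h3 v).1, key _ _ fun v => (h3 v).2⟩
        · obtain ⟨J, hJ2, hJLN, hJ⟩ := hA.reps
          let F' : Γ →* Matrix (Fin n) (Fin n) A :=
            ((Units.coeHom (Matrix (Fin n) (Fin n) A)).comp τ).comp Γ.subtype
          have h3 := Univ.X_tors hg hR hcl r hA0 hA1 σ e0 e1 _ _ hij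
            (R := Matrix (Fin n) (Fin n) A) F' (matI n J) (matI_two n J hJ2) (LN_matrix n hJLN)
            (fun i j => pair_mem J hJ hn (c 0) (c 0) (fun K _ d f' hd => (hsm K d f' hd).1) F' i j)
            (fun i j => pair_mem J hJ hn (a 1) (c 0) (fun K _ d f' hd => (hsm K d f' hd).2) F' i j)
          have key : ∀ y z : Γ, (∃ d : ℕ, (2 * g - 2) ^ d • ((F' y - 1) * (F' z - 1)) = 0) →
              Univ.Low g ⊥ V ((F y - 1) * (F z - 1)) := by
            rintro y z ⟨d, hd⟩
            refine low_of F hV π hπ' (fun y v => F' y • v)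
              (fun y m m' h => (heq y m m' h).trans (hlin y _)) y z ?_
            intro v
            refine ⟨d, ?_⟩
            have h4 : ((2 * g - 2) ^ d • ((F' y - 1) * (F' z - 1))) • v = 0 := by
              rw [hd, zero_smul]
            rw [smul_assoc, mul_smul, sub_smul, sub_smul, one_smul, one_smul] at h4
            exact h4
          exact ⟨key _ _ h3.1, key _ _ h3.2⟩
      · show Univ.Low g V ⊤ _ ∧ Univ.Low g V ⊤ _
        have key : ∀ y z : Γ, Univ.Low g V ⊤ ((F y - 1) * (F z - 1)) := by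
          intro y z m _
          refine ⟨0, ?_⟩
          rw [pow_zero, one_smul]
          exact hquot y _
        exact ⟨key _ _, key _ _⟩
      · exact ⟨fun m _ => ⟨0, AddSubgroup.mem_top _⟩, fun m _ => ⟨0, AddSubgroup.mem_top _⟩⟩)
  have htfR : ∀ x : AddMonoid.End M, (2 * g - 2) • x = 0 → x = 0 := by
    intro x hx
    apply AddMonoidHom.ext
    intro m
    apply htf
    exact DFunLike.congr_fun hx m
  obtain ⟨hL, hRR⟩ := Univ.rels_tf (by omega) hR htfR F hX.1 hX.2
  obtain ⟨e, -, he, h3⟩ := Univ.units2 (by omega) hR hcl σ (by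
    rw [Fintype.card_sum, Fintype.card_fin]
    omega) e0 e1 _ _ hij F hL hRR ⊤ (fun _ _ => Subring.mem_top _)
  exact ⟨e, he, fun y => h3 y⟩

end Pool.Agent.U379.TR.Fi
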