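import Pool.Agent.U379.TR.Stm

/-!
# Project TA (helper66), leaf UZ (helper459): `u = 0` by the lantern relation
-/

set_option autoImplicit false

namespace Pool.Agent.U379.TR.UZ

open Pool.Agent.U379.TR
open Pool.Agent.N66.TA (cp Rw Qw Sw TT Si Qi Li KRel LickRel)

universe u

section lin

variable {K V : Type u} [CommRing K] [AddCommGroup V] [Module K V] {g : ℕ}
  {N A : ℕ → Module.End K V}

/-- the span of the images of `V1` -/
def W (g : ℕ) (N A : ℕ → Module.End K V) : Submodule K V :=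
  Submodule.span K {v | ∃ j < 2 * g, ∃ y ∈ V1 g N A, v = N j y}

theorem N_mem_V1 {j : ℕ} (hj : j < 2 * g) (v : V) : N j v ∈ V1 g N A :=
  Submodule.subset_span ⟨v, Or.inl ⟨j, hj, rfl⟩⟩

theorem A_mem_V1 {m : ℕ} (hm : m < g) (v : V) : A m v ∈ V1 g N A :=
  Submodule.subset_span ⟨v, Or.inr ⟨m, hm, rfl⟩⟩

theorem N_mem_W {j : ℕ} (hj : j < 2 * g) {y : V} (hy : y ∈ V1 g N A) : N j y ∈ W g N A :=
  Submodule.subset_span ⟨j, hj, y, hy, rfl⟩

theorem W_le : W g N A ≤ V1 g N A := by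
  refine Submodule.span_le.2 ?_
  rintro v ⟨j, hj, y, -, rfl⟩
  exact N_mem_V1 hj y

theorem N_W {j : ℕ} (hj : j < 2 * g) {w : V} (hw : w ∈ W g N A) : N j w ∈ W g N A :=
  N_mem_W hj (W_le hw)

theorem wl_mem {z : V} (hz : z ∈ V1 g N A) : ∀ j, j < 2 * g → wl N j z ∈ W g N A
  | 0, hj => N_mem_W hj hz
  | j + 1, hj => by
    have h1 := N_mem_W hj (W_le (wl_mem hz j (by omega)))
    change -(N (j + 1) (wl N j z)) ∈ W g N A
    exact neg_mem h1

theorem A_W (hb1 : ∀ y ∈ V1 g N A, Vec g N A (fun j => wl N j y) (fun m => alp N A m y))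
    (hb2 : ∀ j < 2 * g, ∀ y ∈ V1 g N A, ∃ z ∈ V1 g N A, N j y = wl N j z)
    (hal : ∀ y ∈ V1 g N A, ∀ m < g, alp N A m y = 0) {m : ℕ} (hm : m < g) {w : V}
    (hw : w ∈ W g N A) : A m w ∈ W g N A := by
  have h1 : W g N A ≤ (W g N A).comap (A m) := by
    refine Submodule.span_le.2 ?_
    rintro v ⟨j, hj, y, hy, rfl⟩
    obtain ⟨z, hz, h2⟩ := hb2 j hj y hy
    change A m (N j y) ∈ W g N A
    rw [h2]
    by_cases h3 : j = 2 * m + 1
    · have h4 : A m (wl N (2 * m + 1) z) =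
          alp N A m z + ∑ i ∈ Finset.range (m + 1), wl N (2 * i) z := (hb1 z hz).Ab m hm
      rw [h3, h4, hal z hz m hm, zero_add]
      refine sum_mem fun i hi => wl_mem hz _ ?_
      rw [Finset.mem_range] at hi
      omega
    · have h4 : A m (wl N j z) = 0 := (hb1 z hz).Aw m hm j hj h3
      rw [h4]
      exact zero_mem _
  exact h1 hw

/-- the operator `u` -/
def uo (N : ℕ → Module.End K V) : Module.End K V := N 0 + N 0 * (N 1 * N 0)

theorem uo_apply (v : V) : uo N v = N 0 v + N 0 (N 1 (N 0 v)) := rfl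

theorem N_sub (hO : ORel g N A) {j : ℕ} (hj : j < 2 * g) (v : V) :
    N j v - uo N v ∈ W g N A := by
  rcases Nat.lt_or_ge (j + 1) (2 * g) with h | h
  · have h1 := hO.uu j h v
    have h2 : N j v - uo N v = -(N j (N (j + 1) (N j v))) := by
      rw [uo_apply, ← h1]
      abel
    rw [h2]
    exact neg_mem (N_mem_W hj (N_mem_V1 h _))
  · obtain ⟨k, rfl⟩ : ∃ k, j = k + 1 := ⟨j - 1, by omega⟩
    have h1 := hO.br k hj v
    have h1' := hO.uu k hj v
    have h2 : N (k + 1) v - uo N v = -(N (k + 1) (N k (N (k + 1) v))) := by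
      rw [uo_apply, ← h1', h1]
      abel
    rw [h2]
    exact neg_mem (N_mem_W hj (N_mem_V1 (by omega) _))

theorem A_sub (hO : ORel g N A)
    (hb1 : ∀ y ∈ V1 g N A, Vec g N A (fun j => wl N j y) (fun m => alp N A m y))
    (hb2 : ∀ j < 2 * g, ∀ y ∈ V1 g N A, ∃ z ∈ V1 g N A, N j y = wl N j z)
    (hal : ∀ y ∈ V1 g N A, ∀ m < g, alp N A m y = 0) {m : ℕ} (hm : m < g) (v : V) :
    A m v - uo N v ∈ W g N A := by
  have h1 := hO.uuA m hm v
  have h2 : A m v - uo N v = -(A m (N (2 * m + 1) (A m v))) := by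
    rw [uo_apply, ← h1]
    abel
  rw [h2]
  exact neg_mem (A_W hb1 hb2 hal hm (N_mem_W (by omega) (A_mem_V1 hm _)))

/-! ### Invariant vectors in `W` -/

theorem wl_zero_all (hb1 : ∀ y ∈ V1 g N A, Vec g N A (fun j => wl N j y) (fun m => alp N A m y))
    {z : V} (hz : z ∈ V1 g N A) {i : ℕ} (hi : i < 2 * g) (h : wl N i z = 0) :
    ∀ j < 2 * g, wl N j z = 0 := by
  have hV := hb1 z hz
  -- down to zero
  have h0 : wl N 0 z = 0 := by
    induction i with
    | zero => exact h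
    | succ i ih =>
      have h1 : N i (wl N (i + 1) z) = wl N i z := hV.dn i hi
      rw [h, map_zero] at h1
      exact ih (by omega) h1.symm
  intro j
  induction j with
  | zero => exact fun _ => h0
  | succ j ih =>
    intro hj
    have h1 : N (j + 1) (wl N j z) = -wl N (j + 1) z := hV.up j hj
    rw [ih (by omega), map_zero] at h1
    exact neg_eq_zero.1 h1.symm

theorem W_rep (hb2 : ∀ j < 2 * g, ∀ y ∈ V1 g N A, ∃ z ∈ V1 g N A, N j y = wl N j z) {v : V}
    (hv : v ∈ W g N A) : ∃ y : ℕ → V, (∀ j, y j ∈ V1 g N A) ∧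
      v = ∑ j ∈ Finset.range (2 * g), wl N j (y j) := by
  classical
  induction hv using Submodule.span_induction with
  | mem v hv =>
    obtain ⟨j, hj, y, hy, rfl⟩ := hv
    obtain ⟨z, hz, h2⟩ := hb2 j hj y hy
    refine ⟨fun i => if i = j then z else 0, fun i => ?_, ?_⟩
    · change (if i = j then z else 0) ∈ V1 g N A
      by_cases h : i = j
      · rw [if_pos h]
        exact hz
      · rw [if_neg h]
        exact zero_mem _
    · rw [h2, Finset.sum_eq_single j]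
      · change wl N j z = wl N j (if j = j then z else 0)
        rw [if_pos rfl]
      · intro i _ hi
        change wl N i (if i = j then z else 0) = 0
        rw [if_neg hi, map_zero]
      · intro h
        exact absurd (Finset.mem_range.2 hj) h
  | zero => exact ⟨fun _ => 0, fun _ => zero_mem _, by simp⟩
  | add v w _ _ ihv ihw =>
    obtain ⟨y, hy, rfl⟩ := ihv
    obtain ⟨z, hz, rfl⟩ := ihw
    refine ⟨fun j => y j + z j, fun j => add_mem (hy j) (hz j), ?_⟩
    rw [← Finset.sum_add_distrib]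
    exact Finset.sum_congr rfl fun j _ => (map_add _ _ _).symm
  | smul r v _ ihv =>
    obtain ⟨y, hy, rfl⟩ := ihv
    refine ⟨fun j => r • y j, fun j => Submodule.smul_mem _ _ (hy j), ?_⟩
    rw [Finset.smul_sum]
    exact Finset.sum_congr rfl fun j _ => (map_smul _ _ _).symm

theorem W_inf (hb1 : ∀ y ∈ V1 g N A, Vec g N A (fun j => wl N j y) (fun m => alp N A m y))
    (hb2 : ∀ j < 2 * g, ∀ y ∈ V1 g N A, ∃ z ∈ V1 g N A, N j y = wl N j z) {v : V}
    (hv : v ∈ W g N A) (h0 : ∀ j < 2 * g, N j v = 0) : v = 0 := by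
  classical
  obtain ⟨y, hy, hvy⟩ := W_rep hb2 hv
  -- the shifted sequence
  obtain ⟨t, ht0, hts, htm⟩ : ∃ t : ℕ → V, t 0 = 0 ∧
      (∀ j, t (j + 1) = if j < 2 * g then y j else 0) ∧ ∀ j, t j ∈ V1 g N A := by
    refine ⟨fun k => Nat.casesOn k 0 (fun j => if j < 2 * g then y j else 0), rfl, fun j => rfl,
      fun j => ?_⟩
    cases j with
    | zero => exact zero_mem _
    | succ j =>
      change (if j < 2 * g then y j else 0) ∈ V1 g N A
      split_ifs
      · exact hy j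
      · exact zero_mem _
  have hNi : ∀ i < 2 * g, wl N i (t (i + 2) - t i) = 0 := by
    intro i hi
    have h1 := h0 i hi
    rw [hvy, map_sum] at h1
    have h2 : ∀ j ∈ Finset.range (2 * g), N i (wl N j (y j)) =
        (if j = i + 1 then wl N i (y j) else 0) - (if j + 1 = i then wl N i (y j) else 0) := by
      intro j hj
      have hj' : j < 2 * g := Finset.mem_range.1 hj
      have hV := hb1 (y j) (hy j)
      by_cases h3 : j = i + 1
      · rw [if_pos h3, if_neg (by omega), sub_zero, h3]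
        have h4 : N i (wl N (i + 1) (y j)) = wl N i (y j) := hV.dn i (by omega)
        rw [h3] at h4
        exact h4
      · rw [if_neg h3]
        by_cases h5 : j + 1 = i
        · rw [if_pos h5, zero_sub, ← h5]
          exact hV.up j (by omega)
        · rw [if_neg h5, sub_zero]
          exact hV.fr i hi j hj' (by omega) h3
    rw [Finset.sum_congr rfl h2, Finset.sum_sub_distrib, Finset.sum_ite_eq'] at h1
    rw [map_sub, hts]
    have e1 : wl N i (if i + 1 < 2 * g then y (i + 1) else 0) =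
        if i + 1 ∈ Finset.range (2 * g) then wl N i (y (i + 1)) else 0 := by
      by_cases h : i + 1 < 2 * g
      · rw [if_pos h, if_pos (Finset.mem_range.2 h)]
      · rw [if_neg h, if_neg (fun h' => h (Finset.mem_range.1 h')), map_zero]
    rw [e1]
    have e2 : wl N i (t i) =
        ∑ j ∈ Finset.range (2 * g), if j + 1 = i then wl N i (y j) else 0 := by
      cases i with
      | zero =>
        rw [ht0, map_zero]
        symm
        exact Finset.sum_eq_zero fun j _ => if_neg (by omega)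
      | succ i =>
        rw [hts, if_pos (by omega), Finset.sum_eq_single i]
        · rw [if_pos rfl]
        · intro j _ hj
          rw [if_neg (by omega)]
        · intro h
          exact absurd (Finset.mem_range.2 (by omega)) h
    rw [e2]
    exact h1
  have hZ : ∀ i < 2 * g, ∀ j < 2 * g, wl N j (t (i + 2)) = wl N j (t i) := by
    intro i hi j hj
    have h1 := wl_zero_all hb1 (sub_mem (htm (i + 2)) (htm i)) hi (hNi i hi) j hj
    rw [map_sub] at h1
    exact sub_eq_zero.1 h1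
  have heven : ∀ k, 2 * k ≤ 2 * g → ∀ j < 2 * g, wl N j (t (2 * k)) = 0 := by
    intro k
    induction k with
    | zero =>
      intro _ j _
      rw [mul_zero, ht0, map_zero]
    | succ k ih =>
      intro hk j hj
      have h1 := hZ (2 * k) (by omega) j hj
      rw [ih (by omega) j hj] at h1
      exact h1
  have hodd : ∀ k l, 2 * k + l = 2 * g + 1 → ∀ j < 2 * g, wl N j (t l) = 0 := by
    intro k
    induction k with
    | zero =>
      intro l hl j _
      have h1 : l = 2 * g + 1 := by omega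
      rw [h1, hts, if_neg (by omega), map_zero]
    | succ k ih =>
      intro l hl j hj
      have h1 := hZ l (by omega) j hj
      rw [← h1]
      exact ih (l + 2) (by omega) j hj
  rw [hvy]
  refine Finset.sum_eq_zero fun j hj => ?_
  have hj' : j < 2 * g := Finset.mem_range.1 hj
  have h1 : t (j + 1) = y j := by rw [hts, if_pos hj']
  rw [← h1]
  obtain ⟨k, hk | hk⟩ := Nat.even_or_odd' (j + 1)
  · rw [hk]
    have := heven k (by omega) j hj'
    exact this
  · exact hodd (g - k) (j + 1) (by omega) j hj'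

/-! ### Operators which are `1 + n u` modulo `W` -/

/-- `f` fixes `V0`, preserves `W` and is `1 + n u` modulo `W` -/
def Gd (Z W : Submodule K V) (u f : Module.End K V) (n : ℤ) : Prop :=
  (∀ v ∈ Z, f v = v) ∧ (∀ w ∈ W, f w ∈ W) ∧ ∀ v, f v - v - n • u v ∈ W

theorem Gd.mul {Z W : Submodule K V} {u f f' : Module.End K V} {n n' : ℤ} (hu : ∀ v, u v ∈ Z)
    (h : Gd Z W u f n) (h' : Gd Z W u f' n') : Gd Z W u (f * f') (n + n') := by
  refine ⟨fun v hv => ?_, fun w hw => h.2.1 _ (h'.2.1 w hw), fun v => ?_⟩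
  · rw [Module.End.mul_apply, h'.1 v hv, h.1 v hv]
  · have h1 := h.2.1 _ (h'.2.2 v)
    rw [map_sub, map_sub, map_zsmul, h.1 _ (hu v)] at h1
    have h2 := add_mem h1 (h.2.2 v)
    have h3 : (f * f') v - v - (n + n') • u v =
        f (f' v) - f v - n' • u v + (f v - v - n • u v) := by
      rw [Module.End.mul_apply, add_smul]
      abel
    rw [h3]
    exact h2

/-- the same for an element of the group and its inverse -/
def G2 {G : Type} [Group G] (ρ : G →* Module.End K V) (Z W : Submodule K V) (u : Module.End K V)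
    (x : G) (n : ℤ) : Prop := Gd Z W u (ρ x) n ∧ Gd Z W u (ρ x⁻¹) (-n)

variable {G : Type} [Group G] {ρ : G →* Module.End K V} {Z W' : Submodule K V}
  {u' : Module.End K V}

theorem G2.mul {x y : G} {n m : ℤ} (hu : ∀ v, u' v ∈ Z) (h : G2 ρ Z W' u' x n)
    (h' : G2 ρ Z W' u' y m) : G2 ρ Z W' u' (x * y) (n + m) := by
  refine ⟨?_, ?_⟩
  · rw [map_mul]
    exact Gd.mul hu h.1 h'.1
  · rw [mul_inv_rev, map_mul, neg_add, add_comm (-n)]
    exact Gd.mul hu h'.2 h.2

theorem G2.inv {x : G} {n : ℤ} (h : G2 ρ Z W' u' x n) : G2 ρ Z W' u' x⁻¹ (-n) := by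
  refine ⟨h.2, ?_⟩
  rw [inv_inv, neg_neg]
  exact h.1

theorem G2.eq {x : G} {n m : ℤ} (h : G2 ρ Z W' u' x n) (e : n = m) : G2 ρ Z W' u' x m := e ▸ h

/-- generators -/
theorem G2_gen {x : G} (hsq : ∀ v, (ρ x - 1) ((ρ x - 1) v) = 0) (hZ : ∀ v ∈ Z, (ρ x - 1) v = 0)
    (hW : ∀ w ∈ W', (ρ x - 1) w ∈ W') (hs : ∀ v, (ρ x - 1) v - u' v ∈ W') :
    G2 ρ Z W' u' x 1 := by
  have h1 : ∀ v, ρ x v = v + (ρ x - 1) v := by
    intro v
    rw [LinearMap.sub_apply, Module.End.one_apply]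
    abel
  have h2 : ∀ v, ρ x⁻¹ v = v - (ρ x - 1) v := by
    intro v
    have h3 : ρ x (v - (ρ x - 1) v) = v := by
      rw [h1, map_sub (ρ x - 1), hsq]
      abel
    have h4 : ρ x⁻¹ (ρ x (v - (ρ x - 1) v)) = v - (ρ x - 1) v := by
      rw [← Module.End.mul_apply, ← map_mul, inv_mul_cancel, map_one, Module.End.one_apply]
    rw [h3] at h4
    exact h4
  refine ⟨⟨fun v hv => ?_, fun w hw => ?_, fun v => ?_⟩, fun v hv => ?_, fun w hw => ?_,
    fun v => ?_⟩
  · rw [h1, hZ v hv, add_zero]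
  · rw [h1]
    exact add_mem hw (hW w hw)
  · rw [h1, one_smul, add_sub_cancel_left]
    exact hs v
  · rw [h2, hZ v hv, sub_zero]
  · rw [h2]
    exact sub_mem hw (hW w hw)
  · rw [h2, neg_smul, one_smul]
    have h3 := neg_mem (hs v)
    have h4 : v - (ρ x - 1) v - v - -u' v = -((ρ x - 1) v - u' v) := by abel
    rw [h4]
    exact h3

theorem G2_Rw {x y : G} (hu : ∀ v, u' v ∈ Z) (hx : G2 ρ Z W' u' x 1) (hy : G2 ρ Z W' u' y 1) :
    G2 ρ Z W' u' (Rw x y) 3 :=
  ((hx.mul hu hy).mul hu hx).eq (by norm_num)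

theorem G2_Qw {x y : G} (hu : ∀ v, u' v ∈ Z) (hx : G2 ρ Z W' u' x 1) (hy : G2 ρ Z W' u' y 1) :
    G2 ρ Z W' u' (Qw x y) 12 := by
  have h1 := G2_Rw hu hx hy
  have h2 := h1.mul hu h1
  exact (h2.mul hu h2).eq (by norm_num)

theorem G2_Sw {x y z y' x' : G} (hu : ∀ v, u' v ∈ Z) (hx : G2 ρ Z W' u' x 1)
    (hy : G2 ρ Z W' u' y 1) (hz : G2 ρ Z W' u' z 1) (hy' : G2 ρ Z W' u' y' 1)
    (hx' : G2 ρ Z W' u' x' 1) : G2 ρ Z W' u' (Sw x y z y' x') 15 := by
  have h2 := hx.mul hu hy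
  have h3 := h2.mul hu hz
  have h4 := h3.mul hu hy'
  have h5 := h4.mul hu hx'
  exact ((((h5.mul hu h4).mul hu h3).mul hu h2).mul hu hx).eq (by norm_num)

theorem G2_TT {c a : ℕ → G} {g : ℕ} (hu : ∀ v, u' v ∈ Z) (hc : ∀ j < 2 * g, G2 ρ Z W' u' (c j) 1)
    (ha : ∀ m < g, G2 ρ Z W' u' (a m) 1) {i : ℕ} (hi : i + 1 < g) :
    G2 ρ Z W' u' (TT c a i) 1 := by
  have h1 := G2_Rw hu (ha i (by omega)) (hc (2 * i + 1) (by omega))
  have h2 := h1.mul hu h1
  exact ((h2.mul hu (hc (2 * i + 2) (by omega))).mul hu h2.inv).eq (by norm_num)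

theorem G2_Si {c a : ℕ → G} {g : ℕ} (hu : ∀ v, u' v ∈ Z) (hc : ∀ j < 2 * g, G2 ρ Z W' u' (c j) 1)
    (ha : ∀ m < g, G2 ρ Z W' u' (a m) 1) {i : ℕ} (hi : i + 1 < g) :
    G2 ρ Z W' u' (Si c a i) 15 :=
  G2_Sw hu (ha i (by omega)) (hc _ (by omega)) (G2_TT hu hc ha hi) (hc _ (by omega))
    (ha _ (by omega))

theorem G2_Qi {c a : ℕ → G} {g : ℕ} (hu : ∀ v, u' v ∈ Z) (hc : ∀ j < 2 * g, G2 ρ Z W' u' (c j) 1)
    (ha : ∀ m < g, G2 ρ Z W' u' (a m) 1) {i : ℕ} (hi : i < g) :
    G2 ρ Z W' u' (Qi c a i) 12 :=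
  G2_Qw hu (ha i (by omega)) (hc _ (by omega))

theorem u_mem {c a : ℕ → G} {D : G} {g : ℕ} (hg : 3 ≤ g) (hu : ∀ v, u' v ∈ Z)
    (hc : ∀ j < 2 * g, G2 ρ Z W' u' (c j) 1) (ha : ∀ m < g, G2 ρ Z W' u' (a m) 1)
    (hK : KRel c a 0 D) (v : V) : u' v ∈ W' := by
  have hT0 := G2_TT hu hc ha (i := 0) (by omega)
  have hT1 := G2_TT hu hc ha (i := 1) (by omega)
  have hS := G2_Si hu hc ha (i := 1) (by omega)
  have hQ := G2_Qi hu hc ha (i := 1) (by omega)
  have hD : G2 ρ Z W' u' D 1 := by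
    have h1 := mul_right_cancel hK.d1
    have h2 : D = (Si c a (0 + 1))⁻¹ *
        (Qi c a (0 + 1) * TT c a 0 * (Qi c a (0 + 1))⁻¹ * Si c a (0 + 1)) := by
      rw [← h1, inv_mul_cancel_left]
    rw [h2]
    exact (hS.inv.mul hu (((hQ.mul hu hT0).mul hu hQ.inv).mul hu hS)).eq (by norm_num)
  have hA := ((ha 0 (by omega)).mul hu (ha 1 (by omega))).mul hu (ha 2 (by omega))
  have hL : G2 ρ Z W' u' (Li c a 0 D) 0 :=
    (((hT0.mul hu hT1).mul hu hD).mul hu hA.inv).eq (by norm_num)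
  have hc1 := hc (2 * 0 + 1) (by omega)
  have h1 := ((hL.mul hu hc1).mul hu hL).1.2.2 v
  have h2 := ((hc1.mul hu hL).mul hu hc1).1.2.2 v
  rw [hK.lan] at h1
  have h3 := sub_mem h1 h2
  have h4 : ρ (c (2 * 0 + 1) * Li c a 0 D * c (2 * 0 + 1)) v - v - (0 + 1 + 0 : ℤ) • u' v -
      (ρ (c (2 * 0 + 1) * Li c a 0 D * c (2 * 0 + 1)) v - v - (1 + 0 + 1 : ℤ) • u' v) = u' v := by
    rw [zero_add, add_zero, add_smul, one_smul]
    abel
  rw [h4] at h3
  exact h3

end lin

/-- **Leaf UZ.** -/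
theorem t_UZ : S_UZ.{u} := by
  intro g G _ K V _ _ _ c a ρ D hg hBAS hO hK hal v
  obtain ⟨hb1, hb2, hb3, hb4, hb5⟩ := hBAS g K V (op ρ c) (op ρ a) hg hO
  have hu : ∀ v, uo (op ρ c) v ∈ V0 g (op ρ c) (op ρ a) := hb3
  have hc : ∀ j < 2 * g, G2 ρ (V0 g (op ρ c) (op ρ a)) (W g (op ρ c) (op ρ a)) (uo (op ρ c))
      (c j) 1 := fun j hj =>
    G2_gen (hO.sq j hj) (fun v hv => hv.1 j hj) (fun w hw => N_W hj hw)
      (fun v => N_sub hO hj v)
  have ha : ∀ m < g, G2 ρ (V0 g (op ρ c) (op ρ a)) (W g (op ρ c) (op ρ a)) (uo (op ρ c))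
      (a m) 1 := fun m hm =>
    G2_gen (hO.sqA m hm) (fun v hv => hv.2 m hm) (fun w hw => A_W hb1 hb2 hal hm hw)
      (fun v => A_sub hO hb1 hb2 hal hm v)
  exact W_inf hb1 hb2 (u_mem hg hu hc ha hK v) (fun j hj => (hu v).1 j hj)

end Pool.Agent.U379.TR.UZ
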