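import Pool.Agent.U379.TR.OREL
import Pool.Agent.U379.TR.BAS
import Pool.Agent.U379.TR.CLO
import Pool.Agent.U379.TR.DD
import Pool.Agent.U379.TR.UZ
import Pool.Agent.N66.TA.Abs

set_option autoImplicit false

/-!
# The relations in an algebra

Let `k` be a commutative ring in which `2 g - 2` is invertible, `R` a `k`-algebra and `ρ : G → R` a
homomorphism with `(ρ (c 0) - 1)^2 = 0` and `(ρ (a 1) - 1) (ρ (c 0) - 1) = 0`.
-/

namespace Pool.Agent.U379.TR

open Pool.Agent.N66.TA (cp Rw Qw Sw TT Si Qi Li KRel LickRel GrpRel)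

section mod
variable {g : ℕ} {G : Type} [Group G] {K V : Type} [CommRing K] [AddCommGroup V] [Module K V]
  {c a : ℕ → G}

/-- `α_m = 0` -/
theorem alp_zero (hg : 3 ≤ g) (hR : GrpRel g c a) (h2 : IsUnit ((2 * g - 2 : ℕ) : K))
    (ρ : G →* Module.End K V)
    (h0 : (ρ (c 0) - 1) * (ρ (c 0) - 1) = 0) (h1 : (ρ (a 1) - 1) * (ρ (c 0) - 1) = 0) :
    ∀ y ∈ V1 g (op ρ c) (op ρ a), ∀ m < g, alp (op ρ c) (op ρ a) m y = 0 := by
  have hO := OREL.t_OREL g G K V c a ρ hg hR.lick h0 h1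
  intro y hy
  have hv := (BAS.t_BAS g K V _ _ hg hO).1 y hy
  set al : ℕ → V := fun m => alp (op ρ c) (op ρ a) m y with hal
  have hd : ∀ i, i + 2 < g → al (i + 2) - al (i + 1) = al (i + 1) - al i := by
    intro i hi
    obtain ⟨D, hD⟩ := hR.k i hi
    exact DD.t_DD g G K V c a ρ _ al i D hi hv hD
  have hm : ∀ i, i + 1 < g → al i = (i : K) • al 1 ∧ al (i + 1) = ((i + 1 : ℕ) : K) • al 1 := by
    intro i
    induction i with
    | zero =>
      intro _
      have h3 : al 0 = 0 := hv.al0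
      refine ⟨by rw [h3, Nat.cast_zero, zero_smul], by rw [zero_add, Nat.cast_one, one_smul]⟩
    | succ i ih =>
      intro hi
      obtain ⟨h3, h4⟩ := ih (by omega)
      refine ⟨h4, ?_⟩
      have h5 := hd i (by omega)
      rw [h3, h4] at h5
      have h6 : al (i + 1 + 1) = ((i + 1 : ℕ) : K) • al 1 + (((i + 1 : ℕ) : K) • al 1 -
          (i : K) • al 1) := by rw [← h5]; abel
      rw [h6, ← sub_smul, ← add_smul]
      congr 1
      push_cast
      ring
  have hc := CLO.t_CLO g G K V c a ρ _ al (by omega) hv hR.clo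
  have h3 := (hm (g - 2) (by omega)).2
  rw [show g - 2 + 1 = g - 1 by omega] at h3
  rw [h3, ← add_smul, ← Nat.cast_add, show g - 1 + (g - 1) = 2 * g - 2 by omega] at hc
  have h4 : al 1 = 0 := by
    obtain ⟨u, hu⟩ := h2
    rw [← hu] at hc
    have h5 := congrArg (fun z => (↑u⁻¹ : K) • z) hc
    simpa [smul_smul] using h5
  intro m hmg
  show al m = 0
  rcases Nat.eq_zero_or_pos m with rfl | hpos
  · exact hv.al0
  · obtain ⟨i, rfl⟩ : ∃ i, m = i + 1 := ⟨m - 1, by omega⟩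
    rw [(hm i hmg).2, h4, smul_zero]

end mod

section alg
variable {R : Type} [Ring R]

/-- `W_0 = N_0`, `W_{j+1} = - N_{j+1} W_j` -/
def Wd (N : ℕ → R) : ℕ → R
  | 0 => N 0
  | j + 1 => -(N (j + 1) * Wd N j)

/-- the relations of left multiplication -/
structure LRel (g : ℕ) (N A : ℕ → R) : Prop where
  sq : ∀ j < 2 * g, N j * N j = 0
  sqA : ∀ m < g, A m * A m = 0
  z0 : N 0 + N 0 * (N 1 * N 0) = 0
  nn : ∀ j, j + 1 < 2 * g → N (j + 1) + N (j + 1) * (N j * N (j + 1)) = 0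
  aa : ∀ m < g, A m + A m * (N (2 * m + 1) * A m) = 0
  dn : ∀ j, j + 1 < 2 * g → N j * Wd N (j + 1) = Wd N j
  fr : ∀ i < 2 * g, ∀ j < 2 * g, i ≠ j + 1 → j ≠ i + 1 → N i * Wd N j = 0
  Aw : ∀ m < g, ∀ j < 2 * g, j ≠ 2 * m + 1 → A m * Wd N j = 0
  Ab : ∀ m < g, A m * Wd N (2 * m + 1) = ∑ i ∈ Finset.range (m + 1), Wd N (2 * i)

variable {g : ℕ} {G : Type} [Group G] {k : Type} [CommRing k] [Algebra k R] {c a : ℕ → G}

theorem left_rel (hg : 3 ≤ g) (hR : GrpRel g c a) (h2 : IsUnit ((2 * g - 2 : ℕ) : k))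
    (ρ : G →* R) (h0 : (ρ (c 0) - 1) * (ρ (c 0) - 1) = 0)
    (h1 : (ρ (a 1) - 1) * (ρ (c 0) - 1) = 0) :
    LRel g (fun j => ρ (c j) - 1) (fun m => ρ (a m) - 1) := by
  set N : ℕ → R := fun j => ρ (c j) - 1 with hN
  set A : ℕ → R := fun m => ρ (a m) - 1 with hA
  let lam : R →+* Module.End k R := (Algebra.lmul k R : R →ₐ[k] Module.End k R)
  have hlam : ∀ x y : R, lam x y = x * y := fun x y => rfl
  let ρL : G →* Module.End k R := (lam : R →* Module.End k R).comp ρ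
  have e0 : ∀ (s : ℕ → G) (j : ℕ), op ρL s j = lam (ρ (s j) - 1) := by
    intro s j
    rw [map_sub, map_one]
    rfl
  have e1 : ∀ (s : ℕ → G) (j : ℕ) (v : R), op ρL s j v = (ρ (s j) - 1) * v := by
    intro s j v
    rw [e0, hlam]
  have h0' : (ρL (c 0) - 1) * (ρL (c 0) - 1) = 0 := by
    have : ρL (c 0) - 1 = lam (ρ (c 0) - 1) := e0 c 0
    rw [this, ← map_mul, h0, map_zero]
  have h1' : (ρL (a 1) - 1) * (ρL (c 0) - 1) = 0 := by
    have e2 : ρL (c 0) - 1 = lam (ρ (c 0) - 1) := e0 c 0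
    have e3 : ρL (a 1) - 1 = lam (ρ (a 1) - 1) := e0 a 1
    rw [e2, e3, ← map_mul, h1, map_zero]
  have hO := OREL.t_OREL g G k R c a ρL hg hR.lick h0' h1'
  have hal := alp_zero hg hR h2 ρL h0' h1'
  obtain ⟨D, hD⟩ := hR.k 0 (by omega)
  have hZ := UZ.t_UZ g G k R c a ρL D hg BAS.t_BAS hO hD hal
  have hv := (BAS.t_BAS g k R _ _ hg hO).1
  -- the operators `wl` are left multiplications
  have hwl : ∀ j (v : R), wl (op ρL c) j v = Wd N j * v := by
    intro j
    induction j with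
    | zero => intro v; exact e1 c 0 v
    | succ j ih =>
      intro v
      show -(op ρL c (j + 1) (wl (op ρL c) j v)) = -(N (j + 1) * Wd N j) * v
      rw [ih, e1, neg_mul, mul_assoc]
  have hz0 : N 0 + N 0 * (N 1 * N 0) = 0 := by
    have h3 := hZ 1
    rw [e1, e1, e1, mul_one] at h3
    exact h3
  -- `w_j = w_j w_1`
  have hw1 : Wd N 1 = -(N 1 * N 0) := rfl
  have hrep : ∀ j, Wd N j * Wd N 1 = Wd N j := by
    intro j
    induction j with
    | zero =>
      show N 0 * Wd N 1 = N 0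
      rw [hw1, mul_neg]
      exact (eq_neg_of_add_eq_zero_left hz0).symm
    | succ j ih =>
      show -(N (j + 1) * Wd N j) * Wd N 1 = -(N (j + 1) * Wd N j)
      rw [neg_mul, mul_assoc, ih]
  have hmem : Wd N 1 ∈ V1 g (op ρL c) (op ρL a) := by
    have h3 : (-(N 1 * N 0) : R) = op ρL c 1 (-(N 0)) := by
      rw [e1, mul_neg]
    rw [hw1, h3]
    exact Submodule.subset_span ⟨_, Or.inl ⟨1, by omega, rfl⟩⟩
  have hvec := hv _ hmem
  have hsq : ∀ j < 2 * g, N j * N j = 0 := by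
    intro j hj
    have h3 := hO.sq j hj 1
    rw [e1, e1, mul_one] at h3
    exact h3
  have hnn : ∀ j, j + 1 < 2 * g → N j + N j * (N (j + 1) * N j) = 0 ∧
      N (j + 1) + N (j + 1) * (N j * N (j + 1)) = 0 := by
    intro j hj
    have h3 := hO.uu j hj 1
    have h4 := hO.br j hj 1
    simp only [e1, mul_one] at h3 h4
    have h5 : N j + N j * (N (j + 1) * N j) = 0 := h3.trans hz0
    exact ⟨h5, h4.symm.trans h5⟩
  refine ⟨hsq, ?_, hz0, fun j hj => (hnn j hj).2, ?_, ?_, ?_, ?_, ?_⟩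
  · intro m hm
    have h3 := hO.sqA m hm 1
    rw [e1, e1, mul_one] at h3
    exact h3
  · intro m hm
    have h3 := hO.uuA m hm 1
    simp only [e1, mul_one] at h3
    exact h3.trans hz0
  · intro j hj
    have h3 := hvec.dn j hj
    simp only [hwl, e1, hrep] at h3
    exact h3
  · intro i hi j hj h3 h4
    have h5 := hvec.fr i hi j hj h3 h4
    simp only [hwl, e1, hrep] at h5
    exact h5
  · intro m hm j hj h3
    have h5 := hvec.Aw m hm j hj h3
    simp only [hwl, e1, hrep] at h5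
    exact h5
  · intro m hm
    have h5 := hvec.Ab m hm
    rw [hal _ hmem m hm, zero_add] at h5
    simp only [hwl, e1, hrep] at h5
    exact h5

/-- `W'_0 = - N_0`, `W'_{j+1} = W'_j N_{j+1}` -/
def Wd' (N : ℕ → R) : ℕ → R
  | 0 => -N 0
  | j + 1 => Wd' N j * N (j + 1)

/-- the relations of right multiplication -/
structure RRel (g : ℕ) (N A : ℕ → R) : Prop where
  dn : ∀ j, j + 1 < 2 * g → Wd' N (j + 1) * N j = -Wd' N j
  fr : ∀ i < 2 * g, ∀ j < 2 * g, i ≠ j + 1 → j ≠ i + 1 → Wd' N j * N i = 0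
  Ab : ∀ m < g, Wd' N (2 * m + 1) * A m = -∑ i ∈ Finset.range (m + 1), Wd' N (2 * i)

open MulOpposite (op_one op_sub op_mul op_neg op_zero op_injective) in
theorem right_rel (hg : 3 ≤ g) (hR : GrpRel g c a) (h2 : IsUnit ((2 * g - 2 : ℕ) : k))
    (ρ : G →* R) (h0 : (ρ (c 0) - 1) * (ρ (c 0) - 1) = 0)
    (h1 : (ρ (a 1) - 1) * (ρ (c 0) - 1) = 0) :
    RRel g (fun j => ρ (c j) - 1) (fun m => ρ (a m) - 1) := by
  have hL := left_rel hg hR h2 ρ h0 h1
  set N : ℕ → R := fun j => ρ (c j) - 1 with hN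
  set A : ℕ → R := fun m => ρ (a m) - 1 with hA
  let ρ' : G →* Rᵐᵒᵖ :=
    { toFun := fun x => MulOpposite.op (ρ x⁻¹)
      map_one' := by rw [inv_one, map_one, op_one]
      map_mul' := fun x y => by rw [mul_inv_rev, map_mul, op_mul] }
  have hinv : ∀ x : G, (ρ x - 1) * (ρ x - 1) = 0 → ρ' x - 1 = MulOpposite.op (-(ρ x - 1)) := by
    intro x hx
    have h3 : ρ x * (1 - (ρ x - 1)) = 1 := by
      have e : ρ x = 1 + (ρ x - 1) := by abel
      calc ρ x * (1 - (ρ x - 1)) = (1 + (ρ x - 1)) * (1 - (ρ x - 1)) := by rw [← e]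
        _ = 1 - (ρ x - 1) * (ρ x - 1) := by noncomm_ring
        _ = 1 := by rw [hx, sub_zero]
    have h4 : ρ x⁻¹ = 1 - (ρ x - 1) := by
      calc ρ x⁻¹ = ρ x⁻¹ * (ρ x * (1 - (ρ x - 1))) := by rw [h3, mul_one]
        _ = 1 - (ρ x - 1) := by rw [← mul_assoc, ← map_mul, inv_mul_cancel, map_one, one_mul]
    show MulOpposite.op (ρ x⁻¹) - 1 = _
    rw [h4, ← op_one, ← op_sub]
    congr 1
    abel
  have eN : ∀ j < 2 * g, ρ' (c j) - 1 = MulOpposite.op (-N j) := fun j hj => hinv _ (hL.sq j hj)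
  have eA : ∀ m < g, ρ' (a m) - 1 = MulOpposite.op (-A m) := fun m hm => hinv _ (hL.sqA m hm)
  have h01 : N 0 * A 1 = 0 := by
    have hcm : Commute (ρ (a 1)) (ρ (c 0)) :=
      (hR.lick.farA 1 (by omega) 0 (by omega) (by omega)).map ρ
    have h3 : Commute (ρ (a 1) - 1) (ρ (c 0) - 1) :=
      (hcm.sub_left (Commute.one_left _)).sub_right (Commute.one_right _ |>.sub_left
        (Commute.one_left _))
    exact h3.eq.symm.trans h1
  have hL' := left_rel (R := Rᵐᵒᵖ) hg hR h2 ρ' (by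
      rw [eN 0 (by omega), ← op_mul, neg_mul_neg, hL.sq 0 (by omega), op_zero])
    (by rw [eN 0 (by omega), eA 1 (by omega), ← op_mul, neg_mul_neg, h01, op_zero])
  have hW : ∀ j < 2 * g, Wd (fun j => ρ' (c j) - 1) j = MulOpposite.op (Wd' N j) := by
    intro j
    induction j with
    | zero =>
      intro h
      show ρ' (c 0) - 1 = MulOpposite.op (-N 0)
      exact eN 0 h
    | succ j ih =>
      intro h
      show -((ρ' (c (j + 1)) - 1) * Wd (fun j => ρ' (c j) - 1) j) = MulOpposite.op (Wd' N j * N (j + 1))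
      rw [ih (by omega), eN (j + 1) h, ← op_mul, ← op_neg, mul_neg, neg_neg]
  refine ⟨?_, ?_, ?_⟩
  · intro j hj
    have h3 := hL'.dn j hj
    rw [hW (j + 1) hj, hW j (by omega), eN j (by omega), ← op_mul] at h3
    have h4 := op_injective h3
    rw [mul_neg] at h4
    exact neg_eq_iff_eq_neg.1 h4
  · intro i hi j hj h3 h4
    have h5 := hL'.fr i hi j hj h3 h4
    rw [hW j hj, eN i hi, ← op_mul] at h5
    have h6 := op_injective (h5.trans op_zero.symm)
    rw [mul_neg, neg_eq_zero] at h6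
    exact h6
  · intro m hm
    have h3 := hL'.Ab m hm
    rw [hW (2 * m + 1) (by omega), eA m hm, ← op_mul, Finset.sum_congr rfl (fun i hi =>
      hW (2 * i) (by have := Finset.mem_range.1 hi; omega)), ← Finset.op_sum] at h3
    have h4 := op_injective h3
    rw [mul_neg] at h4
    exact neg_eq_iff_eq_neg.1 h4

end alg

end Pool.Agent.U379.TR
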