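import Pool.Agent.U379.TR.Few

set_option autoImplicit false

/-!
# Chains with small factors
-/

namespace Pool.Agent.U379.TR.Univ

open Pool.Agent.N66.TA (GrpRel)
open Pool.Agent.TH35.MG (HRel)
open Pool.Agent.Helper58.EN (LN)

section pi
variable {g : ℕ} {G : Type} [Group G] {c a : ℕ → G}

theorem toLoc_zero {R : Type} [Ring R] {x : R} (h : toLoc R (SS g) x = 0) :
    ∃ d : ℕ, (2 * g - 2) ^ d • x = 0 := by
  have h1 : LocalizedModule.mk x 1 = (LocalizedModule.mk 0 1 : LocalizedModule (SS g) R) := by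
    rw [LocalizedModule.zero_mk]
    exact h
  rw [LocalizedModule.mk_eq] at h1
  obtain ⟨⟨_, d, rfl⟩, hu⟩ := h1
  refine ⟨d, ?_⟩
  rw [one_smul, one_smul, smul_zero] at hu
  have h3 : ((2 * g - 2 : ℕ) : ℤ) ^ d • x = 0 := hu
  rw [← Nat.cast_pow, natCast_zsmul] at h3
  exact h3

/-- rings with torsion -/
theorem X_tors (hg : 18 ≤ g) (hR : GrpRel g c a)
    (hcl : Subgroup.closure ({x | ∃ j < 2 * g, x = c j} ∪ {x | ∃ m < g, x = a m}) = ⊤)
    {A B al be T : ℕ → G} {tau : G} (r : HRel (g - 3) A B al be T tau) (hA0 : A 0 = c 0)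
    (hA1 : A 1 = a 1) {n : Type} [Fintype n] [DecidableEq n] (σ : G →* Matrix n n ℤ)
    (h0 : (σ (c 0) - 1) * (σ (c 0) - 1) = 0) (h1 : (σ (a 1) - 1) * (σ (c 0) - 1) = 0) (i0 j0 : n)
    (hij : (σ (c 0) - 1) i0 j0 = 1) {R : Type} [Ring R]
    (ρ : G →* R) (I : Ideal R) (hI2 : I.IsTwoSided) (hI : LN (I : Set R))
    (hx0 : (ρ (c 0) - 1) * (ρ (c 0) - 1) ∈ I) (hx1 : (ρ (a 1) - 1) * (ρ (c 0) - 1) ∈ I) :
    (∃ d : ℕ, (2 * g - 2) ^ d • ((ρ (c 0) - 1) * (ρ (c 0) - 1)) = 0) ∧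
      ∃ d : ℕ, (2 * g - 2) ^ d • ((ρ (a 1) - 1) * (ρ (c 0) - 1)) = 0 := by
  let q := toLoc R (SS g)
  let ρ' : G →* LocalizedModule (SS g) R := (q : R →* _).comp ρ
  have e : ∀ y, ρ' y - 1 = q (ρ y - 1) := by
    intro y
    rw [map_sub, map_one]
    rfl
  have h3 := X_zero hg hR hcl r hA0 hA1 σ h0 h1 i0 j0 hij (unit_loc (R := R)) ρ' (locI (SS g) I)
    (locI_two I hI2) (locI_LN I hI) (by
      rw [e, ← map_mul]
      exact mem_locI.2 ⟨_, hx0, 1, rfl⟩) (by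
      rw [e, e, ← map_mul]
      exact mem_locI.2 ⟨_, hx1, 1, rfl⟩)
  rw [e, e, ← map_mul, ← map_mul] at h3
  exact ⟨toLoc_zero h3.1, toLoc_zero h3.2⟩

end pi

section chain
variable {g : ℕ} {G : Type} [Group G] {c a : ℕ → G} {M : Type} [AddCommGroup M]

/-- the saturation of a subgroup -/
def sat (g : ℕ) (W : AddSubgroup M) : AddSubgroup M where
  carrier := {m | ∃ d : ℕ, (2 * g - 2) ^ d • m ∈ W}
  add_mem' := by
    rintro x y ⟨d, hd⟩ ⟨e, he⟩
    refine ⟨d + e, ?_⟩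
    rw [smul_add]
    refine W.add_mem ?_ ?_
    · rw [pow_add, mul_comm, mul_smul]
      exact W.nsmul_mem hd _
    · rw [pow_add, mul_smul]
      exact W.nsmul_mem he _
  zero_mem' := ⟨0, by rw [smul_zero]; exact W.zero_mem⟩
  neg_mem' := by
    rintro x ⟨d, hd⟩
    exact ⟨d, by rw [smul_neg]; exact W.neg_mem hd⟩

theorem mem_sat {W : AddSubgroup M} {m : M} : m ∈ sat g W ↔ ∃ d : ℕ, (2 * g - 2) ^ d • m ∈ W :=
  Iff.rfl

/-- the endomorphisms preserving the saturations -/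
def RS (g : ℕ) (W : ℕ → AddSubgroup M) : Subring (AddMonoid.End M) where
  carrier := {φ | ∀ i, ∀ m ∈ sat g (W i), φ m ∈ sat g (W i)}
  mul_mem' := fun {x y} hx hy i m hm => hx i _ (hy i m hm)
  one_mem' := fun _ _ hm => hm
  add_mem' := fun {x y} hx hy i m hm => AddSubgroup.add_mem _ (hx i m hm) (hy i m hm)
  zero_mem' := fun i _ _ => AddSubgroup.zero_mem _
  neg_mem' := fun {x} hx i m hm => AddSubgroup.neg_mem _ (hx i m hm)

theorem mem_RS {W : ℕ → AddSubgroup M} {φ : AddMonoid.End M} :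
    φ ∈ RS g W ↔ ∀ i, ∀ m ∈ sat g (W i), φ m ∈ sat g (W i) := Iff.rfl

/-- those which lower the index -/
def IS (g : ℕ) (r : ℕ) (W : ℕ → AddSubgroup M) : Ideal (RS g W) where
  carrier := {φ | ∀ i < r, ∀ m ∈ sat g (W (i + 1)), (φ : AddMonoid.End M) m ∈ sat g (W i)}
  add_mem' := fun {x y} hx hy i hi m hm => AddSubgroup.add_mem _ (hx i hi m hm) (hy i hi m hm)
  zero_mem' := fun i _ _ _ => AddSubgroup.zero_mem _
  smul_mem' := fun x y hy i hi m hm => x.2 i _ (hy i hi m hm)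

theorem mem_IS {r : ℕ} {W : ℕ → AddSubgroup M} {φ : RS g W} : φ ∈ IS g r W ↔
    ∀ i < r, ∀ m ∈ sat g (W (i + 1)), (φ : AddMonoid.End M) m ∈ sat g (W i) := Iff.rfl

theorem IS_two {r : ℕ} {W : ℕ → AddSubgroup M} : (IS g r W).IsTwoSided := by
  constructor
  intro x y hx
  rw [mem_IS] at hx ⊢
  intro i hi m hm
  exact hx i hi _ (y.2 (i + 1) m hm)

theorem sat_bot (htf : ∀ x : M, (2 * g - 2) • x = 0 → x = 0) {m : M}
    (h : m ∈ sat g (⊥ : AddSubgroup M)) : m = 0 := by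
  obtain ⟨d, hd⟩ := mem_sat.1 h
  rw [AddSubgroup.mem_bot] at hd
  induction d with
  | zero =>
    rwa [pow_zero, one_smul] at hd
  | succ d ih =>
    apply ih
    rw [pow_succ', mul_smul] at hd
    exact htf _ hd

theorem IS_LN {r : ℕ} {W : ℕ → AddSubgroup M} (htf : ∀ x : M, (2 * g - 2) • x = 0 → x = 0)
    (h0 : W 0 = ⊥) (hr : W r = ⊤) : LN (IS g r W : Set (RS g W)) := by
  intro X hX
  refine ⟨r, ?_⟩
  have key : ∀ l : List (RS g W), (∀ x ∈ l, x ∈ IS g r W) → ∀ i, i + l.length ≤ r →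
      ∀ m ∈ sat g (W (i + l.length)), ((l.prod : RS g W) : AddMonoid.End M) m ∈ sat g (W i) := by
    intro l
    induction l with
    | nil => intro _ i _ m hm; exact hm
    | cons x l ih =>
      intro hl i hi m hm
      rw [List.prod_cons, List.length_cons] at *
      have h1 := ih (fun y hy => hl y (List.mem_cons_of_mem _ hy)) (i + 1) (by omega) m (by
        rwa [show i + 1 + l.length = i + (l.length + 1) by omega])
      exact mem_IS.1 (hl x List.mem_cons_self) i (by omega) _ h1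
  intro l hl hlen
  apply Subtype.ext
  apply AddMonoidHom.ext
  intro m
  have h1 := key l (fun x hx => hX (hl x hx)) 0 (by omega) m (by
    rw [hlen, Nat.zero_add, hr]
    exact mem_sat.2 ⟨0, trivial⟩)
  rw [h0] at h1
  exact sat_bot htf h1

/-- an element lowers the index of the chain -/
def Low (g : ℕ) (W W' : AddSubgroup M) (φ : AddMonoid.End M) : Prop :=
  ∀ m ∈ W', ∃ d : ℕ, (2 * g - 2) ^ d • φ m ∈ W

theorem Low.sat {W W' : AddSubgroup M} {φ : AddMonoid.End M} (h : Low g W W' φ) :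
    ∀ m ∈ sat g W', φ m ∈ sat g W := by
  intro m hm
  obtain ⟨d, hd⟩ := mem_sat.1 hm
  obtain ⟨e, he⟩ := h _ hd
  refine mem_sat.2 ⟨e + d, ?_⟩
  rw [map_nsmul, ← mul_smul, ← pow_add] at he
  exact he

/-- The two elements vanish if they lower the index of a finite chain. -/
theorem chain_zero (hg : 18 ≤ g) (hR : GrpRel g c a)
    (hcl : Subgroup.closure ({x | ∃ j < 2 * g, x = c j} ∪ {x | ∃ m < g, x = a m}) = ⊤)
    {A B al be T : ℕ → G} {tau : G} (r : HRel (g - 3) A B al be T tau) (hA0 : A 0 = c 0)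
    (hA1 : A 1 = a 1) {n : Type} [Fintype n] [DecidableEq n] (σ : G →* Matrix n n ℤ)
    (h0 : (σ (c 0) - 1) * (σ (c 0) - 1) = 0) (h1 : (σ (a 1) - 1) * (σ (c 0) - 1) = 0) (i0 j0 : n)
    (hij : (σ (c 0) - 1) i0 j0 = 1) (htf : ∀ x : M, (2 * g - 2) • x = 0 → x = 0)
    (ρ : G →* AddMonoid.End M) (l : ℕ) (W : ℕ → AddSubgroup M) (hW0 : W 0 = ⊥) (hWl : W l = ⊤)
    (hW : ∀ i, ∀ y : G, ∀ m ∈ W i, ρ y m ∈ W i)
    (hlow : ∀ i < l, Low g (W i) (W (i + 1)) ((ρ (c 0) - 1) * (ρ (c 0) - 1)) ∧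
      Low g (W i) (W (i + 1)) ((ρ (a 1) - 1) * (ρ (c 0) - 1))) :
    (ρ (c 0) - 1) * (ρ (c 0) - 1) = 0 ∧ (ρ (a 1) - 1) * (ρ (c 0) - 1) = 0 := by
  have hmem : ∀ y, ρ y ∈ RS g W := by
    intro y
    rw [mem_RS]
    intro i m hm
    obtain ⟨d, hd⟩ := mem_sat.1 hm
    refine mem_sat.2 ⟨d, ?_⟩
    rw [← map_nsmul]
    exact hW i y _ hd
  let ρ' : G →* RS g W :=
    { toFun := fun y => ⟨ρ y, hmem y⟩
      map_one' := Subtype.ext (map_one ρ)
      map_mul' := fun y z => Subtype.ext (map_mul ρ y z) }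
  have htf' : ∀ x : RS g W, (2 * g - 2) • x = 0 → x = 0 := by
    intro x hx
    apply Subtype.ext
    apply AddMonoidHom.ext
    intro m
    apply htf
    have h3 := DFunLike.congr_fun (congrArg Subtype.val hx) m
    exact h3
  have h3 := X_zero' hg hR hcl r hA0 hA1 σ h0 h1 i0 j0 hij htf' ρ' (IS g l W) IS_two
    (IS_LN htf hW0 hWl) (by
      rw [mem_IS]
      intro i hi m hm
      exact (hlow i hi).1.sat m hm) (by
      rw [mem_IS]
      intro i hi m hm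
      exact (hlow i hi).2.sat m hm)
  exact ⟨congrArg Subtype.val h3.1, congrArg Subtype.val h3.2⟩

end chain

end Pool.Agent.U379.TR.Univ
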