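import Pool.Agent.U379.TR.Act

set_option autoImplicit false

/-!
# The first cohomology of small modules
-/

namespace Pool.Agent.U379.TR.Fi

open Pool.Agent.H29R2.MG Pool.Agent.TH35.MG Pool.Agent.R352.MG Pool.Agent.R665.MGR
  Pool.Agent.N66.CQ Pool.Agent.U379.PI Pool.Agent.Helper58.EN
open Pool.Agent.Q290.MG (homMat homM hc_aut hc_gen)

/-- the property of the group `Γ` -/
def GamUnits (g : ℕ) (Γ : Subgroup (Mod g)) : Prop :=
    ∀ (M : Type) [AddCommGroup M] (F : Γ →* AddMonoid.End M) (V : AddSubgroup M) (X : Type)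
      [AddCommGroup X] (ρ : Mod g →* AddMonoid.End X) (π : V →+ X), SmallMod g ρ →
      (∀ x : M, (2 * g - 2) • x = 0 → x = 0) → (∀ y, ∀ m ∈ V, F y m ∈ V) →
      (∀ y m, F y m - m ∈ V) → (∀ m, π m = 0 → m = 0) →
      (∀ (y : Γ) (m m' : V), (m' : M) = F y m → π m' = ρ y (π m)) →
      ∃ e : Fin g ⊕ Fin g → Fin g ⊕ Fin g → AddMonoid.End M,
        (∀ i j k l, e i j * e k l = if j = k then e i l else 0) ∧
        ∀ y : Γ, F y = 1 + ∑ i, ∑ j, (homMat g y - 1) i j • e i j

theorem sum_app {M : Type} [AddCommGroup M] {n : Type} [Fintype n] (t : n → n → ℤ)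
    (e : n → n → AddMonoid.End M) (w : M) (h : ∀ i j, e i j w = 0) :
    (∑ i, ∑ j, t i j • e i j) w = 0 := by
  let ev : AddMonoid.End M →+ M :=
    { toFun := fun φ => φ w
      map_zero' := rfl
      map_add' := fun _ _ => rfl }
  show ev (∑ i, ∑ j, t i j • e i j) = 0
  rw [map_sum]
  refine Finset.sum_eq_zero fun i _ => ?_
  rw [map_sum]
  refine Finset.sum_eq_zero fun j _ => ?_
  rw [map_zsmul]
  show t i j • e i j w = 0
  rw [h, smul_zero]

section
variable {g : ℕ} {Γ : Subgroup (Mod g)} {X : Type} [AddCommGroup X]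
  (ρ : Mod g →* AddMonoid.End X) (V : AddSubgroup X) (hV : ∀ y : Mod g, ∀ v ∈ V, ρ y v ∈ V)
  (D : Γ → X) (hDV : ∀ y, D y ∈ V) (hD : ∀ y z : Γ, D (y * z) = D y + ρ y (D z))

/-- the extension of `ℤ` by `V` given by a crossed homomorphism -/
def extF : Γ →* AddMonoid.End (V × ℤ) where
  toFun y :=
    { toFun := fun m => (⟨ρ y m.1 + m.2 • D y,
        V.add_mem (hV y _ m.1.2) (V.zsmul_mem (hDV y) _)⟩, m.2)
      map_zero' := by
        apply Prod.ext
        · apply Subtype.ext
          show ρ y ((0 : V) : X) + (0 : ℤ) • D y = 0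
          rw [ZeroMemClass.coe_zero, map_zero, zero_smul, add_zero]
        · rfl
      map_add' := fun m m' => by
        apply Prod.ext
        · apply Subtype.ext
          show ρ y ((m.1 + m'.1 : V) : X) + (m.2 + m'.2) • D y =
            (ρ y m.1 + m.2 • D y) + (ρ y m'.1 + m'.2 • D y)
          rw [AddMemClass.coe_add, map_add, add_smul]
          abel
        · rfl }
  map_one' := by
    have h1 : D 1 = 0 := by
      have := hD 1 1
      rw [mul_one, OneMemClass.coe_one, map_one] at this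
      exact (left_eq_add.1 this)
    apply AddMonoidHom.ext
    intro m
    apply Prod.ext
    · apply Subtype.ext
      show ρ ((1 : Γ) : Mod g) (m.1 : X) + m.2 • D 1 = m.1
      rw [h1, smul_zero, add_zero, OneMemClass.coe_one, map_one]
      rfl
    · rfl
  map_mul' y z := by
    apply AddMonoidHom.ext
    intro m
    apply Prod.ext
    · apply Subtype.ext
      show ρ ((y * z : Γ) : Mod g) (m.1 : X) + m.2 • D (y * z) =
        ρ y (ρ z m.1 + m.2 • D z) + m.2 • D y
      rw [hD, Subgroup.coe_mul, map_mul, map_add, map_zsmul, smul_add]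
      show ρ y (ρ z m.1) + (m.2 • D y + m.2 • ρ y (D z)) = _
      abel
    · rfl

include hV hDV hD in
/-- The first cohomology of a small module vanishes; the elements trivial on the homology act
trivially; the fixed vectors of `ι` are fixed. -/
theorem crossed (hg : 18 ≤ g) (hU : GamUnits g Γ) {ι : Γ} (hι : homMat g ι = -1)
    (hρ : SmallMod g ρ) (htf : ∀ v ∈ V, (2 * g - 2) • v = 0 → v = 0) :
    (∃ v ∈ V, ∀ y : Γ, D y = ρ y v - v) ∧
      (∀ x : Γ, homMat g x = 1 → ∀ v ∈ V, ρ x v = v) ∧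
      ∀ v ∈ V, ρ ι v = v → ∀ y : Γ, ρ y v = v := by
  have h2 : ∀ v ∈ V, 2 • v = 0 → v = 0 := by
    intro v hv h
    apply htf v hv
    rw [show 2 * g - 2 = (g - 1) * 2 by omega, mul_smul, h, smul_zero]
  let F := extF ρ V hV D hDV hD
  let V' : AddSubgroup (V × ℤ) := (AddMonoidHom.snd V ℤ).ker
  have mV' : ∀ m : V × ℤ, m ∈ V' ↔ m.2 = 0 := fun m => AddMonoidHom.mem_ker
  let π : V' →+ X := V.subtype.comp ((AddMonoidHom.fst V ℤ).comp V'.subtype)
  have hF1 : ∀ (y : Γ) (m : V × ℤ), ((F y m).1 : X) = ρ y m.1 + m.2 • D y := fun _ _ => rfl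
  have hF2 : ∀ (y : Γ) (m : V × ℤ), (F y m).2 = m.2 := fun _ _ => rfl
  have tfM : ∀ x : V × ℤ, (2 * g - 2) • x = 0 → x = 0 := by
    intro x hx
    apply Prod.ext
    · apply Subtype.ext
      exact htf _ x.1.2 (congrArg (fun m : V × ℤ => (m.1 : X)) hx)
    · have h3 : (2 * g - 2) • x.2 = 0 := congrArg Prod.snd hx
      rw [nsmul_eq_mul] at h3
      rcases mul_eq_zero.1 h3 with h4 | h4
      · have h5 : (2 * g - 2 : ℕ) = 0 := by exact_mod_cast h4
        omega
      · exact h4
  obtain ⟨e, he, hF⟩ := hU (V × ℤ) F V' X ρ π hρ tfM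
    (fun y m hm => by
      rw [mV'] at hm ⊢
      rw [hF2, hm])
    (fun y m => by
      rw [mV']
      show (F y m).2 - m.2 = 0
      rw [hF2, sub_self])
    (fun m hm => by
      apply Subtype.ext
      apply Prod.ext
      · exact Subtype.ext hm
      · exact (mV' _).1 m.2)
    (fun y m m' h => by
      show (((m' : V × ℤ).1 : V) : X) = ρ y (((m : V × ℤ).1 : V) : X)
      rw [h, hF1, (mV' _).1 m.2, zero_smul, add_zero])
  let ε : AddMonoid.End (V × ℤ) := ∑ i, e i i
  have heε : ∀ i j, e i j * ε = e i j := by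
    intro i j
    show e i j * ∑ k, e k k = e i j
    rw [Finset.mul_sum, Finset.sum_eq_single j]
    · rw [he, if_pos rfl]
    · intro k _ hk
      rw [he, if_neg hk.symm]
    · intro h
      exact absurd (Finset.mem_univ _) h
  have hFι : F ι = 1 - ε - ε := by
    rw [hF, hι]
    have h3 : ∀ i, ∑ j, ((-1 - 1 : Matrix (Fin g ⊕ Fin g) (Fin g ⊕ Fin g) ℤ) i j) • e i j =
        -(e i i) - e i i := by
      intro i
      rw [Finset.sum_eq_single i]
      · rw [Matrix.sub_apply, Matrix.neg_apply, Matrix.one_apply_eq, sub_smul, neg_smul, one_smul]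
      · intro j _ hj
        rw [Matrix.sub_apply, Matrix.neg_apply, Matrix.one_apply_ne hj.symm, neg_zero, sub_zero,
          zero_smul]
      · intro h
        exact absurd (Finset.mem_univ _) h
    rw [Finset.sum_congr rfl (fun i _ => h3 i), Finset.sum_sub_distrib, Finset.sum_neg_distrib]
    show 1 + (-ε - ε) = 1 - ε - ε
    abel
  -- vectors with `ε w = 0` are fixed
  have hfix : ∀ w : V × ℤ, ε w = 0 → ∀ y : Γ, F y w = w := by
    intro w hw y
    have h3 : ∀ i j, e i j w = 0 := by
      intro i j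
      rw [← heε i j]
      show e i j (ε w) = 0
      rw [hw, map_zero]
    have h4 : F y w = w + (∑ i, ∑ j, (homMat g y - 1) i j • e i j) w :=
      DFunLike.congr_fun (hF y) w
    rw [h4, sum_app (fun i j => (homMat g y - 1) i j) e w h3, add_zero]
  have hε2 : ∀ w : V × ℤ, (ε w).2 = 0 := by
    intro w
    have h3 : F ι w = w - ε w - ε w := by rw [hFι]; rfl
    have h4 := congrArg Prod.snd h3
    rw [hF2] at h4
    have h5 : w.2 = w.2 - (ε w).2 - (ε w).2 := h4
    omega
  have hεε : ε * ε = ε := by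
    show (∑ i, e i i) * ε = ∑ i, e i i
    rw [Finset.sum_mul]
    exact Finset.sum_congr rfl fun i _ => heε i i
  refine ⟨?_, ?_, ?_⟩
  · let u : V × ℤ := (0, 1)
    let w : V × ℤ := u - ε u
    have hw : ε w = 0 := by
      show ε (u - ε u) = 0
      rw [map_sub]
      show ε u - (ε * ε) u = 0
      rw [hεε, sub_self]
    have hw2 : w.2 = 1 := by
      show (1 : ℤ) - (ε u).2 = 1
      rw [hε2, sub_zero]
    refine ⟨-(w.1 : X), V.neg_mem w.1.2, ?_⟩
    intro y
    have h3 := congrArg (fun m : V × ℤ => (m.1 : X)) (hfix w hw y)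
    simp only [hF1, hw2, one_smul] at h3
    rw [map_neg, sub_neg_eq_add, ← sub_eq_neg_add]
    exact eq_sub_of_add_eq (by rw [add_comm]; exact h3)
  · intro x hx v hv
    have h3 := hF x
    rw [hx, sub_self] at h3
    have h4 : F x = 1 := by
      rw [h3]
      simp
    have h5 := congrArg (fun m : V × ℤ => (m.1 : X)) (DFunLike.congr_fun h4 ((⟨v, hv⟩, 0) : V × ℤ))
    simp only [hF1, zero_smul, add_zero] at h5
    exact h5
  · intro v hv hιv y
    let w : V × ℤ := (⟨v, hv⟩, 0)
    have h3 : F ι w = w := by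
      apply Prod.ext
      · apply Subtype.ext
        rw [hF1]
        show ρ ι v + (0 : ℤ) • D ι = v
        rw [zero_smul, add_zero, hιv]
      · rfl
    have h4 : ε w = 0 := by
      rw [hFι] at h3
      have h5 : w - ε w - ε w = w := h3
      have h6 : 2 • ε w = 0 := by
        rw [two_smul]
        have : ε w + ε w = w - (w - ε w - ε w) := by abel
        rw [this, h5, sub_self]
      apply tfM
      rw [show 2 * g - 2 = (g - 1) * 2 by omega, mul_smul, h6, smul_zero]
    have h5 := congrArg (fun m : V × ℤ => (m.1 : X)) (hfix w h4 y)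
    simp only [hF1] at h5
    have h6 : ρ y v + (0 : ℤ) • D y = v := h5
    rwa [zero_smul, add_zero] at h6

end

end Pool.Agent.U379.TR.Fi
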