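import Pool.Agent.U379.TR.Fac3
import Pool.Agent.TH35.MG.TwDef

set_option autoImplicit false

/-!
# Irreducible constituents
-/

namespace Pool.Agent.U379.TR.Fi

open Pool.Agent.H29R2.MG Pool.Agent.TH35.MG Pool.Agent.R352.MG Pool.Agent.R665.MGR
  Pool.Agent.N66.CQ Pool.Agent.U379.PI Pool.Agent.Helper58.EN Module
open Pool.Agent.Q290.MG (homMat)

variable {g : ℕ} {K V : Type} [Field K] [AddCommGroup V] [Module K V]

/-- the action on the additive group -/
def addAct (ρ : Mod g →* Module.End K V) : Mod g →* AddMonoid.End V where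
  toFun y := (ρ y).toAddMonoidHom
  map_one' := by rw [map_one]; rfl
  map_mul' y z := by rw [map_mul]; rfl

theorem addAct_apply (ρ : Mod g →* Module.End K V) (y : Mod g) (v : V) : addAct ρ y v = ρ y v :=
  rfl

/-- the quotient of two invariant subspaces -/
theorem small_of_finrank [FiniteDimensional K V] (ρ : Mod g →* Module.End K V)
    {W W' : Submodule K V} (hle : W ≤ W') (hW : InvSub ρ W) (hW' : InvSub ρ W')
    (h : finrank K W' < finrank K W + (g - 5).choose 2) :
    SmallFactor (addAct ρ) W.toAddSubgroup W'.toAddSubgroup := by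
  let N : Submodule K W' := W.submoduleOf W'
  have h1 : Ext.Stable ρ W' := fun x w hw => hW' x w hw
  have h2 : Ext.Stable (Ext.restr ρ W' h1) N := by
    intro x w hw
    exact hW x _ hw
  let π : W'.toAddSubgroup →+ W' ⧸ N := N.mkQ.toAddMonoidHom
  refine ⟨W' ⧸ N, inferInstance, π, ?_, Or.inl ?_⟩
  · intro m hm
    have h3 : (m : W') ∈ N := (Submodule.Quotient.mk_eq_zero N).1 hm
    exact h3
  · let b := Module.finBasis K (W' ⧸ N)
    refine ⟨K, inferInstance, inferInstance, finrank K (W' ⧸ N), b,
      Ext.quot (Ext.restr ρ W' h1) N h2, ?_, b.span_eq, ?_⟩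
    · have h3 := Submodule.finrank_quotient_add_finrank N
      have h4 : finrank K N = finrank K W := by
        exact (Submodule.submoduleOfEquivOfLe hle).finrank_eq
      omega
    · intro y m m' hmm
      have h5 : m' = (Ext.restr ρ W' h1 y) m := Subtype.ext hmm
      rw [h5]
      rfl

/-- A representation in which an element acting trivially on the homology acts nontrivially has a
large irreducible constituent. -/
theorem large_constituent [FiniteDimensional K V] (hg : 18 ≤ g)
    (hK : ((2 * g - 2 : ℕ) : K) ≠ 0) (ρ : Mod g →* Module.End K V) {y : Mod g}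
    (hy : y ∈ Humphries g) (hy0 : ∀ i j, (((homMat g y - 1) i j : ℤ) : K) = 0) (hne : ρ y ≠ 1) :
    ∃ W1 W2 : Submodule K V, Constituent ρ W1 W2 ∧
      finrank K W1 + (g - 5).choose 2 ≤ finrank K W2 := by
  classical
  by_contra hcon
  push Not at hcon
  have hD : 0 < (g - 5).choose 2 := Nat.choose_pos (by omega)
  have step : ∀ W : {W : Submodule K V // InvSub ρ W}, ∃ W' : {W : Submodule K V // InvSub ρ W},
      W.1 ≤ W'.1 ∧ finrank K W'.1 < finrank K W.1 + (g - 5).choose 2 ∧
        (W.1 ≠ ⊤ → finrank K W.1 < finrank K W'.1) := by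
    intro W
    by_cases hW : W.1 = ⊤
    · exact ⟨W, le_rfl, by omega, fun h => absurd hW h⟩
    · -- a minimal invariant subspace above `W`
      have hex : ∃ n : ℕ, ∃ W' : Submodule K V, InvSub ρ W' ∧ W.1 < W' ∧ finrank K W' = n :=
        ⟨_, ⊤, fun _ _ _ => Submodule.mem_top, lt_top_iff_ne_top.2 hW, rfl⟩
      obtain ⟨W', h1, h2, h3⟩ := Nat.find_spec hex
      have hc : Constituent ρ W.1 W' := by
        refine ⟨W.2, h1, h2, ?_⟩
        intro X hX h4 h5
        rcases h4.eq_or_lt with h6 | h6
        · exact Or.inl h6.symm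
        · right
          have h7 := Nat.find_min' hex ⟨X, hX, h6, rfl⟩
          rw [← h3] at h7
          exact Submodule.eq_of_le_of_finrank_le h5 h7
      exact ⟨⟨W', h1⟩, h2.le, hcon _ _ hc, fun _ => Submodule.finrank_lt_finrank_of_lt h2⟩
  choose nxt h1 h2 h3 using step
  let W : ℕ → {W : Submodule K V // InvSub ρ W} := fun i =>
    Nat.rec ⟨⊥, fun x v hv => by
      rw [Submodule.mem_bot] at hv ⊢
      rw [hv, map_zero]⟩ (fun _ X => nxt X) i
  have hWs : ∀ i, W (i + 1) = nxt (W i) := fun _ => rfl
  have hgrow : ∀ i, (W i).1 = ⊤ ∨ i ≤ finrank K (W i).1 := by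
    intro i
    induction i with
    | zero => exact Or.inr (Nat.zero_le _)
    | succ i ih =>
      by_cases hi : (W i).1 = ⊤
      · left
        rw [hWs, eq_top_iff, ← hi]
        exact h1 _
      · right
        have h4 := h3 (W i) hi
        rw [← hWs] at h4
        rcases ih with ih | ih
        · exact absurd ih hi
        · omega
  have htop : (W (finrank K V + 1)).1 = ⊤ := by
    rcases hgrow (finrank K V + 1) with h | h
    · exact h
    · have := Submodule.finrank_le (W (finrank K V + 1)).1
      omega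
  obtain ⟨e, -, -, hf⟩ := units3 (M := V) hg (by
      intro x hx
      have h4 : ((2 * g - 2 : ℕ) : K) • x = 0 := by rw [Nat.cast_smul_eq_nsmul]; exact hx
      exact (smul_eq_zero.1 h4).resolve_left hK) (addAct ρ)
    (fun i => (W i).1.toAddSubgroup) rfl (by
      intro m
      refine ⟨finrank K V + 1, ?_⟩
      show m ∈ (W (finrank K V + 1)).1
      rw [htop]
      exact Submodule.mem_top) (fun i y m hm => (W i).2 y m hm) (by
      intro i
      have h4 := h1 (W i)
      have h5 := h2 (W i)
      rw [← hWs] at h4 h5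
      exact small_of_finrank ρ h4 (W i).2 (W (i + 1)).2 h5)
  apply hne
  apply LinearMap.ext
  intro v
  have h4 := hf y hy
  have h5 : ∑ i, ∑ j, (homMat g y - 1) i j • e i j = 0 := by
    refine Finset.sum_eq_zero fun i _ => Finset.sum_eq_zero fun j _ => ?_
    apply AddMonoidHom.ext
    intro v
    have h6 : (homMat g y - 1) i j • (e i j v) = 0 := by
      rw [← Int.cast_smul_eq_zsmul K, hy0, zero_smul]
    exact h6
  rw [h5, add_zero] at h4
  have h6 := DFunLike.congr_fun h4 v
  rw [addAct_apply] at h6
  exact h6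

end Pool.Agent.U379.TR.Fi
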