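import Pool.Agent.U379.TR.Cst

set_option autoImplicit false

/-!
# Representations with small constituents; permutation representations
-/

namespace Pool.Agent.U379.TR.Fi

open Pool.Agent.H29R2.MG Pool.Agent.TH35.MG Pool.Agent.R352.MG Pool.Agent.R665.MGR
  Pool.Agent.N66.CQ Pool.Agent.U379.PI Pool.Agent.Helper58.EN Module
open Pool.Agent.Q290.MG (homMat)

variable {g : ℕ} {K V : Type} [Field K] [AddCommGroup V] [Module K V]

/-- a finite-dimensional representation the constituents of which are small has a sequence of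
invariant subspaces with small factors -/
theorem small_sequence [FiniteDimensional K V] (hg : 18 ≤ g) (ρ : Mod g →* Module.End K V)
    (hcon : ∀ W1 W2 : Submodule K V, Constituent ρ W1 W2 →
      finrank K W2 < finrank K W1 + (g - 5).choose 2) :
    ∃ W : ℕ → AddSubgroup V, W 0 = ⊥ ∧ (∀ m, ∃ i, m ∈ W i) ∧
      (∀ i, ∀ y : Mod g, ∀ m ∈ W i, addAct ρ y m ∈ W i) ∧
      ∀ i, SmallFactor (addAct ρ) (W i) (W (i + 1)) := by
  classical
  have hD : 0 < (g - 5).choose 2 := Nat.choose_pos (by omega)
  have step : ∀ W : {W : Submodule K V // InvSub ρ W}, ∃ W' : {W : Submodule K V // InvSub ρ W},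
      W.1 ≤ W'.1 ∧ finrank K W'.1 < finrank K W.1 + (g - 5).choose 2 ∧
        (W.1 ≠ ⊤ → finrank K W.1 < finrank K W'.1) := by
    intro W
    by_cases hW : W.1 = ⊤
    · exact ⟨W, le_rfl, by omega, fun h => absurd hW h⟩
    · -- a minimal invariant subspace above `W`
      have hex : ∃ n : ℕ, ∃ W' : Submodule K V, InvSub ρ W' ∧ W.1 < W' ∧ finrank K W' = n :=
        ⟨_, ⊤, fun _ _ _ => Submodule.mem_top, lt_top_iff_ne_top.2 hW, rfl⟩
      obtain ⟨W', h1, h2, h3⟩ := Nat.find_spec hex
      have hc : Constituent ρ W.1 W' := by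
        refine ⟨W.2, h1, h2, ?_⟩
        intro X hX h4 h5
        rcases h4.eq_or_lt with h6 | h6
        · exact Or.inl h6.symm
        · right
          have h7 := Nat.find_min' hex ⟨X, hX, h6, rfl⟩
          rw [← h3] at h7
          exact Submodule.eq_of_le_of_finrank_le h5 h7
      exact ⟨⟨W', h1⟩, h2.le, hcon _ _ hc, fun _ => Submodule.finrank_lt_finrank_of_lt h2⟩
  choose nxt h1 h2 h3 using step
  let W : ℕ → {W : Submodule K V // InvSub ρ W} := fun i =>
    Nat.rec ⟨⊥, fun x v hv => by
      rw [Submodule.mem_bot] at hv ⊢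
      rw [hv, map_zero]⟩ (fun _ X => nxt X) i
  have hWs : ∀ i, W (i + 1) = nxt (W i) := fun _ => rfl
  have hgrow : ∀ i, (W i).1 = ⊤ ∨ i ≤ finrank K (W i).1 := by
    intro i
    induction i with
    | zero => exact Or.inr (Nat.zero_le _)
    | succ i ih =>
      by_cases hi : (W i).1 = ⊤
      · left
        rw [hWs, eq_top_iff, ← hi]
        exact h1 _
      · right
        have h4 := h3 (W i) hi
        rw [← hWs] at h4
        rcases ih with ih | ih
        · exact absurd ih hi
        · omega
  have htop : (W (finrank K V + 1)).1 = ⊤ := by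
    rcases hgrow (finrank K V + 1) with h | h
    · exact h
    · have := Submodule.finrank_le (W (finrank K V + 1)).1
      omega
  refine ⟨fun i => (W i).1.toAddSubgroup, rfl, ?_, fun i y m hm => (W i).2 y m hm, ?_⟩
  · intro m
    refine ⟨finrank K V + 1, ?_⟩
    show m ∈ (W (finrank K V + 1)).1
    rw [htop]
    exact Submodule.mem_top
  · intro i
    have h4 := h1 (W i)
    have h5 := h2 (W i)
    rw [← hWs] at h4 h5
    exact small_of_finrank ρ h4 (W i).2 (W (i + 1)).2 h5

/-- The order of a twist and the kernel. -/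
theorem kernel_constituents [FiniteDimensional K V] (hg : 18 ≤ g)
    (hK : ((2 * g - 2 : ℕ) : K) ≠ 0) (ρ : Mod g →* Module.End K V)
    (hcon : ∀ W1 W2 : Submodule K V, Constituent ρ W1 W2 →
      finrank K W2 < finrank K W1 + (g - 5).choose 2)
    {T : Mod g} (hT : IsTwistAt g 0 T) :
    ∀ y ∈ Humphries g, ρ y = 1 ↔ y ∈ Level g (orderOf (ρ T)) := by
  obtain ⟨W, h0, hun, hW, hfac⟩ := small_sequence hg ρ hcon
  have h1 := (kernel3 (M := V) hg (by
      intro x hx
      have h4 : ((2 * g - 2 : ℕ) : K) • x = 0 := by rw [Nat.cast_smul_eq_nsmul]; exact hx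
      exact (smul_eq_zero.1 h4).resolve_left hK) (addAct ρ) W h0 hun hW hfac hT).1
  have h2 : ∀ y, addAct ρ y = 1 ↔ ρ y = 1 := by
    intro y
    constructor
    · intro h
      apply LinearMap.ext
      intro v
      exact DFunLike.congr_fun h v
    · intro h
      apply AddMonoidHom.ext
      intro v
      exact DFunLike.congr_fun h v
  have h3 : orderOf (addAct ρ T) = orderOf (ρ T) := by
    apply orderOf_eq_orderOf_iff.2
    intro n
    rw [← map_pow, ← map_pow, h2]
  intro y hy
  rw [← h2, h1 y hy, h3]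

end Pool.Agent.U379.TR.Fi
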