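import Pool.Agent.U379.TR.Small
import Pool.Agent.N66.TA.Main

set_option autoImplicit false

/-!
# Extensions of representations
-/

namespace Pool.Agent.U379.TR.Ext

open Pool.Agent.N66.TA Module

variable {g : ℕ} {G : Type} [Group G] {K : Type} [Field K] {c a : ℕ → G}

section constr
variable {V : Type} [AddCommGroup V] [Module K V]

/-- `W` is stable -/
def Stable (ρ : G →* Module.End K V) (W : Submodule K V) : Prop := ∀ x, ∀ w ∈ W, ρ x w ∈ W

/-- the subrepresentation -/
def restr (ρ : G →* Module.End K V) (W : Submodule K V) (hW : Stable ρ W) :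
    G →* Module.End K W where
  toFun x := (ρ x).restrict (hW x)
  map_one' := by
    ext w
    rw [LinearMap.coe_restrict_apply, map_one]
    rfl
  map_mul' x y := by
    ext w
    rw [LinearMap.coe_restrict_apply, map_mul]
    rfl

/-- the quotient representation -/
def quot (ρ : G →* Module.End K V) (W : Submodule K V) (hW : Stable ρ W) :
    G →* Module.End K (V ⧸ W) where
  toFun x := W.mapQ W (ρ x) (fun w hw => hW x w hw)
  map_one' := by
    apply Submodule.linearMap_qext
    apply LinearMap.ext
    intro v
    change W.mkQ (ρ 1 v) = W.mkQ v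
    rw [map_one]
    rfl
  map_mul' x y := by
    apply Submodule.linearMap_qext
    apply LinearMap.ext
    intro v
    change W.mkQ (ρ (x * y) v) = W.mkQ (ρ x (ρ y v))
    rw [map_mul]
    rfl

theorem restr_apply (ρ : G →* Module.End K V) (W : Submodule K V) (hW : Stable ρ W) (x : G)
    (w : W) : (restr ρ W hW x w : V) = ρ x w := rfl

theorem quot_apply (ρ : G →* Module.End K V) (W : Submodule K V) (hW : Stable ρ W) (x : G)
    (v : V) : quot ρ W hW x (W.mkQ v) = W.mkQ (ρ x v) := rfl

/-- `(x - 1) (y - 1)` vanishes on a subrepresentation -/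
theorem restr_zero {ρ : G →* Module.End K V} {W : Submodule K V} {hW : Stable ρ W} {x y : G}
    (h : ∀ w ∈ W, ((ρ x - 1) * (ρ y - 1)) w = 0) :
    (restr ρ W hW x - 1) * (restr ρ W hW y - 1) = 0 := by
  ext w
  exact h w w.2

theorem of_restr_zero {ρ : G →* Module.End K V} {W : Submodule K V} {hW : Stable ρ W} {x y : G}
    (h : (restr ρ W hW x - 1) * (restr ρ W hW y - 1) = 0) :
    ∀ w ∈ W, ((ρ x - 1) * (ρ y - 1)) w = 0 := by
  intro w hw
  exact congrArg Subtype.val (LinearMap.congr_fun h ⟨w, hw⟩)

theorem quot_zero {ρ : G →* Module.End K V} {W : Submodule K V} {hW : Stable ρ W} {x y : G}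
    (h : ∀ v, ((ρ x - 1) * (ρ y - 1)) v ∈ W) :
    (quot ρ W hW x - 1) * (quot ρ W hW y - 1) = 0 := by
  apply Submodule.linearMap_qext
  apply LinearMap.ext
  intro v
  exact (Submodule.Quotient.mk_eq_zero W).2 (h v)

theorem of_quot_zero {ρ : G →* Module.End K V} {W : Submodule K V} {hW : Stable ρ W} {x y : G}
    (h : (quot ρ W hW x - 1) * (quot ρ W hW y - 1) = 0) :
    ∀ v, ((ρ x - 1) * (ρ y - 1)) v ∈ W := by
  intro v
  have h1 := LinearMap.congr_fun h (W.mkQ v)
  exact (Submodule.Quotient.mk_eq_zero W).1 h1

end constr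

section dec
variable {V : Type} [AddCommGroup V] [Module K V]

/-- stability can be checked on the generators -/
theorem stable_of (ρ : G →* Module.End K V)
    (hcl : Subgroup.closure ({x | ∃ j < 2 * g, x = c j} ∪ {x | ∃ m < g, x = a m}) = ⊤)
    (hO : ORel g (op ρ c) (op ρ a)) {W : Submodule K V}
    (h1 : ∀ j < 2 * g, ∀ w ∈ W, op ρ c j w ∈ W) (h2 : ∀ m < g, ∀ w ∈ W, op ρ a m w ∈ W) :
    Stable ρ W := by
  have key : ∀ z : G, (∀ v, (ρ z - 1) ((ρ z - 1) v) = 0) → (∀ w ∈ W, (ρ z - 1) w ∈ W) →
      ∀ w ∈ W, ρ z w ∈ W ∧ ρ z⁻¹ w ∈ W := by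
    intro z hz h w hw
    have e : ρ z w = w + (ρ z - 1) w := by
      rw [LinearMap.sub_apply, Module.End.one_apply]; abel
    have e2 : ρ z⁻¹ w = w - (ρ z - 1) w := by
      have h3 : ρ z (w - (ρ z - 1) w) = w := by
        have h4 := hz w
        rw [LinearMap.sub_apply, Module.End.one_apply, sub_eq_zero] at h4
        rw [map_sub, h4, LinearMap.sub_apply, Module.End.one_apply]
        abel
      calc ρ z⁻¹ w = ρ z⁻¹ (ρ z (w - (ρ z - 1) w)) := by rw [h3]
        _ = w - (ρ z - 1) w := by
          rw [← Module.End.mul_apply, ← map_mul, inv_mul_cancel, map_one, Module.End.one_apply]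
    constructor
    · rw [e]
      exact W.add_mem hw (h w hw)
    · rw [e2]
      exact W.sub_mem hw (h w hw)
  intro y
  have hy : y ∈ Subgroup.closure ({x | ∃ j < 2 * g, x = c j} ∪ {x | ∃ m < g, x = a m}) := by
    rw [hcl]
    trivial
  have main : ∀ w ∈ W, ρ y w ∈ W ∧ ρ y⁻¹ w ∈ W := by
    induction hy using Subgroup.closure_induction with
    | mem z hz =>
      rcases hz with ⟨j, hj, rfl⟩ | ⟨m, hm, rfl⟩
      · exact key _ (hO.sq j hj) (h1 j hj)
      · exact key _ (hO.sqA m hm) (h2 m hm)
    | one =>
      intro w hw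
      rw [inv_one, map_one]
      exact ⟨hw, hw⟩
    | mul z z' _ _ h1 h2 =>
      intro w hw
      rw [mul_inv_rev, map_mul, map_mul, Module.End.mul_apply, Module.End.mul_apply]
      exact ⟨(h1 _ (h2 w hw).1).1, (h2 _ (h1 w hw).2).2⟩
    | inv z _ h1 =>
      intro w hw
      rw [inv_inv]
      exact ⟨(h1 w hw).2, (h1 w hw).1⟩
  exact fun w hw => (main w hw).1

/-- representations of dimension more than `2 g` decompose -/
theorem dec2 [FiniteDimensional K V] (hg : 3 ≤ g) (hR : GrpRel g c a)
    (hcl : Subgroup.closure ({x | ∃ j < 2 * g, x = c j} ∪ {x | ∃ m < g, x = a m}) = ⊤)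
    (h2 : ((2 * g - 2 : ℕ) : K) ≠ 0) (ρ : G →* Module.End K V)
    (h0 : (ρ (c 0) - 1) * (ρ (c 0) - 1) = 0) (h1 : (ρ (a 1) - 1) * (ρ (c 0) - 1) = 0)
    (hdim : 2 * g < finrank K V) :
    ∃ W1 W2 : Submodule K V, Stable ρ W1 ∧ Stable ρ W2 ∧ W1 ≠ ⊥ ∧ W2 ≠ ⊥ ∧ IsCompl W1 W2 := by
  classical
  have L := leaves.{0}
  have hO := L.orel g G K V c a ρ hg hR.lick h0 h1
  have D := decomp L hg hR h2 ρ h0 h1
  have s0 : Stable ρ (V0 g (op ρ c) (op ρ a)) := by
    refine stable_of ρ hcl hO ?_ ?_
    · intro j hj w hw
      rw [hw.1 j hj]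
      exact Submodule.zero_mem _
    · intro m hm w hw
      rw [hw.2 m hm]
      exact Submodule.zero_mem _
  have s1 : Stable ρ (V1 g (op ρ c) (op ρ a)) := by
    refine stable_of ρ hcl hO ?_ ?_
    · intro j hj w _
      exact Submodule.subset_span ⟨w, Or.inl ⟨j, hj, rfl⟩⟩
    · intro m hm w _
      exact Submodule.subset_span ⟨w, Or.inr ⟨m, hm, rfl⟩⟩
  by_cases e0 : V0 g (op ρ c) (op ρ a) = ⊥
  · -- copies of homology
    obtain ⟨m, y, hy, hli, hsp⟩ := D.bas
    have htop : V1 g (op ρ c) (op ρ a) = ⊤ := by
      have := D.compl.sup_eq_top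
      rwa [e0, bot_sup_eq] at this
    rw [htop] at hsp
    set v : Fin m × Fin (2 * g) → V := fun p => wl (op ρ c) p.2 (y p.1) with hv
    have hcard : finrank K V = m * (2 * g) := by
      have h3 := finrank_span_eq_card hli
      rw [← hsp, finrank_top] at h3
      rw [h3, Fintype.card_prod, Fintype.card_fin, Fintype.card_fin]
    have hm : 2 ≤ m := by
      by_contra hcon
      have : m * (2 * g) ≤ 1 * (2 * g) := Nat.mul_le_mul_right _ (by omega)
      omega
    let i0 : Fin m := ⟨0, by omega⟩
    have hst : ∀ S : Set (Fin m), Stable ρ (Submodule.span K (v '' {p | p.1 ∈ S})) := by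
      intro S
      have hmem : ∀ k ∈ S, ∀ j, (h : j < 2 * g) → wl (op ρ c) j (y k) ∈
          Submodule.span K (v '' {p | p.1 ∈ S}) := fun k hk j h =>
        Submodule.subset_span ⟨(k, ⟨j, h⟩), hk, rfl⟩
      refine stable_of ρ hcl hO ?_ ?_
      · intro i hi w hw
        induction hw using Submodule.span_induction with
        | mem w hw =>
          obtain ⟨⟨k, j⟩, hk, rfl⟩ := hw
          have hV := (L.bas g K _ _ _ hg hO).1 (y k) (hy k)
          show op ρ c i (wl (op ρ c) j (y k)) ∈ _
          by_cases h3 : i = j + 1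
          · subst h3
            have h4 := hV.up j hi
            rw [h4]
            exact Submodule.neg_mem _ (hmem k hk _ hi)
          · by_cases h4 : (j : ℕ) = i + 1
            · have h5 := hV.dn i (by omega)
              rw [h4, h5]
              exact hmem k hk _ hi
            · have h5 := hV.fr i hi j j.2 h3 h4
              rw [h5]
              exact Submodule.zero_mem _
        | zero => rw [map_zero]; exact Submodule.zero_mem _
        | add x z _ _ hx hz => rw [map_add]; exact Submodule.add_mem _ hx hz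
        | smul t x _ hx => rw [map_smul]; exact Submodule.smul_mem _ _ hx
      · intro i hi w hw
        induction hw using Submodule.span_induction with
        | mem w hw =>
          obtain ⟨⟨k, j⟩, hk, rfl⟩ := hw
          have hV := (L.bas g K _ _ _ hg hO).1 (y k) (hy k)
          show op ρ a i (wl (op ρ c) j (y k)) ∈ _
          by_cases h3 : (j : ℕ) = 2 * i + 1
          · have h4 := hV.Ab i hi
            rw [h3, h4, D.al (y k) (hy k) i hi, zero_add]
            refine Submodule.sum_mem _ fun l hl => hmem k hk _ ?_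
            have := Finset.mem_range.1 hl
            omega
          · have h5 := hV.Aw i hi j j.2 h3
            rw [h5]
            exact Submodule.zero_mem _
        | zero => rw [map_zero]; exact Submodule.zero_mem _
        | add x z _ _ hx hz => rw [map_add]; exact Submodule.add_mem _ hx hz
        | smul t x _ hx => rw [map_smul]; exact Submodule.smul_mem _ _ hx
    have hne : ∀ (S : Set (Fin m)) (k : Fin m), k ∈ S →
        Submodule.span K (v '' {p | p.1 ∈ S}) ≠ ⊥ := by
      intro S k hk h
      have h3 : v (k, ⟨0, by omega⟩) ∈ Submodule.span K (v '' {p | p.1 ∈ S}) :=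
        Submodule.subset_span ⟨_, hk, rfl⟩
      rw [h, Submodule.mem_bot] at h3
      exact hli.ne_zero _ h3
    refine ⟨Submodule.span K (v '' {p | p.1 ∈ ({i0} : Set (Fin m))}),
      Submodule.span K (v '' {p | p.1 ∈ ({i0}ᶜ : Set (Fin m))}), hst _, hst _,
      hne _ i0 rfl, hne _ ⟨1, by omega⟩ ?_, ?_, ?_⟩
    · intro h
      have := congrArg Fin.val (Set.mem_singleton_iff.1 h)
      simp [i0] at this
    · exact hli.disjoint_span_image (Set.disjoint_left.2 fun p h4 h5 => h5 h4)
    · rw [codisjoint_iff, ← Submodule.span_union, ← Set.image_union]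
      have : ({p : Fin m × Fin (2 * g) | p.1 ∈ ({i0} : Set (Fin m))} ∪
          {p | p.1 ∈ ({i0}ᶜ : Set (Fin m))}) = Set.univ := by
        ext p
        simp only [Set.mem_union, Set.mem_ofPred_eq, Set.mem_univ, iff_true]
        exact Classical.em _
      rw [this, Set.image_univ]
      exact hsp.symm
  · by_cases e1 : V1 g (op ρ c) (op ρ a) = ⊥
    · -- trivial action
      have htop : V0 g (op ρ c) (op ρ a) = ⊤ := by
        have := D.compl.sup_eq_top
        rwa [e1, sup_bot_eq] at this
      have hall : ∀ W : Submodule K V, Stable ρ W := by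
        intro W
        refine stable_of ρ hcl hO ?_ ?_
        · intro j hj w _
          have h3 : w ∈ V0 g (op ρ c) (op ρ a) := by rw [htop]; trivial
          rw [h3.1 j hj]
          exact W.zero_mem
        · intro m hm w _
          have h3 : w ∈ V0 g (op ρ c) (op ρ a) := by rw [htop]; trivial
          rw [h3.2 m hm]
          exact W.zero_mem
      have : Nontrivial V := Module.nontrivial_of_finrank_pos (R := K) (by omega)
      obtain ⟨v, hv⟩ := exists_ne (0 : V)
      obtain ⟨W, hW⟩ := Submodule.exists_isCompl (Submodule.span K {v})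
      refine ⟨Submodule.span K {v}, W, hall _, hall _, ?_, ?_, hW⟩
      · intro h
        exact hv (Submodule.span_singleton_eq_bot.1 h)
      · rintro rfl
        have h3 := hW.sup_eq_top
        rw [sup_bot_eq] at h3
        have h4 := finrank_span_singleton (K := K) hv
        rw [h3, finrank_top] at h4
        omega
    · exact ⟨_, _, s0, s1, e0, e1, D.compl⟩

end dec

open Pool.Agent.TH35.MG (HRel)

/-- extensions of representations in which the two elements vanish -/
theorem ext_zero (hg : 18 ≤ g) (hR : GrpRel g c a)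
    (hcl : Subgroup.closure ({x | ∃ j < 2 * g, x = c j} ∪ {x | ∃ m < g, x = a m}) = ⊤)
    {A B al be T : ℕ → G} {tau : G} (r : HRel (g - 3) A B al be T tau) (hA0 : A 0 = c 0)
    (hA1 : A 1 = a 1) (h2 : ((2 * g - 2 : ℕ) : K) ≠ 0) (n : ℕ) :
    ∀ (V : Type) [AddCommGroup V] [Module K V] [FiniteDimensional K V] (ρ : G →* Module.End K V)
      (P : Submodule K V), finrank K V = n → Stable ρ P →
      (∀ v ∈ P, ((ρ (c 0) - 1) * (ρ (c 0) - 1)) v = 0 ∧ ((ρ (a 1) - 1) * (ρ (c 0) - 1)) v = 0) →
      (∀ v, ((ρ (c 0) - 1) * (ρ (c 0) - 1)) v ∈ P ∧ ((ρ (a 1) - 1) * (ρ (c 0) - 1)) v ∈ P) →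
      (ρ (c 0) - 1) * (ρ (c 0) - 1) = 0 ∧ (ρ (a 1) - 1) * (ρ (c 0) - 1) = 0 := by
  have hch : 4 * g < (g - 5).choose 2 := by
    obtain ⟨m, rfl⟩ : ∃ m, g = m + 18 := ⟨g - 18, by omega⟩
    rw [Nat.choose_two_right, show m + 18 - 5 = m + 13 by omega,
      show m + 13 - 1 = m + 12 by omega, Nat.lt_iff_add_one_le, Nat.le_div_iff_mul_le (by norm_num)]
    nlinarith
  induction n using Nat.strong_induction_on with
  | _ n ih =>
    intro V _ _ _ ρ P hn hP h3 h4
    rcases Nat.lt_or_ge n ((g - 5).choose 2) with hlt | hge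
    · have h5 := Small.small r (by omega) ρ (by
        rw [hn, show g - 3 - 2 = g - 5 by omega]
        exact hlt)
      rw [hA0, hA1] at h5
      exact h5
    · have hsum := Submodule.finrank_quotient_add_finrank P
      rcases Nat.lt_or_ge (2 * g) (finrank K P) with hbig | hsmall
      · obtain ⟨W1, W2, s1, s2, n1, n2, hc⟩ := dec2 (by omega) hR hcl h2 (restr ρ P hP)
          (restr_zero fun w hw => (h3 w hw).1) (restr_zero fun w hw => (h3 w hw).2) hbig
        have key : ∀ W : Submodule K P, Stable (restr ρ P hP) W → W ≠ ⊥ →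
            ∀ v, ((ρ (c 0) - 1) * (ρ (c 0) - 1)) v ∈ W.map P.subtype ∧
              ((ρ (a 1) - 1) * (ρ (c 0) - 1)) v ∈ W.map P.subtype := by
          intro W hW hne
          have hs : Stable ρ (W.map P.subtype) := by
            rintro x _ ⟨w, hw, rfl⟩
            exact ⟨restr ρ P hP x w, hW x w hw, rfl⟩
          have hne' : W.map P.subtype ≠ ⊥ := by
            intro h5
            apply hne
            rw [Submodule.eq_bot_iff]
            intro w hw
            have h6 : P.subtype w ∈ W.map P.subtype := ⟨w, hw, rfl⟩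
            rw [h5, Submodule.mem_bot] at h6
            exact P.subtype_injective (h6.trans (map_zero _).symm)
          have hlt : finrank K (V ⧸ W.map P.subtype) < n := by
            have h5 := Submodule.finrank_quotient_add_finrank (W.map P.subtype)
            have h6 : 0 < finrank K (W.map P.subtype) := by
              rw [Nat.pos_iff_ne_zero]
              intro h7
              exact hne' (Submodule.finrank_eq_zero.1 h7)
            omega
          have h5 := ih _ hlt (V ⧸ W.map P.subtype) (quot ρ _ hs) (P.map (W.map P.subtype).mkQ)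
            rfl (by
              rintro x _ ⟨v, hv, rfl⟩
              exact ⟨ρ x v, hP x v hv, rfl⟩) (by
              rintro _ ⟨v, hv, rfl⟩
              constructor
              · change (W.map P.subtype).mkQ (((ρ (c 0) - 1) * (ρ (c 0) - 1)) v) = 0
                rw [(h3 v hv).1, map_zero]
              · change (W.map P.subtype).mkQ (((ρ (a 1) - 1) * (ρ (c 0) - 1)) v) = 0
                rw [(h3 v hv).2, map_zero]) (by
              intro z
              obtain ⟨v, rfl⟩ := Submodule.mkQ_surjective _ z
              exact ⟨⟨_, (h4 v).1, rfl⟩, ⟨_, (h4 v).2, rfl⟩⟩)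
          exact fun v => ⟨of_quot_zero h5.1 v, of_quot_zero h5.2 v⟩
        have hdis : ∀ v, v ∈ W1.map P.subtype → v ∈ W2.map P.subtype → v = 0 := by
          rintro _ ⟨w1, hw1, rfl⟩ ⟨w2, hw2, h5⟩
          have h6 : w2 = w1 := P.subtype_injective h5
          subst h6
          have h7 := Submodule.disjoint_def.1 hc.disjoint w2 hw1 hw2
          rw [h7, map_zero]
        constructor
        · ext v
          exact hdis _ (key W1 s1 n1 v).1 (key W2 s2 n2 v).1
        · ext v
          exact hdis _ (key W1 s1 n1 v).2 (key W2 s2 n2 v).2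
      · have hbig : 2 * g < finrank K (V ⧸ P) := by omega
        obtain ⟨W1, W2, s1, s2, n1, n2, hc⟩ := dec2 (by omega) hR hcl h2 (quot ρ P hP)
          (quot_zero fun v => (h4 v).1) (quot_zero fun v => (h4 v).2) hbig
        have key : ∀ W : Submodule K (V ⧸ P), Stable (quot ρ P hP) W → W ≠ ⊤ →
            ∀ v ∈ W.comap P.mkQ, ((ρ (c 0) - 1) * (ρ (c 0) - 1)) v = 0 ∧
              ((ρ (a 1) - 1) * (ρ (c 0) - 1)) v = 0 := by
          intro W hW hne
          have hs : Stable ρ (W.comap P.mkQ) := by
            intro x w hw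
            exact hW x _ hw
          have hne' : W.comap P.mkQ ≠ ⊤ := by
            intro h5
            apply hne
            rw [eq_top_iff]
            intro z _
            obtain ⟨v, rfl⟩ := Submodule.mkQ_surjective _ z
            have : v ∈ W.comap P.mkQ := by rw [h5]; trivial
            exact this
          have hlt : finrank K (W.comap P.mkQ) < n := by
            rw [← hn]
            exact Submodule.finrank_lt hne'
          have h5 := ih _ hlt (W.comap P.mkQ) (restr ρ _ hs) (P.comap (W.comap P.mkQ).subtype)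
            rfl (by
              intro x w hw
              exact hP x _ hw) (by
              intro w hw
              constructor
              · apply Subtype.ext
                exact (h3 _ hw).1
              · apply Subtype.ext
                exact (h3 _ hw).2) (by
              intro w
              exact ⟨(h4 _).1, (h4 _).2⟩)
          exact fun v hv => ⟨of_restr_zero h5.1 v hv, of_restr_zero h5.2 v hv⟩
        have t1 : W1 ≠ ⊤ := by
          rintro rfl
          have := hc.inf_eq_bot
          rw [top_inf_eq] at this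
          exact n2 this
        have t2 : W2 ≠ ⊤ := by
          rintro rfl
          have := hc.inf_eq_bot
          rw [inf_top_eq] at this
          exact n1 this
        have hsup : ∀ v : V, ∃ v1 ∈ W1.comap P.mkQ, ∃ v2 ∈ W2.comap P.mkQ, v1 + v2 = v := by
          intro v
          have h5 : P.mkQ v ∈ W1 ⊔ W2 := by rw [hc.sup_eq_top]; trivial
          obtain ⟨z1, hz1, z2, hz2, h6⟩ := Submodule.mem_sup.1 h5
          obtain ⟨v1, rfl⟩ := Submodule.mkQ_surjective _ z1
          refine ⟨v1, hz1, v - v1, ?_, by abel⟩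
          show P.mkQ (v - v1) ∈ W2
          rw [map_sub, ← h6, add_sub_cancel_left]
          exact hz2
        constructor
        · ext v
          obtain ⟨v1, hv1, v2, hv2, rfl⟩ := hsup v
          rw [map_add, (key W1 s1 t1 v1 hv1).1, (key W2 s2 t2 v2 hv2).1, add_zero]
          rfl
        · ext v
          obtain ⟨v1, hv1, v2, hv2, rfl⟩ := hsup v
          rw [map_add, (key W1 s1 t1 v1 hv1).2, (key W2 s2 t2 v2 hv2).2, add_zero]
          rfl

end Pool.Agent.U379.TR.Ext
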