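import Mathlib
import Pool.Agent.N66.TA.K0
import Pool.Agent.N66.TA.EX

set_option autoImplicit false

/-!
# The push of the last handle is a product of twists

The automorphism `hal g (g - 1) (g - 4)` of the free group, which pushes the last handle along
`a_{g-4}⁻¹`, satisfies
`Q_2 S_1 S_0 al A_0^2 = (A_3 B_3 T_2)^4 Q_2 S_1 S_0` (the indices are relative to `g - 4`).
The verification is a computation in the free group on eight letters.
-/

namespace Pool.Agent.U379.TR.Win

open Pool.Agent.H29R2.MG Pool.Agent.H798R3.MG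

/-- words in eight letters -/
abbrev Wd8 : Type := List (Fin 8 × Bool)

/-- the images of the eight letters -/
abbrev Dat : Type := List Wd8

/-- the image of a letter -/
def look (f : Dat) (x : Fin 8) : Wd8 := f.getD x.val []

/-- the image of a word -/
def app (f : Dat) (L : Wd8) : Wd8 :=
  FreeGroup.reduce (L.flatMap (fun x => if x.2 then look f x.1 else FreeGroup.invRev (look f x.1)))

/-- the composition -/
def cmp (f h : Dat) : Dat := h.map (app f)

def dA0 : Dat :=
   [[(0, true)],
    [(1, true), (0, true)],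
    [(2, true)],
    [(3, true)],
    [(4, true)],
    [(5, true)],
    [(6, true)],
    [(7, true)]]

def dA1 : Dat :=
   [[(0, true)],
    [(1, true)],
    [(2, true)],
    [(3, true), (2, true)],
    [(4, true)],
    [(5, true)],
    [(6, true)],
    [(7, true)]]

def dA2 : Dat :=
   [[(0, true)],
    [(1, true)],
    [(2, true)],
    [(3, true)],
    [(4, true)],
    [(5, true), (4, true)],
    [(6, true)],
    [(7, true)]]

def dA3 : Dat :=
   [[(0, true)],
    [(1, true)],
    [(2, true)],
    [(3, true)],
    [(4, true)],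
    [(5, true)],
    [(6, true)],
    [(7, true), (6, true)]]

def dB0 : Dat :=
   [[(0, true), (1, false)],
    [(1, true)],
    [(2, true)],
    [(3, true)],
    [(4, true)],
    [(5, true)],
    [(6, true)],
    [(7, true)]]

def dB1 : Dat :=
   [[(0, true)],
    [(1, true)],
    [(2, true), (3, false)],
    [(3, true)],
    [(4, true)],
    [(5, true)],
    [(6, true)],
    [(7, true)]]

def dB2 : Dat :=
   [[(0, true)],
    [(1, true)],
    [(2, true)],
    [(3, true)],
    [(4, true), (5, false)],
    [(5, true)],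
    [(6, true)],
    [(7, true)]]

def dB3 : Dat :=
   [[(0, true)],
    [(1, true)],
    [(2, true)],
    [(3, true)],
    [(4, true)],
    [(5, true)],
    [(6, true), (7, false)],
    [(7, true)]]

def dT0 : Dat :=
   [[(1, true), (0, false), (1, false), (2, false), (1, true), (0, true), (1, false), (0, true), (1, true), (0, false), (1, false), (2, true), (1, true), (0, true), (1, false)],
    [(1, true), (0, true), (1, true), (0, false), (1, false), (2, true), (1, true), (0, true), (1, false)],
    [(2, false), (1, true), (0, true), (1, false), (0, false), (1, true), (0, false), (1, false), (2, true), (1, true), (0, true), (1, false), (0, true), (1, true), (0, false), (1, false), (2, true)],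
    [(3, true), (1, true), (0, true), (1, false), (0, true), (1, true), (0, false), (1, false), (2, true)],
    [(4, true)],
    [(5, true)],
    [(6, true)],
    [(7, true)]]

def dT1 : Dat :=
   [[(0, true)],
    [(1, true)],
    [(3, true), (2, false), (3, false), (4, false), (3, true), (2, true), (3, false), (2, true), (3, true), (2, false), (3, false), (4, true), (3, true), (2, true), (3, false)],
    [(3, true), (2, true), (3, true), (2, false), (3, false), (4, true), (3, true), (2, true), (3, false)],
    [(4, false), (3, true), (2, true), (3, false), (2, false), (3, true), (2, false), (3, false), (4, true), (3, true), (2, true), (3, false), (2, true), (3, true), (2, false), (3, false), (4, true)],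
    [(5, true), (3, true), (2, true), (3, false), (2, true), (3, true), (2, false), (3, false), (4, true)],
    [(6, true)],
    [(7, true)]]

def dT2 : Dat :=
   [[(0, true)],
    [(1, true)],
    [(2, true)],
    [(3, true)],
    [(5, true), (4, false), (5, false), (6, false), (5, true), (4, true), (5, false), (4, true), (5, true), (4, false), (5, false), (6, true), (5, true), (4, true), (5, false)],
    [(5, true), (4, true), (5, true), (4, false), (5, false), (6, true), (5, true), (4, true), (5, false)],
    [(6, false), (5, true), (4, true), (5, false), (4, false), (5, true), (4, false), (5, false), (6, true), (5, true), (4, true), (5, false), (4, true), (5, true), (4, false), (5, false), (6, true)],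
    [(7, true), (5, true), (4, true), (5, false), (4, true), (5, true), (4, false), (5, false), (6, true)]]

def dL : Dat :=
   [[(7, true), (6, true), (7, false), (6, false), (0, true), (6, true), (7, true), (6, false), (7, false)],
    [(7, true), (6, true), (7, false), (6, false), (0, false), (6, true), (7, true), (6, false), (7, false), (0, true), (1, true), (6, true), (7, true), (6, false), (7, false)],
    [(7, true), (6, true), (7, false), (6, false), (0, false), (6, true), (7, true), (6, false), (7, false), (0, true), (2, true), (0, false), (7, true), (6, true), (7, false), (6, false), (0, true), (6, true), (7, true), (6, false), (7, false)],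
    [(7, true), (6, true), (7, false), (6, false), (0, false), (6, true), (7, true), (6, false), (7, false), (0, true), (3, true), (0, false), (7, true), (6, true), (7, false), (6, false), (0, true), (6, true), (7, true), (6, false), (7, false)],
    [(7, true), (6, true), (7, false), (6, false), (0, false), (6, true), (7, true), (6, false), (7, false), (0, true), (4, true), (0, false), (7, true), (6, true), (7, false), (6, false), (0, true), (6, true), (7, true), (6, false), (7, false)],
    [(7, true), (6, true), (7, false), (6, false), (0, false), (6, true), (7, true), (6, false), (7, false), (0, true), (5, true), (0, false), (7, true), (6, true), (7, false), (6, false), (0, true), (6, true), (7, true), (6, false), (7, false)],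
    [(7, true), (6, true), (7, false), (6, false), (0, false), (6, true), (0, true), (6, true), (7, true), (6, false), (7, false)],
    [(7, true), (6, true), (7, false), (6, false), (0, false), (7, true), (0, true), (6, true), (7, true), (6, false), (7, false)]]


def dI : Dat := [[(0, true)], [(1, true)], [(2, true)], [(3, true)], [(4, true)], [(5, true)],
  [(6, true)], [(7, true)]]

/-- the operations -/
inductive Op | A0 | A1 | A2 | A3 | B0 | B1 | B2 | B3 | T0 | T1 | T2 | L
  deriving DecidableEq

open Op

def Op.dat : Op → Dat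
  | A0 => dA0 | A1 => dA1 | A2 => dA2 | A3 => dA3 | B0 => dB0 | B1 => dB1 | B2 => dB2 | B3 => dB3
  | T0 => dT0 | T1 => dT1 | T2 => dT2 | L => dL

/-- the composition of a list of operations, from the left -/
def run (r : Dat) : List Op → Dat
  | [] => r
  | o :: l => run (cmp r o.dat) l

def sgm : List Op :=
  [A2, B2, A2, A2, B2, A2, A2, B2, A2, A2, B2, A2,
   A1, B1, T1, B2, A2, A1, B1, T1, B2, A1, B1, T1, A1, B1, A1,
   A0, B0, T0, B1, A1, A0, B0, T0, B1, A0, B0, T0, A0, B0, A0]

def lhs : List Op := sgm ++ [L, A0, A0]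

def rhs : List Op := [A3, B3, T2, A3, B3, T2, A3, B3, T2, A3, B3, T2] ++ sgm

theorem run_eq : run dI lhs = run dI rhs := by decide +kernel


section sem
variable {g i0 : ℕ}

/-- the values of the letters: `a_i`, `b_i` for `i0 ≤ i < i0 + 4` -/
def X (g i0 : ℕ) (l : Fin 8) : FG g :=
  if l.val % 2 = 0 then ha g (i0 + l.val / 2) else hb g (i0 + l.val / 2)

/-- the value of a word -/
def ev (g i0 : ℕ) (L : Wd8) : FG g := FreeGroup.lift (X g i0) (FreeGroup.mk L)

theorem ev_nil : ev g i0 [] = 1 := by
  unfold ev
  exact map_one _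

theorem ev_cons (x : Fin 8 × Bool) (L : Wd8) :
    ev g i0 (x :: L) = (if x.2 then X g i0 x.1 else (X g i0 x.1)⁻¹) * ev g i0 L := by
  unfold ev
  rw [FreeGroup.lift_mk, FreeGroup.lift_mk, List.map_cons, List.prod_cons]
  rcases x with ⟨l, b⟩
  cases b <;> rfl

theorem ev_append (L L' : Wd8) : ev g i0 (L ++ L') = ev g i0 L * ev g i0 L' := by
  unfold ev
  rw [← FreeGroup.mul_mk, map_mul]

theorem ev_invRev (L : Wd8) : ev g i0 (FreeGroup.invRev L) = (ev g i0 L)⁻¹ := by
  unfold ev
  rw [← FreeGroup.inv_mk, map_inv]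

theorem ev_reduce (L : Wd8) : ev g i0 (FreeGroup.reduce L) = ev g i0 L := by
  unfold ev
  rw [FreeGroup.reduce.self]

/-- the endomorphism `φ` acts on the letters by the data and fixes the other generators -/
structure Rep (g i0 : ℕ) (φ : FG g →* FG g) (f : Dat) : Prop where
  len : f.length = 8
  val : ∀ l, φ (X g i0 l) = ev g i0 (look f l)
  fixa : ∀ m < i0, φ (ha g m) = ha g m
  fixb : ∀ m < i0, φ (hb g m) = hb g m

theorem Rep.app {φ : FG g →* FG g} {f : Dat} (h : Rep g i0 φ f) (L : Wd8) :
    φ (ev g i0 L) = ev g i0 (Win.app f L) := by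
  unfold Win.app
  rw [ev_reduce]
  induction L with
  | nil => rw [List.flatMap_nil, ev_nil, map_one]
  | cons x L ih =>
    rw [List.flatMap_cons, ev_append, ev_cons, map_mul, ih]
    congr 1
    rcases x with ⟨l, b⟩
    cases b
    · simp only [Bool.false_eq_true, if_false]
      rw [map_inv, h.val, ev_invRev]
    · simp only [if_true]
      rw [h.val]

theorem Rep.comp {φ ψ : FG g →* FG g} {f h : Dat} (h1 : Rep g i0 φ f) (h2 : Rep g i0 ψ h) :
    Rep g i0 (φ.comp ψ) (cmp f h) where
  len := by
    unfold cmp
    rw [List.length_map, h2.len]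
  val l := by
    rw [MonoidHom.comp_apply, h2.val, h1.app]
    congr 1
    unfold cmp look
    have hl : l.val < h.length := by rw [h2.len]; exact l.2
    rw [List.getD_eq_getElem _ _ hl, List.getD_eq_getElem _ _ (by rwa [List.length_map]),
      List.getElem_map]
  fixa m hm := by rw [MonoidHom.comp_apply, h2.fixa m hm, h1.fixa m hm]
  fixb m hm := by rw [MonoidHom.comp_apply, h2.fixb m hm, h1.fixb m hm]

theorem Rep.ext (hg : g = i0 + 4) {φ ψ : FG g →* FG g} {f : Dat} (h1 : Rep g i0 φ f)
    (h2 : Rep g i0 ψ f) : φ = ψ := by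
  have key : ∀ m < g, φ (ha g m) = ψ (ha g m) ∧ φ (hb g m) = ψ (hb g m) := by
    intro m hm
    rcases Nat.lt_or_ge m i0 with h | h
    · rw [h1.fixa m h, h2.fixa m h, h1.fixb m h, h2.fixb m h]
      exact ⟨rfl, rfl⟩
    · obtain ⟨r, rfl⟩ : ∃ r, m = i0 + r := ⟨m - i0, by omega⟩
      have hr : r < 4 := by omega
      have e1 : ha g (i0 + r) = X g i0 ⟨2 * r, by omega⟩ := by
        unfold X
        rw [if_pos (by show (2 * r) % 2 = 0; omega)]
        congr 2
        show r = 2 * r / 2
        omega
      have e2 : hb g (i0 + r) = X g i0 ⟨2 * r + 1, by omega⟩ := by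
        unfold X
        rw [if_neg (by show ¬ ((2 * r + 1) % 2 = 0); omega)]
        congr 2
        show r = (2 * r + 1) / 2
        omega
      rw [e1, e2, h1.val, h2.val, h1.val, h2.val]
      exact ⟨rfl, rfl⟩
  refine Pool.Agent.N66.TA.EX.ext_hom (fun m => ?_) (fun m => ?_)
  · have := (key m.val m.2).1
    rwa [show ha g m.val = fa m from dif_pos m.2] at this
  · have := (key m.val m.2).2
    rwa [show hb g m.val = fb m from dif_pos m.2] at this

/-- the endomorphism of an operation -/
def Op.f (g i0 : ℕ) : Op → (FG g →* FG g)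
  | A0 => hA g (i0 + 0) | A1 => hA g (i0 + 1) | A2 => hA g (i0 + 2) | A3 => hA g (i0 + 3)
  | B0 => hB g (i0 + 0) | B1 => hB g (i0 + 1) | B2 => hB g (i0 + 2) | B3 => hB g (i0 + 3)
  | T0 => hT g (i0 + 0) (i0 + 0 + 1) | T1 => hT g (i0 + 1) (i0 + 1 + 1)
  | T2 => hT g (i0 + 2) (i0 + 2 + 1)
  | L => hal g (i0 + 3) (i0 + 0)

theorem ends_ha (f h : ℕ → FG g → FG g) {m : ℕ} (hm : m < g) :
    ends g f h (ha g m) = f m (ha g m) := by
  rw [show ha g m = fa ⟨m, hm⟩ from dif_pos hm]
  exact Pool.Agent.N66.TA.EX.ends_fa f h ⟨m, hm⟩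

theorem ends_hb (f h : ℕ → FG g → FG g) {m : ℕ} (hm : m < g) :
    ends g f h (hb g m) = h m (hb g m) := by
  rw [show hb g m = fb ⟨m, hm⟩ from dif_pos hm]
  exact Pool.Agent.N66.TA.EX.ends_fb f h ⟨m, hm⟩

theorem De_one (i : ℕ) : De g i (i + 1) = dd g i := by
  unfold De
  rw [Nat.add_sub_cancel_left]
  simp [List.range']

theorem rep_A (hg : g = i0 + 4) : Rep g i0 (Op.f g i0 A0) dA0 ∧ Rep g i0 (Op.f g i0 A1) dA1 ∧
    Rep g i0 (Op.f g i0 A2) dA2 ∧ Rep g i0 (Op.f g i0 A3) dA3 := by
  refine ⟨⟨rfl, ?_, ?_, ?_⟩, ⟨rfl, ?_, ?_, ?_⟩, ⟨rfl, ?_, ?_, ?_⟩, ⟨rfl, ?_, ?_, ?_⟩⟩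
  all_goals
    first
    | (intro m hm
       simp only [Op.f, hA]
       first
       | rw [ends_ha _ _ (by omega)]
       | (rw [ends_hb _ _ (by omega), if_neg (by omega)]))
    | (intro l
       fin_cases l <;>
       simp [Op.f, hA, X, look, dA0, dA1, dA2, dA3, ev_cons, ev_nil, ends_ha, ends_hb, hg])

theorem rep_B (hg : g = i0 + 4) : Rep g i0 (Op.f g i0 B0) dB0 ∧ Rep g i0 (Op.f g i0 B1) dB1 ∧
    Rep g i0 (Op.f g i0 B2) dB2 ∧ Rep g i0 (Op.f g i0 B3) dB3 := by
  refine ⟨⟨rfl, ?_, ?_, ?_⟩, ⟨rfl, ?_, ?_, ?_⟩, ⟨rfl, ?_, ?_, ?_⟩, ⟨rfl, ?_, ?_, ?_⟩⟩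
  all_goals
    first
    | (intro m hm
       simp only [Op.f, hB]
       first
       | rw [ends_hb _ _ (by omega)]
       | (rw [ends_ha _ _ (by omega), if_neg (by omega)]))
    | (intro l
       fin_cases l <;>
       simp [Op.f, hB, X, look, dB0, dB1, dB2, dB3, ev_cons, ev_nil, ends_ha, ends_hb, hg])

theorem rep_T0 (hg : g = i0 + 4) : Rep g i0 (Op.f g i0 T0) dT0 := by
  refine ⟨rfl, ?_, ?_, ?_⟩
  · intro l
    fin_cases l <;>
    simp [Op.f, hT, X, look, dT0, ev_cons, ev_nil, ends_ha, ends_hb, hg, uT, pT, De_one, dd] <;>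
    group
  · intro m hm
    simp only [Op.f, hT]
    rw [ends_ha _ _ (by omega), if_neg (by omega), if_neg (by omega)]
  · intro m hm
    simp only [Op.f, hT]
    rw [ends_hb _ _ (by omega), if_neg (by omega), if_neg (by omega)]

theorem rep_T1 (hg : g = i0 + 4) : Rep g i0 (Op.f g i0 T1) dT1 := by
  refine ⟨rfl, ?_, ?_, ?_⟩
  · intro l
    fin_cases l <;>
    simp [Op.f, hT, X, look, dT1, ev_cons, ev_nil, ends_ha, ends_hb, hg, uT, pT, De_one, dd,
      show ¬ (i0 = i0 + 2) by omega] <;>
    group
  · intro m hm
    simp only [Op.f, hT]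
    rw [ends_ha _ _ (by omega), if_neg (by omega), if_neg (by omega)]
  · intro m hm
    simp only [Op.f, hT]
    rw [ends_hb _ _ (by omega), if_neg (by omega), if_neg (by omega)]

theorem rep_T2 (hg : g = i0 + 4) : Rep g i0 (Op.f g i0 T2) dT2 := by
  refine ⟨rfl, ?_, ?_, ?_⟩
  · intro l
    fin_cases l <;>
    simp [Op.f, hT, X, look, dT2, ev_cons, ev_nil, ends_ha, ends_hb, hg, uT, pT, De_one, dd,
      show ¬ (i0 = i0 + 3) by omega] <;>
    group
  · intro m hm
    simp only [Op.f, hT]
    rw [ends_ha _ _ (by omega), if_neg (by omega), if_neg (by omega)]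
  · intro m hm
    simp only [Op.f, hT]
    rw [ends_hb _ _ (by omega), if_neg (by omega), if_neg (by omega)]

theorem rep_L (hg : g = i0 + 4) : Rep g i0 (Op.f g i0 L) dL := by
  refine ⟨rfl, ?_, ?_, ?_⟩
  · intro l
    fin_cases l <;>
    simp [Op.f, hal, X, look, dL, ev_cons, ev_nil, ends_ha, ends_hb, hg, dd] <;>
    group
  · intro m hm
    simp only [Op.f, hal]
    rw [ends_ha _ _ (by omega), if_pos (by omega)]
  · intro m hm
    simp only [Op.f, hal]
    rw [ends_hb _ _ (by omega), if_pos (by omega)]

theorem rep_op (hg : g = i0 + 4) (o : Op) : Rep g i0 (o.f g i0) o.dat := by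
  cases o
  · exact (rep_A hg).1
  · exact (rep_A hg).2.1
  · exact (rep_A hg).2.2.1
  · exact (rep_A hg).2.2.2
  · exact (rep_B hg).1
  · exact (rep_B hg).2.1
  · exact (rep_B hg).2.2.1
  · exact (rep_B hg).2.2.2
  · exact rep_T0 hg
  · exact rep_T1 hg
  · exact rep_T2 hg
  · exact rep_L hg

/-- the composition of a list of operations -/
def cf (g i0 : ℕ) (φ : FG g →* FG g) : List Op → (FG g →* FG g)
  | [] => φ
  | o :: l => cf g i0 (φ.comp (o.f g i0)) l

theorem rep_cf (hg : g = i0 + 4) (l : List Op) : ∀ (φ : FG g →* FG g) (r : Dat), Rep g i0 φ r →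
    Rep g i0 (cf g i0 φ l) (run r l) := by
  induction l with
  | nil => intro φ r h; exact h
  | cons o l ih => intro φ r h; exact ih _ _ (h.comp (rep_op hg o))

theorem rep_id : Rep g i0 (MonoidHom.id (FG g)) dI := by
  refine ⟨rfl, ?_, fun m _ => rfl, fun m _ => rfl⟩
  intro l
  fin_cases l <;> simp [look, dI, ev_cons, ev_nil]

/-- the relation between the endomorphisms -/
theorem cf_eq (hg : g = i0 + 4) :
    cf g i0 (MonoidHom.id (FG g)) lhs = cf g i0 (MonoidHom.id (FG g)) rhs := by
  have h1 := rep_cf hg lhs _ _ (rep_id (g := g) (i0 := i0))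
  have h2 := rep_cf hg rhs _ _ (rep_id (g := g) (i0 := i0))
  rw [← run_eq] at h2
  exact h1.ext hg h2

open Pool.Agent.N66.TA

theorem isEnd_comp {f f' : FG g →* FG g} {φ φ' : MulAut (SurfaceGroup g)} (h : IsEnd f φ)
    (h' : IsEnd f' φ') : IsEnd (f.comp f') (φ * φ') := by
  intro x
  rw [MulAut.mul_apply, h' x, h, MonoidHom.comp_apply]

theorem isEnd_cf (v : Op → MulAut (SurfaceGroup g)) (hv : ∀ o, IsEnd (o.f g i0) (v o))
    (l : List Op) : ∀ (φ : FG g →* FG g) (y : MulAut (SurfaceGroup g)), IsEnd φ y →
      IsEnd (cf g i0 φ l) (y * (l.map v).prod) := by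
  induction l with
  | nil => intro φ y h; rw [List.map_nil, List.prod_nil, mul_one]; exact h
  | cons o l ih =>
    intro φ y h
    rw [List.map_cons, List.prod_cons, ← mul_assoc]
    exact ih _ _ (isEnd_comp h (hv o))

/-- the relation between the automorphisms -/
theorem prod_eq (hg : g = i0 + 4) (v : Op → MulAut (SurfaceGroup g))
    (hv : ∀ o, IsEnd (o.f g i0) (v o)) : (lhs.map v).prod = (rhs.map v).prod := by
  have hid : IsEnd (MonoidHom.id (FG g)) (1 : MulAut (SurfaceGroup g)) := fun x => rfl
  have h1 := isEnd_cf v hv lhs _ _ hid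
  have h2 := isEnd_cf v hv rhs _ _ hid
  rw [one_mul] at h1 h2
  apply K0.mulAut_ext
  intro x
  rw [h1 x, h2 x, cf_eq hg]

/-- the push is in every subgroup containing the twists -/
theorem push_mem (hg : g = i0 + 4) (v : Op → MulAut (SurfaceGroup g))
    (hv : ∀ o, IsEnd (o.f g i0) (v o)) (H : Subgroup (MulAut (SurfaceGroup g)))
    (hH : ∀ o, o ≠ Op.L → v o ∈ H) : v Op.L ∈ H := by
  have h := prod_eq hg v hv
  unfold lhs rhs at h
  rw [List.map_append, List.prod_append, List.map_append, List.prod_append] at h
  have hs : (sgm.map v).prod ∈ H := by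
    apply H.list_prod_mem
    intro x hx
    obtain ⟨o, ho, rfl⟩ := List.mem_map.1 hx
    apply hH
    rintro rfl
    revert ho
    decide
  have hr : (List.map v [A3, B3, T2, A3, B3, T2, A3, B3, T2, A3, B3, T2]).prod ∈ H := by
    apply H.list_prod_mem
    intro x hx
    obtain ⟨o, ho, rfl⟩ := List.mem_map.1 hx
    apply hH
    rintro rfl
    revert ho
    decide
  have hA : v A0 ∈ H := hH _ (by decide)
  simp only [List.map_cons, List.map_nil, List.prod_cons, List.prod_nil, mul_one] at h
  have e : v Op.L = ((sgm.map v).prod)⁻¹ *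
      ((List.map v [A3, B3, T2, A3, B3, T2, A3, B3, T2, A3, B3, T2]).prod * (sgm.map v).prod) *
      (v A0 * v A0)⁻¹ := by
    simp only [List.map_cons, List.map_nil, List.prod_cons, List.prod_nil, mul_one]
    rw [← h]
    group
  rw [e]
  exact H.mul_mem (H.mul_mem (H.inv_mem hs) (H.mul_mem hr hs)) (H.inv_mem (H.mul_mem hA hA))

end sem

end Pool.Agent.U379.TR.Win
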