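import Pool.Agent.U379.TR.Ker

set_option autoImplicit false

/-!
# Matrix units
-/

namespace Pool.Agent.U379.TR.Univ

open Pool.Agent.N66.TA (GrpRel)

section qq
variable {S : Type} [Ring S] {g : ℕ} {N A : ℕ → S}

/-- the span of the `E_ij` over the integers -/
def QQ (g : ℕ) (N : ℕ → S) : Submodule ℤ S :=
  Submodule.span ℤ {x | ∃ i < 2 * g, ∃ j < 2 * g, x = EE N i j}

theorem EE_QQ {i j : ℕ} (hi : i < 2 * g) (hj : j < 2 * g) : EE N i j ∈ QQ g N :=
  Submodule.subset_span ⟨i, hi, j, hj, rfl⟩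

theorem N_QQ (hL : LRel g N A) {i : ℕ} (hi : i < 2 * g) {x : S} (hx : x ∈ QQ g N) :
    N i * x ∈ QQ g N := by
  induction hx using Submodule.span_induction with
  | mem x hx =>
    obtain ⟨j, hj, l, hl, rfl⟩ := hx
    rw [N_EE hL hi hj]
    split_ifs
    · exact Submodule.neg_mem _ (EE_QQ hi hl)
    · exact EE_QQ hi hl
    · exact Submodule.zero_mem _
  | zero => rw [mul_zero]; exact Submodule.zero_mem _
  | add x y _ _ h1 h2 => rw [mul_add]; exact Submodule.add_mem _ h1 h2
  | smul t x _ h1 => rw [mul_smul_comm]; exact Submodule.smul_mem _ _ h1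

theorem W_QQ (hL : LRel g N A) : ∀ i < 2 * g, ∀ x ∈ QQ g N, Wd N i * x ∈ QQ g N := by
  intro i
  induction i with
  | zero => intro hi x hx; exact N_QQ hL hi hx
  | succ i ih =>
    intro hi x hx
    show -(N (i + 1) * Wd N i) * x ∈ _
    rw [neg_mul, mul_assoc]
    exact Submodule.neg_mem _ (N_QQ hL hi (ih (by omega) x hx))

theorem W'_QQ (hL : LRel g N A) : ∀ i < 2 * g, ∀ x ∈ QQ g N, Wd' N i * x ∈ QQ g N := by
  intro i
  induction i with
  | zero =>
    intro hi x hx
    show -N 0 * x ∈ _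
    rw [neg_mul]
    exact Submodule.neg_mem _ (N_QQ hL hi hx)
  | succ i ih =>
    intro hi x hx
    show (Wd' N i * N (i + 1)) * x ∈ _
    rw [mul_assoc]
    exact ih (by omega) _ (N_QQ hL hi hx)

theorem mul_QQ (hL : LRel g N A) (hg : 1 ≤ g) {x y : S} (hx : x ∈ QQ g N) (hy : y ∈ QQ g N) :
    x * y ∈ QQ g N := by
  induction hx using Submodule.span_induction with
  | mem x hx =>
    obtain ⟨i, hi, j, hj, rfl⟩ := hx
    unfold EE
    rw [mul_assoc, mul_assoc]
    exact W_QQ hL i hi _ (N_QQ hL (by omega) (W'_QQ hL j hj _ hy))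
  | zero => rw [zero_mul]; exact Submodule.zero_mem _
  | add x y _ _ h1 h2 => rw [add_mul]; exact Submodule.add_mem _ h1 h2
  | smul t x _ h1 => rw [smul_mul_assoc]; exact Submodule.smul_mem _ _ h1

theorem mem_QQ {x : S} (hx : x ∈ QQ g N) : ∃ t : ℕ → ℕ → ℤ,
    x = ∑ i ∈ Finset.range (2 * g), ∑ j ∈ Finset.range (2 * g), t i j • EE N i j := by
  classical
  induction hx using Submodule.span_induction with
  | mem x hx =>
    obtain ⟨i0, hi0, j0, hj0, rfl⟩ := hx
    refine ⟨fun i j => if i = i0 then (if j = j0 then 1 else 0) else 0, ?_⟩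
    rw [Finset.sum_eq_single i0, Finset.sum_eq_single j0]
    · simp
    · intro j _ hj
      simp [hj]
    · intro h
      exact absurd (Finset.mem_range.2 hj0) h
    · intro i _ hi
      simp [hi]
    · intro h
      exact absurd (Finset.mem_range.2 hi0) h
  | zero => exact ⟨0, by simp⟩
  | add x y _ _ h1 h2 =>
    obtain ⟨t, rfl⟩ := h1
    obtain ⟨t', rfl⟩ := h2
    refine ⟨fun i j => t i j + t' i j, ?_⟩
    simp only [add_smul, Finset.sum_add_distrib]
  | smul r x _ h1 =>
    obtain ⟨t, rfl⟩ := h1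
    refine ⟨fun i j => r * t i j, ?_⟩
    simp only [Finset.smul_sum, mul_smul]

theorem sum_QQ (t : ℕ → ℕ → ℤ) :
    ∑ i ∈ Finset.range (2 * g), ∑ j ∈ Finset.range (2 * g), t i j • EE N i j ∈ QQ g N :=
  Submodule.sum_mem _ fun _ hi => Submodule.sum_mem _ fun _ hj => Submodule.smul_mem _ _
    (EE_QQ (Finset.mem_range.1 hi) (Finset.mem_range.1 hj))

end qq

section span

/-- an integer matrix which is injective modulo all the primes is invertible -/
theorem det_unit {κ : Type} [Fintype κ] [DecidableEq κ] (M : Matrix κ κ ℤ)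
    (h : ∀ p : ℕ, p.Prime → ∀ v : κ → ZMod p,
      (M.map (Int.castRingHom (ZMod p))).mulVec v = 0 → v = 0) : IsUnit M.det := by
  rw [Int.isUnit_iff_natAbs_eq, Nat.eq_one_iff_not_exists_prime_dvd]
  intro p hp hdvd
  have : Fact p.Prime := ⟨hp⟩
  have h1 : (M.map (Int.castRingHom (ZMod p))).det = 0 := by
    have h2 := (Int.castRingHom (ZMod p)).map_det M
    have h3 : (Int.castRingHom (ZMod p)) M.det = 0 := by
      show ((M.det : ℤ) : ZMod p) = 0
      exact (ZMod.intCast_zmod_eq_zero_iff_dvd _ _).2 (Int.natCast_dvd.2 hdvd)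
    rw [h3] at h2
    exact h2.symm
  obtain ⟨v, hv, h2⟩ := Matrix.exists_mulVec_eq_zero_iff.2 h1
  exact hv (h p hp v h2)

variable {g : ℕ} {n : Type} [Fintype n] [DecidableEq n] {N A : ℕ → Matrix n n ℤ}

/-- the `E_ij` span all the matrices -/
theorem span_all (hL : LRel g N A) (hR : RRel g N A) (hg : 1 ≤ g) (hn : Fintype.card n = 2 * g)
    (i0 j0 : n) (hij : N 0 i0 j0 = 1) (X : Matrix n n ℤ) : X ∈ QQ g N := by
  classical
  let ι := Fin (2 * g) × Fin (2 * g)
  let e : n × n ≃ ι := Fintype.equivOfCardEq (by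
    rw [Fintype.card_prod, Fintype.card_prod, hn, Fintype.card_fin])
  let M : Matrix (n × n) (n × n) ℤ := Matrix.of fun x y => EE N (e y).1 (e y).2 x.1 x.2
  have hdet : IsUnit M.det := by
    apply det_unit
    intro p hp v hv
    let q : Matrix n n ℤ →+* Matrix n n (ZMod p) := (Int.castRingHom (ZMod p)).mapMatrix
    let t : ℕ → ℕ → ZMod p := fun i j =>
      if h : i < 2 * g ∧ j < 2 * g then v (e.symm (⟨i, h.1⟩, ⟨j, h.2⟩)) else 0
    have h1 : ∑ i ∈ Finset.range (2 * g), ∑ j ∈ Finset.range (2 * g),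
        t i j • EE (fun j => q (N j)) i j = 0 := by
      ext a b
      have h2 := congrFun hv (a, b)
      rw [Matrix.mulVec, dotProduct] at h2
      rw [← Finset.sum_product', Matrix.sum_apply, Matrix.zero_apply]
      rw [← Equiv.sum_comp e.symm] at h2
      rw [show (0 : (n × n) → ZMod p) (a, b) = 0 from rfl] at h2
      rw [← h2, Fintype.sum_prod_type, Finset.sum_product, ← Fin.sum_univ_eq_sum_range
        (fun i => ∑ j ∈ Finset.range (2 * g), (t i j • EE (fun j => q (N j)) i j) a b)]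
      refine Finset.sum_congr rfl fun i _ => ?_
      rw [← Fin.sum_univ_eq_sum_range (fun j => (t i j • EE (fun j => q (N j)) i j) a b)]
      refine Finset.sum_congr rfl fun j _ => ?_
      have h3 : M (a, b) (e.symm (i, j)) = EE N i j a b := by
        show EE N (e (e.symm (i, j))).1 (e (e.symm (i, j))).2 a b = _
        rw [Equiv.apply_symm_apply]
      have h4 : t i j = v (e.symm (i, j)) := dif_pos ⟨i.2, j.2⟩
      rw [EE_map]
      show t i j * ((EE N i j a b : ℤ) : ZMod p) =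
        ((M (a, b) (e.symm (i, j)) : ℤ) : ZMod p) * v (e.symm (i, j))
      rw [h3, h4, mul_comm]
    have h3 := indep' (hL.map q) (hR.map q) hg t h1
    funext x
    have h4 := h3 (e x).1 (e x).1.2 (e x).2 (e x).2.2
    have h5 := congrFun (congrFun h4 i0) j0
    rw [Matrix.smul_apply, Matrix.zero_apply] at h5
    have h6 : q (N 0) i0 j0 = 1 := by
      show ((N 0 i0 j0 : ℤ) : ZMod p) = 1
      rw [hij, Int.cast_one]
    rw [h6, smul_eq_mul, mul_one] at h5
    have h7 : t (e x).1 (e x).2 = v x := by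
      show (if h : _ then _ else _) = _
      rw [dif_pos ⟨(e x).1.2, (e x).2.2⟩]
      congr 1
      exact e.symm_apply_apply x
    rw [← h7, h5]
    rfl
  have h1 : M.mulVec (M⁻¹.mulVec (fun x => X x.1 x.2)) = fun x => X x.1 x.2 := by
    rw [Matrix.mulVec_mulVec, Matrix.mul_nonsing_inv _ hdet, Matrix.one_mulVec]
  have h2 : X = ∑ y : n × n, (M⁻¹.mulVec (fun x => X x.1 x.2)) y • EE N (e y).1 (e y).2 := by
    ext a b
    have h3 := congrFun h1 (a, b)
    rw [Matrix.mulVec, dotProduct] at h3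
    rw [Matrix.sum_apply]
    refine h3.symm.trans (Finset.sum_congr rfl fun y _ => ?_)
    rw [Matrix.smul_apply, smul_eq_mul, mul_comm]
    rfl
  rw [h2]
  exact Submodule.sum_mem _ fun y _ => Submodule.smul_mem _ _ (EE_QQ (e y).1.2 (e y).2.2)

end span

section main
variable {g : ℕ} {G : Type} [Group G] {c a : ℕ → G} {n : Type} [Fintype n] [DecidableEq n]

/-- the matrix units -/
theorem units (hg : 3 ≤ g) (hR : GrpRel g c a)
    (hcl : Subgroup.closure ({x | ∃ j < 2 * g, x = c j} ∪ {x | ∃ m < g, x = a m}) = ⊤)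
    (σ : G →* Matrix n n ℤ) (hn : Fintype.card n = 2 * g)
    (h0 : (σ (c 0) - 1) * (σ (c 0) - 1) = 0) (h1 : (σ (a 1) - 1) * (σ (c 0) - 1) = 0) (i0 j0 : n)
    (hij : (σ (c 0) - 1) i0 j0 = 1)
    {R : Type} [Ring R] (ρ : G →* R) (hL : LRel g (fun j => ρ (c j) - 1) (fun m => ρ (a m) - 1))
    (hRR : RRel g (fun j => ρ (c j) - 1) (fun m => ρ (a m) - 1)) :
    ∃ e : n → n → R, (∀ i j k l, e i j * e k l = if j = k then e i l else 0) ∧
      ∀ y, ρ y = 1 + ∑ i, ∑ j, (σ y - 1) i j • e i j := by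
  classical
  obtain ⟨hL1, hR1⟩ := rels_int hg hR σ h0 h1
  let N' : ℕ → R × Matrix n n ℤ := fun j => (ρ (c j) - 1, σ (c j) - 1)
  let A' : ℕ → R × Matrix n n ℤ := fun m => (ρ (a m) - 1, σ (a m) - 1)
  have hL2 : LRel g N' A' := LRel.of_two (RingHom.fst R (Matrix n n ℤ))
    (RingHom.snd R (Matrix n n ℤ)) (fun x h h' => Prod.ext h h') hL hL1
  have hE : ∀ i j, EE N' i j = (EE (fun j => ρ (c j) - 1) i j, EE (fun j => σ (c j) - 1) i j) := by
    intro i j
    exact Prod.ext (EE_map (RingHom.fst R (Matrix n n ℤ)) N' i j).symm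
      (EE_map (RingHom.snd R (Matrix n n ℤ)) N' i j).symm
  have hpair : ∀ t : ℕ → ℕ → ℤ, ∑ i ∈ Finset.range (2 * g), ∑ j ∈ Finset.range (2 * g),
      t i j • EE N' i j = (∑ i ∈ Finset.range (2 * g), ∑ j ∈ Finset.range (2 * g),
        t i j • EE (fun j => ρ (c j) - 1) i j, ∑ i ∈ Finset.range (2 * g),
        ∑ j ∈ Finset.range (2 * g), t i j • EE (fun j => σ (c j) - 1) i j) := by
    intro t
    apply Prod.ext
    · simp only [Prod.fst_sum, Prod.smul_fst, hE]
    · simp only [Prod.snd_sum, Prod.smul_snd, hE]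
  -- the graph
  have hex : ∀ X : Matrix n n ℤ, ∃ r : R, (r, X) ∈ QQ g N' := by
    intro X
    obtain ⟨t, ht⟩ := mem_QQ (span_all hL1 hR1 (by omega) hn i0 j0 hij X)
    refine ⟨∑ i ∈ Finset.range (2 * g), ∑ j ∈ Finset.range (2 * g),
      t i j • EE (fun j => ρ (c j) - 1) i j, ?_⟩
    rw [ht, ← hpair]
    exact sum_QQ t
  have huniq : ∀ r : R, (r, (0 : Matrix n n ℤ)) ∈ QQ g N' → r = 0 := by
    intro r hr
    obtain ⟨t, ht⟩ := mem_QQ hr
    rw [hpair] at ht
    have h3 := (Prod.ext_iff.1 ht).2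
    have h4 := indep' hL1 hR1 (by omega) t h3.symm
    have h8 : r = ∑ i ∈ Finset.range (2 * g), ∑ j ∈ Finset.range (2 * g),
        t i j • EE (fun j => ρ (c j) - 1) i j := (Prod.ext_iff.1 ht).1
    rw [h8]
    refine Finset.sum_eq_zero fun i hi => Finset.sum_eq_zero fun j hj => ?_
    have h5 := congrFun (congrFun (h4 i (Finset.mem_range.1 hi) j (Finset.mem_range.1 hj)) i0) j0
    rw [Matrix.smul_apply] at h5
    have h6 : t i j = 0 := by
      have h7 : t i j • (σ (c 0) - 1) i0 j0 = 0 := h5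
      rw [hij, smul_eq_mul, mul_one] at h7
      exact h7
    rw [h6, zero_smul]
  choose e he using fun i j : n => hex (Matrix.single i j 1)
  refine ⟨e, ?_, ?_⟩
  · intro i j k l
    have h3 := mul_QQ hL2 (by omega) (he i j) (he k l)
    rw [Prod.mk_mul_mk] at h3
    by_cases hjk : j = k
    · subst hjk
      rw [if_pos rfl]
      rw [Matrix.single_mul_single_same, one_mul] at h3
      have h4 := Submodule.sub_mem _ h3 (he i l)
      rw [Prod.mk_sub_mk, sub_self] at h4
      exact sub_eq_zero.1 (huniq _ h4)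
    · rw [if_neg hjk]
      rw [Matrix.single_mul_single_of_ne _ _ _ _ hjk] at h3
      exact huniq _ h3
  · intro y
    obtain ⟨t, e1, e2⟩ := expand hg hR hcl σ h0 h1 ρ hL hRR y
    have h3 : (ρ y - 1, σ y - 1) ∈ QQ g N' := by
      have h4 := sum_QQ (g := g) (N := N') t
      rw [hpair] at h4
      rw [e1, e2, add_sub_cancel_left, add_sub_cancel_left]
      exact h4
    have h4 : (∑ i, ∑ j, (σ y - 1) i j • e i j, σ y - 1) ∈ QQ g N' := by
      have h5 : ∑ i, ∑ j, (σ y - 1) i j • (e i j, (Matrix.single i j 1 : Matrix n n ℤ)) ∈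
          QQ g N' :=
        Submodule.sum_mem _ fun i _ => Submodule.sum_mem _ fun j _ =>
          Submodule.smul_mem _ _ (he i j)
      have h6 : ∑ i, ∑ j, (σ y - 1) i j • (e i j, (Matrix.single i j 1 : Matrix n n ℤ)) =
          (∑ i, ∑ j, (σ y - 1) i j • e i j, σ y - 1) := by
        apply Prod.ext
        · simp only [Prod.fst_sum, Prod.smul_fst]
        · simp only [Prod.snd_sum, Prod.smul_snd]
          conv_rhs => rw [Matrix.matrix_eq_sum_single (σ y - 1)]
          refine Finset.sum_congr rfl fun i _ => Finset.sum_congr rfl fun j _ => ?_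
          rw [Matrix.smul_single, smul_eq_mul, mul_one]
      rwa [h6] at h5
    have h5 := Submodule.sub_mem _ h3 h4
    rw [Prod.mk_sub_mk, sub_self] at h5
    have h6 := sub_eq_zero.1 (huniq _ h5)
    rw [← h6]
    abel

end main

end Pool.Agent.U379.TR.Univ
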