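import Pool.Agent.U379.TR.Loc
import Pool.Agent.U379.TR.Str
import Pool.Agent.U379.TR.Lick
import Pool.Agent.Q290.MG.Hom
import Pool.Agent.N66.CQ.Main
import Pool.Agent.U379.PI.G

set_option autoImplicit false

/-!
# Representations of `Mod_g` over rings
-/

namespace Pool.Agent.U379.TR.Fi

open Pool.Agent.H29R2.MG Pool.Agent.TH35.MG Pool.Agent.R352.MG Pool.Agent.R665.MGR
  Pool.Agent.N66.CQ Pool.Agent.U379.PI Pool.Agent.Helper58.EN
open Pool.Agent.Q290.MG (homMat homM hc_aut hc_gen)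
open Pool.Agent.N66.TA (GrpRel)

section hom
variable {g : ℕ}

/-- the matrix of a twist -/
theorem homMat_at {m : ℕ} (hm : m < g) {T : Mod g} (hT : IsTwistAt g m T) :
    homMat g T - 1 = Matrix.single (Sum.inl ⟨m, hm⟩) (Sum.inr ⟨m, hm⟩) 1 := by
  obtain ⟨τ, rfl, h⟩ := hT
  ext i j
  have e : homMat g (classOf g τ) i j = homologyClass (applyAut g τ (gen j)) i := rfl
  rw [Matrix.sub_apply, e, h, Matrix.single_apply, Matrix.one_apply]
  rcases j with l | l
  · show homologyClass (gen (Sum.inl l)) i - _ = _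
    rw [hc_gen, Pi.single_apply, sub_self, if_neg]
    rintro ⟨_, h'⟩
    cases h'
  · show homologyClass (if (l : ℕ) = m then _ else _) i - _ = _
    by_cases hl : (l : ℕ) = m
    · rw [if_pos hl, hc_mul, hc_gen, hc_gen, Pi.add_apply, Pi.single_apply, Pi.single_apply,
        add_sub_cancel_left]
      have hl' : l = ⟨m, hm⟩ := Fin.ext hl
      subst hl'
      simp only [and_true, eq_comm]
    · rw [if_neg hl, hc_gen, Pi.single_apply, sub_self, if_neg]
      rintro ⟨_, h'⟩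
      have := Sum.inr_injective h'
      exact hl (congrArg Fin.val this.symm)

theorem mem_Level {m : ℕ} (y : Mod g) :
    y ∈ Level g m ↔ ∀ i j, (m : ℤ) ∣ (homMat g y - 1) i j := by
  have key : ∀ (φ : orientedAut g) (x : SurfaceGroup g) (j : Fin g ⊕ Fin g),
      homologyClass (φ.1 x) j - homologyClass x j =
        ((homMat g (classOf g φ) - 1).mulVec (homologyClass x)) j := by
    intro φ x j
    rw [Matrix.sub_mulVec, Matrix.one_mulVec, Pi.sub_apply]
    congr 1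
    exact congrFun (hc_aut φ x) j
  constructor
  · intro h i j
    obtain ⟨φ, rfl⟩ : ∃ φ : orientedAut g, classOf g φ = y := QuotientGroup.mk_surjective y
    have h1 := h φ rfl (gen j) i
    rw [key, hc_gen, Matrix.mulVec_single_one] at h1
    exact h1
  · intro h φ hφ x j
    subst hφ
    rw [key]
    simp only [Matrix.mulVec, dotProduct]
    exact Finset.dvd_sum fun l _ => (h j l).mul_right _

end hom

section entries

/-- the entries of `(x - 1) (y - 1)` lie in the ideal if `(x - 1) (y - 1)` vanishes in all the small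
representations -/
theorem pair_mem {Γ : Type} [Group Γ] {k : ℕ} {R : Type} [Ring R] (J : Ideal R)
    (hJ : ∀ r, r ∉ J → ∃ (K : Type) (_ : Field K) (j : ℕ) (φ : R →+* Matrix (Fin j) (Fin j) K),
        2 * j ≤ k ∧ φ r ≠ 0) {n D : ℕ} (hD : n * (k / 2) < D) (x y : Γ)
    (h : ∀ (K : Type) [Field K] (d : ℕ) (f : Γ →* Module.End K (Fin d → K)), d < D →
      (f x - 1) * (f y - 1) = 0)
    (F : Γ →* Matrix (Fin n) (Fin n) R) (a b : Fin n) :
    ((F x - 1) * (F y - 1)) a b ∈ J := by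
  classical
  by_contra hr
  obtain ⟨K, hK, j, ψ, hj, hne⟩ := hJ _ hr
  let e' : Matrix (Fin n) (Fin n) (Matrix (Fin j) (Fin j) K) ≃+*
      Matrix (Fin (n * j)) (Fin (n * j)) K :=
    (Matrix.compRingEquiv (Fin n) (Fin j) K).trans (Matrix.reindexRingEquiv K finProdFinEquiv)
  let e2 : Matrix (Fin (n * j)) (Fin (n * j)) K ≃ₐ[K] Module.End K (Fin (n * j) → K) :=
    Matrix.toLinAlgEquiv'
  let Ψ : Matrix (Fin n) (Fin n) R →+* Module.End K (Fin (n * j) → K) :=
    ((e2 : _ →+* Module.End K (Fin (n * j) → K)).comp e'.toRingHom).comp ψ.mapMatrix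
  let f : Γ →* Module.End K (Fin (n * j) → K) := (Ψ : _ →* _).comp F
  have hd : n * j < D := by
    refine lt_of_le_of_lt ?_ hD
    exact Nat.mul_le_mul_left n (by omega)
  have h1 := h K (n * j) f hd
  have h2 : ∀ w : Γ, f w - 1 = Ψ (F w - 1) := by
    intro w
    rw [map_sub, map_one]
    rfl
  rw [h2, h2, ← map_mul] at h1
  have h3 : ψ.mapMatrix ((F x - 1) * (F y - 1)) = 0 := by
    apply e'.injective
    rw [map_zero]
    apply e2.injective
    rw [map_zero]
    exact h1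
  exact hne (congrFun (congrFun h3 a) b)

/-- the matrices over an ideal -/
def matI {R : Type} [Ring R] (n : ℕ) (J : Ideal R) : Ideal (Matrix (Fin n) (Fin n) R) where
  carrier := {x | ∀ i j, x i j ∈ J}
  add_mem' := fun h1 h2 i j => J.add_mem (h1 i j) (h2 i j)
  zero_mem' := fun i j => J.zero_mem
  smul_mem' := fun x y hy i j => by
    rw [smul_eq_mul, Matrix.mul_apply]
    exact J.sum_mem fun l _ => J.mul_mem_left _ (hy l j)

theorem matI_two {R : Type} [Ring R] (n : ℕ) (J : Ideal R) (hJ : J.IsTwoSided) :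
    (matI n J).IsTwoSided := by
  constructor
  intro x y hx i j
  rw [Matrix.mul_apply]
  exact J.sum_mem fun l _ => Ideal.mul_mem_right _ _ (hx i l)

theorem order_eq {R : Type} [Ring R] (u : Rˣ) (h : ((u : R) - 1) * ((u : R) - 1) = 0) :
    addOrderOf ((u : R) - 1) = orderOf u := by
  have key : ∀ d : ℕ, ((u ^ d : Rˣ) : R) = 1 + d • ((u : R) - 1) := by
    intro d
    induction d with
    | zero => simp
    | succ d ih =>
      rw [pow_succ, Units.val_mul, ih]
      have e : (u : R) = 1 + ((u : R) - 1) := by abel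
      calc (1 + d • ((u : R) - 1)) * (u : R) = (1 + d • ((u : R) - 1)) * (1 + ((u : R) - 1)) := by
            rw [← e]
        _ = 1 + d • ((u : R) - 1) + ((u : R) - 1) + d • (((u : R) - 1) * ((u : R) - 1)) := by
            rw [add_mul, one_mul, mul_add, mul_one, smul_mul_assoc]
            abel
        _ = 1 + (d + 1) • ((u : R) - 1) := by
            rw [h, smul_zero, add_zero, add_smul, one_smul, add_assoc]
  apply Nat.dvd_antisymm
  · rw [addOrderOf_dvd_iff_nsmul_eq_zero]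
    have h1 := key (orderOf u)
    rw [pow_orderOf_eq_one, Units.val_one] at h1
    exact left_eq_add.1 h1
  · rw [orderOf_dvd_iff_pow_eq_one]
    apply Units.ext
    rw [key, addOrderOf_nsmul_eq_zero, add_zero, Units.val_one]

end entries

section main
variable {g n k : ℕ} {A : Type} [Ring A]

theorem genus {g N : ℕ} (h : N < (g - 5).choose 2) : 7 ≤ g := by
  by_contra h1
  have : (g - 5).choose 2 = 0 := Nat.choose_eq_zero_of_lt (by omega)
  omega

theorem tf_mat (h2 : ∀ x : A, (2 * g - 2) • x = 0 → x = 0) :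
    ∀ x : Matrix (Fin n) (Fin n) A, (2 * g - 2) • x = 0 → x = 0 := by
  intro x hx
  ext i j
  exact h2 _ (congrFun (congrFun hx i) j)

/-- the data: a group containing `Humphries g` with the relations -/
theorem data (hg : 18 ≤ g) (h2 : ∀ x : A, (2 * g - 2) • x = 0 → x = 0) (hA : NilByPIdeg k A)
    (hn : n * (k / 2) < (g - 5).choose 2) (f : Mod g →* (Matrix (Fin n) (Fin n) A)ˣ) :
    ∃ (Γ : Subgroup (Mod g)) (c a : ℕ → Γ) (F : Γ →* Matrix (Fin n) (Fin n) A)
      (σ : Γ →* Matrix (Fin g ⊕ Fin g) (Fin g ⊕ Fin g) ℤ), Humphries g ≤ Γ ∧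
      (∀ y : Γ, F y = (f y : Matrix (Fin n) (Fin n) A)) ∧ (∀ y : Γ, σ y = homMat g y) ∧
      (∀ j < 2 * g, (c j : Mod g) = tt g j) ∧
      Subgroup.closure ({x | ∃ j < 2 * g, x = c j} ∪ {x | ∃ m < g, x = a m}) = ⊤ ∧
      GrpRel g c a ∧ (σ (c 0) - 1) * (σ (c 0) - 1) = 0 ∧ (σ (a 1) - 1) * (σ (c 0) - 1) = 0 ∧
      (∃ i0 j0, (σ (c 0) - 1) i0 j0 = 1) ∧ (F (c 0) - 1) * (F (c 0) - 1) = 0 ∧
      LRel g (fun j => F (c j) - 1) (fun m => F (a m) - 1) ∧
      RRel g (fun j => F (c j) - 1) (fun m => F (a m) - 1) := by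
  obtain ⟨Γ, c, a, A', B, al, be, T, tau, hH, hc, ha, hcl, hR, r, hA0, hA1⟩ :=
    Lick.lick (g := g) (by omega)
  let F : Γ →* Matrix (Fin n) (Fin n) A :=
    ((Units.coeHom (Matrix (Fin n) (Fin n) A)).comp f).comp Γ.subtype
  let σ : Γ →* Matrix (Fin g ⊕ Fin g) (Fin g ⊕ Fin g) ℤ := (homMat g).comp Γ.subtype
  obtain ⟨J, hJ2, hJLN, hJ⟩ := hA.reps
  have s0 : σ (c 0) - 1 = Matrix.single (Sum.inl ⟨0, by omega⟩) (Sum.inr ⟨0, by omega⟩) 1 := by
    refine homMat_at (by omega) ?_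
    show IsTwistAt g 0 (c 0 : Mod g)
    rw [hc 0 (by omega)]
    exact tt_zero (by omega)
  have s1 : σ (a 1) - 1 = Matrix.single (Sum.inl ⟨1, by omega⟩) (Sum.inr ⟨1, by omega⟩) 1 :=
    homMat_at (by omega) ha
  have hsm : ∀ (K : Type) [Field K] (d : ℕ) (f : Γ →* Module.End K (Fin d → K)),
      d < (g - 5).choose 2 → (f (c 0) - 1) * (f (c 0) - 1) = 0 ∧
        (f (a 1) - 1) * (f (c 0) - 1) = 0 := by
    intro K _ d f' hd
    have h3 := Small.small r (by omega) f' (by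
      rw [Module.finrank_fin_fun, show g - 3 - 2 = g - 5 by omega]
      exact hd)
    rw [hA0, hA1] at h3
    exact h3
  have e0 : (σ (c 0) - 1) * (σ (c 0) - 1) = 0 := by
    rw [s0, Matrix.single_mul_single_of_ne]
    simp
  have e1 : (σ (a 1) - 1) * (σ (c 0) - 1) = 0 := by
    rw [s0, s1, Matrix.single_mul_single_of_ne]
    simp
  have hij : (σ (c 0) - 1) (Sum.inl ⟨0, by omega⟩) (Sum.inr ⟨0, by omega⟩) = 1 := by
    rw [s0, Matrix.single_apply_same]
  have hX := Univ.X_zero' hg hR hcl r hA0 hA1 σ e0 e1 _ _ hij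
    (R := Matrix (Fin n) (Fin n) A) (tf_mat h2) F (matI n J) (matI_two n J hJ2)
    (LN_matrix n hJLN)
    (fun i j => pair_mem J hJ hn (c 0) (c 0) (fun K _ d f' hd => (hsm K d f' hd).1) F i j)
    (fun i j => pair_mem J hJ hn (a 1) (c 0) (fun K _ d f' hd => (hsm K d f' hd).2) F i j)
  obtain ⟨hL, hRR⟩ := Univ.rels_tf (by omega) hR (tf_mat h2) F hX.1 hX.2
  exact ⟨Γ, c, a, F, σ, hH, fun _ => rfl, fun _ => rfl, hc, hcl, hR, e0, e1, ⟨_, _, hij⟩, hX.1,
    hL, hRR⟩

/-- the kernel is the subgroup of level the order of the image of a Dehn twist -/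
theorem kernel (hg : 18 ≤ g) (h2 : ∀ x : A, (2 * g - 2) • x = 0 → x = 0) (hA : NilByPIdeg k A)
    (hn : n * (k / 2) < (g - 5).choose 2) (f : Mod g →* (Matrix (Fin n) (Fin n) A)ˣ)
    {T : Mod g} (hT : IsTwistAt g 0 T) {y : Mod g} (hy : y ∈ Humphries g) :
    f y = 1 ↔ y ∈ Level g (orderOf (f T)) := by
  obtain ⟨Γ, c, a, F, σ, hH, hF, hσ, hc, hcl, hR, e0, e1, ⟨i0, j0, hij⟩, h0, hL, hRR⟩ :=
    data hg h2 hA hn f
  have hc0 : (c 0 : Mod g) = T := by
    rw [hc 0 (by omega), twist_eq_at (by omega) (by omega) _ (tt_zero (by omega)),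
      twist_eq_at (by omega) (by omega) _ hT]
  have h3 := Univ.ker_iff (by omega) hR hcl σ e0 e1 i0 j0 hij F hL hRR ⟨y, hH hy⟩
  have h4 : addOrderOf (F (c 0) - 1) = orderOf (f T) := by
    rw [hF] at h0 ⊢
    rw [order_eq _ h0, hc0]
  rw [h4] at h3
  have h5 : f y = 1 ↔ F ⟨y, hH hy⟩ = 1 := by
    rw [hF]
    exact ⟨fun h => congrArg Units.val h, fun h => Units.ext h⟩
  have h6 : (∀ i j, ((orderOf (f T) : ℕ) : ℤ) ∣ (σ ⟨y, hH hy⟩ - 1) i j) ↔
      y ∈ Level g (orderOf (f T)) := by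
    rw [mem_Level, hσ]
  exact h5.trans (h3.trans h6)

/-- the order of the image of a Dehn twist divides the characteristic -/
theorem order_dvd (hg : 18 ≤ g) (h2 : ∀ x : A, (2 * g - 2) • x = 0 → x = 0) (hA : NilByPIdeg k A)
    (hn : n * (k / 2) < (g - 5).choose 2) (f : Mod g →* (Matrix (Fin n) (Fin n) A)ˣ)
    {T : Mod g} (hT : IsTwistAt g 0 T) {q : ℕ} (hq : (q : A) = 0) : orderOf (f T) ∣ q := by
  obtain ⟨Γ, c, a, F, σ, hH, hF, hσ, hc, hcl, hR, e0, e1, ⟨i0, j0, hij⟩, h0, hL, hRR⟩ :=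
    data hg h2 hA hn f
  have hc0 : (c 0 : Mod g) = T := by
    rw [hc 0 (by omega), twist_eq_at (by omega) (by omega) _ (tt_zero (by omega)),
      twist_eq_at (by omega) (by omega) _ hT]
  rw [hF, hc0] at h0
  rw [← order_eq _ h0, addOrderOf_dvd_iff_nsmul_eq_zero]
  ext i j
  rw [Matrix.smul_apply, nsmul_eq_mul, hq, zero_mul]
  rfl

/-- the matrix units -/
theorem matrix_units (hg : 18 ≤ g) (h2 : ∀ x : A, (2 * g - 2) • x = 0 → x = 0)
    (hA : NilByPIdeg k A) (hn : n * (k / 2) < (g - 5).choose 2)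
    (f : Mod g →* (Matrix (Fin n) (Fin n) A)ˣ) :
    ∃ e : Fin g ⊕ Fin g → Fin g ⊕ Fin g → Matrix (Fin n) (Fin n) A,
      (∀ i j k l, e i j * e k l = if j = k then e i l else 0) ∧
      ∀ y ∈ Humphries g, (f y : Matrix (Fin n) (Fin n) A) =
        1 + ∑ i, ∑ j, (homMat g y - 1) i j • e i j := by
  obtain ⟨Γ, c, a, F, σ, hH, hF, hσ, hc, hcl, hR, e0, e1, ⟨i0, j0, hij⟩, h0, hL, hRR⟩ :=
    data hg h2 hA hn f
  obtain ⟨e, he, h3⟩ := Univ.units (by omega) hR hcl σ (by
    rw [Fintype.card_sum, Fintype.card_fin]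
    omega) e0 e1 i0 j0 hij F hL hRR
  refine ⟨e, he, ?_⟩
  intro y hy
  have h4 := h3 ⟨y, hH hy⟩
  rw [hF, hσ] at h4
  exact h4

end main

end Pool.Agent.U379.TR.Fi
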