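import Pool.Agent.U379.TR.Chn
import Pool.Agent.U379.TR.Fi

set_option autoImplicit false

/-!
# Actions of `Mod_g` on abelian groups which have a chain with small factors
-/

namespace Pool.Agent.U379.TR.Fi

open Pool.Agent.H29R2.MG Pool.Agent.TH35.MG Pool.Agent.R352.MG Pool.Agent.R665.MGR
  Pool.Agent.N66.CQ Pool.Agent.U379.PI Pool.Agent.Helper58.EN
open Pool.Agent.Q290.MG (homMat homM hc_aut hc_gen)
open Pool.Agent.N66.TA (GrpRel)

section low
variable {g : ℕ} {G : Type} [Group G] {M : Type} [AddCommGroup M]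

theorem low_of (ρ : G →* AddMonoid.End M) {W W' : AddSubgroup M}
    (hW' : ∀ y, ∀ m ∈ W', ρ y m ∈ W') {F : Type} [AddCommGroup F] (π : W' →+ F)
    (hπ : ∀ m, π m = 0 → (m : M) ∈ W) (τ : G → F → F)
    (heq : ∀ (y : G) (m m' : W'), (m' : M) = ρ y m → π m' = τ y (π m)) (y z : G)
    (h : ∀ v : F, ∃ d : ℕ, (2 * g - 2) ^ d • (τ y (τ z v - v) - (τ z v - v)) = 0) :
    Univ.Low g W W' ((ρ y - 1) * (ρ z - 1)) := by
  intro m hm
  let m0 : W' := ⟨m, hm⟩
  let m1 : W' := ⟨ρ z m, hW' z m hm⟩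
  let m2 : W' := m1 - m0
  let m3 : W' := ⟨ρ y (m2 : M), hW' y _ m2.2⟩
  obtain ⟨d, hd⟩ := h (π m0)
  refine ⟨d, ?_⟩
  have e1 : π m1 = τ z (π m0) := heq z m0 m1 rfl
  have e2 : π m2 = τ z (π m0) - π m0 := by rw [map_sub, e1]
  have e3 : π m3 = τ y (π m2) := heq y m2 m3 rfl
  have e4 : π ((2 * g - 2) ^ d • (m3 - m2)) = 0 := by
    rw [map_nsmul, map_sub, e3, e2, hd]
  exact hπ _ e4

end low

section assembly
variable {g : ℕ}

/-- the factors with few generators over a commutative ring -/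
def FewGenerators {M : Type} [AddCommGroup M] (f : Mod g →* AddMonoid.End M) {W' : AddSubgroup M}
    {F : Type} [AddCommGroup F] (π : W' →+ F) : Prop :=
  ∃ (A : Type) (_ : CommRing A) (_ : Module A F) (n : ℕ) (s : Fin n → F)
    (τ : Mod g →* Module.End A F), n < (g - 5).choose 2 ∧ Submodule.span A (Set.range s) = ⊤ ∧
      ∀ (y : Mod g) (m m' : W'), (m' : M) = f y m → π m' = τ y (π m)

/-- the factors on which `Mod_g` acts through a group of matrices over a ring -/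
def MatrixAction {M : Type} [AddCommGroup M] (f : Mod g →* AddMonoid.End M) {W' : AddSubgroup M}
    {F : Type} [AddCommGroup F] (π : W' →+ F) : Prop :=
  ∃ (A : Type) (_ : Ring A) (k n : ℕ) (_ : Module (Matrix (Fin n) (Fin n) A) F)
    (τ : Mod g →* (Matrix (Fin n) (Fin n) A)ˣ), NilByPIdeg k A ∧ n * (k / 2) < (g - 5).choose 2 ∧
      ∀ (y : Mod g) (m m' : W'), (m' : M) = f y m →
        π m' = (τ y : Matrix (Fin n) (Fin n) A) • π m

/-- the factors which are small -/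
def SmallFactor {M : Type} [AddCommGroup M] (f : Mod g →* AddMonoid.End M)
    (W W' : AddSubgroup M) : Prop :=
  ∃ (F : Type) (_ : AddCommGroup F) (π : W' →+ F), (∀ m, π m = 0 → (m : M) ∈ W) ∧
    (FewGenerators f π ∨ MatrixAction f π)

variable {M : Type} [AddCommGroup M]

/-- the data, for a chain with small factors -/
theorem data2 (hg : 18 ≤ g) (htf : ∀ x : M, (2 * g - 2) • x = 0 → x = 0)
    (f : Mod g →* AddMonoid.End M) (l : ℕ) (W : ℕ → AddSubgroup M) (hW0 : W 0 = ⊥)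
    (hWl : W l = ⊤) (hW : ∀ i, ∀ y : Mod g, ∀ m ∈ W i, f y m ∈ W i)
    (hfac : ∀ i < l, SmallFactor f (W i) (W (i + 1))) :
    ∃ (Γ : Subgroup (Mod g)) (c a : ℕ → Γ) (F : Γ →* AddMonoid.End M)
      (σ : Γ →* Matrix (Fin g ⊕ Fin g) (Fin g ⊕ Fin g) ℤ), Humphries g ≤ Γ ∧
      (∀ y : Γ, F y = f y) ∧ (∀ y : Γ, σ y = homMat g y) ∧
      (∀ j < 2 * g, (c j : Mod g) = tt g j) ∧
      Subgroup.closure ({x | ∃ j < 2 * g, x = c j} ∪ {x | ∃ m < g, x = a m}) = ⊤ ∧
      GrpRel g c a ∧ (σ (c 0) - 1) * (σ (c 0) - 1) = 0 ∧ (σ (a 1) - 1) * (σ (c 0) - 1) = 0 ∧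
      (∃ i0 j0, (σ (c 0) - 1) i0 j0 = 1) ∧ (F (c 0) - 1) * (F (c 0) - 1) = 0 ∧
      LRel g (fun j => F (c j) - 1) (fun m => F (a m) - 1) ∧
      RRel g (fun j => F (c j) - 1) (fun m => F (a m) - 1) := by
  obtain ⟨Γ, c, a, A', B, al, be, T, tau, hH, hc, ha, hcl, hR, r, hA0, hA1⟩ :=
    Lick.lick (g := g) (by omega)
  let F : Γ →* AddMonoid.End M := f.comp Γ.subtype
  let σ : Γ →* Matrix (Fin g ⊕ Fin g) (Fin g ⊕ Fin g) ℤ := (homMat g).comp Γ.subtype
  have s0 : σ (c 0) - 1 = Matrix.single (Sum.inl ⟨0, by omega⟩) (Sum.inr ⟨0, by omega⟩) 1 := by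
    refine homMat_at (by omega) ?_
    show IsTwistAt g 0 (c 0 : Mod g)
    rw [hc 0 (by omega)]
    exact tt_zero (by omega)
  have s1 : σ (a 1) - 1 = Matrix.single (Sum.inl ⟨1, by omega⟩) (Sum.inr ⟨1, by omega⟩) 1 :=
    homMat_at (by omega) ha
  have e0 : (σ (c 0) - 1) * (σ (c 0) - 1) = 0 := by
    rw [s0, Matrix.single_mul_single_of_ne]
    simp
  have e1 : (σ (a 1) - 1) * (σ (c 0) - 1) = 0 := by
    rw [s0, s1, Matrix.single_mul_single_of_ne]
    simp
  have hij : (σ (c 0) - 1) (Sum.inl ⟨0, by omega⟩) (Sum.inr ⟨0, by omega⟩) = 1 := by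
    rw [s0, Matrix.single_apply_same]
  have hsq : Univ.Sq g c a := fun k _ hk =>
    Univ.group_sq hg hR hcl r hA0 hA1 σ e0 e1 _ _ hij hk
  have hsm : ∀ (K : Type) [Field K] (d : ℕ) (f : Γ →* Module.End K (Fin d → K)),
      d < (g - 5).choose 2 → (f (c 0) - 1) * (f (c 0) - 1) = 0 ∧
        (f (a 1) - 1) * (f (c 0) - 1) = 0 := by
    intro K _ d f' hd
    have h3 := Small.small r (by omega) f' (by
      rw [Module.finrank_fin_fun, show g - 3 - 2 = g - 5 by omega]
      exact hd)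
    rw [hA0, hA1] at h3
    exact h3
  have hX := Univ.chain_zero hg hR hcl r hA0 hA1 σ e0 e1 _ _ hij htf F l W hW0 hWl
    (fun i y m hm => hW i y m hm) (by
      intro i hi
      obtain ⟨X, _, π, hπ, hsmall⟩ := hfac i hi
      rcases hsmall with ⟨A, _, _, n, s, τ, hn, hs, heq⟩ | ⟨A, _, k, n, _, τ, hA, hn, heq⟩
      · have h3 := Univ.few' hsq r hg hA0 hA1 hcl hn s hs (τ.comp Γ.subtype)
        have key : ∀ y z : Γ, (∀ v, ∃ d : ℕ, (2 * g - 2) ^ d •
            (((τ.comp Γ.subtype) y - 1) * ((τ.comp Γ.subtype) z - 1)) v = 0) →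
            Univ.Low g (W i) (W (i + 1)) ((F y - 1) * (F z - 1)) := by
          intro y z h
          refine low_of F (fun y m hm => hW (i + 1) y m hm) π hπ (fun y v => τ y v)
            (fun y m m' h => heq y m m' h) y z ?_
          intro v
          obtain ⟨d, hd⟩ := h v
          refine ⟨d, ?_⟩
          rw [Module.End.mul_apply, LinearMap.sub_apply, LinearMap.sub_apply,
            Module.End.one_apply, Module.End.one_apply] at hd
          exact hd
        exact ⟨key _ _ fun v => (h3 v).1, key _ _ fun v => (h3 v).2⟩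
      · obtain ⟨J, hJ2, hJLN, hJ⟩ := hA.reps
        let F' : Γ →* Matrix (Fin n) (Fin n) A :=
          ((Units.coeHom (Matrix (Fin n) (Fin n) A)).comp τ).comp Γ.subtype
        have h3 := Univ.X_tors hg hR hcl r hA0 hA1 σ e0 e1 _ _ hij
          (R := Matrix (Fin n) (Fin n) A) F' (matI n J) (matI_two n J hJ2) (LN_matrix n hJLN)
          (fun i j => pair_mem J hJ hn (c 0) (c 0) (fun K _ d f' hd => (hsm K d f' hd).1) F' i j)
          (fun i j => pair_mem J hJ hn (a 1) (c 0) (fun K _ d f' hd => (hsm K d f' hd).2) F' i j)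
        have key : ∀ y z : Γ, (∃ d : ℕ, (2 * g - 2) ^ d • ((F' y - 1) * (F' z - 1)) = 0) →
            Univ.Low g (W i) (W (i + 1)) ((F y - 1) * (F z - 1)) := by
          rintro y z ⟨d, hd⟩
          refine low_of F (fun y m hm => hW (i + 1) y m hm) π hπ (fun y v => F' y • v)
            (fun y m m' h => heq y m m' h) y z ?_
          intro v
          refine ⟨d, ?_⟩
          have h4 : ((2 * g - 2) ^ d • ((F' y - 1) * (F' z - 1))) • v = 0 := by
            rw [hd, zero_smul]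
          rw [smul_assoc, mul_smul, sub_smul, sub_smul, one_smul, one_smul] at h4
          exact h4
        exact ⟨key _ _ h3.1, key _ _ h3.2⟩)
  have htfR : ∀ x : AddMonoid.End M, (2 * g - 2) • x = 0 → x = 0 := by
    intro x hx
    apply AddMonoidHom.ext
    intro m
    apply htf
    exact DFunLike.congr_fun hx m
  obtain ⟨hL, hRR⟩ := Univ.rels_tf (by omega) hR htfR F hX.1 hX.2
  exact ⟨Γ, c, a, F, σ, hH, fun _ => rfl, fun _ => rfl, hc, hcl, hR, e0, e1, ⟨_, _, hij⟩, hX.1,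
    hL, hRR⟩

end assembly

end Pool.Agent.U379.TR.Fi
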