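import Pool.Agent.U379.TR.Fac

set_option autoImplicit false

/-!
# Ascending chains with small factors
-/

namespace Pool.Agent.U379.TR.Univ

open Pool.Agent.N66.TA (GrpRel)
open Pool.Agent.TH35.MG (HRel)

section gen
variable {S R : Type} [Ring S] [Ring R] {g : ℕ}

theorem QQ_map (f : S →+* R) (N : ℕ → S) {x : S} (hx : x ∈ QQ g N) :
    f x ∈ QQ g (fun j => f (N j)) := by
  induction hx using Submodule.span_induction with
  | mem x hx =>
    obtain ⟨i, hi, j, hj, rfl⟩ := hx
    rw [← EE_map]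
    exact EE_QQ hi hj
  | zero => rw [map_zero]; exact Submodule.zero_mem _
  | add x y _ _ h1 h2 => rw [map_add]; exact Submodule.add_mem _ h1 h2
  | smul t x _ h1 => rw [map_zsmul]; exact Submodule.smul_mem _ _ h1

theorem QQ_closure (hg : 1 ≤ g) (N : ℕ → S) (C : Subring S) (h : ∀ j < 2 * g, N j ∈ C) {x : S}
    (hx : x ∈ QQ g N) : x ∈ C := by
  have h1 : ∀ j < 2 * g, Wd N j ∈ C := by
    intro j
    induction j with
    | zero => intro hj; exact h 0 hj
    | succ j ih =>
      intro hj
      show -(N (j + 1) * Wd N j) ∈ C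
      exact C.neg_mem (C.mul_mem (h _ hj) (ih (by omega)))
  have h2 : ∀ j < 2 * g, Wd' N j ∈ C := by
    intro j
    induction j with
    | zero =>
      intro hj
      show -N 0 ∈ C
      exact C.neg_mem (h 0 hj)
    | succ j ih =>
      intro hj
      show Wd' N j * N (j + 1) ∈ C
      exact C.mul_mem (ih (by omega)) (h _ hj)
  induction hx using Submodule.span_induction with
  | mem x hx =>
    obtain ⟨i, hi, j, hj, rfl⟩ := hx
    exact C.mul_mem (h1 i hi) (C.mul_mem (h 1 (by omega)) (h2 j hj))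
  | zero => exact C.zero_mem
  | add x y _ _ h1 h2 => exact C.add_mem h1 h2
  | smul t x _ h1 => exact C.zsmul_mem h1 t

end gen

section units
variable {g : ℕ} {G : Type} [Group G] {c a : ℕ → G} {n : Type} [Fintype n] [DecidableEq n]

/-- the matrix units, in the ring generated by the group -/
theorem units2 (hg : 3 ≤ g) (hR : GrpRel g c a)
    (hcl : Subgroup.closure ({x | ∃ j < 2 * g, x = c j} ∪ {x | ∃ m < g, x = a m}) = ⊤)
    (σ : G →* Matrix n n ℤ) (hn : Fintype.card n = 2 * g)
    (h0 : (σ (c 0) - 1) * (σ (c 0) - 1) = 0) (h1 : (σ (a 1) - 1) * (σ (c 0) - 1) = 0) (i0 j0 : n)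
    (hij : (σ (c 0) - 1) i0 j0 = 1)
    {R : Type} [Ring R] (ρ : G →* R) (hL : LRel g (fun j => ρ (c j) - 1) (fun m => ρ (a m) - 1))
    (hRR : RRel g (fun j => ρ (c j) - 1) (fun m => ρ (a m) - 1)) (C : Subring R)
    (hC : ∀ j < 2 * g, ρ (c j) - 1 ∈ C) :
    ∃ e : n → n → R, (∀ i j, e i j ∈ C) ∧
      (∀ i j k l, e i j * e k l = if j = k then e i l else 0) ∧
      ∀ y, ρ y = 1 + ∑ i, ∑ j, (σ y - 1) i j • e i j := by
  classical
  obtain ⟨hL1, hR1⟩ := rels_int hg hR σ h0 h1
  let N' : ℕ → R × Matrix n n ℤ := fun j => (ρ (c j) - 1, σ (c j) - 1)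
  let A' : ℕ → R × Matrix n n ℤ := fun m => (ρ (a m) - 1, σ (a m) - 1)
  have hL2 : LRel g N' A' := LRel.of_two (RingHom.fst R (Matrix n n ℤ))
    (RingHom.snd R (Matrix n n ℤ)) (fun x h h' => Prod.ext h h') hL hL1
  have hE : ∀ i j, EE N' i j = (EE (fun j => ρ (c j) - 1) i j, EE (fun j => σ (c j) - 1) i j) := by
    intro i j
    exact Prod.ext (EE_map (RingHom.fst R (Matrix n n ℤ)) N' i j).symm
      (EE_map (RingHom.snd R (Matrix n n ℤ)) N' i j).symm
  have hpair : ∀ t : ℕ → ℕ → ℤ, ∑ i ∈ Finset.range (2 * g), ∑ j ∈ Finset.range (2 * g),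
      t i j • EE N' i j = (∑ i ∈ Finset.range (2 * g), ∑ j ∈ Finset.range (2 * g),
        t i j • EE (fun j => ρ (c j) - 1) i j, ∑ i ∈ Finset.range (2 * g),
        ∑ j ∈ Finset.range (2 * g), t i j • EE (fun j => σ (c j) - 1) i j) := by
    intro t
    apply Prod.ext
    · simp only [Prod.fst_sum, Prod.smul_fst, hE]
    · simp only [Prod.snd_sum, Prod.smul_snd, hE]
  -- the graph
  have hex : ∀ X : Matrix n n ℤ, ∃ r : R, (r, X) ∈ QQ g N' := by
    intro X
    obtain ⟨t, ht⟩ := mem_QQ (span_all hL1 hR1 (by omega) hn i0 j0 hij X)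
    refine ⟨∑ i ∈ Finset.range (2 * g), ∑ j ∈ Finset.range (2 * g),
      t i j • EE (fun j => ρ (c j) - 1) i j, ?_⟩
    rw [ht, ← hpair]
    exact sum_QQ t
  have huniq : ∀ r : R, (r, (0 : Matrix n n ℤ)) ∈ QQ g N' → r = 0 := by
    intro r hr
    obtain ⟨t, ht⟩ := mem_QQ hr
    rw [hpair] at ht
    have h3 := (Prod.ext_iff.1 ht).2
    have h4 := indep' hL1 hR1 (by omega) t h3.symm
    have h8 : r = ∑ i ∈ Finset.range (2 * g), ∑ j ∈ Finset.range (2 * g),
        t i j • EE (fun j => ρ (c j) - 1) i j := (Prod.ext_iff.1 ht).1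
    rw [h8]
    refine Finset.sum_eq_zero fun i hi => Finset.sum_eq_zero fun j hj => ?_
    have h5 := congrFun (congrFun (h4 i (Finset.mem_range.1 hi) j (Finset.mem_range.1 hj)) i0) j0
    rw [Matrix.smul_apply] at h5
    have h6 : t i j = 0 := by
      have h7 : t i j • (σ (c 0) - 1) i0 j0 = 0 := h5
      rw [hij, smul_eq_mul, mul_one] at h7
      exact h7
    rw [h6, zero_smul]
  choose e he using fun i j : n => hex (Matrix.single i j 1)
  refine ⟨e, ?_, ?_, ?_⟩
  · intro i j
    have h3 := QQ_map (RingHom.fst R (Matrix n n ℤ)) N' (he i j)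
    exact QQ_closure (by omega) (fun j => ρ (c j) - 1) C hC h3
  · intro i j k l
    have h3 := mul_QQ hL2 (by omega) (he i j) (he k l)
    rw [Prod.mk_mul_mk] at h3
    by_cases hjk : j = k
    · subst hjk
      rw [if_pos rfl]
      rw [Matrix.single_mul_single_same, one_mul] at h3
      have h4 := Submodule.sub_mem _ h3 (he i l)
      rw [Prod.mk_sub_mk, sub_self] at h4
      exact sub_eq_zero.1 (huniq _ h4)
    · rw [if_neg hjk]
      rw [Matrix.single_mul_single_of_ne _ _ _ _ hjk] at h3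
      exact huniq _ h3
  · intro y
    obtain ⟨t, e1, e2⟩ := expand hg hR hcl σ h0 h1 ρ hL hRR y
    have h3 : (ρ y - 1, σ y - 1) ∈ QQ g N' := by
      have h4 := sum_QQ (g := g) (N := N') t
      rw [hpair] at h4
      rw [e1, e2, add_sub_cancel_left, add_sub_cancel_left]
      exact h4
    have h4 : (∑ i, ∑ j, (σ y - 1) i j • e i j, σ y - 1) ∈ QQ g N' := by
      have h5 : ∑ i, ∑ j, (σ y - 1) i j • (e i j, (Matrix.single i j 1 : Matrix n n ℤ)) ∈
          QQ g N' :=
        Submodule.sum_mem _ fun i _ => Submodule.sum_mem _ fun j _ =>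
          Submodule.smul_mem _ _ (he i j)
      have h6 : ∑ i, ∑ j, (σ y - 1) i j • (e i j, (Matrix.single i j 1 : Matrix n n ℤ)) =
          (∑ i, ∑ j, (σ y - 1) i j • e i j, σ y - 1) := by
        apply Prod.ext
        · simp only [Prod.fst_sum, Prod.smul_fst]
        · simp only [Prod.snd_sum, Prod.smul_snd]
          conv_rhs => rw [Matrix.matrix_eq_sum_single (σ y - 1)]
          refine Finset.sum_congr rfl fun i _ => Finset.sum_congr rfl fun j _ => ?_
          rw [Matrix.smul_single, smul_eq_mul, mul_one]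
      rwa [h6] at h5
    have h5 := Submodule.sub_mem _ h3 h4
    rw [Prod.mk_sub_mk, sub_self] at h5
    have h6 := sub_eq_zero.1 (huniq _ h5)
    rw [← h6]
    abel

end units

section omega
variable {g : ℕ} {G : Type} [Group G] {c a : ℕ → G} {M : Type} [AddCommGroup M]

/-- The two elements vanish if they lower the index of an ascending chain with union `M`. -/
theorem chain_zero' (hg : 18 ≤ g) (hR : GrpRel g c a)
    (hcl : Subgroup.closure ({x | ∃ j < 2 * g, x = c j} ∪ {x | ∃ m < g, x = a m}) = ⊤)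
    {A B al be T : ℕ → G} {tau : G} (r : HRel (g - 3) A B al be T tau) (hA0 : A 0 = c 0)
    (hA1 : A 1 = a 1) {n : Type} [Fintype n] [DecidableEq n] (σ : G →* Matrix n n ℤ)
    (h0 : (σ (c 0) - 1) * (σ (c 0) - 1) = 0) (h1 : (σ (a 1) - 1) * (σ (c 0) - 1) = 0) (i0 j0 : n)
    (hij : (σ (c 0) - 1) i0 j0 = 1) (htf : ∀ x : M, (2 * g - 2) • x = 0 → x = 0)
    (ρ : G →* AddMonoid.End M) (W : ℕ → AddSubgroup M) (hW0 : W 0 = ⊥)
    (hun : ∀ m, ∃ i, m ∈ W i) (hW : ∀ i, ∀ y : G, ∀ m ∈ W i, ρ y m ∈ W i)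
    (hlow : ∀ i, Low g (W i) (W (i + 1)) ((ρ (c 0) - 1) * (ρ (c 0) - 1)) ∧
      Low g (W i) (W (i + 1)) ((ρ (a 1) - 1) * (ρ (c 0) - 1))) :
    (ρ (c 0) - 1) * (ρ (c 0) - 1) = 0 ∧ (ρ (a 1) - 1) * (ρ (c 0) - 1) = 0 := by
  have key : ∀ l, ∀ m ∈ W l, ((ρ (c 0) - 1) * (ρ (c 0) - 1)) m = 0 ∧
      ((ρ (a 1) - 1) * (ρ (c 0) - 1)) m = 0 := by
    intro l m hm
    let ρ' : G →* AddMonoid.End (W l) :=
      { toFun := fun y =>
          { toFun := fun v => ⟨ρ y v, hW l y v v.2⟩
            map_zero' := Subtype.ext (map_zero (ρ y))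
            map_add' := fun v w => Subtype.ext (map_add (ρ y) (v : M) w) }
        map_one' := by
          apply AddMonoidHom.ext
          intro v
          apply Subtype.ext
          show ρ 1 (v : M) = v
          rw [map_one]
          rfl
        map_mul' := fun y z => by
          apply AddMonoidHom.ext
          intro v
          apply Subtype.ext
          show ρ (y * z) (v : M) = ρ y (ρ z v)
          rw [map_mul]
          rfl }
    let W' : ℕ → AddSubgroup (W l) := fun i => (W (min i l)).addSubgroupOf (W l)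
    have hz := chain_zero (M := W l) hg hR hcl r hA0 hA1 σ h0 h1 i0 j0 hij (by
        intro x hx
        apply Subtype.ext
        exact htf _ (congrArg Subtype.val hx)) ρ' l W' (by
        show (W (min 0 l)).addSubgroupOf (W l) = ⊥
        rw [Nat.zero_min, hW0, AddSubgroup.bot_addSubgroupOf]) (by
        show (W (min l l)).addSubgroupOf (W l) = ⊤
        rw [min_self, AddSubgroup.addSubgroupOf_self]) (by
        intro i y m hm
        rw [AddSubgroup.mem_addSubgroupOf] at hm ⊢
        exact hW _ y _ hm) (by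
        intro i hi
        have e1 : min i l = i := by omega
        have e2 : min (i + 1) l = i + 1 := by omega
        constructor
        · intro m hm
          have hm' : (m : M) ∈ W (i + 1) := by
            have := AddSubgroup.mem_addSubgroupOf.1 hm
            rwa [e2] at this
          obtain ⟨d, hd⟩ := (hlow i).1 _ hm'
          refine ⟨d, ?_⟩
          rw [AddSubgroup.mem_addSubgroupOf, e1]
          exact hd
        · intro m hm
          have hm' : (m : M) ∈ W (i + 1) := by
            have := AddSubgroup.mem_addSubgroupOf.1 hm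
            rwa [e2] at this
          obtain ⟨d, hd⟩ := (hlow i).2 _ hm'
          refine ⟨d, ?_⟩
          rw [AddSubgroup.mem_addSubgroupOf, e1]
          exact hd)
    exact ⟨congrArg Subtype.val (DFunLike.congr_fun hz.1 (⟨m, hm⟩ : W l)),
      congrArg Subtype.val (DFunLike.congr_fun hz.2 (⟨m, hm⟩ : W l))⟩
  constructor
  · apply AddMonoidHom.ext
    intro m
    obtain ⟨l, hl⟩ := hun m
    exact (key l m hl).1
  · apply AddMonoidHom.ext
    intro m
    obtain ⟨l, hl⟩ := hun m
    exact (key l m hl).2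

end omega

end Pool.Agent.U379.TR.Univ
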