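import Pool.Agent.U379.TR.Noe

set_option autoImplicit false

/-!
# Modules with few generators over commutative rings, the general case
-/

namespace Pool.Agent.U379.TR.Univ

open Pool.Agent.N66.TA (GrpRel)
open Pool.Agent.TH35.MG (HRel)

section few
variable {g : ℕ} {G : Type} [Group G] {c a : ℕ → G}

/-- the ideal is idempotent over all the commutative rings in which `2 g - 2` is invertible -/
def Sq (g : ℕ) (c a : ℕ → G) : Prop := ∀ (k : Type) [CommRing k], IsUnit ((2 * g - 2 : ℕ) : k) →
  BB k (MonoidAlgebra.of k G) c a ≤ BB k (MonoidAlgebra.of k G) c a * BB k (MonoidAlgebra.of k G) c a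

/-- few generators, over a commutative ring in which `2 g - 2` is invertible -/
theorem few (hsq : Sq g c a) {A B al be T : ℕ → G} {tau : G} (r : HRel (g - 3) A B al be T tau)
    (hg : 18 ≤ g) (hA0 : A 0 = c 0) (hA1 : A 1 = a 1)
    (hcl : Subgroup.closure ({x | ∃ j < 2 * g, x = c j} ∪ {x | ∃ m < g, x = a m}) = ⊤)
    {k : Type} [CommRing k] (hk : IsUnit ((2 * g - 2 : ℕ) : k))
    {F : Type} [AddCommGroup F] [Module k F] {n : ℕ} (hn : n < (g - 5).choose 2)
    (s : Fin n → F) (hs : Submodule.span k (Set.range s) = ⊤) (ρ : G →* Module.End k F) :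
    (ρ (c 0) - 1) * (ρ (c 0) - 1) = 0 ∧ (ρ (a 1) - 1) * (ρ (c 0) - 1) = 0 := by
  classical
  obtain ⟨u, hu⟩ := hk
  have hco : ∀ (y : G) (i : Fin n), ∃ co : Fin n → k, ∑ j, co j • s j = ρ y (s i) := by
    intro y i
    rw [← Submodule.mem_span_range_iff_exists_fun, hs]
    exact Submodule.mem_top
  choose co hco using hco
  let gens : Set G := {x | ∃ j < 2 * g, x = c j} ∪ {x | ∃ m < g, x = a m}
  have hgens : gens.Finite := by
    refine Set.Finite.union ?_ ?_
    · refine ((Set.finite_Iio (2 * g)).image c).subset ?_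
      rintro _ ⟨j, hj, rfl⟩
      exact ⟨j, hj, rfl⟩
    · refine ((Set.finite_Iio g).image a).subset ?_
      rintro _ ⟨j, hj, rfl⟩
      exact ⟨j, hj, rfl⟩
  let gens' : Set G := gens ∪ (fun x => x⁻¹) '' gens
  have hgens' : gens'.Finite := hgens.union (hgens.image _)
  let Y : Set k := {(↑u⁻¹ : k)} ∪
    (fun p : G × (Fin n × Fin n) => co p.1 p.2.1 p.2.2) '' (gens' ×ˢ Set.univ)
  have hY : Y.Finite := (Set.finite_singleton _).union ((hgens'.prod Set.finite_univ).image _)
  let k0 : Subring k := Subring.closure Y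
  have hnoeth : IsNoetherianRing k0 := is_noetherian_subring_closure Y hY
  have hco0 : ∀ y ∈ gens', ∀ i j, co y i j ∈ k0 := by
    intro y hy i j
    exact Subring.subset_closure (Or.inr ⟨(y, (i, j)), ⟨hy, trivial⟩, rfl⟩)
  have hu0 : (↑u⁻¹ : k) ∈ k0 := Subring.subset_closure (Or.inl rfl)
  let F0 : Submodule k0 F := Submodule.span k0 (Set.range s)
  have hst1 : ∀ y ∈ gens', ∀ v ∈ F0, ρ y v ∈ F0 := by
    intro y hy v hv
    induction hv using Submodule.span_induction with
    | mem x hx =>
      obtain ⟨i, rfl⟩ := hx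
      rw [← hco y i]
      refine Submodule.sum_mem _ fun j _ => ?_
      have h1 : co y i j • s j = (⟨co y i j, hco0 y hy i j⟩ : k0) • s j := rfl
      rw [h1]
      exact Submodule.smul_mem _ _ (Submodule.subset_span ⟨j, rfl⟩)
    | zero => rw [map_zero]; exact Submodule.zero_mem _
    | add x y _ _ h1 h2 => rw [map_add]; exact Submodule.add_mem _ h1 h2
    | smul t x _ h1 =>
      have h2 : ρ y (t • x) = t • ρ y x := (ρ y).map_smul (t : k) x
      rw [h2]
      exact Submodule.smul_mem _ _ h1
  have hst : ∀ y : G, (∀ v ∈ F0, ρ y v ∈ F0) ∧ (∀ v ∈ F0, ρ y⁻¹ v ∈ F0) := by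
    intro y
    have hy : y ∈ Subgroup.closure gens := by
      rw [show Subgroup.closure gens = ⊤ from hcl]
      trivial
    induction hy using Subgroup.closure_induction with
    | mem z hz => exact ⟨hst1 z (Or.inl hz), hst1 _ (Or.inr ⟨z, hz, rfl⟩)⟩
    | one =>
      constructor
      · intro v hv
        rw [map_one]
        exact hv
      · intro v hv
        rw [inv_one, map_one]
        exact hv
    | mul z w _ _ h1 h2 =>
      constructor
      · intro v hv
        rw [map_mul]
        exact h1.1 _ (h2.1 v hv)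
      · intro v hv
        rw [mul_inv_rev, map_mul]
        exact h2.2 _ (h1.2 v hv)
    | inv z _ h1 =>
      rw [inv_inv]
      exact ⟨h1.2, h1.1⟩
  let ρ0 : G →* Module.End k0 F0 :=
    { toFun := fun y =>
        { toFun := fun v => ⟨ρ y v, (hst y).1 v v.2⟩
          map_add' := fun v w => Subtype.ext (map_add (ρ y) (v : F) w)
          map_smul' := fun t v => Subtype.ext ((ρ y).map_smul (t : k) (v : F)) }
      map_one' := by
        apply LinearMap.ext
        intro v
        apply Subtype.ext
        show ρ 1 (v : F) = v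
        rw [map_one]
        rfl
      map_mul' := fun y z => by
        apply LinearMap.ext
        intro v
        apply Subtype.ext
        show ρ (y * z) (v : F) = ρ y (ρ z v)
        rw [map_mul]
        rfl }
  let s0 : Fin n → F0 := fun i => ⟨s i, Submodule.subset_span ⟨i, rfl⟩⟩
  have hs0 : Submodule.span k0 (Set.range s0) = ⊤ := by
    rw [eq_top_iff]
    rintro ⟨v, hv⟩ -
    induction hv using Submodule.span_induction with
    | mem x hx =>
      obtain ⟨i, rfl⟩ := hx
      exact Submodule.subset_span ⟨i, rfl⟩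
    | zero => exact Submodule.zero_mem _
    | add x y _ _ h1 h2 => exact Submodule.add_mem _ h1 h2
    | smul t x _ h1 => exact Submodule.smul_mem _ t h1
  have hk0 : IsUnit ((2 * g - 2 : ℕ) : k0) := by
    refine ⟨⟨((2 * g - 2 : ℕ) : k0), ⟨(↑u⁻¹ : k), hu0⟩, ?_, ?_⟩, rfl⟩
    · apply Subtype.ext
      show ((2 * g - 2 : ℕ) : k) * (↑u⁻¹ : k) = 1
      rw [← hu, Units.mul_inv]
    · apply Subtype.ext
      show (↑u⁻¹ : k) * ((2 * g - 2 : ℕ) : k) = 1
      rw [← hu, Units.inv_mul]
  have hz := noeth (k := k0) r hg hA0 hA1 (hsq k0 hk0) hn s0 hs0 ρ0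
  have key : ∀ y z : G, (ρ0 y - 1) * (ρ0 z - 1) = 0 → (ρ y - 1) * (ρ z - 1) = 0 := by
    intro y z h
    apply LinearMap.ext_on_range hs
    intro i
    have h1 := congrArg Subtype.val (LinearMap.congr_fun h (s0 i))
    exact h1
  exact ⟨key _ _ hz.1, key _ _ hz.2⟩

/-- few generators, over a commutative ring -/
theorem few' (hsq : Sq g c a) {A B al be T : ℕ → G} {tau : G} (r : HRel (g - 3) A B al be T tau)
    (hg : 18 ≤ g) (hA0 : A 0 = c 0) (hA1 : A 1 = a 1)
    (hcl : Subgroup.closure ({x | ∃ j < 2 * g, x = c j} ∪ {x | ∃ m < g, x = a m}) = ⊤)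
    {k : Type} [CommRing k] {F : Type} [AddCommGroup F] [Module k F] {n : ℕ}
    (hn : n < (g - 5).choose 2) (s : Fin n → F) (hs : Submodule.span k (Set.range s) = ⊤)
    (ρ : G →* Module.End k F) (v : F) :
    (∃ d : ℕ, (2 * g - 2) ^ d • (((ρ (c 0) - 1) * (ρ (c 0) - 1)) v) = 0) ∧
      ∃ d : ℕ, (2 * g - 2) ^ d • (((ρ (a 1) - 1) * (ρ (c 0) - 1)) v) = 0 := by
  let S : Submonoid k := Submonoid.powers ((2 * g - 2 : ℕ) : k)
  have hk : IsUnit ((2 * g - 2 : ℕ) : Localization S) := by
    have h1 := IsLocalization.map_units (Localization S)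
      (⟨((2 * g - 2 : ℕ) : k), Submonoid.mem_powers _⟩ : S)
    simpa using h1
  let s' : Fin n → LocalizedModule S F := fun i => LocalizedModule.mk (s i) 1
  have hmk : ∀ x : F, LocalizedModule.mk x (1 : S) ∈
      Submodule.span (Localization S) (Set.range s') := by
    intro x
    have hx : x ∈ Submodule.span k (Set.range s) := by rw [hs]; exact Submodule.mem_top
    induction hx using Submodule.span_induction with
    | mem x hx =>
      obtain ⟨i, rfl⟩ := hx
      exact Submodule.subset_span ⟨i, rfl⟩
    | zero => rw [LocalizedModule.zero_mk]; exact Submodule.zero_mem _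
    | add x y _ _ h1 h2 =>
      have h3 : LocalizedModule.mk (x + y) (1 : S) = LocalizedModule.mk x 1 +
          LocalizedModule.mk y 1 := by
        rw [LocalizedModule.mk_add_mk, one_smul, one_smul, one_mul]
      rw [h3]
      exact Submodule.add_mem _ h1 h2
    | smul t x _ h1 =>
      have h3 : LocalizedModule.mk (t • x) (1 : S) = Localization.mk t (1 : S) •
          LocalizedModule.mk x 1 := by
        rw [LocalizedModule.mk_smul_mk, one_mul]
      rw [h3]
      exact Submodule.smul_mem _ _ h1
  have hs' : Submodule.span (Localization S) (Set.range s') = ⊤ := by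
    rw [eq_top_iff]
    rintro z -
    induction z using LocalizedModule.induction_on with
    | _ x t =>
      have h3 : LocalizedModule.mk x t = Localization.mk (1 : k) t • LocalizedModule.mk x 1 := by
        rw [LocalizedModule.mk_smul_mk, one_smul, mul_one]
      rw [h3]
      exact Submodule.smul_mem _ _ (hmk x)
  let ρ' : G →* Module.End (Localization S) (LocalizedModule S F) :=
    { toFun := fun y => LocalizedModule.map S (ρ y)
      map_one' := by
        apply LinearMap.ext
        intro z
        induction z using LocalizedModule.induction_on with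
        | _ x t =>
          rw [LocalizedModule.map_mk, map_one]
          rfl
      map_mul' := fun y z => by
        apply LinearMap.ext
        intro z
        induction z using LocalizedModule.induction_on with
        | _ x t =>
          rw [LocalizedModule.map_mk, Module.End.mul_apply, LocalizedModule.map_mk,
            LocalizedModule.map_mk, map_mul]
          rfl }
  have hρ1 : ∀ y x, (ρ' y - 1) (LocalizedModule.mk x 1) = LocalizedModule.mk ((ρ y - 1) x) 1 := by
    intro y x
    have h3 : LocalizedModule.mk ((ρ y - 1) x) (1 : S) + LocalizedModule.mk x 1 =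
        LocalizedModule.mk (ρ y x) 1 := by
      rw [LocalizedModule.mk_add_mk, one_smul, one_smul, one_mul, LinearMap.sub_apply,
        Module.End.one_apply, sub_add_cancel]
    rw [LinearMap.sub_apply, Module.End.one_apply, sub_eq_iff_eq_add, h3]
    exact LocalizedModule.map_mk S (ρ y) x 1
  have hz := few hsq r hg hA0 hA1 hcl hk hn s' hs' ρ'
  have key : ∀ y z : G, (ρ' y - 1) * (ρ' z - 1) = 0 →
      ∃ d : ℕ, (2 * g - 2) ^ d • (((ρ y - 1) * (ρ z - 1)) v) = 0 := by
    intro y z h
    have h1 := LinearMap.congr_fun h (LocalizedModule.mk v 1)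
    rw [Module.End.mul_apply, hρ1, hρ1] at h1
    have h2 : LocalizedModule.mk ((ρ y - 1) ((ρ z - 1) v)) (1 : S) = LocalizedModule.mk 0 1 := by
      rw [LocalizedModule.zero_mk]
      exact h1
    rw [LocalizedModule.mk_eq] at h2
    obtain ⟨⟨_, d, rfl⟩, hu⟩ := h2
    refine ⟨d, ?_⟩
    rw [one_smul, one_smul, smul_zero] at hu
    have h3 : ((2 * g - 2 : ℕ) : k) ^ d • ((ρ y - 1) ((ρ z - 1) v)) = 0 := hu
    rw [← Nat.cast_pow, Nat.cast_smul_eq_nsmul] at h3
    exact h3
  exact ⟨key _ _ hz.1, key _ _ hz.2⟩

end few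

end Pool.Agent.U379.TR.Univ
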