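import Pool.Agent.U379.TR.Lick2

set_option autoImplicit false

/-!
# An element acting as `-1` on the homology
-/

namespace Pool.Agent.U379.TR.Fi

open Pool.Agent.H29R2.MG Pool.Agent.TH35.MG Pool.Agent.R352.MG Pool.Agent.R665.MGR
  Pool.Agent.N66.CQ Pool.Agent.U379.PI Pool.Agent.Helper58.EN
open Pool.Agent.Q290.MG (homMat homM hc_aut hc_gen)
open Pool.Agent.N66.TA (GrpRel)

variable {g : ℕ}

/-- the matrix of the twist `a_m ↦ a_m b_m⁻¹` -/
theorem homMat_odd {m : ℕ} (hm : m < g) :
    homMat g (tt g (2 * m + 1)) - 1 = Matrix.single (Sum.inr ⟨m, hm⟩) (Sum.inl ⟨m, hm⟩) (-1) := by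
  have hj : 2 * m + 1 < 2 * g := by omega
  rw [tt_lt hj]
  have hfv : fv (⟨2 * m + 1, hj⟩ : Fin (2 * g)) = stepA ⟨m, hm⟩ (fb ⟨m, hm⟩) := by
    have e : (⟨(2 * m + 1) / 2, by omega⟩ : Fin g) = ⟨m, hm⟩ := Fin.ext (by simp; omega)
    unfold fv
    rw [if_neg (by simp)]
    simp only [e]
  ext i j
  have e : homMat g (chainTwist g ⟨2 * m + 1, hj⟩) i j =
      homologyClass (sv ⟨2 * m + 1, hj⟩ (gen j)) i := rfl
  rw [Matrix.sub_apply, e, Matrix.single_apply, Matrix.one_apply]
  rcases j with l | l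
  · have e2 : (sv ⟨2 * m + 1, hj⟩ (gen (Sum.inl l)) : SurfaceGroup g) =
        mk g (stepA ⟨m, hm⟩ (fb ⟨m, hm⟩) (fa l)) := by
      rw [← hfv, ← sv_mk]
      rfl
    rw [e2, stepA_fa]
    by_cases hl : l = ⟨m, hm⟩
    · subst hl
      rw [if_pos rfl, map_mul, map_inv, hc_mul, hc_inv, hc_fa, hc_fb, Pi.add_apply, Pi.neg_apply,
        Pi.single_apply, Pi.single_apply]
      rcases i with i | i
      · have e3 : ¬ (Sum.inr ⟨m, hm⟩ = (Sum.inl i : Fin g ⊕ Fin g) ∧
            (Sum.inl ⟨m, hm⟩ : Fin g ⊕ Fin g) = Sum.inl ⟨m, hm⟩) := by simp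
        have e4 : ¬ ((Sum.inl i : Fin g ⊕ Fin g) = Sum.inr ⟨m, hm⟩) := by simp
        rw [if_neg e3, if_neg e4, neg_zero, add_zero, sub_self]
      · have e4 : ¬ ((Sum.inr i : Fin g ⊕ Fin g) = Sum.inl ⟨m, hm⟩) := by simp
        rw [if_neg e4, zero_add, sub_zero]
        by_cases h1 : (Sum.inr i : Fin g ⊕ Fin g) = Sum.inr ⟨m, hm⟩
        · rw [if_pos h1, if_pos ⟨h1.symm, rfl⟩]
        · rw [if_neg h1, if_neg (fun h => h1 h.1.symm), neg_zero]
    · rw [if_neg hl, hc_fa, Pi.single_apply, sub_self, if_neg]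
      rintro ⟨_, h'⟩
      exact hl (Sum.inl_injective h').symm
  · have e2 : (sv ⟨2 * m + 1, hj⟩ (gen (Sum.inr l)) : SurfaceGroup g) =
        mk g (stepA ⟨m, hm⟩ (fb ⟨m, hm⟩) (fb l)) := by
      rw [← hfv, ← sv_mk]
      rfl
    rw [e2, stepA_fb, hc_fb, Pi.single_apply, sub_self, if_neg]
    rintro ⟨_, h'⟩
    cases h'

theorem ring_pow3 {R : Type*} [Ring R] {E F : R} (h1 : E * E = 0) (h2 : F * F = 0)
    (h3 : E * (F * E) = E) (h4 : F * (E * F) = F) :
    ((1 + E) * (1 - F)) ^ 3 = 1 - (E * F + F * E) - (E * F + F * E) := by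
  have h1' : ∀ x, E * (E * x) = 0 := fun x => by rw [← mul_assoc, h1, zero_mul]
  rw [pow_succ, pow_two]
  simp only [mul_add, add_mul, mul_sub, sub_mul, one_mul, mul_one, mul_assoc, h1, h2, h3, h4, h1',
    mul_zero, sub_zero, add_zero]
  abel

/-- the index of the handle -/
def idx (x : Fin g ⊕ Fin g) : ℕ := Sum.elim (fun i : Fin g => (i : ℕ)) (fun i : Fin g => (i : ℕ)) x

/-- the element acting as `-1` -/
theorem exists_iota {Γ : Subgroup (Mod g)} {c a : ℕ → Γ}
    (hc : ∀ j < 2 * g, (c j : Mod g) = tt g j) (ha : ∀ m < g, IsTwistAt g m (a m : Mod g)) :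
    ∃ ι : Γ, homMat g ι = -1 := by
  have step : ∀ k, k ≤ g → ∃ y : Γ, homMat g y =
      Matrix.diagonal (fun x : Fin g ⊕ Fin g => if idx x < k then (-1 : ℤ) else 1) := by
    intro k
    induction k with
    | zero =>
      intro _
      refine ⟨1, ?_⟩
      rw [OneMemClass.coe_one, map_one]
      ext i j
      simp [Matrix.one_apply, Matrix.diagonal_apply]
    | succ k ih =>
      intro hk
      obtain ⟨y, hy⟩ := ih (by omega)
      refine ⟨y * (a k * c (2 * k + 1)) ^ 3, ?_⟩
      have hA : homMat g (a k : Mod g) = 1 + Matrix.single (Sum.inl ⟨k, hk⟩) (Sum.inr ⟨k, hk⟩) 1 := by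
        rw [← homMat_at hk (ha k hk)]
        abel
      have hB : homMat g (c (2 * k + 1) : Mod g) =
          1 - Matrix.single (Sum.inr ⟨k, hk⟩) (Sum.inl ⟨k, hk⟩) 1 := by
        have h1 := homMat_odd (g := g) hk
        rw [hc _ (by omega)]
        have h2 : (Matrix.single (Sum.inr ⟨k, hk⟩) (Sum.inl ⟨k, hk⟩) (-1) :
            Matrix (Fin g ⊕ Fin g) (Fin g ⊕ Fin g) ℤ) =
            - Matrix.single (Sum.inr ⟨k, hk⟩) (Sum.inl ⟨k, hk⟩) 1 := by
          ext i j
          rw [Matrix.neg_apply, Matrix.single_apply, Matrix.single_apply]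
          split_ifs <;> rfl
        rw [h2] at h1
        rw [← sub_add_cancel (homMat g (tt g (2 * k + 1))) 1, h1]
        abel
      rw [Subgroup.coe_mul, Subgroup.coe_pow, Subgroup.coe_mul, map_mul, map_pow, map_mul, hA, hB, hy,
        ring_pow3 (by simp) (by simp) (by simp) (by simp)]
      have hD : (1 : Matrix (Fin g ⊕ Fin g) (Fin g ⊕ Fin g) ℤ) -
          (Matrix.single (Sum.inl ⟨k, hk⟩) (Sum.inl ⟨k, hk⟩) 1 +
            Matrix.single (Sum.inr ⟨k, hk⟩) (Sum.inr ⟨k, hk⟩) 1) -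
          (Matrix.single (Sum.inl ⟨k, hk⟩) (Sum.inl ⟨k, hk⟩) 1 +
            Matrix.single (Sum.inr ⟨k, hk⟩) (Sum.inr ⟨k, hk⟩) 1) =
          Matrix.diagonal (fun x : Fin g ⊕ Fin g => if idx x = k then (-1 : ℤ) else 1) := by
        ext i j
        rw [Matrix.sub_apply, Matrix.sub_apply, Matrix.add_apply, Matrix.single_apply,
          Matrix.single_apply, Matrix.one_apply, Matrix.diagonal_apply]
        by_cases hij : i = j
        · subst hij
          rw [if_pos rfl, if_pos rfl]
          rcases i with i | i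
          · have e1 : idx (Sum.inl i : Fin g ⊕ Fin g) = i := rfl
            rw [e1]
            by_cases h1 : (i : ℕ) = k
            · have h2 : i = ⟨k, hk⟩ := Fin.ext h1
              subst h2
              simp
            · have h2 : ¬ (⟨k, hk⟩ : Fin g) = i := fun h => h1 (congrArg Fin.val h).symm
              simp [h1, h2]
          · have e1 : idx (Sum.inr i : Fin g ⊕ Fin g) = i := rfl
            rw [e1]
            by_cases h1 : (i : ℕ) = k
            · have h2 : i = ⟨k, hk⟩ := Fin.ext h1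
              subst h2
              simp
            · have h2 : ¬ (⟨k, hk⟩ : Fin g) = i := fun h => h1 (congrArg Fin.val h).symm
              simp [h1, h2]
        · rw [if_neg hij, if_neg hij, if_neg (fun h => hij (h.1.symm.trans h.2)),
            if_neg (fun h => hij (h.1.symm.trans h.2))]
          rfl
      rw [Matrix.single_mul_single_same, Matrix.single_mul_single_same, mul_one, hD,
        Matrix.diagonal_mul_diagonal]
      congr 1
      funext x
      by_cases h1 : idx x < k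
      · rw [if_pos h1, if_neg (by omega), if_pos (by omega)]
        rfl
      · by_cases h2 : idx x = k
        · rw [if_neg h1, if_pos h2, if_pos (by omega)]
          rfl
        · rw [if_neg h1, if_neg h2, if_neg (by omega)]
          rfl
  obtain ⟨ι, hι⟩ := step g le_rfl
  refine ⟨ι, ?_⟩
  rw [hι]
  ext i j
  have h1 : idx i < g := by
    rcases i with i | i
    · exact i.2
    · exact i.2
  rw [Matrix.diagonal_apply, Matrix.neg_apply, Matrix.one_apply, if_pos h1]
  split_ifs <;> rfl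

end Pool.Agent.U379.TR.Fi
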