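import Pool.Agent.U379.TR.Nil

set_option autoImplicit false

/-!
# The kernels
-/

namespace Pool.Agent.U379.TR.Univ

open Pool.Agent.N66.TA (GrpRel)

section trans
variable {S R R' : Type} [Ring S] [Ring R] [Ring R'] {g : ℕ} {N A : ℕ → S}

theorem _root_.Pool.Agent.U379.TR.LRel.map (f : S →+* R) (h : LRel g N A) :
    LRel g (fun j => f (N j)) (fun m => f (A m)) where
  sq j hj := by
    show f (N j) * f (N j) = 0
    rw [← map_mul, h.sq j hj, map_zero]
  sqA m hm := by
    show f (A m) * f (A m) = 0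
    rw [← map_mul, h.sqA m hm, map_zero]
  z0 := by
    show f (N 0) + f (N 0) * (f (N 1) * f (N 0)) = 0
    rw [← map_mul, ← map_mul, ← map_add, h.z0, map_zero]
  nn j hj := by
    show f (N (j + 1)) + f (N (j + 1)) * (f (N j) * f (N (j + 1))) = 0
    rw [← map_mul, ← map_mul, ← map_add, h.nn j hj, map_zero]
  aa m hm := by
    show f (A m) + f (A m) * (f (N (2 * m + 1)) * f (A m)) = 0
    rw [← map_mul, ← map_mul, ← map_add, h.aa m hm, map_zero]
  dn j hj := by
    rw [Wd_map, Wd_map, ← map_mul, h.dn j hj]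
  fr i hi j hj h1 h2 := by
    rw [Wd_map, ← map_mul, h.fr i hi j hj h1 h2, map_zero]
  Aw m hm j hj h1 := by
    rw [Wd_map, ← map_mul, h.Aw m hm j hj h1, map_zero]
  Ab m hm := by
    simp only [Wd_map]
    rw [← map_mul, h.Ab m hm, map_sum]

theorem _root_.Pool.Agent.U379.TR.RRel.map (f : S →+* R) (h : RRel g N A) :
    RRel g (fun j => f (N j)) (fun m => f (A m)) where
  dn j hj := by
    rw [Wd'_map, Wd'_map, ← map_mul, h.dn j hj, map_neg]
  fr i hi j hj h1 h2 := by
    rw [Wd'_map, ← map_mul, h.fr i hi j hj h1 h2, map_zero]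
  Ab m hm := by
    simp only [Wd'_map]
    rw [← map_mul, h.Ab m hm, map_neg, map_sum]

theorem _root_.Pool.Agent.U379.TR.LRel.of_two (f : S →+* R) (f' : S →+* R')
    (inj : ∀ x, f x = 0 → f' x = 0 → x = 0) (h : LRel g (fun j => f (N j)) (fun m => f (A m)))
    (h' : LRel g (fun j => f' (N j)) (fun m => f' (A m))) : LRel g N A := by
  have inj2 : ∀ x y, f x = f y → f' x = f' y → x = y := by
    intro x y h1 h2
    rw [← sub_eq_zero]
    apply inj
    · rw [map_sub, h1, sub_self]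
    · rw [map_sub, h2, sub_self]
  constructor
  · intro j hj
    apply inj
    · rw [map_mul]; exact h.sq j hj
    · rw [map_mul]; exact h'.sq j hj
  · intro m hm
    apply inj
    · rw [map_mul]; exact h.sqA m hm
    · rw [map_mul]; exact h'.sqA m hm
  · apply inj
    · rw [map_add, map_mul, map_mul]; exact h.z0
    · rw [map_add, map_mul, map_mul]; exact h'.z0
  · intro j hj
    apply inj
    · rw [map_add, map_mul, map_mul]; exact h.nn j hj
    · rw [map_add, map_mul, map_mul]; exact h'.nn j hj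
  · intro m hm
    apply inj
    · rw [map_add, map_mul, map_mul]; exact h.aa m hm
    · rw [map_add, map_mul, map_mul]; exact h'.aa m hm
  · intro j hj
    apply inj2
    · rw [map_mul, ← Wd_map, ← Wd_map]; exact h.dn j hj
    · rw [map_mul, ← Wd_map, ← Wd_map]; exact h'.dn j hj
  · intro i hi j hj h1 h2
    apply inj
    · rw [map_mul, ← Wd_map]; exact h.fr i hi j hj h1 h2
    · rw [map_mul, ← Wd_map]; exact h'.fr i hi j hj h1 h2
  · intro m hm j hj h1
    apply inj
    · rw [map_mul, ← Wd_map]; exact h.Aw m hm j hj h1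
    · rw [map_mul, ← Wd_map]; exact h'.Aw m hm j hj h1
  · intro m hm
    apply inj2
    · rw [map_mul, map_sum]
      simp only [← Wd_map]
      exact h.Ab m hm
    · rw [map_mul, map_sum]
      simp only [← Wd_map]
      exact h'.Ab m hm

theorem _root_.Pool.Agent.U379.TR.RRel.of_two (f : S →+* R) (f' : S →+* R')
    (inj : ∀ x, f x = 0 → f' x = 0 → x = 0) (h : RRel g (fun j => f (N j)) (fun m => f (A m)))
    (h' : RRel g (fun j => f' (N j)) (fun m => f' (A m))) : RRel g N A := by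
  have inj2 : ∀ x y, f x = f y → f' x = f' y → x = y := by
    intro x y h1 h2
    rw [← sub_eq_zero]
    apply inj
    · rw [map_sub, h1, sub_self]
    · rw [map_sub, h2, sub_self]
  constructor
  · intro j hj
    apply inj2
    · rw [map_mul, map_neg, ← Wd'_map, ← Wd'_map]; exact h.dn j hj
    · rw [map_mul, map_neg, ← Wd'_map, ← Wd'_map]; exact h'.dn j hj
  · intro i hi j hj h1 h2
    apply inj
    · rw [map_mul, ← Wd'_map]; exact h.fr i hi j hj h1 h2
    · rw [map_mul, ← Wd'_map]; exact h'.fr i hi j hj h1 h2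
  · intro m hm
    apply inj2
    · rw [map_mul, map_neg, map_sum]
      simp only [← Wd'_map]
      exact h.Ab m hm
    · rw [map_mul, map_neg, map_sum]
      simp only [← Wd'_map]
      exact h'.Ab m hm

theorem Wd_zero {R : Type} [Ring R] (j : ℕ) : Wd (fun _ => (0 : R)) j = 0 := by
  cases j with
  | zero => rfl
  | succ j =>
    show -((0 : R) * _) = 0
    rw [zero_mul, neg_zero]

theorem Wd'_zero {R : Type} [Ring R] (j : ℕ) : Wd' (fun _ => (0 : R)) j = 0 := by
  cases j with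
  | zero =>
    show -(0 : R) = 0
    rw [neg_zero]
  | succ j =>
    show _ * (0 : R) = 0
    rw [mul_zero]

theorem LRel_zero {R : Type} [Ring R] : LRel g (fun _ => (0 : R)) (fun _ => (0 : R)) := by
  constructor <;> intros <;> simp only [Wd_zero, mul_zero, add_zero, Finset.sum_const_zero]

theorem RRel_zero {R : Type} [Ring R] : RRel g (fun _ => (0 : R)) (fun _ => (0 : R)) := by
  constructor <;> intros <;> simp only [Wd'_zero, mul_zero, neg_zero, Finset.sum_const_zero]

end trans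

section indep
variable {R : Type} [Ring R] {g : ℕ} {N A : ℕ → R} {k : Type} [CommRing k] [Algebra k R]

theorem right_indep' (hL : LRel g N A) (hR : RRel g N A) (hg : 1 ≤ g) (t : ℕ → k)
    (h : ∑ j ∈ Finset.range (2 * g), t j • EE N 0 j = 0) : ∀ j < 2 * g, t j • N 0 = 0 := by
  apply seq_zero g (fun j => t j • N 0)
  intro l hl
  have h1 : (∑ j ∈ Finset.range (2 * g), t j • EE N 0 j) * N l = 0 := by rw [h, zero_mul]
  rw [Finset.sum_mul] at h1
  have h2 : ∀ j ∈ Finset.range (2 * g), (t j • EE N 0 j) * N l =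
      (if j = l - 1 then (if 1 ≤ l then t j else 0) • EE N 0 l else 0) -
        (if j = l + 1 then t j • EE N 0 l else 0) := by
    intro j hj
    have hj' := Finset.mem_range.1 hj
    have e : (t j • EE N 0 j) * N l = t j • (Wd N 0 * (N 1 * (Wd' N j * N l))) := by
      unfold EE
      rw [Algebra.smul_mul_assoc]
      simp only [mul_assoc]
    rw [e]
    by_cases h3 : l = j + 1
    · subst h3
      rw [if_pos (by omega), if_pos (by omega), if_neg (by omega), sub_zero]
      rfl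
    · by_cases h4 : j = l + 1
      · subst h4
        rw [if_neg (by omega), if_pos rfl, zero_sub, hR.dn l hj', mul_neg, mul_neg, smul_neg]
        rfl
      · rw [if_neg h4, sub_zero, hR.fr l hl j hj' h3 h4, mul_zero, mul_zero, smul_zero]
        by_cases h5 : j = l - 1
        · rw [if_pos h5, if_neg (by omega), zero_smul]
        · rw [if_neg h5]
  rw [Finset.sum_congr rfl h2, Finset.sum_sub_distrib,
    Finset.sum_ite_eq' (Finset.range (2 * g)) (l - 1)
      (fun j => (if 1 ≤ l then t j else 0) • EE N 0 l),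
    if_pos (Finset.mem_range.2 (by omega)),
    Finset.sum_ite_eq' (Finset.range (2 * g)) (l + 1) (fun j => t j • EE N 0 l)] at h1
  simp only [Finset.mem_range] at h1
  have h3 : (if l + 1 < 2 * g then t (l + 1) • EE N 0 l else 0) =
      (if l + 1 < 2 * g then t (l + 1) else 0) • EE N 0 l := by
    split_ifs
    · rfl
    · rw [zero_smul]
  rw [h3, ← sub_smul] at h1
  have h4 := EE_diag hL 0 (by omega)
  have h5 : ((if 1 ≤ l then t (l - 1) else 0) - if l + 1 < 2 * g then t (l + 1) else 0) •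
      (Wd N 0 * N 1) * Wd' N l = 0 := by
    rw [Algebra.smul_mul_assoc, mul_assoc]
    exact h1
  have h6 := W'_down hR l hl h5
  rw [Algebra.smul_mul_assoc, mul_assoc] at h6
  have h7 : Wd N 0 * (N 1 * Wd' N 0) = N 0 := h4
  rw [h7, sub_smul, sub_eq_zero] at h6
  have h8 : (if 1 ≤ l then (fun j => t j • N 0) (l - 1) else 0) =
      (if 1 ≤ l then t (l - 1) else 0) • N 0 := by
    split_ifs
    · rfl
    · rw [zero_smul]
  have h9 : (if l + 1 < 2 * g then (fun j => t j • N 0) (l + 1) else 0) =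
      (if l + 1 < 2 * g then t (l + 1) else 0) • N 0 := by
    split_ifs
    · rfl
    · rw [zero_smul]
  rw [h8, h9]
  exact h6.symm

theorem indep' (hL : LRel g N A) (hR : RRel g N A) (hg : 1 ≤ g) (t : ℕ → ℕ → k)
    (h : ∑ i ∈ Finset.range (2 * g), ∑ j ∈ Finset.range (2 * g), t i j • EE N i j = 0) :
    ∀ i < 2 * g, ∀ j < 2 * g, t i j • N 0 = 0 := by
  intro i hi
  apply right_indep' hL hR hg
  have h1 := left_indep hL (fun i => N 1 * ∑ j ∈ Finset.range (2 * g), t i j • Wd' N j) (by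
    rw [← h]
    refine Finset.sum_congr rfl fun i _ => ?_
    rw [Finset.mul_sum, Finset.mul_sum]
    refine Finset.sum_congr rfl fun j _ => ?_
    rw [Algebra.mul_smul_comm, Algebra.mul_smul_comm]
    rfl) i hi
  rw [← h1]
  simp only [Finset.mul_sum]
  refine Finset.sum_congr rfl fun j _ => ?_
  rw [Algebra.mul_smul_comm, Algebra.mul_smul_comm]
  rfl

theorem smul_EE {t : k} (h : t • N 0 = 0) (i j : ℕ) : t • EE N i j = 0 := by
  have h1 : ∀ i, t • Wd N i = 0 := by
    intro i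
    induction i with
    | zero => exact h
    | succ i ih =>
      show t • -(N (i + 1) * Wd N i) = 0
      rw [smul_neg, ← Algebra.mul_smul_comm, ih, mul_zero, neg_zero]
  unfold EE
  rw [← Algebra.smul_mul_assoc, h1, zero_mul]

end indep

section main
variable {g : ℕ} {G : Type} [Group G] {c a : ℕ → G} {n : Type} [Fintype n] [DecidableEq n]

/-- the relations over the integers -/
theorem rels_int (hg : 3 ≤ g) (hR : GrpRel g c a) (σ : G →* Matrix n n ℤ)
    (h0 : (σ (c 0) - 1) * (σ (c 0) - 1) = 0) (h1 : (σ (a 1) - 1) * (σ (c 0) - 1) = 0) :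
    LRel g (fun j => σ (c j) - 1) (fun m => σ (a m) - 1) ∧
      RRel g (fun j => σ (c j) - 1) (fun m => σ (a m) - 1) := by
  let q : Matrix n n ℤ →+* Matrix n n ℚ := (Int.castRingHom ℚ).mapMatrix
  have hq : ∀ x, q x = 0 → x = 0 := by
    intro x hx
    ext i j
    have h3 := congrFun (congrFun hx i) j
    exact Int.cast_eq_zero.1 h3
  let σ' : G →* Matrix n n ℚ := (q : Matrix n n ℤ →* Matrix n n ℚ).comp σ
  have hσ' : ∀ y, σ' y - 1 = q (σ y - 1) := by
    intro y
    rw [map_sub, map_one]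
    rfl
  have h2 : IsUnit ((2 * g - 2 : ℕ) : ℚ) := by
    rw [isUnit_iff_ne_zero]
    exact Nat.cast_ne_zero.2 (by omega)
  have h0' : (σ' (c 0) - 1) * (σ' (c 0) - 1) = 0 := by
    rw [hσ', ← map_mul, h0, map_zero]
  have h1' : (σ' (a 1) - 1) * (σ' (c 0) - 1) = 0 := by
    rw [hσ', hσ', ← map_mul, h1, map_zero]
  have hL := left_rel hg hR h2 σ' h0' h1'
  have hRR := right_rel hg hR h2 σ' h0' h1'
  have e1 : (fun j => σ' (c j) - 1) = fun j => q ((fun j => σ (c j) - 1) j) := by
    funext j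
    exact hσ' _
  have e2 : (fun m => σ' (a m) - 1) = fun m => q ((fun m => σ (a m) - 1) m) := by
    funext m
    exact hσ' _
  rw [e1, e2] at hL hRR
  exact ⟨LRel.of_two q q (fun x h _ => hq x h) hL hL, RRel.of_two q q (fun x h _ => hq x h) hRR hRR⟩

/-- the expansion with integer coefficients -/
theorem expand (hg : 3 ≤ g) (hR : GrpRel g c a)
    (hcl : Subgroup.closure ({x | ∃ j < 2 * g, x = c j} ∪ {x | ∃ m < g, x = a m}) = ⊤)
    (σ : G →* Matrix n n ℤ)
    (h0 : (σ (c 0) - 1) * (σ (c 0) - 1) = 0) (h1 : (σ (a 1) - 1) * (σ (c 0) - 1) = 0)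
    {R : Type} [Ring R] (ρ : G →* R) (hL : LRel g (fun j => ρ (c j) - 1) (fun m => ρ (a m) - 1))
    (hRR : RRel g (fun j => ρ (c j) - 1) (fun m => ρ (a m) - 1)) (y : G) :
    ∃ t : ℕ → ℕ → ℤ,
      ρ y = 1 + ∑ i ∈ Finset.range (2 * g), ∑ j ∈ Finset.range (2 * g),
        t i j • EE (fun j => ρ (c j) - 1) i j ∧
      σ y = 1 + ∑ i ∈ Finset.range (2 * g), ∑ j ∈ Finset.range (2 * g),
        t i j • EE (fun j => σ (c j) - 1) i j := by
  obtain ⟨hL1, hR1⟩ := rels_int hg hR σ h0 h1
  let S := R × (Matrix n n ℤ × ℤ)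
  let ρ' : G →* S := ρ.prod (σ.prod 1)
  let f1 : S →+* R := RingHom.fst _ _
  let f2 : S →+* Matrix n n ℤ × ℤ := RingHom.snd _ _
  let f3 : S →+* Matrix n n ℤ := (RingHom.fst _ _).comp f2
  let f4 : S →+* ℤ := (RingHom.snd _ _).comp f2
  have i1 : ∀ x, f1 x = 0 → f2 x = 0 → x = 0 := fun x h h' => Prod.ext h h'
  have i2 : ∀ x : Matrix n n ℤ × ℤ, RingHom.fst (Matrix n n ℤ) ℤ x = 0 →
      RingHom.snd (Matrix n n ℤ) ℤ x = 0 → x = 0 := fun x h h' => Prod.ext h h'
  have z1 : (fun _ : ℕ => (0 : ℤ)) = fun j => RingHom.snd (Matrix n n ℤ) ℤ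
      ((fun j => (σ.prod (1 : G →* ℤ)) (c j) - 1) j) := by
    funext j
    show (0 : ℤ) = 1 - 1
    rw [sub_self]
  have z2 : (fun _ : ℕ => (0 : ℤ)) = fun j => RingHom.snd (Matrix n n ℤ) ℤ
      ((fun j => (σ.prod (1 : G →* ℤ)) (a j) - 1) j) := by
    funext j
    show (0 : ℤ) = 1 - 1
    rw [sub_self]
  have hL2 : LRel g (fun j => (σ.prod (1 : G →* ℤ)) (c j) - 1)
      (fun m => (σ.prod (1 : G →* ℤ)) (a m) - 1) := by
    refine LRel.of_two (RingHom.fst (Matrix n n ℤ) ℤ) (RingHom.snd (Matrix n n ℤ) ℤ) i2 hL1 ?_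
    rw [← z1, ← z2]
    exact LRel_zero
  have hR2 : RRel g (fun j => (σ.prod (1 : G →* ℤ)) (c j) - 1)
      (fun m => (σ.prod (1 : G →* ℤ)) (a m) - 1) := by
    refine RRel.of_two (RingHom.fst (Matrix n n ℤ) ℤ) (RingHom.snd (Matrix n n ℤ) ℤ) i2 hR1 ?_
    rw [← z1, ← z2]
    exact RRel_zero
  have hL3 : LRel g (fun j => ρ' (c j) - 1) (fun m => ρ' (a m) - 1) :=
    LRel.of_two f1 f2 i1 hL hL2
  have hR3 : RRel g (fun j => ρ' (c j) - 1) (fun m => ρ' (a m) - 1) :=
    RRel.of_two f1 f2 i1 hRR hR2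
  have h3 := rho_PP (k := ℤ) ρ' hcl hL3 hR3 y 1 one_PP
  rw [mul_one] at h3
  obtain ⟨s, t, h4⟩ := mem_PP h3
  have e1 : ∀ i j, f1 (EE (fun j => ρ' (c j) - 1) i j) = EE (fun j => ρ (c j) - 1) i j :=
    fun i j => (EE_map f1 _ i j).symm
  have e3 : ∀ i j, f3 (EE (fun j => ρ' (c j) - 1) i j) = EE (fun j => σ (c j) - 1) i j :=
    fun i j => (EE_map f3 _ i j).symm
  have e4 : ∀ i j, f4 (EE (fun j => ρ' (c j) - 1) i j) = 0 := by
    intro i j
    rw [← EE_map f4]
    have h5 : (fun i => f4 ((fun j => ρ' (c j) - 1) i)) = fun _ => (0 : ℤ) := by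
      funext j
      show (1 : ℤ) - 1 = 0
      rw [sub_self]
    rw [h5, EE_zero]
  have hs : s = 1 := by
    have h5 := congrArg f4 h4
    rw [map_add] at h5
    simp only [map_sum, map_zsmul, e4, smul_zero, Finset.sum_const_zero, add_zero, map_one] at h5
    have h6 : f4 (ρ' y) = 1 := rfl
    rw [h6, smul_eq_mul, mul_one] at h5
    exact h5.symm
  subst hs
  refine ⟨t, ?_, ?_⟩
  · have h5 := congrArg f1 h4
    rw [map_add] at h5
    simp only [map_sum, map_zsmul, e1, map_one, one_smul] at h5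
    exact h5
  · have h5 := congrArg f3 h4
    rw [map_add] at h5
    simp only [map_sum, map_zsmul, e3, map_one, one_smul] at h5
    exact h5

/-- the kernel -/
theorem ker_iff (hg : 3 ≤ g) (hR : GrpRel g c a)
    (hcl : Subgroup.closure ({x | ∃ j < 2 * g, x = c j} ∪ {x | ∃ m < g, x = a m}) = ⊤)
    (σ : G →* Matrix n n ℤ)
    (h0 : (σ (c 0) - 1) * (σ (c 0) - 1) = 0) (h1 : (σ (a 1) - 1) * (σ (c 0) - 1) = 0) (i0 j0 : n)
    (hij : (σ (c 0) - 1) i0 j0 = 1)
    {R : Type} [Ring R] (ρ : G →* R) (hL : LRel g (fun j => ρ (c j) - 1) (fun m => ρ (a m) - 1))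
    (hRR : RRel g (fun j => ρ (c j) - 1) (fun m => ρ (a m) - 1)) (y : G) :
    ρ y = 1 ↔ ∀ i j, ((addOrderOf (ρ (c 0) - 1) : ℕ) : ℤ) ∣ (σ y - 1) i j := by
  obtain ⟨t, e1, e2⟩ := expand hg hR hcl σ h0 h1 ρ hL hRR y
  obtain ⟨hL1, hR1⟩ := rels_int hg hR σ h0 h1
  set M := addOrderOf (ρ (c 0) - 1) with hM
  constructor
  · intro h i j
    rw [h] at e1
    have h3 := indep' hL hRR (by omega) t (left_eq_add.1 e1)
    rw [e2, add_sub_cancel_left, Matrix.sum_apply]
    refine Finset.dvd_sum fun l hl => ?_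
    rw [Matrix.sum_apply]
    refine Finset.dvd_sum fun l' hl' => ?_
    rw [Matrix.smul_apply, smul_eq_mul]
    refine Dvd.dvd.mul_right ?_ _
    exact addOrderOf_dvd_iff_zsmul_eq_zero.2
      (h3 l (Finset.mem_range.1 hl) l' (Finset.mem_range.1 hl'))
  · intro h
    let q : Matrix n n ℤ →+* Matrix n n (ZMod M) := (Int.castRingHom (ZMod M)).mapMatrix
    have h3 : q (σ y - 1) = 0 := by
      ext i j
      show (((σ y - 1) i j : ℤ) : ZMod M) = 0
      exact (ZMod.intCast_zmod_eq_zero_iff_dvd _ _).2 (h i j)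
    rw [e2, add_sub_cancel_left] at h3
    simp only [map_sum, map_zsmul, ← EE_map] at h3
    have h4 := indep' (hL1.map q) (hR1.map q) (by omega) t h3
    rw [e1]
    refine add_eq_left.2 (Finset.sum_eq_zero fun l hl => Finset.sum_eq_zero fun l' hl' => ?_)
    apply smul_EE
    have h5 := h4 l (Finset.mem_range.1 hl) l' (Finset.mem_range.1 hl')
    have h6 := congrFun (congrFun h5 i0) j0
    rw [Matrix.smul_apply] at h6
    have h7 : q (σ (c 0) - 1) i0 j0 = 1 := by
      show (((σ (c 0) - 1) i0 j0 : ℤ) : ZMod M) = 1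
      rw [hij, Int.cast_one]
    rw [h7, zsmul_eq_mul, mul_one] at h6
    exact addOrderOf_dvd_iff_zsmul_eq_zero.1 ((ZMod.intCast_zmod_eq_zero_iff_dvd _ _).1 h6)

end main

end Pool.Agent.U379.TR.Univ
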