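import Pool.Agent.U379.TR.Lick
import Pool.Agent.U379.TR.Fi

set_option autoImplicit false

/-!
# Lickorish' generators: all the twists `a_m`, and an element acting as `-1` on the homology
-/

namespace Pool.Agent.U379.TR.Lick

open Pool.Agent.H29R2.MG Pool.Agent.H798R3.MG Pool.Agent.N66.TA
open Pool.Agent.TH35.MG (modF HRel Ss allH h_rel HRel.pull HRel.congr HRel.tau_eq HRel.map)
open Pool.Agent.R352.MG (IsTwistAt mk_hA)
open Pool.Agent.R665.MGR (tt tt_lt)

open Pool.Agent.R665.MGR (Humphries twist_unique)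
open Win (Op push_mem)

/-- The subgroup `Γ` of `Mod_g` generated by the twists `c_j` (`j < 2 g`) and `a_m` (`m < g`) contains
the handle elements. -/
theorem lick2 {g : ℕ} (hg : 7 ≤ g) :
    ∃ (Γ : Subgroup (Mod g)) (c a A B al be T : ℕ → Γ) (tau : Γ),
      Humphries g ≤ Γ ∧ (∀ j < 2 * g, (c j : Mod g) = tt g j) ∧ (∀ m < g, IsTwistAt g m (a m : Mod g)) ∧
      Subgroup.closure ({x | ∃ j < 2 * g, x = c j} ∪ {x | ∃ m < g, x = a m}) = ⊤ ∧
      GrpRel g c a ∧ HRel (g - 3) A B al be T tau ∧ A 0 = c 0 ∧ A 1 = a 1 := by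
  classical
  obtain ⟨i0, rfl⟩ : ∃ i0, g = i0 + 4 := ⟨g - 4, by omega⟩
  set g := i0 + 4 with hgdef
  obtain ⟨c, a, hc, ha, hs, hct, hT1, hL, hK, hclo⟩ := mod_rel2 (g := g) (by omega)
  set aM : ℕ → Mod g := fun m => toMod g ⟨a m, ha m⟩ with haM
  let Γ : Subgroup (Mod g) :=
    Subgroup.closure ({x | ∃ j < 2 * g, x = tt g j} ∪ {x | ∃ m < g, x = aM m})
  have mc : ∀ j < 2 * g, tt g j ∈ Γ := fun j hj => Subgroup.subset_closure (Or.inl ⟨j, hj, rfl⟩)
  have ma : ∀ m < g, aM m ∈ Γ := fun m hm => Subgroup.subset_closure (Or.inr ⟨m, hm, rfl⟩)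
  have hHum : Humphries g ≤ Γ := by
    unfold Humphries
    rw [Subgroup.closure_le]
    rintro x (⟨j, rfl⟩ | hx)
    · rw [← tt_lt j.2]
      exact mc j j.2
    · rw [twist_unique (by omega) hT1 hx]
      exact ma 1 (by omega)
  let H' : Subgroup (MulAut (SurfaceGroup g)) := (Γ.comap (toMod g)).map (orientedAut g).subtype
  have hcH : ∀ j < 2 * g, c j ∈ H' := by
    intro j hj
    refine ⟨⟨c j, hc j⟩, ?_, rfl⟩
    show toMod g ⟨c j, hc j⟩ ∈ Γ
    rw [hct j hj]
    exact mc j hj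
  have haH : ∀ m < g, a m ∈ H' := fun m hm => ⟨⟨a m, ha m⟩, ma m hm, rfl⟩
  have hTH : ∀ i, i + 1 < g → TT c a i ∈ H' := by
    intro i hi
    have h1 := haH i (by omega)
    have h2 := hcH (2 * i + 1) (by omega)
    have h3 := hcH (2 * i + 2) (by omega)
    have h4 : Rw (a i) (c (2 * i + 1)) ∈ H' := H'.mul_mem (H'.mul_mem h1 h2) h1
    exact H'.mul_mem (H'.mul_mem (H'.mul_mem h4 h4) h3) (H'.inv_mem (H'.mul_mem h4 h4))
  have ctx : Ctx g (i0 + 1) (i0 + 3) := ⟨by omega, by omega, by omega⟩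
  have hk := whyp.k g (i0 + 1) (i0 + 3) ctx.h2 ctx.hN ctx.hg
  have memF : ∀ x : orSub g, K0.F g x ∈ H' → modF g x ∈ Γ := by
    rintro x ⟨ψ, h1, h2⟩
    have e : ψ = TQ.qh g x := Subtype.ext h2
    subst e
    exact h1
  have eA : ∀ i < i0 + 1, K0.F g (sA g i) = a i := fun i hi =>
    K0.F_hom (hk.1 i hi).1 (a i) (hs.ha i (by omega))
  have eB : ∀ i < i0 + 1, K0.F g (sB g i) = c (2 * i + 1) := by
    intro i hi
    apply K0.F_hom (hk.1 i hi).2.1
    intro x
    rw [hs.hc (2 * i + 1) (by omega), sv_mk, K0.stepA_eq i (by omega)]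
  have eT : ∀ i, i + 1 < i0 + 1 → K0.F g (sT g i (i + 1)) = TT c a i := fun i hi =>
    K0.F_hom (hk.2.2 i (i + 1) (by omega) (by omega) (by omega)) _ (TT_isEnd hs (by omega))
  have r := HRel.map (modF g) (h_rel whyp ctx)
  have mA : ∀ i < i0 + 1, modF g (sA g i) ∈ Γ := by
    intro i hi
    apply memF
    rw [eA i hi]
    exact haH i (by omega)
  have mB : ∀ i < i0 + 1, modF g (sB g i) ∈ Γ := by
    intro i hi
    apply memF
    rw [eB i hi]
    exact hcH _ (by omega)
  have mT : ∀ i, i + 1 < i0 + 1 → modF g (sT g i (i + 1)) ∈ Γ := by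
    intro i hi
    apply memF
    rw [eT i hi]
    exact hTH i (by omega)
  -- the last push
  have hB' : ∀ i < g, IsEnd (hB g i) (c (2 * i + 1)) := by
    intro i hi x
    rw [hs.hc (2 * i + 1) (by omega), sv_mk, K0.stepA_eq i hi]
  have mlast : modF g (sal g (i0 + 3) i0) ∈ Γ := by
    apply memF
    let v : Op → MulAut (SurfaceGroup g) := fun o => match o with
      | Op.A0 => a (i0 + 0) | Op.A1 => a (i0 + 1) | Op.A2 => a (i0 + 2) | Op.A3 => a (i0 + 3)
      | Op.B0 => c (2 * (i0 + 0) + 1) | Op.B1 => c (2 * (i0 + 1) + 1)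
      | Op.B2 => c (2 * (i0 + 2) + 1) | Op.B3 => c (2 * (i0 + 3) + 1)
      | Op.T0 => TT c a (i0 + 0) | Op.T1 => TT c a (i0 + 1) | Op.T2 => TT c a (i0 + 2)
      | Op.L => K0.F g (sal g (i0 + 3) i0)
    refine push_mem (i0 := i0) hgdef v ?_ H' ?_
    · intro o
      cases o
      · exact hs.ha (i0 + 0) (by omega)
      · exact hs.ha (i0 + 1) (by omega)
      · exact hs.ha (i0 + 2) (by omega)
      · exact hs.ha (i0 + 3) (by omega)
      · exact hB' (i0 + 0) (by omega)
      · exact hB' (i0 + 1) (by omega)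
      · exact hB' (i0 + 2) (by omega)
      · exact hB' (i0 + 3) (by omega)
      · exact TT_isEnd hs (by omega)
      · exact TT_isEnd hs (by omega)
      · exact TT_isEnd hs (by omega)
      · intro x
        show K0.F g (sal g (i0 + 3) i0) (mk g x) = mk g (hal g (i0 + 3) i0 x)
        rw [K0.F_mk]
        congr 1
        exact mkS_apply (hk.1 i0 (by omega)).2.2.1 x
    · intro o ho
      cases o
      · exact haH _ (by omega)
      · exact haH _ (by omega)
      · exact haH _ (by omega)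
      · exact haH _ (by omega)
      · exact hcH _ (by omega)
      · exact hcH _ (by omega)
      · exact hcH _ (by omega)
      · exact hcH _ (by omega)
      · exact hTH _ (by omega)
      · exact hTH _ (by omega)
      · exact hTH _ (by omega)
      · exact absurd rfl ho
  have mS : ∀ i, i + 1 < i0 + 1 → Ss (fun i => modF g (sA g i)) (fun i => modF g (sB g i))
      (fun i => modF g (sT g i (i + 1))) i ∈ Γ := fun i hi =>
    Pool.Agent.TH35.MG.Ss_mem (mA i (by omega)) (mB i (by omega)) (mT i hi) (mB (i + 1) hi)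
      (mA (i + 1) hi)
  have mal : ∀ k i, i + k = i0 → modF g (sal g (i0 + 3) i) ∈ Γ := by
    intro k
    induction k with
    | zero =>
      intro i hi
      rw [show i = i0 by omega]
      exact mlast
    | succ k ih =>
      intro i hi
      have h1 := r.sal i (by omega)
      have h2 := ih (i + 1) (by omega)
      have h3 := mS i (by omega)
      have e : modF g (sal g (i0 + 3) i) =
          (Ss (fun i => modF g (sA g i)) (fun i => modF g (sB g i))
            (fun i => modF g (sT g i (i + 1))) i)⁻¹ * (modF g (sal g (i0 + 3) (i + 1)) *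
          Ss (fun i => modF g (sA g i)) (fun i => modF g (sB g i))
            (fun i => modF g (sT g i (i + 1))) i) := by
        rw [← h1, inv_mul_cancel_left]
      rw [e]
      exact Γ.mul_mem (Γ.inv_mem h3) (Γ.mul_mem h2 h3)
  have mal' : ∀ i < i0 + 1, modF g (sal g (i0 + 3) i) ∈ Γ := fun i hi =>
    mal (i0 - i) i (by omega)
  have mbe : ∀ i < i0 + 1, modF g (sbe g (i0 + 3) i) ∈ Γ := by
    intro i hi
    have h1 := r.B_al i hi
    have e : modF g (sbe g (i0 + 3) i) = ((modF g (sal g (i0 + 3) i))⁻¹ *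
        (modF g (sB g i) * modF g (sal g (i0 + 3) i) * (modF g (sB g i))⁻¹))⁻¹ := by
      rw [h1, inv_mul_cancel_left, inv_inv]
    rw [e]
    exact Γ.inv_mem (Γ.mul_mem (Γ.inv_mem (mal' i hi))
      (Γ.mul_mem (Γ.mul_mem (mB i hi) (mal' i hi)) (Γ.inv_mem (mB i hi))))
  have mtau : modF g (stau g (i0 + 3)) ∈ Γ := by
    have h1 := r.T_be_i 0 (by omega)
    have h0 : (0 : ℕ) < i0 + 1 := by omega
    have h01 : (0 : ℕ) + 1 < i0 + 1 := by omega
    have hdl : dl (fun i => modF g (sal g (i0 + 3) i)) (fun i => modF g (sbe g (i0 + 3) i)) 0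
        ∈ Γ := Γ.mul_mem (Γ.mul_mem (Γ.mul_mem (mal' 0 h0) (mbe 0 h0)) (Γ.inv_mem (mal' 0 h0)))
          (Γ.inv_mem (mbe 0 h0))
    have hU : UU (dl (fun i => modF g (sal g (i0 + 3) i)) (fun i => modF g (sbe g (i0 + 3) i)) 0)
        (modF g (sal g (i0 + 3) 0)) (modF g (sal g (i0 + 3) (0 + 1))) ∈ Γ :=
      Γ.mul_mem (Γ.mul_mem (Γ.mul_mem hdl (mal' (0 + 1) h01)) (Γ.inv_mem hdl)) (mal' 0 h0)
    have hY := Γ.mul_mem (mbe 0 h0) hU
    have e : modF g (stau g (i0 + 3)) = (modF g (sbe g (i0 + 3) 0) *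
        UU (dl (fun i => modF g (sal g (i0 + 3) i)) (fun i => modF g (sbe g (i0 + 3) i)) 0)
        (modF g (sal g (i0 + 3) 0)) (modF g (sal g (i0 + 3) (0 + 1))))⁻¹ *
        (modF g (sT g 0 (0 + 1)) * modF g (sbe g (i0 + 3) 0) * (modF g (sT g 0 (0 + 1)))⁻¹) := by
      rw [h1, inv_mul_cancel_left]
    rw [e]
    exact Γ.mul_mem (Γ.inv_mem hY) (Γ.mul_mem (Γ.mul_mem (mT 0 h01) (mbe 0 h0))
      (Γ.inv_mem (mT 0 h01)))
  -- lifts to `Γ`
  let L : Mod g → Γ := fun x => if h : x ∈ Γ then ⟨x, h⟩ else 1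
  have hLx : ∀ x ∈ Γ, (L x : Mod g) = x := by
    intro x hx
    simp only [L]
    rw [dif_pos hx]
  have hrel' : HRel (i0 + 1) (fun i => L (modF g (sA g i))) (fun i => L (modF g (sB g i)))
      (fun i => L (modF g (sal g (i0 + 3) i))) (fun i => L (modF g (sbe g (i0 + 3) i)))
      (fun i => L (modF g (sT g i (i + 1)))) (L (modF g (stau g (i0 + 3)))) := by
    refine HRel.pull Γ.subtype Γ.subtype_injective ?_
    exact (r.congr (fun i hi => hLx _ (mA i hi)) (fun i hi => hLx _ (mB i hi))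
      (fun i hi => hLx _ (mal' i hi)) (fun i hi => hLx _ (mbe i hi))
      (fun i hi => hLx _ (mT i hi))).tau_eq (hLx _ mtau)
  have hA : ∀ i < i0 + 1, modF g (sA g i) = aM i := by
    intro i hi
    show toMod g (TQ.qh g (sA g i)) = toMod g ⟨a i, ha i⟩
    congr 1
    exact Subtype.ext (eA i hi)
  -- the relations of the twists in `Γ`
  have hcc : ∀ j < 2 * g, Γ.subtype (L (tt g j)) = tt g j := fun j hj => hLx _ (mc j hj)
  have haa : ∀ m < g, Γ.subtype (L (aM m)) = aM m := fun m hm => hLx _ (ma m hm)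
  have hL' : LickRel g (fun j => L (tt g j)) (fun m => L (aM m)) := by
    refine LickRel.of_inj Γ.subtype_injective ⟨?_, ?_, ?_, ?_, ?_, ?_⟩
    · intro j hj
      simp only [hcc j (by omega), hcc (j + 1) hj]
      exact hL.braid j hj
    · intro i j h1 h2
      simp only [hcc i (by omega), hcc j h2]
      exact hL.far i j h1 h2
    · intro m hm
      simp only [hcc (2 * m + 1) (by omega), haa m hm]
      exact hL.braidA m hm
    · intro m hm j hj h1
      simp only [hcc j hj, haa m hm]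
      exact hL.farA m hm j hj h1
    · intro m hm l hl
      simp only [haa m hm, haa l hl]
      exact hL.commA m hm l hl
    · simp only [hcc 0 (by omega), haa 0 (by omega)]
      exact hL.a0
  have hcl : Subgroup.closure ({x : Γ | ∃ j < 2 * g, x = L (tt g j)} ∪
      {x : Γ | ∃ m < g, x = L (aM m)}) = ⊤ := by
    have h1 : (Subgroup.closure (((↑) : Γ → Mod g) ⁻¹'
        ({x | ∃ j < 2 * g, x = tt g j} ∪ {x | ∃ m < g, x = aM m}))) = ⊤ :=
      Subgroup.closure_closure_coe_preimage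
    rw [eq_top_iff, ← h1, Subgroup.closure_le]
    intro x hx
    apply Subgroup.subset_closure
    have hx' : (x : Mod g) ∈ ({x | ∃ j < 2 * g, x = tt g j} ∪ {x | ∃ m < g, x = aM m} :
      Set (Mod g)) := hx
    have key : ∀ y, (x : Mod g) = y → x = L y := by
      intro y hy
      apply Subtype.ext
      rw [← hy, hLx _ x.2]
    rcases hx' with ⟨j, hj, h⟩ | ⟨m, hm, h⟩
    · exact Or.inl ⟨j, hj, key _ h⟩
    · exact Or.inr ⟨m, hm, key _ h⟩
  have hRw : ∀ m < g, Rw (aM m) (tt g (2 * m + 1)) ∈ Γ := fun m hm =>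
    Γ.mul_mem (Γ.mul_mem (ma m hm) (mc _ (by omega))) (ma m hm)
  have hTTm : ∀ i, i + 1 < g → TT (tt g) aM i ∈ Γ := fun i hi =>
    Γ.mul_mem (Γ.mul_mem (Γ.mul_mem (hRw i (by omega)) (hRw i (by omega))) (mc _ (by omega)))
      (Γ.inv_mem (Γ.mul_mem (hRw i (by omega)) (hRw i (by omega))))
  have hQm : ∀ i < g, Qi (tt g) aM i ∈ Γ := fun i hi =>
    Γ.mul_mem (Γ.mul_mem (hRw i hi) (hRw i hi)) (Γ.mul_mem (hRw i hi) (hRw i hi))
  have hSm : ∀ i, i + 1 < g → Si (tt g) aM i ∈ Γ := by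
    intro i hi
    have x1 := ma i (by omega)
    have x2 := mc (2 * i + 1) (by omega)
    have x3 := hTTm i hi
    have x4 := mc (2 * i + 3) (by omega)
    have x5 := ma (i + 1) hi
    exact Γ.mul_mem (Γ.mul_mem (Γ.mul_mem (Γ.mul_mem (Γ.mul_mem (Γ.mul_mem (Γ.mul_mem
      (Γ.mul_mem x1 x2) x3) x4) x5) (Γ.mul_mem (Γ.mul_mem (Γ.mul_mem x1 x2) x3) x4))
      (Γ.mul_mem (Γ.mul_mem x1 x2) x3)) (Γ.mul_mem x1 x2)) x1
  refine ⟨Γ, fun j => L (tt g j), fun m => L (aM m), _, _, _, _, _, _, hHum, fun j hj => hcc j hj,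
    ?_, hcl, ⟨hL', ?_, ?_⟩, hrel', ?_, ?_⟩
  · intro m hm
    rw [show (L (aM m) : Mod g) = aM m from haa m hm]
    refine ⟨⟨a m, ha m⟩, rfl, ?_⟩
    intro j
    have h1 := hs.ha m (by omega) (FreeGroup.of j)
    rw [mk_hA] at h1
    exact h1
  · intro i hi
    obtain ⟨D, hD⟩ := hK i hi
    have hDm : D ∈ Γ := by
      have h1 := hD.d2
      have e : D = (Qi (tt g) aM i)⁻¹ * (Si (tt g) aM i * TT (tt g) aM (i + 1) *
          (Si (tt g) aM i)⁻¹) * Qi (tt g) aM i := by
        rw [← h1]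
        group
      rw [e]
      exact Γ.mul_mem (Γ.mul_mem (Γ.inv_mem (hQm i (by omega))) (Γ.mul_mem
        (Γ.mul_mem (hSm i (by omega)) (hTTm (i + 1) (by omega)))
        (Γ.inv_mem (hSm i (by omega))))) (hQm i (by omega))
    refine ⟨L D, KRel.of_inj Γ.subtype_injective ?_⟩
    rw [show Γ.subtype (L D) = D from hLx D hDm]
    exact hD.congr (fun j h1 h2 => (hcc j (by omega)).symm) (fun m h1 h2 => (haa m (by omega)).symm)
  · apply Γ.subtype_injective
    rw [map_pow, map_mul, map_mul, cp_map, haa _ (by omega), hcc 0 (by omega)]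
    rw [cp_congr (c' := tt g) 2 (2 * g - 2) (fun j h1 h2 => hcc j (by omega))]
    exact hclo
  · show L (modF g (sA g 0)) = L (tt g 0)
    rw [hA 0 (by omega), hL.a0]
  · show L (modF g (sA g 1)) = L (aM 1)
    rw [hA 1 (by omega)]

end Pool.Agent.U379.TR.Lick
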