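import Pool.Agent.U379.TR.Ker

set_option autoImplicit false

/-!
# Rings without `(2 g - 2)`-torsion
-/

namespace Pool.Agent.U379.TR.Univ

open Pool.Agent.N66.TA (GrpRel)
open Pool.Agent.TH35.MG (HRel)
open Pool.Agent.Helper58.EN (LN)

section loc
variable {R : Type} [Ring R] {S : Submonoid ℤ}

theorem mk_one_one : (LocalizedModule.mk 1 1 : LocalizedModule S R) = 1 :=
  OreLocalization.one_def.symm

/-- the map to the localization -/
noncomputable def toLoc (R : Type) [Ring R] (S : Submonoid ℤ) : R →+* LocalizedModule S R where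
  toFun x := LocalizedModule.mk x 1
  map_one' := mk_one_one
  map_mul' x y := by rw [LocalizedModule.mk_mul_mk, one_mul]
  map_zero' := LocalizedModule.zero_mk 1
  map_add' x y := by rw [LocalizedModule.mk_add_mk, one_smul, one_smul, one_mul]

theorem toLoc_apply (x : R) : toLoc R S x = LocalizedModule.mk x 1 := rfl

theorem toLoc_inj (h : ∀ s ∈ S, ∀ x : R, s • x = 0 → x = 0) (x : R) (hx : toLoc R S x = 0) :
    x = 0 := by
  have h1 : LocalizedModule.mk x 1 = (LocalizedModule.mk 0 1 : LocalizedModule S R) := by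
    rw [LocalizedModule.zero_mk]
    exact hx
  rw [LocalizedModule.mk_eq] at h1
  obtain ⟨u, hu⟩ := h1
  rw [one_smul, one_smul, smul_zero] at hu
  exact h u.1 u.2 x hu

/-- the ideal of the localization -/
noncomputable def locI (S : Submonoid ℤ) (I : Ideal R) : Ideal (LocalizedModule S R) where
  carrier := {z | ∃ r ∈ I, ∃ t : S, z = LocalizedModule.mk r t}
  add_mem' := by
    rintro _ _ ⟨r, hr, t, rfl⟩ ⟨r', hr', t', rfl⟩
    rw [LocalizedModule.mk_add_mk]
    exact ⟨_, I.add_mem (zsmul_mem hr _) (zsmul_mem hr' _), _, rfl⟩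
  zero_mem' := ⟨0, I.zero_mem, 1, (LocalizedModule.zero_mk 1).symm⟩
  smul_mem' := by
    rintro z _ ⟨r, hr, t, rfl⟩
    induction z using LocalizedModule.induction_on with
    | _ a u =>
      rw [smul_eq_mul, LocalizedModule.mk_mul_mk]
      exact ⟨_, I.mul_mem_left _ hr, _, rfl⟩

theorem mem_locI {I : Ideal R} {z : LocalizedModule S R} :
    z ∈ locI S I ↔ ∃ r ∈ I, ∃ t : S, z = LocalizedModule.mk r t := Iff.rfl

theorem locI_two (I : Ideal R) (hI : I.IsTwoSided) : (locI S I).IsTwoSided := by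
  constructor
  intro w z hw
  obtain ⟨r, hr, t, rfl⟩ := mem_locI.1 hw
  induction z using LocalizedModule.induction_on with
  | _ a u =>
    rw [LocalizedModule.mk_mul_mk]
    exact mem_locI.2 ⟨_, Ideal.mul_mem_right _ _ hr, _, rfl⟩

theorem locI_LN (I : Ideal R) (hI : LN (I : Set R)) : LN (locI S I : Set (LocalizedModule S R)) := by
  classical
  intro X hX
  have h1 : ∀ x : LocalizedModule S R, ∃ (r : R) (t : S), x ∈ X → r ∈ I ∧
      x = LocalizedModule.mk r t := by
    intro x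
    by_cases hx : x ∈ X
    · obtain ⟨r, hr, t, h2⟩ := mem_locI.1 (hX hx)
      exact ⟨r, t, fun _ => ⟨hr, h2⟩⟩
    · exact ⟨0, 1, fun h => absurd h hx⟩
  choose r t h2 using h1
  obtain ⟨N, hN⟩ := hI (X.image r) (by
    intro y hy
    rw [Finset.coe_image] at hy
    obtain ⟨x, hx, rfl⟩ := hy
    exact (h2 x hx).1)
  refine ⟨N, fun l hl hlen => ?_⟩
  have h3 : ∀ l : List (LocalizedModule S R), (∀ x ∈ l, x ∈ X) →
      l.prod = LocalizedModule.mk (l.map r).prod (l.map t).prod := by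
    intro l
    induction l with
    | nil => intro _; exact mk_one_one.symm
    | cons x l ih =>
      intro h
      rw [List.prod_cons, ih (fun y hy => h y (List.mem_cons_of_mem _ hy)), List.map_cons,
        List.map_cons, List.prod_cons, List.prod_cons]
      conv_lhs => rw [(h2 x (h x List.mem_cons_self)).2]
      rw [LocalizedModule.mk_mul_mk]
  rw [h3 l hl, hN (l.map r) (by
    intro y hy
    rw [List.mem_map] at hy
    obtain ⟨x, hx, rfl⟩ := hy
    exact Finset.mem_image_of_mem _ (hl x hx)) (by rw [List.length_map, hlen])]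
  exact LocalizedModule.zero_mk _

end loc

section main
variable {g : ℕ} {G : Type} [Group G] {c a : ℕ → G} {R : Type} [Ring R]

/-- the set inverted -/
def SS (g : ℕ) : Submonoid ℤ := Submonoid.powers ((2 * g - 2 : ℕ) : ℤ)

theorem tf_pow (htf : ∀ x : R, (2 * g - 2) • x = 0 → x = 0) :
    ∀ s ∈ SS g, ∀ x : R, s • x = 0 → x = 0 := by
  rintro _ ⟨d, rfl⟩
  induction d with
  | zero =>
    intro x hx
    simpa using hx
  | succ d ih =>
    intro x hx
    apply htf
    apply ih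
    have h1 : (((2 * g - 2 : ℕ) : ℤ) ^ (d + 1)) • x = 0 := hx
    rw [pow_succ, mul_smul, natCast_zsmul] at h1
    exact h1

theorem unit_loc : IsUnit ((2 * g - 2 : ℕ) : LocalizedModule (SS g) R) := by
  let s : SS g := ⟨((2 * g - 2 : ℕ) : ℤ), Submonoid.mem_powers _⟩
  have h1 : ((2 * g - 2 : ℕ) : LocalizedModule (SS g) R) = LocalizedModule.mk (s • (1 : R)) 1 := by
    rw [← map_natCast (toLoc R (SS g)), toLoc_apply]
    congr 1
    show ((2 * g - 2 : ℕ) : R) = ((2 * g - 2 : ℕ) : ℤ) • (1 : R)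
    rw [natCast_zsmul, nsmul_eq_mul, mul_one]
  have h2 : ((2 * g - 2 : ℕ) : LocalizedModule (SS g) R) * LocalizedModule.mk 1 s = 1 := by
    rw [h1, LocalizedModule.mk_mul_mk, mul_one, one_mul, LocalizedModule.mk_cancel]
    exact mk_one_one
  exact ⟨⟨_, _, h2, by rw [← (Nat.cast_commute _ _).eq, h2]⟩, rfl⟩

/-- The two elements vanish if they lie in a locally nilpotent ideal and the ring has no
`(2 g - 2)`-torsion. -/
theorem X_zero' (hg : 18 ≤ g) (hR : GrpRel g c a)
    (hcl : Subgroup.closure ({x | ∃ j < 2 * g, x = c j} ∪ {x | ∃ m < g, x = a m}) = ⊤)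
    {A B al be T : ℕ → G} {tau : G} (r : HRel (g - 3) A B al be T tau) (hA0 : A 0 = c 0)
    (hA1 : A 1 = a 1) {n : Type} [Fintype n] [DecidableEq n] (σ : G →* Matrix n n ℤ)
    (h0 : (σ (c 0) - 1) * (σ (c 0) - 1) = 0) (h1 : (σ (a 1) - 1) * (σ (c 0) - 1) = 0) (i0 j0 : n)
    (hij : (σ (c 0) - 1) i0 j0 = 1) (htf : ∀ x : R, (2 * g - 2) • x = 0 → x = 0)
    (ρ : G →* R) (I : Ideal R) (hI2 : I.IsTwoSided) (hI : LN (I : Set R))
    (hx0 : (ρ (c 0) - 1) * (ρ (c 0) - 1) ∈ I) (hx1 : (ρ (a 1) - 1) * (ρ (c 0) - 1) ∈ I) :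
    (ρ (c 0) - 1) * (ρ (c 0) - 1) = 0 ∧ (ρ (a 1) - 1) * (ρ (c 0) - 1) = 0 := by
  let q := toLoc R (SS g)
  let ρ' : G →* LocalizedModule (SS g) R := (q : R →* _).comp ρ
  have e : ∀ y, ρ' y - 1 = q (ρ y - 1) := by
    intro y
    rw [map_sub, map_one]
    rfl
  have h3 := X_zero hg hR hcl r hA0 hA1 σ h0 h1 i0 j0 hij (unit_loc (R := R)) ρ' (locI (SS g) I)
    (locI_two I hI2) (locI_LN I hI) (by
      rw [e, ← map_mul]
      exact mem_locI.2 ⟨_, hx0, 1, rfl⟩) (by
      rw [e, e, ← map_mul]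
      exact mem_locI.2 ⟨_, hx1, 1, rfl⟩)
  rw [e, e, ← map_mul, ← map_mul] at h3
  exact ⟨toLoc_inj (tf_pow htf) _ h3.1, toLoc_inj (tf_pow htf) _ h3.2⟩

/-- the relations in a ring without `(2 g - 2)`-torsion -/
theorem rels_tf (hg : 3 ≤ g) (hR : GrpRel g c a) (htf : ∀ x : R, (2 * g - 2) • x = 0 → x = 0)
    (ρ : G →* R) (h0 : (ρ (c 0) - 1) * (ρ (c 0) - 1) = 0)
    (h1 : (ρ (a 1) - 1) * (ρ (c 0) - 1) = 0) :
    LRel g (fun j => ρ (c j) - 1) (fun m => ρ (a m) - 1) ∧
      RRel g (fun j => ρ (c j) - 1) (fun m => ρ (a m) - 1) := by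
  let q := toLoc R (SS g)
  let ρ' : G →* LocalizedModule (SS g) R := (q : R →* _).comp ρ
  have e : ∀ y, ρ' y - 1 = q (ρ y - 1) := by
    intro y
    rw [map_sub, map_one]
    rfl
  have h0' : (ρ' (c 0) - 1) * (ρ' (c 0) - 1) = 0 := by
    rw [e, ← map_mul, h0, map_zero]
  have h1' : (ρ' (a 1) - 1) * (ρ' (c 0) - 1) = 0 := by
    rw [e, e, ← map_mul, h1, map_zero]
  have hk := unit_center (unit_loc (g := g) (R := R))
  have hL := left_rel hg hR hk ρ' h0' h1'
  have hRR := right_rel hg hR hk ρ' h0' h1'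
  have e1 : (fun j => ρ' (c j) - 1) = fun j => q ((fun j => ρ (c j) - 1) j) := by
    funext j
    exact e _
  have e2 : (fun m => ρ' (a m) - 1) = fun m => q ((fun m => ρ (a m) - 1) m) := by
    funext m
    exact e _
  rw [e1, e2] at hL hRR
  exact ⟨LRel.of_two q q (fun x h _ => toLoc_inj (tf_pow htf) x h) hL hL,
    RRel.of_two q q (fun x h _ => toLoc_inj (tf_pow htf) x h) hRR hRR⟩

end main

end Pool.Agent.U379.TR.Univ
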