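import Pool.Agent.U379.TR.Univ
import Pool.Agent.U379.PI.A

set_option autoImplicit false

/-!
# Locally nilpotent ideals
-/

namespace Pool.Agent.U379.TR.Univ

open Pool.Agent.N66.TA (GrpRel)
open Pool.Agent.TH35.MG (HRel)
open Pool.Agent.Helper58.EN (LN)

section nil
variable {g : ℕ} {G : Type} [Group G] {k : Type} [CommRing k] {c a : ℕ → G}
  {L : Type} [Ring L] [Algebra k L] {ρ : G →* L}

/-- a finite part of the ideal -/
theorem fin_part (hB : BB k ρ c a ≤ BB k ρ c a * BB k ρ c a) {x : L} (hx : x ∈ XX k ρ c a) :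
    ∃ T : Finset L, (T : Set L) ⊆ BB k ρ c a ∧
      x ∈ Submodule.span k (T : Set L) * (XX k ρ c a * ⊤) := by
  have h1 : x ∈ BB k ρ c a * (XX k ρ c a * ⊤) := by
    have h2 := hB (X_le_B hx)
    have h3 : BB k ρ c a * BB k ρ c a = BB k ρ c a * (XX k ρ c a * ⊤) := by
      conv_lhs => rw [show BB k ρ c a * BB k ρ c a = BB k ρ c a * (⊤ * XX k ρ c a * ⊤) from rfl]
      rw [mul_assoc ⊤, ← mul_assoc (BB k ρ c a), B_top]
    rwa [h3] at h2
  obtain ⟨T, T', hT, hT', h2⟩ := Submodule.mem_span_mul_finite_of_mem_mul h1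
  refine ⟨T, hT, ?_⟩
  rw [← Submodule.span_mul_span] at h2
  exact (mul_le_mul' le_rfl (Submodule.span_le.2 hT')) h2

theorem nil_zero (hB : BB k ρ c a ≤ BB k ρ c a * BB k ρ c a) {R : Type} [Ring R] (f : L →+* R)
    {I : Set R} (hI : LN I) (h : ∀ b ∈ BB k ρ c a, f b ∈ I) :
    f (x0 ρ c) = 0 ∧ f (x1 ρ c a) = 0 := by
  classical
  obtain ⟨T0, hT0, h0⟩ := fin_part (a := a) hB (x0_X (k := k) (ρ := ρ) (c := c) (a := a))
  obtain ⟨T1, hT1, h1⟩ := fin_part hB (x1_X (k := k) (ρ := ρ) (c := c) (a := a))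
  let T := T0 ∪ T1
  have hT : (T : Set L) ⊆ BB k ρ c a := by
    rw [Finset.coe_union]
    exact Set.union_subset hT0 hT1
  have hX : XX k ρ c a ≤ Submodule.span k (T : Set L) * (XX k ρ c a * ⊤) := by
    apply Submodule.span_le.2
    rintro x (rfl | rfl)
    · exact (mul_le_mul' (Submodule.span_mono (by
        rw [Finset.coe_union]; exact Set.subset_union_left)) le_rfl) h0
    · exact (mul_le_mul' (Submodule.span_mono (by
        rw [Finset.coe_union]; exact Set.subset_union_right)) le_rfl) h1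
  have hM : XX k ρ c a * ⊤ ≤ Submodule.span k (T : Set L) * (XX k ρ c a * ⊤) := by
    calc XX k ρ c a * ⊤ ≤ (Submodule.span k (T : Set L) * (XX k ρ c a * ⊤)) * ⊤ :=
          mul_le_mul' hX le_rfl
      _ = Submodule.span k (T : Set L) * (XX k ρ c a * ⊤) := by
          rw [mul_assoc, mul_assoc, top_mul_top]
  have hN : ∀ N : ℕ, XX k ρ c a * ⊤ ≤ Submodule.span k (T : Set L) ^ N * (XX k ρ c a * ⊤) := by
    intro N
    induction N with
    | zero => rw [pow_zero, one_mul]
    | succ N ih =>
      calc XX k ρ c a * ⊤ ≤ Submodule.span k (T : Set L) ^ N * (XX k ρ c a * ⊤) := ih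
        _ ≤ Submodule.span k (T : Set L) ^ N * (Submodule.span k (T : Set L) *
            (XX k ρ c a * ⊤)) := mul_le_mul' le_rfl hM
        _ = Submodule.span k (T : Set L) ^ (N + 1) * (XX k ρ c a * ⊤) := by
            rw [← mul_assoc, pow_succ]
  obtain ⟨N, hNil⟩ := hI (T.image f) (by
    intro y hy
    rw [Finset.coe_image] at hy
    obtain ⟨x, hx, rfl⟩ := hy
    exact h x (hT hx))
  have hz : ∀ x ∈ Submodule.span k (T : Set L) ^ N, f x = 0 := by
    intro x hx
    rw [Submodule.span_pow] at hx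
    induction hx using Submodule.span_induction with
    | mem x hx =>
      obtain ⟨s, rfl⟩ := Set.mem_pow.1 hx
      rw [map_list_prod]
      apply hNil
      · intro y hy
        rw [List.mem_map] at hy
        obtain ⟨z, hz, rfl⟩ := hy
        rw [List.mem_ofFn] at hz
        obtain ⟨i, rfl⟩ := hz
        exact Finset.mem_image_of_mem _ (s i).2
      · rw [List.length_map, List.length_ofFn]
    | zero => exact map_zero f
    | add x y _ _ h1 h2 => rw [map_add, h1, h2, add_zero]
    | smul t x _ h1 => rw [Algebra.smul_def, map_mul, h1, mul_zero]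
  have hz2 : ∀ x ∈ Submodule.span k (T : Set L) ^ N * (XX k ρ c a * ⊤), f x = 0 := by
    intro x hx
    refine Submodule.mul_induction_on hx ?_ ?_
    · intro m hm n _
      rw [map_mul, hz m hm, zero_mul]
    · intro x y h1 h2
      rw [map_add, h1, h2, add_zero]
  have hX2 : ∀ x ∈ XX k ρ c a, f x = 0 := by
    intro x hx
    apply hz2
    apply hN N
    have h3 := Submodule.mul_mem_mul hx (Submodule.mem_top : (1 : L) ∈ (⊤ : Submodule k L))
    rwa [mul_one] at h3
  exact ⟨hX2 _ x0_X, hX2 _ x1_X⟩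

theorem mem_PP {N : ℕ → L} {x : L} (hx : x ∈ PP k g N) : ∃ (s : k) (t : ℕ → ℕ → k),
    x = s • (1 : L) + ∑ i ∈ Finset.range (2 * g), ∑ j ∈ Finset.range (2 * g), t i j • EE N i j := by
  classical
  induction hx using Submodule.span_induction with
  | mem x hx =>
    rcases hx with rfl | ⟨i0, hi0, j0, hj0, rfl⟩
    · exact ⟨1, 0, by simp⟩
    · refine ⟨0, fun i j => if i = i0 then (if j = j0 then 1 else 0) else 0, ?_⟩
      rw [zero_smul, zero_add, Finset.sum_eq_single i0, Finset.sum_eq_single j0]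
      · simp
      · intro j _ hj
        simp [hj]
      · intro h
        exact absurd (Finset.mem_range.2 hj0) h
      · intro i _ hi
        simp [hi]
      · intro h
        exact absurd (Finset.mem_range.2 hi0) h
  | zero => exact ⟨0, 0, by simp⟩
  | add x y _ _ h1 h2 =>
    obtain ⟨s, t, rfl⟩ := h1
    obtain ⟨s', t', rfl⟩ := h2
    refine ⟨s + s', fun i j => t i j + t' i j, ?_⟩
    simp only [add_smul, Finset.sum_add_distrib]
    abel
  | smul r x _ h1 =>
    obtain ⟨s, t, rfl⟩ := h1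
    refine ⟨r * s, fun i j => r * t i j, ?_⟩
    simp only [smul_add, Finset.smul_sum, mul_smul]

end nil

section disj
variable {g : ℕ} {G : Type} [Group G] {k : Type} [CommRing k] {c a : ℕ → G}

theorem span_of : Submodule.span k (Set.range (MonoidAlgebra.of k G)) = ⊤ := by
  rw [eq_top_iff]
  intro x _
  induction x using MonoidAlgebra.induction_on with
  | of y => exact Submodule.subset_span ⟨y, rfl⟩
  | add x y h1 h2 => exact Submodule.add_mem _ (h1 trivial) (h2 trivial)
  | smul r x h1 => exact Submodule.smul_mem _ _ (h1 trivial)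

theorem EE_zero {R : Type} [Ring R] (i j : ℕ) : EE (fun _ => (0 : R)) i j = 0 := by
  unfold EE
  rw [zero_mul, mul_zero]

/-- `PP` does not meet the ideal in the group algebra -/
theorem disj (hg : 3 ≤ g) (hR : GrpRel g c a) (h2 : IsUnit ((2 * g - 2 : ℕ) : k))
    {E : Type} [Ring E] [Algebra k E] (σ : G →* E) (h0 : (σ (c 0) - 1) * (σ (c 0) - 1) = 0)
    (h1 : (σ (a 1) - 1) * (σ (c 0) - 1) = 0) (htf : ∀ t : k, t • (σ (c 0) - 1) = 0 → t = 0) :
    ∀ x ∈ PP k g (fun j => MonoidAlgebra.of k G (c j) - 1),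
      x ∈ BB k (MonoidAlgebra.of k G) c a → x = 0 := by
  intro x hx hxB
  obtain ⟨s, t, rfl⟩ := mem_PP hx
  let F1 : MonoidAlgebra k G →ₐ[k] E := MonoidAlgebra.lift k E G σ
  let F2 : MonoidAlgebra k G →ₐ[k] k := MonoidAlgebra.lift k k G 1
  have e1 : ∀ y, F1 (MonoidAlgebra.of k G y) = σ y := fun y => MonoidAlgebra.lift_of _ _
  have e2 : ∀ y, F2 (MonoidAlgebra.of k G y) = 1 := fun y => MonoidAlgebra.lift_of _ _
  have hB : ∀ {R : Type} [Ring R] [Algebra k R] (F : MonoidAlgebra k G →ₐ[k] R),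
      F (x0 (MonoidAlgebra.of k G) c) = 0 → F (x1 (MonoidAlgebra.of k G) c a) = 0 →
      ∀ z ∈ BB k (MonoidAlgebra.of k G) c a, F z = 0 := by
    intro R _ _ F h3 h4 z hz
    have h5 : BB k (MonoidAlgebra.of k G) c a ≤ LinearMap.ker F.toLinearMap := by
      apply B_le
      · apply Submodule.mul_le.2
        intro m _ n hn
        rw [LinearMap.mem_ker] at hn ⊢
        change F (m * n) = 0
        change F n = 0 at hn
        rw [map_mul, hn, mul_zero]
      · apply Submodule.mul_le.2
        intro m hm n _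
        rw [LinearMap.mem_ker] at hm ⊢
        change F (m * n) = 0
        change F m = 0 at hm
        rw [map_mul, hm, zero_mul]
      · exact h3
      · exact h4
    exact h5 hz
  have z1 := hB F1 (by
    unfold x0
    rw [map_mul, map_sub, e1, map_one, h0]) (by
    unfold x1
    rw [map_mul, map_sub, map_sub, e1, e1, map_one, h1]) _ hxB
  have z2 := hB F2 (by
    unfold x0
    rw [map_mul, map_sub, e2, map_one, sub_self, mul_zero]) (by
    unfold x1
    rw [map_mul, map_sub, map_sub, e2, e2, map_one, sub_self, mul_zero]) _ hxB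
  have hN1 : ∀ i j, F1 (EE (fun j => MonoidAlgebra.of k G (c j) - 1) i j) =
      EE (fun j => σ (c j) - 1) i j := by
    intro i j
    have h3 := EE_map (F1 : MonoidAlgebra k G →+* E) (fun j => MonoidAlgebra.of k G (c j) - 1) i j
    have h4 : (fun i => (F1 : MonoidAlgebra k G →+* E)
        ((fun j => MonoidAlgebra.of k G (c j) - 1) i)) = fun j => σ (c j) - 1 := by
      funext i
      show F1 (MonoidAlgebra.of k G (c i) - 1) = _
      rw [map_sub, e1, map_one]
    rw [h4] at h3
    exact h3.symm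
  have hN2 : ∀ i j, F2 (EE (fun j => MonoidAlgebra.of k G (c j) - 1) i j) = 0 := by
    intro i j
    have h3 := EE_map (F2 : MonoidAlgebra k G →+* k) (fun j => MonoidAlgebra.of k G (c j) - 1) i j
    have h4 : (fun i => (F2 : MonoidAlgebra k G →+* k)
        ((fun j => MonoidAlgebra.of k G (c j) - 1) i)) = fun _ => 0 := by
      funext i
      show F2 (MonoidAlgebra.of k G (c i) - 1) = _
      rw [map_sub, e2, map_one, sub_self]
    rw [h4, EE_zero] at h3
    exact h3.symm
  have hs : s = 0 := by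
    rw [map_add, map_smul, map_one] at z2
    simp only [map_sum, map_smul, hN2, smul_eq_mul, mul_one, mul_zero, Finset.sum_const_zero,
      add_zero] at z2
    exact z2
  subst hs
  rw [zero_smul, zero_add] at z1 ⊢
  simp only [map_sum, map_smul, hN1] at z1
  have hL := left_rel hg hR h2 σ h0 h1
  have hRR := right_rel hg hR h2 σ h0 h1
  have ht := indep hL hRR htf (by omega) t z1
  refine Finset.sum_eq_zero fun i hi => Finset.sum_eq_zero fun j hj => ?_
  rw [ht i (Finset.mem_range.1 hi) j (Finset.mem_range.1 hj), zero_smul]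

end disj

section main
variable {g : ℕ} {G : Type} [Group G] {c a : ℕ → G}

theorem unit_center {R : Type} [Ring R] {m : ℕ} (h2 : IsUnit ((m : ℕ) : R)) :
    IsUnit ((m : ℕ) : Subring.center R) := by
  obtain ⟨u, hu⟩ := h2
  have hc : ∀ y : R, y * (↑u⁻¹ : R) = (↑u⁻¹ : R) * y := by
    intro y
    have h3 : Commute (u : R) y := by
      rw [hu]
      exact Nat.cast_commute _ _
    exact (h3.units_inv_left).eq.symm
  refine ⟨⟨((m : ℕ) : Subring.center R), ⟨(↑u⁻¹ : R), Subring.mem_center_iff.2 hc⟩, ?_, ?_⟩, rfl⟩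
  · apply Subtype.ext
    show ((m : ℕ) : R) * (↑u⁻¹ : R) = 1
    rw [← hu, Units.mul_inv]
  · apply Subtype.ext
    show (↑u⁻¹ : R) * ((m : ℕ) : R) = 1
    rw [← hu, Units.inv_mul]

/-- The two elements vanish if they lie in a locally nilpotent ideal. -/
theorem X_zero (hg : 18 ≤ g) (hR : GrpRel g c a)
    (hcl : Subgroup.closure ({x | ∃ j < 2 * g, x = c j} ∪ {x | ∃ m < g, x = a m}) = ⊤)
    {A B al be T : ℕ → G} {tau : G} (r : HRel (g - 3) A B al be T tau) (hA0 : A 0 = c 0)
    (hA1 : A 1 = a 1) {n : Type} [Fintype n] [DecidableEq n] (σ : G →* Matrix n n ℤ)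
    (h0 : (σ (c 0) - 1) * (σ (c 0) - 1) = 0) (h1 : (σ (a 1) - 1) * (σ (c 0) - 1) = 0) (i0 j0 : n)
    (hij : (σ (c 0) - 1) i0 j0 = 1) {R : Type} [Ring R] (h2 : IsUnit ((2 * g - 2 : ℕ) : R))
    (ρ : G →* R) (I : Ideal R) (hI2 : I.IsTwoSided) (hI : LN (I : Set R))
    (hx0 : (ρ (c 0) - 1) * (ρ (c 0) - 1) ∈ I) (hx1 : (ρ (a 1) - 1) * (ρ (c 0) - 1) ∈ I) :
    (ρ (c 0) - 1) * (ρ (c 0) - 1) = 0 ∧ (ρ (a 1) - 1) * (ρ (c 0) - 1) = 0 := by
  let k := Subring.center R
  have hk : IsUnit ((2 * g - 2 : ℕ) : k) := unit_center h2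
  let q : Matrix n n ℤ →+* Matrix n n k := (Int.castRingHom k).mapMatrix
  let σ' : G →* Matrix n n k := (q : Matrix n n ℤ →* Matrix n n k).comp σ
  have hσ' : ∀ y, σ' y - 1 = q (σ y - 1) := by
    intro y
    rw [map_sub, map_one]
    rfl
  have hdis := disj (k := k) (by omega) hR hk σ' (by
      rw [hσ', ← map_mul, h0, map_zero]) (by
      rw [hσ', hσ', ← map_mul, h1, map_zero]) (by
      intro t ht
      have h3 := congrFun (congrFun ht i0) j0
      rw [hσ', Matrix.smul_apply] at h3
      have h4 : q (σ (c 0) - 1) i0 j0 = 1 := by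
        show ((σ (c 0) - 1) i0 j0 : ℤ) = (1 : k)
        rw [hij, Int.cast_one]
      rw [h4, smul_eq_mul, mul_one] at h3
      exact h3)
  have hB := B_le_sq (k := k) hg hR hcl r hA0 hA1 hk span_of hdis
  let F : MonoidAlgebra k G →ₐ[k] R := MonoidAlgebra.lift k R G ρ
  have e1 : ∀ y, F (MonoidAlgebra.of k G y) = ρ y := fun y => MonoidAlgebra.lift_of _ _
  have e2 : F (x0 (MonoidAlgebra.of k G) c) = (ρ (c 0) - 1) * (ρ (c 0) - 1) := by
    unfold x0
    rw [map_mul, map_sub, e1, map_one]
  have e3 : F (x1 (MonoidAlgebra.of k G) c a) = (ρ (a 1) - 1) * (ρ (c 0) - 1) := by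
    unfold x1
    rw [map_mul, map_sub, map_sub, e1, e1, map_one]
  have h3 := nil_zero hB (F : MonoidAlgebra k G →+* R) hI (by
    let J : Submodule k (MonoidAlgebra k G) :=
      { carrier := {x | F x ∈ I}
        add_mem' := fun {x y} hx hy => by
          show F (x + y) ∈ I
          rw [map_add]
          exact I.add_mem hx hy
        zero_mem' := by
          show F 0 ∈ I
          rw [map_zero]
          exact I.zero_mem
        smul_mem' := fun t x hx => by
          show F (t • x) ∈ I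
          rw [map_smul, Algebra.smul_def]
          exact I.mul_mem_left _ hx }
    have h4 : BB k (MonoidAlgebra.of k G) c a ≤ J := by
      apply B_le
      · apply Submodule.mul_le.2
        intro m _ n hn
        show F (m * n) ∈ I
        rw [map_mul]
        exact I.mul_mem_left _ hn
      · apply Submodule.mul_le.2
        intro m hm n _
        show F (m * n) ∈ I
        rw [map_mul]
        exact Ideal.mul_mem_right _ _ hm
      · show F _ ∈ I
        rw [e2]
        exact hx0
      · show F _ ∈ I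
        rw [e3]
        exact hx1
    exact fun b hb => h4 hb)
  exact ⟨e2.symm.trans h3.1, e3.symm.trans h3.2⟩

end main

end Pool.Agent.U379.TR.Univ
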