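import Pool.Agent.U379.TR.Loc
import Mathlib.RingTheory.Filtration

set_option autoImplicit false

/-!
# Modules with few generators over commutative rings
-/

namespace Pool.Agent.U379.TR.Univ

open Pool.Agent.N66.TA (GrpRel)
open Pool.Agent.TH35.MG (HRel)

section powers
variable {G : Type} [Group G] {k : Type} [CommRing k] {c a : ℕ → G}
  {L : Type} [Ring L] [Algebra k L] {ρ : G →* L}

/-- a finite part of the ideal, all powers -/
theorem pow_part (hB : BB k ρ c a ≤ BB k ρ c a * BB k ρ c a) :
    ∃ T : Finset L, (T : Set L) ⊆ BB k ρ c a ∧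
      ∀ N : ℕ, XX k ρ c a * ⊤ ≤ Submodule.span k (T : Set L) ^ N * (XX k ρ c a * ⊤) := by
  classical
  obtain ⟨T0, hT0, h0⟩ := fin_part (a := a) hB (x0_X (k := k) (ρ := ρ) (c := c) (a := a))
  obtain ⟨T1, hT1, h1⟩ := fin_part hB (x1_X (k := k) (ρ := ρ) (c := c) (a := a))
  let T := T0 ∪ T1
  have hT : (T : Set L) ⊆ BB k ρ c a := by
    rw [Finset.coe_union]
    exact Set.union_subset hT0 hT1
  have hX : XX k ρ c a ≤ Submodule.span k (T : Set L) * (XX k ρ c a * ⊤) := by
    apply Submodule.span_le.2
    rintro x (rfl | rfl)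
    · exact (mul_le_mul' (Submodule.span_mono (by
        rw [Finset.coe_union]; exact Set.subset_union_left)) le_rfl) h0
    · exact (mul_le_mul' (Submodule.span_mono (by
        rw [Finset.coe_union]; exact Set.subset_union_right)) le_rfl) h1
  have hM : XX k ρ c a * ⊤ ≤ Submodule.span k (T : Set L) * (XX k ρ c a * ⊤) := by
    calc XX k ρ c a * ⊤ ≤ (Submodule.span k (T : Set L) * (XX k ρ c a * ⊤)) * ⊤ :=
          mul_le_mul' hX le_rfl
      _ = Submodule.span k (T : Set L) * (XX k ρ c a * ⊤) := by
          rw [mul_assoc, mul_assoc, top_mul_top]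
  refine ⟨T, hT, ?_⟩
  intro N
  induction N with
  | zero => rw [pow_zero, one_mul]
  | succ N ih =>
    calc XX k ρ c a * ⊤ ≤ Submodule.span k (T : Set L) ^ N * (XX k ρ c a * ⊤) := ih
      _ ≤ Submodule.span k (T : Set L) ^ N * (Submodule.span k (T : Set L) *
          (XX k ρ c a * ⊤)) := mul_le_mul' le_rfl hM
      _ = Submodule.span k (T : Set L) ^ (N + 1) * (XX k ρ c a * ⊤) := by
          rw [← mul_assoc, pow_succ]

end powers

section noeth
variable {g : ℕ} {G : Type} [Group G] {c a : ℕ → G}

/-- the idempotent ideal, in the group algebra -/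
theorem group_sq (hg : 18 ≤ g) (hR : GrpRel g c a)
    (hcl : Subgroup.closure ({x | ∃ j < 2 * g, x = c j} ∪ {x | ∃ m < g, x = a m}) = ⊤)
    {A B al be T : ℕ → G} {tau : G} (r : HRel (g - 3) A B al be T tau) (hA0 : A 0 = c 0)
    (hA1 : A 1 = a 1) {n : Type} [Fintype n] [DecidableEq n] (σ : G →* Matrix n n ℤ)
    (h0 : (σ (c 0) - 1) * (σ (c 0) - 1) = 0) (h1 : (σ (a 1) - 1) * (σ (c 0) - 1) = 0) (i0 j0 : n)
    (hij : (σ (c 0) - 1) i0 j0 = 1) {k : Type} [CommRing k] (hk : IsUnit ((2 * g - 2 : ℕ) : k)) :
    BB k (MonoidAlgebra.of k G) c a ≤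
      BB k (MonoidAlgebra.of k G) c a * BB k (MonoidAlgebra.of k G) c a := by
  let q : Matrix n n ℤ →+* Matrix n n k := (Int.castRingHom k).mapMatrix
  let σ' : G →* Matrix n n k := (q : Matrix n n ℤ →* Matrix n n k).comp σ
  have hσ' : ∀ y, σ' y - 1 = q (σ y - 1) := by
    intro y
    rw [map_sub, map_one]
    rfl
  have hdis := disj (k := k) (by omega) hR hk σ' (by
      rw [hσ', ← map_mul, h0, map_zero]) (by
      rw [hσ', hσ', ← map_mul, h1, map_zero]) (by
      intro t ht
      have h3 := congrFun (congrFun ht i0) j0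
      rw [hσ', Matrix.smul_apply] at h3
      have h4 : q (σ (c 0) - 1) i0 j0 = 1 := by
        show ((σ (c 0) - 1) i0 j0 : ℤ) = (1 : k)
        rw [hij, Int.cast_one]
      rw [h4, smul_eq_mul, mul_one] at h3
      exact h3)
  exact B_le_sq (k := k) hg hR hcl r hA0 hA1 hk span_of hdis

/-- few generators, over a Noetherian ring in which `2 g - 2` is invertible -/
theorem noeth {A B al be T : ℕ → G} {tau : G} (r : HRel (g - 3) A B al be T tau)
    (hg : 18 ≤ g) (hA0 : A 0 = c 0) (hA1 : A 1 = a 1)
    {k : Type} [CommRing k] [IsNoetherianRing k]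
    (hB : BB k (MonoidAlgebra.of k G) c a ≤
      BB k (MonoidAlgebra.of k G) c a * BB k (MonoidAlgebra.of k G) c a)
    {F : Type} [AddCommGroup F] [Module k F] {n : ℕ} (hn : n < (g - 5).choose 2)
    (s : Fin n → F) (hs : Submodule.span k (Set.range s) = ⊤) (ρ : G →* Module.End k F) :
    (ρ (c 0) - 1) * (ρ (c 0) - 1) = 0 ∧ (ρ (a 1) - 1) * (ρ (c 0) - 1) = 0 := by
  have hfin : Module.Finite k F := ⟨by rw [← hs]; exact Submodule.fg_span (Set.finite_range s)⟩
  let f : MonoidAlgebra k G →ₐ[k] Module.End k F := MonoidAlgebra.lift k (Module.End k F) G ρ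
  have e1 : ∀ y, f (MonoidAlgebra.of k G y) = ρ y := fun y => MonoidAlgebra.lift_of _ _
  have e2 : f (x0 (MonoidAlgebra.of k G) c) = (ρ (c 0) - 1) * (ρ (c 0) - 1) := by
    unfold x0
    rw [map_mul, map_sub, e1, map_one]
  have e3 : f (x1 (MonoidAlgebra.of k G) c a) = (ρ (a 1) - 1) * (ρ (c 0) - 1) := by
    unfold x1
    rw [map_mul, map_sub, map_sub, e1, e1, map_one]
  -- the ideal maps `F` to `m F`
  have hlin : ∀ (I : Ideal k) (φ : Module.End k F) (W : Submodule k F),
      (∀ v, φ v ∈ W) → ∀ v ∈ I • (⊤ : Submodule k F), φ v ∈ I • W := by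
    intro I φ W h v hv
    induction hv using Submodule.smul_induction_on' with
    | smul t ht z _ =>
      rw [map_smul]
      exact Submodule.smul_mem_smul ht (h z)
    | add x _ y _ h1 h2 =>
      rw [map_add]
      exact Submodule.add_mem _ h1 h2
  have hmax : ∀ m : Ideal k, m.IsMaximal → ∀ b ∈ BB k (MonoidAlgebra.of k G) c a, ∀ v,
      f b v ∈ m • (⊤ : Submodule k F) := by
    intro m hm
    set D : Submodule k F := m • (⊤ : Submodule k F) with hD
    have hDs : ∀ φ : Module.End k F, ∀ v ∈ D, φ v ∈ D := fun φ v hv =>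
      hlin m φ ⊤ (fun _ => Submodule.mem_top) v hv
    let _ : Field (k ⧸ m) := Ideal.Quotient.field m
    have hT : Module.IsTorsionBySet k (F ⧸ D) m := (Module.isTorsionBySet_quotient_iff D m).2
      (fun x t ht => Submodule.smul_mem_smul ht Submodule.mem_top)
    let _ : Module (k ⧸ m) (F ⧸ D) := hT.module
    have : IsScalarTower k (k ⧸ m) (F ⧸ D) := hT.isScalarTower
    have : Module.Finite (k ⧸ m) (F ⧸ D) := Module.Finite.of_restrictScalars_finite k _ _
    have hsj : Function.Surjective (algebraMap k (k ⧸ m)) := Ideal.Quotient.mk_surjective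
    have hrank : Module.finrank (k ⧸ m) (F ⧸ D) ≤ n := by
      have h1 : Submodule.span (k ⧸ m) (Set.range (fun i => D.mkQ (s i))) = ⊤ := by
        rw [eq_top_iff]
        rintro v -
        obtain ⟨x, rfl⟩ := Submodule.mkQ_surjective _ v
        have hx : x ∈ Submodule.span k (Set.range s) := by rw [hs]; exact Submodule.mem_top
        induction hx using Submodule.span_induction with
        | mem x hx =>
          obtain ⟨i, rfl⟩ := hx
          exact Submodule.subset_span ⟨i, rfl⟩
        | zero => rw [map_zero]; exact Submodule.zero_mem _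
        | add x y _ _ h1 h2 => rw [map_add]; exact Submodule.add_mem _ h1 h2
        | smul t x _ h1 =>
          have : D.mkQ (t • x) = (Ideal.Quotient.mk m t) • D.mkQ x := rfl
          rw [this]
          exact Submodule.smul_mem _ _ h1
      have h2 := finrank_range_le_card (R := k ⧸ m) (fun i => D.mkQ (s i))
      rw [Set.finrank, h1, finrank_top, Fintype.card_fin] at h2
      exact h2
    let act : Module.End k F → Module.End (k ⧸ m) (F ⧸ D) := fun φ =>
      LinearMap.extendScalarsOfSurjective hsj (D.mapQ D φ (hDs φ))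
    have hact : ∀ φ v, act φ (D.mkQ v) = D.mkQ (φ v) := fun φ v => rfl
    let ρV : G →* Module.End (k ⧸ m) (F ⧸ D) :=
      { toFun := fun y => act (ρ y)
        map_one' := by
          apply LinearMap.ext
          intro v
          obtain ⟨x, rfl⟩ := Submodule.mkQ_surjective _ v
          rw [hact, map_one]
          rfl
        map_mul' := by
          intro y z
          apply LinearMap.ext
          intro v
          obtain ⟨x, rfl⟩ := Submodule.mkQ_surjective _ v
          rw [Module.End.mul_apply, hact, hact, hact, map_mul ρ]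
          rfl }
    have hρ1 : ∀ y v, (ρV y - 1) (D.mkQ v) = D.mkQ ((ρ y - 1) v) := by
      intro y v
      rw [LinearMap.sub_apply, Module.End.one_apply, LinearMap.sub_apply, Module.End.one_apply,
        map_sub]
      rfl
    have hρ2 : ∀ y z v, ((ρV y - 1) * (ρV z - 1)) (D.mkQ v) =
        D.mkQ (((ρ y - 1) * (ρ z - 1)) v) := by
      intro y z v
      rw [Module.End.mul_apply, hρ1, hρ1]
      rfl
    have hz := Small.small r (by omega) ρV (by
      rw [show g - 3 - 2 = g - 5 by omega]
      exact lt_of_le_of_lt hrank hn)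
    rw [hA0, hA1] at hz
    let W : Submodule k (MonoidAlgebra k G) :=
      { carrier := {x | ∀ v, f x v ∈ D}
        add_mem' := fun {x y} hx hy v => by
          rw [map_add]
          exact D.add_mem (hx v) (hy v)
        zero_mem' := fun v => by
          rw [map_zero]
          exact D.zero_mem
        smul_mem' := fun t x hx v => by
          rw [map_smul]
          exact D.smul_mem _ (hx v) }
    have hW : BB k (MonoidAlgebra.of k G) c a ≤ W := by
      apply B_le
      · apply Submodule.mul_le.2
        intro x _ y hy v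
        rw [map_mul, Module.End.mul_apply]
        exact hDs _ _ (hy v)
      · apply Submodule.mul_le.2
        intro x hx y _ v
        rw [map_mul]
        exact hx _
      · intro v
        rw [e2]
        have h3 := LinearMap.congr_fun hz.1 (D.mkQ v)
        rw [hρ2] at h3
        exact (Submodule.Quotient.mk_eq_zero D).1 h3
      · intro v
        rw [e3]
        have h3 := LinearMap.congr_fun hz.2 (D.mkQ v)
        rw [hρ2] at h3
        exact (Submodule.Quotient.mk_eq_zero D).1 h3
    exact fun b hb => hW hb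
  obtain ⟨T0, hT0, hpow⟩ := pow_part hB
  have hN : ∀ m : Ideal k, m.IsMaximal → ∀ N : ℕ,
      ∀ x ∈ Submodule.span k (T0 : Set (MonoidAlgebra k G)) ^ N, ∀ v,
        f x v ∈ m ^ N • (⊤ : Submodule k F) := by
    intro m hm N
    induction N with
    | zero =>
      intro x _ v
      rw [pow_zero, Ideal.one_eq_top, Submodule.top_smul]
      exact Submodule.mem_top
    | succ N ih =>
      intro x hx v
      rw [pow_succ] at hx
      induction hx using Submodule.mul_induction_on' with
      | mem_mul_mem y hy z hz =>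
        rw [map_mul, pow_succ', ← smul_eq_mul, Submodule.smul_assoc]
        refine hlin m (f y) _ (fun w => ih y hy w) _ ?_
        have h3 : z ∈ BB k (MonoidAlgebra.of k G) c a := (Submodule.span_le.2 hT0) hz
        exact hmax m hm z h3 v
      | add y _ z _ h1 h2 =>
        rw [map_add]
        exact Submodule.add_mem _ h1 h2
  have hzero : ∀ x ∈ XX k (MonoidAlgebra.of k G) c a, f x = 0 := by
    intro x hx
    apply LinearMap.ext
    intro v
    have hX : x ∈ XX k (MonoidAlgebra.of k G) c a * ⊤ := by
      have h3 := Submodule.mul_mem_mul hx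
        (Submodule.mem_top : (1 : MonoidAlgebra k G) ∈ (⊤ : Submodule k (MonoidAlgebra k G)))
      rwa [mul_one] at h3
    have hall : ∀ m : Ideal k, m.IsMaximal → ∀ N : ℕ, f x v ∈ m ^ N • (⊤ : Submodule k F) := by
      intro m hm N
      have h3 := hpow N hX
      refine Submodule.mul_induction_on h3 ?_ ?_
      · intro y hy z _
        rw [map_mul]
        exact hN m hm N y hy _
      · intro y z h1 h2
        rw [map_add]
        exact Submodule.add_mem _ h1 h2
    -- the annihilator
    let I : Ideal k :=
      { carrier := {t | t • f x v = 0}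
        add_mem' := fun {s t} h3 h4 => by
          show (s + t) • f x v = 0
          rw [add_smul, h3, h4, add_zero]
        zero_mem' := zero_smul _ _
        smul_mem' := fun s t h3 => by
          show (s * t) • f x v = 0
          rw [mul_smul, h3, smul_zero] }
    have hI : I = ⊤ := by
      by_contra hne
      obtain ⟨m, hm, hle⟩ := Ideal.exists_le_maximal I hne
      have h3 : f x v ∈ (⨅ i : ℕ, m ^ i • ⊤ : Submodule k F) := by
        rw [Submodule.mem_iInf]
        exact hall m hm
      rw [Ideal.mem_iInf_smul_pow_eq_bot_iff] at h3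
      obtain ⟨t, ht⟩ := h3
      have h4 : (1 - (t : k)) ∈ I := by
        show (1 - (t : k)) • f x v = 0
        rw [sub_smul, one_smul, ht, sub_self]
      apply hm.ne_top
      rw [Ideal.eq_top_iff_one]
      have h5 := m.add_mem (hle h4) t.2
      rwa [sub_add_cancel] at h5
    have h3 : (1 : k) ∈ I := by rw [hI]; exact Submodule.mem_top
    have h4 : (1 : k) • f x v = 0 := h3
    rwa [one_smul] at h4
  exact ⟨e2 ▸ hzero _ x0_X, e3 ▸ hzero _ x1_X⟩

end noeth

end Pool.Agent.U379.TR.Univ
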