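import Mathlib
import Pool.Agent.U379.TR.Stm

set_option autoImplicit false

/-! Project TA, leaf OREL: from the braid relations to the relations between the operators. -/

namespace Pool.Agent.U379.TR.OREL

open Pool.Agent.U379.TR
open Pool.Agent.N66.TA (cp Rw Qw Sw TT Si Qi Li KRel LickRel)

universe u

section ring
variable {G R : Type*} [Group G] [Ring R]

theorem kill_conj (ρ : G →* R) {s x y z z' : G} (h1 : s * x = y * s) (h2 : s * z = z' * s)
    (h : (ρ x - 1) * (ρ z - 1) = 0) : (ρ y - 1) * (ρ z' - 1) = 0 := by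
  have e1 : ρ s * (ρ x - 1) = (ρ y - 1) * ρ s := by
    rw [mul_sub, sub_mul, mul_one, one_mul, ← map_mul, ← map_mul, h1]
  have e2 : ρ s * (ρ z - 1) = (ρ z' - 1) * ρ s := by
    rw [mul_sub, sub_mul, mul_one, one_mul, ← map_mul, ← map_mul, h2]
  have i1 : ρ s * ρ s⁻¹ = 1 := by rw [← map_mul, mul_inv_cancel, map_one]
  calc (ρ y - 1) * (ρ z' - 1) = (ρ y - 1) * (ρ z' - 1) * (ρ s * ρ s⁻¹) := by rw [i1, mul_one]
    _ = (ρ y - 1) * ((ρ z' - 1) * ρ s) * ρ s⁻¹ := by simp only [mul_assoc]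
    _ = (ρ y - 1) * (ρ s * (ρ z - 1)) * ρ s⁻¹ := by rw [e2]
    _ = ((ρ y - 1) * ρ s) * (ρ z - 1) * ρ s⁻¹ := by simp only [mul_assoc]
    _ = ρ s * ((ρ x - 1) * (ρ z - 1)) * ρ s⁻¹ := by rw [← e1]; simp only [mul_assoc]
    _ = 0 := by rw [h, mul_zero, zero_mul]

theorem move (ρ : G →* R) {x y z : G} (hb : x * y * x = y * x * y) (hx : Commute x z)
    (hy : Commute y z) (h : (ρ x - 1) * (ρ z - 1) = 0) : (ρ y - 1) * (ρ z - 1) = 0 := by
  refine kill_conj ρ (s := x * y) ?_ ?_ h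
  · rw [hb, mul_assoc]
  · exact (hx.mul_left hy).eq

theorem move_sq (ρ : G →* R) {x y : G} (hb : x * y * x = y * x * y)
    (h : (ρ x - 1) * (ρ x - 1) = 0) : (ρ y - 1) * (ρ y - 1) = 0 :=
  kill_conj ρ (s := x * y) (by rw [hb, mul_assoc]) (by rw [hb, mul_assoc]) h

theorem comm0 (ρ : G →* R) {x z : G} (hx : Commute x z) (h : (ρ x - 1) * (ρ z - 1) = 0) :
    (ρ z - 1) * (ρ x - 1) = 0 := by
  have : Commute (ρ x - 1) (ρ z - 1) :=
    ((hx.map ρ).sub_left (Commute.one_left _)).sub_right (Commute.one_right _)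
  rw [← this.eq]
  exact h

theorem braid_sub (ρ : G →* R) {x y : G} (hb : x * y * x = y * x * y)
    (hx : (ρ x - 1) * (ρ x - 1) = 0) (hy : (ρ y - 1) * (ρ y - 1) = 0) :
    (ρ x - 1) + (ρ x - 1) * (ρ y - 1) * (ρ x - 1) =
      (ρ y - 1) + (ρ y - 1) * (ρ x - 1) * (ρ y - 1) := by
  have h := congrArg ρ hb
  simp only [map_mul] at h
  generalize ρ x = a at *
  generalize ρ y = b at *
  linear_combination (norm := noncomm_ring) h - hx + hy

/-- left multiplication by a group element that is killed -/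
theorem lk (ρ : G →* R) {z : G} {X : R} (h : (ρ z - 1) * X = 0) : ρ z * X = X := by
  rw [sub_mul, one_mul, sub_eq_zero] at h
  exact h

theorem rk (ρ : G →* R) {z : G} {X : R} (h : X * (ρ z - 1) = 0) : X * ρ z = X := by
  rw [mul_sub, mul_one, sub_eq_zero] at h
  exact h

/-- the element `X(x, y)` along a chain `x, y, z` -/
theorem chainX (ρ : G →* R) {x y z : G} (hxy : x * y * x = y * x * y)
    (hyz : y * z * y = z * y * z) (hxz : Commute x z)
    (sx : (ρ x - 1) * (ρ x - 1) = 0) (sy : (ρ y - 1) * (ρ y - 1) = 0)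
    (sz : (ρ z - 1) * (ρ z - 1) = 0) (zx : (ρ z - 1) * (ρ x - 1) = 0) :
    (ρ x - 1) + (ρ x - 1) * (ρ y - 1) * (ρ x - 1) =
      (ρ y - 1) + (ρ y - 1) * (ρ z - 1) * (ρ y - 1) := by
  have b1 := braid_sub ρ hxy sx sy
  have b2 := braid_sub ρ hyz sy sz
  have e1 : x * y * z * x = y * (x * y * z) := by
    calc x * y * z * x = x * y * (z * x) := by group
      _ = x * y * (x * z) := by rw [hxz.eq]
      _ = (x * y * x) * z := by group
      _ = (y * x * y) * z := by rw [hxy]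
      _ = y * (x * y * z) := by group
  have e2 : x * y * z * y = z * (x * y * z) := by
    calc x * y * z * y = x * (y * z * y) := by group
      _ = x * (z * y * z) := by rw [hyz]
      _ = (x * z) * y * z := by group
      _ = (z * x) * y * z := by rw [hxz.eq]
      _ = z * (x * y * z) := by group
  have f1 : ρ (x * y * z) * (ρ x - 1) = (ρ y - 1) * ρ (x * y * z) := by
    rw [mul_sub, sub_mul, mul_one, one_mul, ← map_mul, ← map_mul, e1]
  have f2 : ρ (x * y * z) * (ρ y - 1) = (ρ z - 1) * ρ (x * y * z) := by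
    rw [mul_sub, sub_mul, mul_one, one_mul, ← map_mul, ← map_mul, e2]
  -- conjugation
  have key : ρ (x * y * z) * ((ρ x - 1) + (ρ x - 1) * (ρ y - 1) * (ρ x - 1)) =
      ((ρ y - 1) + (ρ y - 1) * (ρ z - 1) * (ρ y - 1)) * ρ (x * y * z) := by
    rw [mul_add, add_mul]
    congr 1
    rw [← mul_assoc, ← mul_assoc, f1, mul_assoc (ρ y - 1) _ (ρ y - 1), f2, ← mul_assoc,
      mul_assoc _ _ (ρ x - 1), f1, ← mul_assoc]
  -- the left side
  have l1 : (ρ x - 1) * ((ρ x - 1) + (ρ x - 1) * (ρ y - 1) * (ρ x - 1)) = 0 := by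
    rw [mul_add, ← mul_assoc, ← mul_assoc, sx, zero_mul, zero_mul, add_zero]
  have l2 : (ρ y - 1) * ((ρ x - 1) + (ρ x - 1) * (ρ y - 1) * (ρ x - 1)) = 0 := by
    rw [b1, mul_add, ← mul_assoc, ← mul_assoc, sy, zero_mul, zero_mul, add_zero]
  have l3 : (ρ z - 1) * ((ρ x - 1) + (ρ x - 1) * (ρ y - 1) * (ρ x - 1)) = 0 := by
    rw [mul_add, ← mul_assoc, ← mul_assoc, zx, zero_mul, zero_mul, add_zero]
  have L : ρ (x * y * z) * ((ρ x - 1) + (ρ x - 1) * (ρ y - 1) * (ρ x - 1)) =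
      (ρ x - 1) + (ρ x - 1) * (ρ y - 1) * (ρ x - 1) := by
    rw [map_mul, map_mul, mul_assoc, lk ρ l3, mul_assoc, lk ρ l2, lk ρ l1]
  -- the right side
  have r1 : ((ρ y - 1) + (ρ y - 1) * (ρ z - 1) * (ρ y - 1)) * (ρ x - 1) = 0 := by
    rw [b2, add_mul, mul_assoc, zx, mul_zero, add_zero]
  have r2 : ((ρ y - 1) + (ρ y - 1) * (ρ z - 1) * (ρ y - 1)) * (ρ y - 1) = 0 := by
    rw [add_mul, mul_assoc, sy, mul_zero, add_zero]
  have r3 : ((ρ y - 1) + (ρ y - 1) * (ρ z - 1) * (ρ y - 1)) * (ρ z - 1) = 0 := by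
    rw [b2, add_mul, mul_assoc, sz, mul_zero, add_zero]
  have Rr : ((ρ y - 1) + (ρ y - 1) * (ρ z - 1) * (ρ y - 1)) * ρ (x * y * z) =
      (ρ y - 1) + (ρ y - 1) * (ρ z - 1) * (ρ y - 1) := by
    rw [map_mul, map_mul, ← mul_assoc, ← mul_assoc, rk ρ r1, rk ρ r2, rk ρ r3]
  rw [← L, key, Rr]

variable {g : ℕ} {c a : ℕ → G}

theorem sq_all (r : LickRel g c a) (ρ : G →* R)
    (h0 : (ρ (c 0) - 1) * (ρ (c 0) - 1) = 0) :
    ∀ j < 2 * g, (ρ (c j) - 1) * (ρ (c j) - 1) = 0 := by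
  intro j
  induction j with
  | zero => intro _; exact h0
  | succ j ih =>
    intro hj
    exact move_sq ρ (r.braid j hj) (ih (by omega))

theorem sq_a (r : LickRel g c a) (ρ : G →* R)
    (h0 : (ρ (c 0) - 1) * (ρ (c 0) - 1) = 0) : ∀ m < g, (ρ (a m) - 1) * (ρ (a m) - 1) = 0 :=
  fun m hm => move_sq ρ (r.braidA m hm) (sq_all r ρ h0 (2 * m + 1) (by omega))

theorem far_zero (r : LickRel g c a) (hg : 3 ≤ g) (ρ : G →* R)
    (h1 : (ρ (a 1) - 1) * (ρ (c 0) - 1) = 0) :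
    ∀ j, 2 ≤ j → j < 2 * g → (ρ (c j) - 1) * (ρ (c 0) - 1) = 0 := by
  have a3 : (ρ (c 3) - 1) * (ρ (c 0) - 1) = 0 :=
    move ρ (r.braidA 1 (by omega)).symm (r.farA 1 (by omega) 0 (by omega) (by omega))
      (r.far 0 3 (by omega) (by omega)).symm h1
  have a2 : (ρ (c 2) - 1) * (ρ (c 0) - 1) = 0 :=
    move ρ (r.braid 2 (by omega)).symm (r.far 0 3 (by omega) (by omega)).symm
      (r.far 0 2 (by omega) (by omega)).symm a3
  intro j h2
  induction j, h2 using Nat.le_induction with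
  | base => intro _; exact a2
  | succ j hj ih =>
    intro hn'
    exact move ρ (r.braid j hn') (r.far 0 j (by omega) (by omega)).symm
      (r.far 0 (j + 1) (by omega) (by omega)).symm (ih (by omega))

theorem far_all (r : LickRel g c a) (hg : 3 ≤ g) (ρ : G →* R)
    (h1 : (ρ (a 1) - 1) * (ρ (c 0) - 1) = 0) :
    ∀ i j, i + 2 ≤ j → j < 2 * g → (ρ (c j) - 1) * (ρ (c i) - 1) = 0 := by
  intro i
  induction i with
  | zero => intro j h2 hj; exact far_zero r hg ρ h1 j (by omega) hj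
  | succ i ih =>
    intro j h2 hj
    have h3 := comm0 ρ (r.far i j (by omega) hj).symm (ih j (by omega) hj)
    exact comm0 ρ (r.far (i + 1) j h2 hj) (move ρ (r.braid i (by omega)) (r.far i j (by omega) hj)
      (r.far (i + 1) j h2 hj) h3)

theorem far_all' (r : LickRel g c a) (hg : 3 ≤ g) (ρ : G →* R)
    (h1 : (ρ (a 1) - 1) * (ρ (c 0) - 1) = 0) :
    ∀ i j, i + 2 ≤ j → j < 2 * g → (ρ (c i) - 1) * (ρ (c j) - 1) = 0 :=
  fun i j h2 hj => comm0 ρ (r.far i j h2 hj).symm (far_all r hg ρ h1 i j h2 hj)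

/-- `A_m N_j = 0` -/
theorem farA_all (r : LickRel g c a) (hg : 3 ≤ g) (ρ : G →* R)
    (h0 : (ρ (c 0) - 1) * (ρ (c 0) - 1) = 0)
    (h1 : (ρ (a 1) - 1) * (ρ (c 0) - 1) = 0) :
    ∀ m < g, ∀ j < 2 * g, j ≠ 2 * m + 1 → (ρ (a m) - 1) * (ρ (c j) - 1) = 0 := by
  intro m hm
  have hfar : ∀ j < 2 * g, j + 2 ≤ 2 * m + 1 ∨ 2 * m + 3 ≤ j →
      (ρ (a m) - 1) * (ρ (c j) - 1) = 0 := by
    intro j hj h
    rcases h with h | h
    · exact move ρ (r.braidA m hm) (r.far j (2 * m + 1) h (by omega)).symm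
        (r.farA m hm j hj (by omega)) (far_all r hg ρ h1 j (2 * m + 1) h (by omega))
    · exact move ρ (r.braidA m hm) (r.far (2 * m + 1) j (by omega) hj)
        (r.farA m hm j hj (by omega)) (far_all' r hg ρ h1 (2 * m + 1) j (by omega) hj)
  intro j hj hne
  by_cases c1 : j + 2 ≤ 2 * m + 1 ∨ 2 * m + 3 ≤ j
  · exact hfar j hj c1
  · by_cases c2 : j = 2 * m + 2
    · have h3 : 2 * m + 3 < 2 * g := by omega
      have q := comm0 ρ (r.farA m hm (2 * m + 3) h3 (by omega))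
        (hfar (2 * m + 3) h3 (Or.inr (le_refl _)))
      have q2 := move ρ (r.braid (2 * m + 2) h3).symm
        (r.farA m hm (2 * m + 3) h3 (by omega)).symm
        (r.farA m hm (2 * m + 2) (by omega) (by omega)).symm q
      subst c2
      exact comm0 ρ (r.farA m hm (2 * m + 2) (by omega) (by omega)).symm q2
    · have c3 : j = 2 * m := by omega
      subst c3
      rcases Nat.eq_zero_or_pos m with hz | hp
      · subst hz
        rw [r.a0]
        exact h0
      · obtain ⟨k, rfl⟩ : ∃ k, m = k + 1 := ⟨m - 1, by omega⟩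
        have q := comm0 ρ (r.farA (k + 1) hm (2 * k + 1) (by omega) (by omega))
          (hfar (2 * k + 1) (by omega) (Or.inl (by omega)))
        have q2 := move ρ (r.braid (2 * k + 1) (by omega))
          (r.farA (k + 1) hm (2 * k + 1) (by omega) (by omega)).symm
          (r.farA (k + 1) hm (2 * k + 1 + 1) (by omega) (by omega)).symm q
        exact comm0 ρ (r.farA (k + 1) hm (2 * (k + 1)) (by omega) (by omega)).symm q2

theorem AA_all (r : LickRel g c a) (hg : 3 ≤ g) (ρ : G →* R)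
    (h0 : (ρ (c 0) - 1) * (ρ (c 0) - 1) = 0)
    (h1 : (ρ (a 1) - 1) * (ρ (c 0) - 1) = 0) :
    ∀ m < g, ∀ l < g, m ≠ l → (ρ (a m) - 1) * (ρ (a l) - 1) = 0 := by
  intro m hm l hl hne
  have q := comm0 ρ (r.farA l hl (2 * m + 1) (by omega) (by omega))
    (farA_all r hg ρ h0 h1 l hl (2 * m + 1) (by omega) (by omega))
  exact move ρ (r.braidA m hm) (r.farA l hl (2 * m + 1) (by omega) (by omega)).symm
    (r.commA m hm l hl) q

theorem uu_all (r : LickRel g c a) (hg : 3 ≤ g) (ρ : G →* R)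
    (h0 : (ρ (c 0) - 1) * (ρ (c 0) - 1) = 0)
    (h1 : (ρ (a 1) - 1) * (ρ (c 0) - 1) = 0) :
    ∀ j, j + 1 < 2 * g →
      (ρ (c j) - 1) + (ρ (c j) - 1) * (ρ (c (j + 1)) - 1) * (ρ (c j) - 1) =
      (ρ (c 0) - 1) + (ρ (c 0) - 1) * (ρ (c 1) - 1) * (ρ (c 0) - 1) := by
  intro j
  induction j with
  | zero => intro _; rfl
  | succ j ih =>
    intro hj
    rw [← ih (by omega)]
    exact (chainX ρ (r.braid j (by omega)) (r.braid (j + 1) hj) (r.far j (j + 2) le_rfl hj)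
      (sq_all r ρ h0 j (by omega)) (sq_all r ρ h0 (j + 1) (by omega)) (sq_all r ρ h0 (j + 2) hj)
      (far_all r hg ρ h1 j (j + 2) le_rfl hj)).symm

theorem uuA_all (r : LickRel g c a) (hg : 3 ≤ g) (ρ : G →* R)
    (h0 : (ρ (c 0) - 1) * (ρ (c 0) - 1) = 0)
    (h1 : (ρ (a 1) - 1) * (ρ (c 0) - 1) = 0) :
    ∀ m < g, (ρ (a m) - 1) + (ρ (a m) - 1) * (ρ (c (2 * m + 1)) - 1) * (ρ (a m) - 1) =
      (ρ (c 0) - 1) + (ρ (c 0) - 1) * (ρ (c 1) - 1) * (ρ (c 0) - 1) := by
  intro m hm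
  rcases Nat.eq_zero_or_pos m with hz | hp
  · subst hz
    rw [r.a0]
  · rw [← uu_all r hg ρ h0 h1 (2 * m) (by omega)]
    rw [braid_sub ρ (r.braid (2 * m) (by omega)) (sq_all r ρ h0 (2 * m) (by omega))
      (sq_all r ρ h0 (2 * m + 1) (by omega))]
    exact chainX ρ (r.braidA m hm).symm (r.braid (2 * m) (by omega)).symm
      (r.farA m hm (2 * m) (by omega) (by omega)) (sq_a r ρ h0 m hm)
      (sq_all r ρ h0 (2 * m + 1) (by omega)) (sq_all r ρ h0 (2 * m) (by omega))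
      (comm0 ρ (r.farA m hm (2 * m) (by omega) (by omega))
        (farA_all r hg ρ h0 h1 m hm (2 * m) (by omega) (by omega)))

end ring

theorem t_OREL : S_OREL.{u} := by
  intro g G _ K V _ _ _ c a ρ hg r h0 h1
  refine
    { sq := fun j hj v => LinearMap.congr_fun (sq_all r ρ h0 j hj) v
      far := fun i j h2 hj v => LinearMap.congr_fun (far_all r hg ρ h1 i j h2 hj) v
      far' := fun i j h2 hj v => LinearMap.congr_fun (far_all' r hg ρ h1 i j h2 hj) v
      br := fun j hj v => LinearMap.congr_fun (braid_sub ρ (r.braid j hj)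
        (sq_all r ρ h0 j (by omega)) (sq_all r ρ h0 (j + 1) hj)) v
      sqA := fun m hm v => LinearMap.congr_fun (sq_a r ρ h0 m hm) v
      AA := fun m hm l hl hne v => LinearMap.congr_fun (AA_all r hg ρ h0 h1 m hm l hl hne) v
      farA := fun m hm j hj hne v =>
        LinearMap.congr_fun (farA_all r hg ρ h0 h1 m hm j hj hne) v
      farA' := fun m hm j hj hne v =>
        LinearMap.congr_fun (comm0 ρ (r.farA m hm j hj hne)
          (farA_all r hg ρ h0 h1 m hm j hj hne)) v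
      brA := fun m hm v => LinearMap.congr_fun (braid_sub ρ (r.braidA m hm)
        (sq_all r ρ h0 (2 * m + 1) (by omega)) (sq_a r ρ h0 m hm)) v
      a0 := by
        unfold op
        rw [r.a0]
      uu := fun j hj v => LinearMap.congr_fun (uu_all r hg ρ h0 h1 j hj) v
      uuA := fun m hm v => LinearMap.congr_fun (uuA_all r hg ρ h0 h1 m hm) v }

end Pool.Agent.U379.TR.OREL
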