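import Pool.Agent.U379.TR.Crs

set_option autoImplicit false

/-!
# Homomorphisms of `Mod_g` to groups with a series with small factors
-/

namespace Pool.Agent.U379.TR.Fi

open Pool.Agent.H29R2.MG Pool.Agent.TH35.MG Pool.Agent.R352.MG Pool.Agent.R665.MGR
  Pool.Agent.N66.CQ Pool.Agent.U379.PI Pool.Agent.Helper58.EN
open Pool.Agent.Q290.MG (homMat homM hc_aut hc_gen)

section ids
variable {G : Type} [Group G]

/-- the commutator -/
def cm (a b : G) : G := a * b * a⁻¹ * b⁻¹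

theorem cm_mul_right (a b c : G) : cm a (b * c) = cm a b * (b * cm a c * b⁻¹) := by
  unfold cm; group

theorem cm_mul_left (a b c : G) : cm (a * b) c = (a * cm b c * a⁻¹) * cm a c := by
  unfold cm; group

theorem cm_conj (z a b : G) : cm (z * a * z⁻¹) b = z * cm a (z⁻¹ * b * z) * z⁻¹ := by
  unfold cm; group

theorem cm_eq_one {a b : G} : cm a b = 1 ↔ a * b = b * a := by
  unfold cm
  rw [mul_inv_eq_one, mul_inv_eq_iff_eq_mul]

theorem cm_map {H : Type} [Group H] (f : G →* H) (a b : G) : f (cm a b) = cm (f a) (f b) := by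
  unfold cm
  rw [map_mul, map_mul, map_mul, map_inv, map_inv]

end ids

section
variable {g : ℕ} {Q : Type} [Group Q]

/-- `N' / N` is abelian, without `(2 g - 2)`-torsion, and it embeds equivariantly in a small
module. -/
def AbStep (f : Mod g →* Q) (N N' : Subgroup Q) : Prop :=
  (∀ s ∈ N', s ^ (2 * g - 2) ∈ N → s ∈ N) ∧
  ∃ (X : Type) (_ : AddCommGroup X) (ρ : Mod g →* AddMonoid.End X) (π : Q → X), SmallMod g ρ ∧
    (∀ s ∈ N', ∀ t ∈ N', π (s * t) = π s + π t) ∧ (∀ s ∈ N', π s = 0 ↔ s ∈ N) ∧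
    ∀ y : Mod g, ∀ s ∈ N', π (f y * s * (f y)⁻¹) = ρ y (π s)

/-- `N' / N` is centreless, and the Torelli group acts trivially on it. -/
def CentrelessStep (f : Mod g →* Q) (N N' : Subgroup Q) : Prop :=
  (∀ s ∈ N', (∀ t ∈ N', s * t * s⁻¹ * t⁻¹ ∈ N) → s ∈ N) ∧
  ∀ y : Mod g, homMat g y = 1 → ∀ s ∈ N', f y * s * (f y)⁻¹ * s⁻¹ ∈ N

variable {Γ : Subgroup (Mod g)} {f : Mod g →* Q} {N N' : Subgroup Q}

theorem step_cl (h : CentrelessStep f N N')
    (hS : ∀ x y : Γ, homMat g x = 1 → cm (f x) (f y) ∈ N') (x y : Γ) (hx : homMat g x = 1) :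
    cm (f x) (f y) ∈ N := by
  apply h.1 _ (hS x y hx)
  intro t ht
  have h1 : homMat g (cm (x : Mod g) y) = 1 := by
    unfold cm
    have h2 : homMat g (x : Mod g)⁻¹ = 1 := by
      have h3 : homMat g (x : Mod g)⁻¹ * homMat g x = 1 := by
        rw [← map_mul, inv_mul_cancel, map_one]
      rwa [hx, mul_one] at h3
    rw [map_mul, map_mul, map_mul, hx, h2, one_mul, mul_one, ← map_mul, mul_inv_cancel, map_one]
  have h3 := h.2 _ h1 t ht
  rw [cm_map] at h3
  exact h3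

/-- the image of `π` -/
def imV {X : Type} [AddCommGroup X] (N N' : Subgroup Q) (π : Q → X)
    (h1 : ∀ s ∈ N', ∀ t ∈ N', π (s * t) = π s + π t) (h2 : ∀ s ∈ N', π s = 0 ↔ s ∈ N) :
    AddSubgroup X where
  carrier := {v | ∃ s ∈ N', π s = v}
  zero_mem' := ⟨1, N'.one_mem, (h2 1 N'.one_mem).2 N.one_mem⟩
  add_mem' := by
    rintro _ _ ⟨s, hs, rfl⟩ ⟨t, ht, rfl⟩
    exact ⟨s * t, N'.mul_mem hs ht, h1 s hs t ht⟩
  neg_mem' := by
    rintro _ ⟨s, hs, rfl⟩
    refine ⟨s⁻¹, N'.inv_mem hs, ?_⟩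
    have h3 := h1 s⁻¹ (N'.inv_mem hs) s hs
    rw [inv_mul_cancel, (h2 1 N'.one_mem).2 N.one_mem] at h3
    exact eq_neg_of_add_eq_zero_left h3.symm

theorem pi_inv {X : Type} [AddCommGroup X] {π : Q → X}
    (h1 : ∀ s ∈ N', ∀ t ∈ N', π (s * t) = π s + π t) (h2 : ∀ s ∈ N', π s = 0 ↔ s ∈ N) {s : Q}
    (hs : s ∈ N') : π s⁻¹ = - π s := by
  have h3 := h1 s⁻¹ (N'.inv_mem hs) s hs
  rw [inv_mul_cancel, (h2 1 N'.one_mem).2 N.one_mem] at h3
  exact eq_neg_of_add_eq_zero_left h3.symm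

theorem pi_pow {X : Type} [AddCommGroup X] {π : Q → X}
    (h1 : ∀ s ∈ N', ∀ t ∈ N', π (s * t) = π s + π t) (h2 : ∀ s ∈ N', π s = 0 ↔ s ∈ N) {s : Q}
    (hs : s ∈ N') (n : ℕ) : π (s ^ n) = n • π s := by
  induction n with
  | zero => rw [pow_zero, zero_smul]; exact (h2 1 N'.one_mem).2 N.one_mem
  | succ n ih => rw [pow_succ, h1 _ (N'.pow_mem hs n) _ hs, ih, succ_nsmul]

theorem homMat_inv_iota {ι : Γ} (hι : homMat g ι = -1) : homMat g (ι : Mod g)⁻¹ = -1 := by
  have h3 : homMat g (ι : Mod g)⁻¹ * homMat g ι = 1 := by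
    rw [← map_mul, inv_mul_cancel, map_one]
  rw [hι, mul_neg, mul_one] at h3
  rw [← h3, neg_neg]

theorem homMat_cm_iota {ι : Γ} (hι : homMat g ι = -1) (y : Γ) :
    homMat g ((cm ι y : Γ) : Mod g) = 1 := by
  show homMat g ((ι : Mod g) * y * (ι : Mod g)⁻¹ * (y : Mod g)⁻¹) = 1
  rw [map_mul, map_mul, map_mul, hι, homMat_inv_iota hι, neg_mul, one_mul, mul_neg, mul_one,
    neg_neg, ← map_mul, mul_inv_cancel, map_one]

/-- the abelian step -/
theorem step_ab (hg : 18 ≤ g) (hU : GamUnits g Γ) {ι : Γ} (hι : homMat g ι = -1)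
    (h : AbStep f N N') (hN' : ∀ y : Mod g, ∀ s ∈ N', f y * s * (f y)⁻¹ ∈ N') :
    ((∀ x y : Γ, homMat g x = 1 → cm (f x) (f y) ∈ N') →
      ∀ x y : Γ, homMat g x = 1 → cm (f x) (f y) ∈ N) ∧
    ((∀ x y : Γ, homMat g x = 1 → cm (f x) (f y) ∈ N) →
      ∀ x y : Γ, f x ∈ N' → cm (f x) (f y) ∈ N) := by
  obtain ⟨htors, X, _, ρ, π, hρ, hadd, hker, heq⟩ := h
  let V := imV N N' π hadd hker
  have hV : ∀ y : Mod g, ∀ v ∈ V, ρ y v ∈ V := by
    rintro y _ ⟨s, hs, rfl⟩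
    exact ⟨_, hN' y s hs, heq y s hs⟩
  have htf : ∀ v ∈ V, (2 * g - 2) • v = 0 → v = 0 := by
    rintro _ ⟨s, hs, rfl⟩ h0
    rw [← pi_pow hadd hker hs, hker _ (N'.pow_mem hs _)] at h0
    exact (hker s hs).2 (htors s hs h0)
  have h2 : ∀ v ∈ V, v + v = 0 → v = 0 := by
    intro v hv h
    apply htf v hv
    rw [show 2 * g - 2 = (g - 1) * 2 by omega, mul_smul, two_smul, h, smul_zero]
  have C := fun (D : Γ → X) (hDV : ∀ y, D y ∈ V) (hD : ∀ y z : Γ, D (y * z) = D y + ρ y (D z)) =>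
    crossed ρ V hV D hDV hD hg hU hι hρ htf
  obtain ⟨-, P1, P3⟩ := C (fun _ => 0) (fun _ => V.zero_mem) (fun y z => by
    rw [map_zero, add_zero])
  constructor
  · intro hS
    -- the crossed homomorphisms of the elements of the Torelli group
    have hD : ∀ x : Γ, homMat g x = 1 → ∀ y z : Γ, π (cm (f x) (f ((y * z : Γ) : Mod g))) =
        π (cm (f x) (f y)) + ρ y (π (cm (f x) (f z))) := by
      intro x hx y z
      rw [Subgroup.coe_mul, map_mul, cm_mul_right, hadd _ (hS x y hx) _ (hN' y _ (hS x z hx)),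
        heq y _ (hS x z hx)]
    have hv : ∀ x : Γ, homMat g x = 1 → ∃ v ∈ V, ∀ y : Γ, π (cm (f x) (f y)) = ρ y v - v :=
      fun x hx => (C (fun y => π (cm (f x) (f y))) (fun y => ⟨_, hS x y hx, rfl⟩) (hD x hx)).1
    let d : Γ → X := fun x => π (cm (f x) (f ι))
    have dV : ∀ x : Γ, homMat g x = 1 → d x ∈ V := fun x hx => ⟨_, hS x ι hx, rfl⟩
    have dadd : ∀ x x' : Γ, homMat g x = 1 → homMat g x' = 1 → d (x * x') = d x + d x' := by
      intro x x' hx hx'
      show π (cm (f ((x * x' : Γ) : Mod g)) (f ι)) = _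
      rw [Subgroup.coe_mul, map_mul, cm_mul_left, hadd _ (hN' x _ (hS x' ι hx')) _ (hS x ι hx),
        heq x _ (hS x' ι hx'), P1 x hx _ (dV x' hx'), add_comm]
    have hconj : ∀ z x : Γ, homMat g x = 1 → homMat g ((z * x * z⁻¹ : Γ) : Mod g) = 1 := by
      intro z x hx
      show homMat g ((z : Mod g) * x * (z : Mod g)⁻¹) = 1
      rw [map_mul, map_mul, hx, mul_one, ← map_mul, mul_inv_cancel, map_one]
    have deq : ∀ z x : Γ, homMat g x = 1 → d (z * x * z⁻¹) = ρ z (d x) := by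
      intro z x hx
      have e1 : d (z * x * z⁻¹) = π (f z * cm (f x) (f ((z⁻¹ * ι * z : Γ) : Mod g)) * (f z)⁻¹) := by
        show π (cm (f ((z : Mod g) * x * (z : Mod g)⁻¹)) (f ι)) = _
        rw [map_mul, map_mul, map_inv, cm_conj]
        show _ = π (f z * cm (f x) (f ((z : Mod g)⁻¹ * ι * z)) * (f z)⁻¹)
        rw [map_mul, map_mul, map_inv]
      rw [e1, heq z _ (hS x _ hx)]
      congr 1
      obtain ⟨v, hvV, hv⟩ := hv x hx
      rw [hv, show d x = ρ ι v - v from hv ι]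
      congr 1
      -- `z⁻¹ ι z = ι j`
      have hj : homMat g ((ι⁻¹ * (z⁻¹ * ι * z) : Γ) : Mod g) = 1 := by
        show homMat g ((ι : Mod g)⁻¹ * ((z : Mod g)⁻¹ * ι * z)) = 1
        rw [map_mul, map_mul, map_mul, hι, homMat_inv_iota hι, neg_mul, one_mul, mul_neg, mul_one,
          neg_mul, neg_neg, ← map_mul, inv_mul_cancel, map_one]
      have e2 : ((z⁻¹ * ι * z : Γ) : Mod g) = ι * ((ι⁻¹ * (z⁻¹ * ι * z) : Γ) : Mod g) := by
        rw [← Subgroup.coe_mul, mul_inv_cancel_left]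
      rw [e2, map_mul]
      show ρ ι (ρ _ v) = ρ ι v
      rw [P1 _ hj v hvV]
    have d1 : d 1 = 0 := by
      have := dadd 1 1 (by rw [OneMemClass.coe_one, map_one]) (by rw [OneMemClass.coe_one, map_one])
      rw [mul_one] at this
      exact left_eq_add.1 this
    have dinv : ∀ x : Γ, homMat g x = 1 → d x⁻¹ = - d x := by
      intro x hx
      have hx' : homMat g ((x⁻¹ : Γ) : Mod g) = 1 := by
        show homMat g (x : Mod g)⁻¹ = 1
        have h3 : homMat g (x : Mod g)⁻¹ * homMat g x = 1 := by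
          rw [← map_mul, inv_mul_cancel, map_one]
        rwa [hx, mul_one] at h3
      have := dadd x⁻¹ x hx' hx
      rw [inv_mul_cancel, d1] at this
      exact eq_neg_of_add_eq_zero_left this.symm
    obtain ⟨⟨w, hwV, hw⟩, -, -⟩ := C (fun y => d (cm ι y))
      (fun y => dV _ (homMat_cm_iota hι y)) (fun y z => by
        rw [cm_mul_right, dadd _ _ (homMat_cm_iota hι y) (hconj y _ (homMat_cm_iota hι z)),
          deq y _ (homMat_cm_iota hι z)])
    intro x y hx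
    obtain ⟨v, hvV, hv⟩ := hv x hx
    have hdx : d x = ρ ι v - v := hv ι
    have h3 : d (cm ι x) = 0 := by
      rw [hw x, P1 x hx w hwV, sub_self]
    have h4 : d (cm ι x) = ρ ι (d x) - d x := by
      have e3 : cm ι x = (ι * x * ι⁻¹) * x⁻¹ := rfl
      have hx' : homMat g ((x⁻¹ : Γ) : Mod g) = 1 := by
        show homMat g (x : Mod g)⁻¹ = 1
        have h3 : homMat g (x : Mod g)⁻¹ * homMat g x = 1 := by
          rw [← map_mul, inv_mul_cancel, map_one]
        rwa [hx, mul_one] at h3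
      rw [e3, dadd _ _ (hconj ι x hx) hx', deq ι x hx, dinv x hx, ← sub_eq_add_neg]
    have hιι : homMat g ((ι * ι : Γ) : Mod g) = 1 := by
      rw [Subgroup.coe_mul, map_mul, hι, neg_mul, one_mul, neg_neg]
    have h5 : ρ ι (d x) = - d x := by
      rw [hdx, map_sub]
      have h6 : ρ ι (ρ ι v) = v := by
        have h7 := P1 _ hιι v hvV
        rw [Subgroup.coe_mul, map_mul] at h7
        exact h7
      rw [h6]
      abel
    rw [h3, h5] at h4
    have h6 : d x = 0 := by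
      apply h2 _ (dV x hx)
      have : d x + d x = -(-d x - d x) := by abel
      rw [this, ← h4, neg_zero]
    have h7 : ρ ι v = v := by
      rw [hdx] at h6
      exact sub_eq_zero.1 h6
    have h8 := P3 v hvV h7 y
    rw [← hker _ (hS x y hx), hv, h8, sub_self]
  · intro hS x y hx
    have hcx : ∀ s ∈ N', ∀ y : Γ, cm s (f y) ∈ N' ∧ π (cm s (f y)) = π s - ρ y (π s) := by
      intro s hs y
      have e : cm s (f y) = s * (f y * s * (f y)⁻¹)⁻¹ := by unfold cm; group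
      have h3 := hN' y s hs
      rw [e, hadd _ hs _ (N'.inv_mem h3), pi_inv hadd hker h3, heq y s hs]
      exact ⟨N'.mul_mem hs (N'.inv_mem h3), (sub_eq_add_neg _ _).symm⟩
    -- the element `ρ(ι) u - u` is fixed
    have hs : f ((cm ι x : Γ) : Mod g) = (f ι * f x * (f ι)⁻¹) * (f x)⁻¹ := by
      show f ((ι : Mod g) * x * (ι : Mod g)⁻¹ * (x : Mod g)⁻¹) = _
      rw [map_mul, map_mul, map_mul, map_inv, map_inv]
    have h3 := hN' ι _ hx
    have hsN : f ((cm ι x : Γ) : Mod g) ∈ N' := by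
      rw [hs]
      exact N'.mul_mem h3 (N'.inv_mem hx)
    have hz : π (f ((cm ι x : Γ) : Mod g)) = ρ ι (π (f x)) - π (f x) := by
      rw [hs, hadd _ h3 _ (N'.inv_mem hx), pi_inv hadd hker hx, heq ι _ hx, ← sub_eq_add_neg]
    have hfix : ρ ι (ρ ι (π (f x)) - π (f x)) = ρ ι (π (f x)) - π (f x) := by
      have h4 := hcx _ hsN ι
      have h5 := (hker _ h4.1).2 (hS (cm ι x) ι (homMat_cm_iota hι x))
      rw [h4.2, hz] at h5
      exact (sub_eq_zero.1 h5).symm
    have huV : π (f x) ∈ V := ⟨_, hx, rfl⟩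
    have hιι : homMat g ((ι * ι : Γ) : Mod g) = 1 := by
      rw [Subgroup.coe_mul, map_mul, hι, neg_mul, one_mul, neg_neg]
    have h6 : ρ ι (ρ ι (π (f x))) = π (f x) := by
      have h7 := P1 _ hιι _ huV
      rw [Subgroup.coe_mul, map_mul] at h7
      exact h7
    rw [map_sub, h6] at hfix
    have h8 : ρ ι (π (f x)) - π (f x) = 0 := by
      apply h2 _ (V.sub_mem (hV ι _ huV) huV)
      nth_rewrite 1 [← hfix]
      abel
    have h9 := P3 _ huV (sub_eq_zero.1 h8) y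
    have h10 := hcx _ hx y
    rw [← hker _ h10.1, h10.2, h9, sub_self]

end

end Pool.Agent.U379.TR.Fi
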