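import Pool.Agent.U379.TR.Ser

set_option autoImplicit false

/-!
# Homomorphisms of `Mod_g` to groups with a series with small factors: the theorem
-/

namespace Pool.Agent.U379.TR.Fi

open Pool.Agent.H29R2.MG Pool.Agent.TH35.MG Pool.Agent.R352.MG Pool.Agent.R665.MGR
  Pool.Agent.N66.CQ Pool.Agent.U379.PI Pool.Agent.Helper58.EN
open Pool.Agent.Q290.MG (homMat homM hc_aut hc_gen)

section
variable {g : ℕ} {Q : Type} [Group Q]

/-- if all the commutators of `x` are central, `x` is central -/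
theorem central_of {G : Type} [Group G]
    (hperf : ∀ (B : Type) [CommGroup B] (φ : G →* B) (y : G), φ y = 1) (F : G →* Q) (x : G)
    (h : ∀ y z : G, cm (cm (F x) (F y)) (F z) = 1) (y : G) : cm (F x) (F y) = 1 := by
  let P : Subgroup Q := F.range
  have hm : ∀ y : G, cm (F x) (F y) ∈ P := fun y => ⟨cm x y, cm_map F x y⟩
  have hc : ∀ y : G, (⟨cm (F x) (F y), hm y⟩ : P) ∈ Subgroup.center P := by
    intro y
    rw [Subgroup.mem_center_iff]
    rintro ⟨_, z, rfl⟩
    apply Subtype.ext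
    exact (cm_eq_one.1 (h y z)).symm
  let φ : G →* Subgroup.center P :=
    { toFun := fun y => ⟨⟨cm (F x) (F y), hm y⟩, hc y⟩
      map_one' := by
        apply Subtype.ext
        apply Subtype.ext
        show cm (F x) (F 1) = 1
        rw [map_one]
        unfold cm
        group
      map_mul' := fun y z => by
        apply Subtype.ext
        apply Subtype.ext
        show cm (F x) (F (y * z)) = cm (F x) (F y) * cm (F x) (F z)
        rw [map_mul, cm_mul_right]
        congr 1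
        have h1 := cm_eq_one.1 (h z y)
        rw [← h1, mul_inv_cancel_right] }
  let _ : CommGroup (Subgroup.center P) :=
    { (inferInstance : Group (Subgroup.center P)) with
      mul_comm := fun a b => Subtype.ext (Subgroup.mem_center_iff.1 b.2 a) }
  have h1 := hperf (Subgroup.center P) φ y
  exact congrArg (fun z : Subgroup.center P => ((z : P) : Q)) h1

/-- the same, modulo an invariant subgroup -/
theorem central_rel {Γ : Subgroup (Mod g)}
    (hperf : ∀ (B : Type) [CommGroup B] (φ : Γ →* B) (y : Γ), φ y = 1) {f : Mod g →* Q}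
    {K : Subgroup Q} (hK : ∀ y : Mod g, ∀ s ∈ K, f y * s * (f y)⁻¹ ∈ K) (x : Γ)
    (h : ∀ y z : Γ, cm (cm (f x) (f y)) (f z) ∈ K) (y : Γ) : cm (f x) (f y) ∈ K := by
  let F : Γ →* Q := f.comp Γ.subtype
  let K' : Subgroup F.range := K.subgroupOf F.range
  have hn : K'.Normal := by
    refine ⟨?_⟩
    rintro s hs ⟨_, z, rfl⟩
    rw [Subgroup.mem_subgroupOf] at hs ⊢
    exact hK z _ hs
  let F' : Γ →* F.range ⧸ K' := (QuotientGroup.mk' K').comp F.rangeRestrict
  have key : ∀ z w : Γ, cm (F' z) (F' w) = 1 ↔ cm (f z) (f w) ∈ K := by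
    intro z w
    rw [← cm_map F' z w]
    show ((F.rangeRestrict (cm z w) : F.range) : F.range ⧸ K') = 1 ↔ _
    rw [QuotientGroup.eq_one_iff, Subgroup.mem_subgroupOf]
    have e : ((F.rangeRestrict (cm z w) : F.range) : Q) = cm (f z) (f w) := cm_map F z w
    rw [e]
  rw [← key]
  apply central_of hperf F' x
  intro y z
  rw [← cm_map F' x y, key]
  have e : f ((cm x y : Γ) : Mod g) = cm (f x) (f y) := cm_map F x y
  rw [e]
  exact h y z

/-- The Torelli group acts trivially on `N' / N` and `Mod_g` acts trivially on its centre. -/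
def TorStep (f : Mod g →* Q) (N N' : Subgroup Q) : Prop :=
  (∀ y : Mod g, homMat g y = 1 → ∀ s ∈ N', f y * s * (f y)⁻¹ * s⁻¹ ∈ N) ∧
    ∀ s ∈ N', (∀ t ∈ N', s * t * s⁻¹ * t⁻¹ ∈ N) → ∀ y : Mod g, f y * s * (f y)⁻¹ * s⁻¹ ∈ N

/-- `Mod_g` acts trivially on `N' / N`. -/
def TrivStep (f : Mod g →* Q) (N N' : Subgroup Q) : Prop :=
  ∀ y : Mod g, ∀ s ∈ N', f y * s * (f y)⁻¹ * s⁻¹ ∈ N

theorem cm_inv_mem {N : Subgroup Q} {a b : Q} (h : a * b * a⁻¹ * b⁻¹ ∈ N) : cm b a ∈ N := by
  have e : cm b a = (a * b * a⁻¹ * b⁻¹)⁻¹ := by unfold cm; group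
  rw [e]
  exact N.inv_mem h

/-- The theorem on series. -/
theorem series (hg : 18 ≤ g) (f : Mod g →* Q) (N : ℕ → Subgroup Q)
    (h0 : ∀ y, f y ∈ N 0) (hinv : ∀ i, ∀ y : Mod g, ∀ s ∈ N i, f y * s * (f y)⁻¹ ∈ N i)
    (hfac : ∀ i, AbStep f (N (i + 1)) (N i) ∨ TorStep f (N (i + 1)) (N i)) :
    (∀ i, ∀ x ∈ Humphries g, homMat g x = 1 → ∀ y ∈ Humphries g,
      f x * f y * (f x)⁻¹ * (f y)⁻¹ ∈ N i) ∧
    (∀ i, AbStep f (N (i + 1)) (N i) → ∀ x ∈ Humphries g, f x ∈ N i →
      ∀ y ∈ Humphries g, f x * f y * (f x)⁻¹ * (f y)⁻¹ ∈ N (i + 1)) ∧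
    ∀ k, (∀ i, k ≤ i → AbStep f (N (i + 1)) (N i) ∨ TrivStep f (N (i + 1)) (N i)) →
      ∀ x ∈ Humphries g, f x ∈ N k → ∀ i, k ≤ i → ∀ y ∈ Humphries g,
        f x * f y * (f x)⁻¹ * (f y)⁻¹ ∈ N i := by
  obtain ⟨Γ, hΓ, ⟨ι, hι⟩, hperf, hU⟩ := gamma_data hg
  have hU' : GamUnits g Γ := hU
  have hcmf : ∀ x y : Γ, f ((cm x y : Γ) : Mod g) = cm (f x) (f y) := by
    intro x y
    show f ((x : Mod g) * y * (x : Mod g)⁻¹ * (y : Mod g)⁻¹) = _
    rw [map_mul, map_mul, map_mul, map_inv, map_inv]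
    rfl
  have hall : ∀ i, ∀ x y : Γ, homMat g x = 1 → cm (f x) (f y) ∈ N i := by
    intro i
    induction i with
    | zero =>
      intro x y _
      exact (N 0).mul_mem ((N 0).mul_mem ((N 0).mul_mem (h0 _) (h0 _)) ((N 0).inv_mem (h0 _)))
        ((N 0).inv_mem (h0 _))
    | succ i ih =>
      intro x y hx
      rcases hfac i with h | h
      · exact (step_ab hg hU' hι h (hinv i)).1 ih x y hx
      · apply central_rel hperf (hinv (i + 1)) x
        intro y z
        apply cm_inv_mem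
        apply h.2 _ (ih x y hx)
        intro t ht
        have h1 : homMat g ((cm x y : Γ) : Mod g) = 1 := by
          have h2 : homMat g (x : Mod g)⁻¹ = 1 := by
            have h3 : homMat g (x : Mod g)⁻¹ * homMat g x = 1 := by
              rw [← map_mul, inv_mul_cancel, map_one]
            rwa [hx, mul_one] at h3
          show homMat g ((x : Mod g) * y * (x : Mod g)⁻¹ * (y : Mod g)⁻¹) = 1
          rw [map_mul, map_mul, map_mul, hx, h2, one_mul, mul_one, ← map_mul, mul_inv_cancel,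
            map_one]
        have h3 := h.1 _ h1 t ht
        rw [hcmf] at h3
        exact h3
  have hII : ∀ i, AbStep f (N (i + 1)) (N i) → ∀ x y : Γ, f x ∈ N i →
      cm (f x) (f y) ∈ N (i + 1) := fun i h =>
    (step_ab hg hU' hι h (hinv i)).2 (hall (i + 1))
  refine ⟨?_, ?_, ?_⟩
  · intro i x hx hx1 y hy
    exact hall i ⟨x, hΓ hx⟩ ⟨y, hΓ hy⟩ hx1
  · intro i h x hx hxN y hy
    exact hII i h ⟨x, hΓ hx⟩ ⟨y, hΓ hy⟩ hxN
  · intro k h
    have hcm0 : ∀ i, ∀ x y : Γ, f x ∈ N i → cm (f x) (f y) ∈ N i := by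
      intro i x y hx
      have e : cm (f x) (f y) = f x * (f y * f x * (f y)⁻¹)⁻¹ := by unfold cm; group
      rw [e]
      exact (N i).mul_mem hx ((N i).inv_mem (hinv i y _ hx))
    have key : ∀ d j, k ≤ j → ∀ x y : Γ, f x ∈ N j → cm (f x) (f y) ∈ N (j + d) := by
      intro d
      induction d with
      | zero => intro j _ x y hx; exact hcm0 j x y hx
      | succ d ih =>
        intro j hj x y hx
        apply central_rel hperf (hinv _) x
        intro y z
        have h1 : cm (f x) (f y) ∈ N (j + 1) := by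
          rcases h j hj with h | h
          · exact hII j h x y hx
          · exact cm_inv_mem (h y _ hx)
        rw [← hcmf] at h1 ⊢
        have h2 := ih (j + 1) (by omega) (cm x y) z h1
        rwa [show j + 1 + d = j + (d + 1) by ring] at h2
    intro x hx hxN i hi y hy
    have := key (i - k) k le_rfl ⟨x, hΓ hx⟩ ⟨y, hΓ hy⟩ hxN
    rwa [show k + (i - k) = i by omega] at this

end

end Pool.Agent.U379.TR.Fi
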