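import Mathlib
import Pool.Agent.R352.MG.C
import Pool.Agent.R665.MGR.Rep

set_option autoImplicit false

/-!
# Small representations of groups with the handle relations
-/

namespace Pool.Agent.U379.TR.Small

open Pool.Agent.H798R3.MG Pool.Agent.TH35.MG Pool.Agent.R352.MG Module

universe u v w

variable {G : Type w} [Group G] {N : ℕ} {A B al be T : ℕ → G} {tau : G}

theorem small_closed (r : HRel N A B al be T tau) (hN : 4 ≤ N) {K : Type u} {V : Type v} [Field K]
    [IsAlgClosed K] [AddCommGroup V] [Module K V] [FiniteDimensional K V]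
    (ρ : G →* Module.End K V) (hd : finrank K V < (N - 2).choose 2) :
    (ρ (A 0) - 1) * (ρ (A 0) - 1) = 0 ∧ (ρ (A 1) - 1) * (ρ (A 0) - 1) = 0 := by
  have hd2 : finrank K V < 2 ^ (N - 1 - 2) := by
    have h1 := Pool.Agent.R665.MGR.choose_two_le (N - 3)
    rw [show N - 3 + 1 = N - 2 by omega] at h1
    rw [show N - 1 - 2 = N - 3 by omega]
    omega
  have h0 : X ρ r.commAA (Finset.range 2) = 0 := X_zero r ρ (by omega) (by omega) hd hd2
  constructor
  · have h3 := unip_zero (mono (N' := 2 + 2) (by omega) r) (by omega) ρ (by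
      intro l hnd hl
      rw [X_list ρ r.commAA (E := Finset.Ico 2 (2 + 2)) (fun i hi => by
        have := Finset.mem_Ico.1 hi; omega) hnd (fun i => by rw [hl, Finset.mem_Ico]),
        X_move r ρ (fun i hi => by have := Finset.mem_Ico.1 hi; omega), Nat.card_Ico,
        Nat.add_sub_cancel]
      exact h0)
    rw [Nat.add_sub_cancel, pow_two] at h3
    exact h3
  · have h4 := X_list ρ r.commAA (E := Finset.range 2) (l := [1, 0])
      (fun i hi => by have := Finset.mem_range.1 hi; omega) (by simp)
      (fun i => by simp only [List.mem_cons, List.not_mem_nil, or_false, Finset.mem_range]; omega)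
    rw [h0] at h4
    simpa using h4

/-- the representations of dimension less than `binom (N - 2) 2` -/
theorem small (r : HRel N A B al be T tau) (hN : 4 ≤ N) {K : Type u} {V : Type v} [Field K]
    [AddCommGroup V] [Module K V] [FiniteDimensional K V]
    (ρ : G →* Module.End K V) (hd : finrank K V < (N - 2).choose 2) :
    (ρ (A 0) - 1) * (ρ (A 0) - 1) = 0 ∧ (ρ (A 1) - 1) * (ρ (A 0) - 1) = 0 := by
  classical
  set d := finrank K V with hdd
  let b : Basis (Fin d) K V := Module.finBasis K V
  let e : Module.End K V ≃ₐ[K] Matrix (Fin d) (Fin d) K := LinearMap.toMatrixAlgEquiv b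
  let Φ : Module.End K V →+* Module.End (AlgebraicClosure K) (Fin d → AlgebraicClosure K) :=
    (phi' d K).comp (e : Module.End K V →+* Matrix (Fin d) (Fin d) K)
  have hΦ : Function.Injective Φ := (phi'_inj d K).comp e.injective
  let ρ' : G →* Module.End (AlgebraicClosure K) (Fin d → AlgebraicClosure K) :=
    (Φ : Module.End K V →* _).comp ρ
  obtain ⟨h1, h2⟩ := small_closed r hN ρ' (by simpa using hd)
  have e0 : ∀ x, ρ' x - 1 = Φ (ρ x - 1) := by
    intro x
    rw [map_sub, map_one]
    rfl
  rw [e0, ← map_mul] at h1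
  rw [e0, e0, ← map_mul] at h2
  exact ⟨hΦ (h1.trans (map_zero Φ).symm), hΦ (h2.trans (map_zero Φ).symm)⟩

end Pool.Agent.U379.TR.Small
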