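import Pool.Agent.U379.TR.Alg

set_option autoImplicit false

/-!
# The matrix units
-/

namespace Pool.Agent.U379.TR

open Pool.Agent.N66.TA (cp Rw Qw Sw TT Si Qi Li KRel LickRel GrpRel)

section alg
variable {R : Type} [Ring R] {g : ℕ} {N A : ℕ → R}

/-- the elements `E_ij` -/
def EE (N : ℕ → R) (i j : ℕ) : R := Wd N i * (N 1 * Wd' N j)

theorem EE_diag (hL : LRel g N A) : ∀ j < 2 * g, EE N j j = N j := by
  intro j
  induction j with
  | zero =>
    intro _
    show N 0 * (N 1 * (-N 0)) = N 0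
    rw [mul_neg, mul_neg]
    exact (eq_neg_of_add_eq_zero_left hL.z0).symm
  | succ j ih =>
    intro h
    have h1 := ih (by omega)
    unfold EE at h1 ⊢
    show -(N (j + 1) * Wd N j) * (N 1 * (Wd' N j * N (j + 1))) = N (j + 1)
    have e : -(N (j + 1) * Wd N j) * (N 1 * (Wd' N j * N (j + 1))) =
        -(N (j + 1) * ((Wd N j * (N 1 * Wd' N j)) * N (j + 1))) := by
      simp only [neg_mul, mul_assoc]
    rw [e, h1]
    exact (eq_neg_of_add_eq_zero_left (hL.nn j h)).symm

theorem A_eq (hL : LRel g N A) (hR : RRel g N A) {m : ℕ} (hm : m < g) :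
    A m = ∑ i ∈ Finset.range (m + 1), ∑ l ∈ Finset.range (m + 1), EE N (2 * i) (2 * l) := by
  have h1 := eq_neg_of_add_eq_zero_left (hL.aa m hm)
  have h2 := EE_diag hL (2 * m + 1) (by omega)
  have h3 : A m * (N (2 * m + 1) * A m) =
      (A m * Wd N (2 * m + 1)) * (N 1 * (Wd' N (2 * m + 1) * A m)) := by
    rw [← h2]
    unfold EE
    simp only [mul_assoc]
  rw [h3, hL.Ab m hm, hR.Ab m hm] at h1
  rw [h1]
  unfold EE
  simp only [mul_neg, neg_neg, Finset.sum_mul, Finset.mul_sum]
  exact Finset.sum_comm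

theorem N_EE (hL : LRel g N A) {i j l : ℕ} (hi : i < 2 * g) (hj : j < 2 * g) :
    N i * EE N j l = if i = j + 1 then -EE N i l else if j = i + 1 then EE N i l else 0 := by
  unfold EE
  rw [← mul_assoc]
  by_cases h1 : i = j + 1
  · subst h1
    rw [if_pos rfl]
    show N (j + 1) * Wd N j * _ = -(-(N (j + 1) * Wd N j) * _)
    rw [neg_mul, neg_neg]
  · rw [if_neg h1]
    by_cases h2 : j = i + 1
    · subst h2
      rw [if_pos rfl, hL.dn i hj]
    · rw [if_neg h2, hL.fr i hi j hj h1 h2, zero_mul]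

theorem A_EE (hL : LRel g N A) {m j l : ℕ} (hm : m < g) (hj : j < 2 * g) :
    A m * EE N j l = if j = 2 * m + 1 then ∑ i ∈ Finset.range (m + 1), EE N (2 * i) l else 0 := by
  unfold EE
  rw [← mul_assoc]
  by_cases h1 : j = 2 * m + 1
  · subst h1
    rw [if_pos rfl, hL.Ab m hm, Finset.sum_mul]
  · rw [if_neg h1, hL.Aw m hm j hj h1, zero_mul]

end alg

section span
variable {R : Type} [Ring R] {g : ℕ} {N A : ℕ → R} {k : Type} [CommRing k] [Algebra k R]

/-- the span of `1` and of the `E_ij` -/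
def PP (k : Type) [CommRing k] [Algebra k R] (g : ℕ) (N : ℕ → R) : Submodule k R :=
  Submodule.span k (insert 1 {x | ∃ i < 2 * g, ∃ j < 2 * g, x = EE N i j})

theorem one_PP : (1 : R) ∈ PP k g N := Submodule.subset_span (Set.mem_insert _ _)

theorem EE_PP {i j : ℕ} (hi : i < 2 * g) (hj : j < 2 * g) : EE N i j ∈ PP k g N :=
  Submodule.subset_span (Set.mem_insert_of_mem _ ⟨i, hi, j, hj, rfl⟩)

theorem N_PP (hL : LRel g N A) {i : ℕ} (hi : i < 2 * g) {x : R} (hx : x ∈ PP k g N) :
    N i * x ∈ PP k g N := by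
  induction hx using Submodule.span_induction with
  | mem x hx =>
    rcases hx with rfl | ⟨j, hj, l, hl, rfl⟩
    · rw [mul_one, ← EE_diag hL i hi]
      exact EE_PP hi hi
    · rw [N_EE hL hi hj]
      split_ifs
      · exact Submodule.neg_mem _ (EE_PP hi hl)
      · exact EE_PP hi hl
      · exact Submodule.zero_mem _
  | zero => rw [mul_zero]; exact Submodule.zero_mem _
  | add x y _ _ h1 h2 => rw [mul_add]; exact Submodule.add_mem _ h1 h2
  | smul t x _ h1 => rw [Algebra.mul_smul_comm]; exact Submodule.smul_mem _ _ h1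

theorem A_PP (hL : LRel g N A) (hR : RRel g N A) {m : ℕ} (hm : m < g) {x : R}
    (hx : x ∈ PP k g N) : A m * x ∈ PP k g N := by
  induction hx using Submodule.span_induction with
  | mem x hx =>
    rcases hx with rfl | ⟨j, hj, l, hl, rfl⟩
    · rw [mul_one, A_eq hL hR hm]
      refine Submodule.sum_mem _ fun i hi => Submodule.sum_mem _ fun l hl => EE_PP ?_ ?_
      · have := Finset.mem_range.1 hi; omega
      · have := Finset.mem_range.1 hl; omega
    · rw [A_EE hL hm hj]
      split_ifs
      · refine Submodule.sum_mem _ fun i hi => EE_PP ?_ hl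
        have := Finset.mem_range.1 hi; omega
      · exact Submodule.zero_mem _
  | zero => rw [mul_zero]; exact Submodule.zero_mem _
  | add x y _ _ h1 h2 => rw [mul_add]; exact Submodule.add_mem _ h1 h2
  | smul t x _ h1 => rw [Algebra.mul_smul_comm]; exact Submodule.smul_mem _ _ h1

theorem rho_PP {G : Type} [Group G] {c a : ℕ → G} (ρ : G →* R)
    (hcl : Subgroup.closure ({x | ∃ j < 2 * g, x = c j} ∪ {x | ∃ m < g, x = a m}) = ⊤)
    (hL : LRel g (fun j => ρ (c j) - 1) (fun m => ρ (a m) - 1))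
    (hR : RRel g (fun j => ρ (c j) - 1) (fun m => ρ (a m) - 1)) (y : G) :
    ∀ x ∈ PP k g (fun j => ρ (c j) - 1), ρ y * x ∈ PP k g (fun j => ρ (c j) - 1) := by
  have key : ∀ z : G, (ρ z - 1) * (ρ z - 1) = 0 →
      (∀ x ∈ PP k g (fun j => ρ (c j) - 1), (ρ z - 1) * x ∈ PP k g (fun j => ρ (c j) - 1)) →
      ∀ x ∈ PP k g (fun j => ρ (c j) - 1), ρ z * x ∈ PP k g (fun j => ρ (c j) - 1) ∧
        ρ z⁻¹ * x ∈ PP k g (fun j => ρ (c j) - 1) := by
    intro z hz h x hx
    have h3 : ρ z * (1 - (ρ z - 1)) = 1 := by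
      have e : ρ z = 1 + (ρ z - 1) := by abel
      calc ρ z * (1 - (ρ z - 1)) = (1 + (ρ z - 1)) * (1 - (ρ z - 1)) := by rw [← e]
        _ = 1 - (ρ z - 1) * (ρ z - 1) := by noncomm_ring
        _ = 1 := by rw [hz, sub_zero]
    have h4 : ρ z⁻¹ = 1 - (ρ z - 1) := by
      calc ρ z⁻¹ = ρ z⁻¹ * (ρ z * (1 - (ρ z - 1))) := by rw [h3, mul_one]
        _ = 1 - (ρ z - 1) := by rw [← mul_assoc, ← map_mul, inv_mul_cancel, map_one, one_mul]
    constructor
    · have e : ρ z * x = x + (ρ z - 1) * x := by rw [sub_mul, one_mul]; abel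
      rw [e]
      exact Submodule.add_mem _ hx (h x hx)
    · rw [h4, sub_mul, one_mul]
      exact Submodule.sub_mem _ hx (h x hx)
  have hy : y ∈ Subgroup.closure ({x | ∃ j < 2 * g, x = c j} ∪ {x | ∃ m < g, x = a m}) := by
    rw [hcl]
    trivial
  have main : ∀ x ∈ PP k g (fun j => ρ (c j) - 1), ρ y * x ∈ PP k g (fun j => ρ (c j) - 1) ∧
      ρ y⁻¹ * x ∈ PP k g (fun j => ρ (c j) - 1) := by
    induction hy using Subgroup.closure_induction with
    | mem z hz =>
      rcases hz with ⟨j, hj, rfl⟩ | ⟨m, hm, rfl⟩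
      · exact key _ (hL.sq j hj) (fun x hx => N_PP hL hj hx)
      · exact key _ (hL.sqA m hm) (fun x hx => A_PP hL hR hm hx)
    | one =>
      intro x hx
      rw [inv_one, map_one, one_mul]
      exact ⟨hx, hx⟩
    | mul z w _ _ h1 h2 =>
      intro x hx
      rw [mul_inv_rev, map_mul, map_mul, mul_assoc, mul_assoc]
      exact ⟨(h1 _ (h2 x hx).1).1, (h2 _ (h1 x hx).2).2⟩
    | inv z _ h1 =>
      intro x hx
      rw [inv_inv]
      exact ⟨(h1 x hx).2, (h1 x hx).1⟩
  exact fun x hx => (main x hx).1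

end span

section indep

/-- a sequence with `q_{k+1} = q_{k-1}` vanishes -/
theorem seq_zero {M : Type} [AddCommGroup M] (g : ℕ) (q : ℕ → M)
    (h : ∀ k < 2 * g, (if k + 1 < 2 * g then q (k + 1) else 0) =
      if 1 ≤ k then q (k - 1) else 0) : ∀ i < 2 * g, q i = 0 := by
  have hodd : ∀ i, 2 * i + 1 < 2 * g → q (2 * i + 1) = 0 := by
    intro i
    induction i with
    | zero =>
      intro hi
      have h1 := h 0 (by omega)
      rw [if_pos (by omega), if_neg (by omega)] at h1
      exact h1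
    | succ i ih =>
      intro hi
      have h1 := h (2 * (i + 1)) (by omega)
      rw [if_pos hi, if_pos (by omega)] at h1
      rw [h1, show 2 * (i + 1) - 1 = 2 * i + 1 by omega]
      exact ih (by omega)
  have heven : ∀ i, i < g → q (2 * (g - 1 - i)) = 0 := by
    intro i
    induction i with
    | zero =>
      intro hi
      have h1 := h (2 * g - 1) (by omega)
      rw [if_neg (by omega), if_pos (by omega)] at h1
      rw [show 2 * (g - 1 - 0) = 2 * g - 1 - 1 by omega]
      exact h1.symm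
    | succ i ih =>
      intro hi
      have h1 := h (2 * (g - 1 - i) - 1) (by omega)
      rw [if_pos (by omega), if_pos (by omega)] at h1
      rw [show 2 * (g - 1 - (i + 1)) = 2 * (g - 1 - i) - 1 - 1 by omega, ← h1,
        show 2 * (g - 1 - i) - 1 + 1 = 2 * (g - 1 - i) by omega]
      exact ih (by omega)
  intro i hi
  rcases Nat.even_or_odd' i with ⟨m, rfl | rfl⟩
  · have := heven (g - 1 - m) (by omega)
    rwa [show g - 1 - (g - 1 - m) = m by omega] at this
  · exact hodd m hi

variable {R : Type} [Ring R] {g : ℕ} {N A : ℕ → R} {k : Type} [CommRing k] [Algebra k R]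

theorem W_down (hL : LRel g N A) {x : R} : ∀ j < 2 * g, Wd N j * x = 0 → Wd N 0 * x = 0 := by
  intro j
  induction j with
  | zero => intro _ h; exact h
  | succ j ih =>
    intro hj h
    apply ih (by omega)
    rw [← hL.dn j hj, mul_assoc, h, mul_zero]

theorem W'_down (hR : RRel g N A) {x : R} : ∀ j < 2 * g, x * Wd' N j = 0 → x * Wd' N 0 = 0 := by
  intro j
  induction j with
  | zero => intro _ h; exact h
  | succ j ih =>
    intro hj h
    apply ih (by omega)
    have h1 := hR.dn j hj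
    have h2 : Wd' N j = -(Wd' N (j + 1) * N j) := by rw [h1, neg_neg]
    rw [h2, mul_neg, ← mul_assoc, h, zero_mul, neg_zero]

theorem left_indep (hL : LRel g N A) (r : ℕ → R)
    (h : ∑ i ∈ Finset.range (2 * g), Wd N i * r i = 0) : ∀ i < 2 * g, Wd N 0 * r i = 0 := by
  apply seq_zero g (fun i => Wd N 0 * r i)
  intro j hj
  have h1 : N j * ∑ i ∈ Finset.range (2 * g), Wd N i * r i = 0 := by rw [h, mul_zero]
  rw [Finset.mul_sum] at h1
  have h2 : ∀ i ∈ Finset.range (2 * g), N j * (Wd N i * r i) =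
      (if i = j + 1 then Wd N j * r i else 0) - (if j = i + 1 then Wd N j * r i else 0) := by
    intro i hi
    have hi' := Finset.mem_range.1 hi
    rw [← mul_assoc]
    by_cases h3 : j = i + 1
    · subst h3
      rw [if_pos rfl, if_neg (by omega), zero_sub]
      show _ = -(-(N (i + 1) * Wd N i) * r i)
      rw [neg_mul, neg_neg]
    · rw [if_neg h3, sub_zero]
      by_cases h4 : i = j + 1
      · subst h4
        rw [if_pos rfl, hL.dn j hi']
      · rw [if_neg h4, hL.fr j hj i hi' h3 h4, zero_mul]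
  rw [Finset.sum_congr rfl h2, Finset.sum_sub_distrib] at h1
  have h3 : ∑ i ∈ Finset.range (2 * g), (if i = j + 1 then Wd N j * r i else 0) =
      Wd N j * (if j + 1 < 2 * g then r (j + 1) else 0) := by
    rw [Finset.sum_ite_eq' (Finset.range (2 * g)) (j + 1) (fun i => Wd N j * r i)]
    simp only [Finset.mem_range]
    split_ifs
    · rfl
    · rw [mul_zero]
  have h4 : ∑ i ∈ Finset.range (2 * g), (if j = i + 1 then Wd N j * r i else 0) =
      Wd N j * (if 1 ≤ j then r (j - 1) else 0) := by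
    have h5 : ∀ i ∈ Finset.range (2 * g), (if j = i + 1 then Wd N j * r i else 0) =
        if i = j - 1 then (if 1 ≤ j then Wd N j * r i else 0) else 0 := by
      intro i _
      by_cases h6 : j = i + 1
      · rw [if_pos h6, if_pos (by omega), if_pos (by omega)]
      · rw [if_neg h6]
        by_cases h7 : i = j - 1
        · rw [if_pos h7, if_neg (by omega)]
        · rw [if_neg h7]
    rw [Finset.sum_congr rfl h5, Finset.sum_ite_eq' (Finset.range (2 * g)) (j - 1)
      (fun i => if 1 ≤ j then Wd N j * r i else 0), if_pos (Finset.mem_range.2 (by omega))]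
    split_ifs
    · rfl
    · rw [mul_zero]
  rw [h3, h4, ← mul_sub] at h1
  have h5 := W_down hL j hj h1
  rw [mul_sub, sub_eq_zero] at h5
  have h6 : (if j + 1 < 2 * g then (fun i => Wd N 0 * r i) (j + 1) else 0) =
      Wd N 0 * (if j + 1 < 2 * g then r (j + 1) else 0) := by
    split_ifs
    · rfl
    · rw [mul_zero]
  have h7 : (if 1 ≤ j then (fun i => Wd N 0 * r i) (j - 1) else 0) =
      Wd N 0 * (if 1 ≤ j then r (j - 1) else 0) := by
    split_ifs
    · rfl
    · rw [mul_zero]
  rw [h6, h7]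
  exact h5

theorem right_indep (hL : LRel g N A) (hR : RRel g N A) (htf : ∀ t : k, t • N 0 = 0 → t = 0)
    (hg : 1 ≤ g) (t : ℕ → k) (h : ∑ j ∈ Finset.range (2 * g), t j • EE N 0 j = 0) :
    ∀ j < 2 * g, t j = 0 := by
  apply seq_zero g t
  intro l hl
  have h1 : (∑ j ∈ Finset.range (2 * g), t j • EE N 0 j) * N l = 0 := by rw [h, zero_mul]
  rw [Finset.sum_mul] at h1
  have h2 : ∀ j ∈ Finset.range (2 * g), (t j • EE N 0 j) * N l =
      (if j = l - 1 then (if 1 ≤ l then t j else 0) • EE N 0 l else 0) -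
        (if j = l + 1 then t j • EE N 0 l else 0) := by
    intro j hj
    have hj' := Finset.mem_range.1 hj
    have e : (t j • EE N 0 j) * N l = t j • (Wd N 0 * (N 1 * (Wd' N j * N l))) := by
      unfold EE
      rw [Algebra.smul_mul_assoc]
      simp only [mul_assoc]
    rw [e]
    by_cases h3 : l = j + 1
    · subst h3
      rw [if_pos (by omega), if_pos (by omega), if_neg (by omega), sub_zero]
      rfl
    · by_cases h4 : j = l + 1
      · subst h4
        rw [if_neg (by omega), if_pos rfl, zero_sub, hR.dn l hj', mul_neg, mul_neg, smul_neg]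
        rfl
      · rw [if_neg h4, sub_zero, hR.fr l hl j hj' h3 h4, mul_zero, mul_zero, smul_zero]
        by_cases h5 : j = l - 1
        · rw [if_pos h5, if_neg (by omega), zero_smul]
        · rw [if_neg h5]
  rw [Finset.sum_congr rfl h2, Finset.sum_sub_distrib,
    Finset.sum_ite_eq' (Finset.range (2 * g)) (l - 1)
      (fun j => (if 1 ≤ l then t j else 0) • EE N 0 l),
    if_pos (Finset.mem_range.2 (by omega)),
    Finset.sum_ite_eq' (Finset.range (2 * g)) (l + 1) (fun j => t j • EE N 0 l)] at h1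
  simp only [Finset.mem_range] at h1
  have h3 : (if l + 1 < 2 * g then t (l + 1) • EE N 0 l else 0) =
      (if l + 1 < 2 * g then t (l + 1) else 0) • EE N 0 l := by
    split_ifs
    · rfl
    · rw [zero_smul]
  rw [h3, ← sub_smul] at h1
  have h4 := EE_diag hL 0 (by omega)
  have h5 : ((if 1 ≤ l then t (l - 1) else 0) - if l + 1 < 2 * g then t (l + 1) else 0) •
      (Wd N 0 * N 1) * Wd' N l = 0 := by
    rw [Algebra.smul_mul_assoc, mul_assoc]
    exact h1
  have h6 := W'_down hR l hl h5
  rw [Algebra.smul_mul_assoc, mul_assoc] at h6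
  have h7 : Wd N 0 * (N 1 * Wd' N 0) = N 0 := h4
  rw [h7] at h6
  exact (sub_eq_zero.1 (htf _ h6)).symm

/-- the `E_ij` are linearly independent -/
theorem indep (hL : LRel g N A) (hR : RRel g N A) (htf : ∀ t : k, t • N 0 = 0 → t = 0)
    (hg : 1 ≤ g) (t : ℕ → ℕ → k)
    (h : ∑ i ∈ Finset.range (2 * g), ∑ j ∈ Finset.range (2 * g), t i j • EE N i j = 0) :
    ∀ i < 2 * g, ∀ j < 2 * g, t i j = 0 := by
  intro i hi
  apply right_indep hL hR htf hg
  have h1 := left_indep hL (fun i => N 1 * ∑ j ∈ Finset.range (2 * g), t i j • Wd' N j) (by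
    rw [← h]
    refine Finset.sum_congr rfl fun i _ => ?_
    rw [Finset.mul_sum, Finset.mul_sum]
    refine Finset.sum_congr rfl fun j _ => ?_
    rw [Algebra.mul_smul_comm, Algebra.mul_smul_comm]
    rfl) i hi
  rw [← h1]
  simp only [Finset.mul_sum]
  refine Finset.sum_congr rfl fun j _ => ?_
  rw [Algebra.mul_smul_comm, Algebra.mul_smul_comm]
  rfl

end indep

end Pool.Agent.U379.TR
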