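import Pool.Agent.U379.TR.Ext
import Pool.Agent.U379.TR.Span
import Mathlib.RingTheory.Nakayama

set_option autoImplicit false

/-!
# The ideal generated by the two elements
-/

namespace Pool.Agent.U379.TR.Univ

open Pool.Agent.N66.TA (GrpRel)
open Pool.Agent.TH35.MG (HRel)

section maps
variable {R R' : Type} [Ring R] [Ring R']

theorem Wd_map (f : R →+* R') (N : ℕ → R) (j : ℕ) : Wd (fun i => f (N i)) j = f (Wd N j) := by
  induction j with
  | zero => rfl
  | succ j ih =>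
    show -(f (N (j + 1)) * Wd (fun i => f (N i)) j) = f (-(N (j + 1) * Wd N j))
    rw [ih, map_neg, map_mul]

theorem Wd'_map (f : R →+* R') (N : ℕ → R) (j : ℕ) : Wd' (fun i => f (N i)) j = f (Wd' N j) := by
  induction j with
  | zero =>
    show -f (N 0) = f (-N 0)
    rw [map_neg]
  | succ j ih =>
    show Wd' (fun i => f (N i)) j * f (N (j + 1)) = f (Wd' N j * N (j + 1))
    rw [ih, map_mul]

theorem EE_map (f : R →+* R') (N : ℕ → R) (i j : ℕ) :
    EE (fun i => f (N i)) i j = f (EE N i j) := by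
  unfold EE
  rw [Wd_map, Wd'_map, map_mul, map_mul]

end maps

section abs
variable {g : ℕ} {G : Type} [Group G] {k : Type} [CommRing k] {c a : ℕ → G}
  {L : Type} [Ring L] [Algebra k L]

theorem top_mul_top : (⊤ : Submodule k L) * ⊤ = ⊤ := by
  rw [eq_top_iff]
  intro x _
  rw [← mul_one x]
  exact Submodule.mul_mem_mul trivial trivial

/-- the first element -/
def x0 (ρ : G →* L) (c : ℕ → G) : L := (ρ (c 0) - 1) * (ρ (c 0) - 1)

/-- the second element -/
def x1 (ρ : G →* L) (c a : ℕ → G) : L := (ρ (a 1) - 1) * (ρ (c 0) - 1)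

/-- their span -/
def XX (k : Type) [CommRing k] [Algebra k L] (ρ : G →* L) (c a : ℕ → G) : Submodule k L :=
  Submodule.span k {x0 ρ c, x1 ρ c a}

/-- the ideal generated by them -/
def BB (k : Type) [CommRing k] [Algebra k L] (ρ : G →* L) (c a : ℕ → G) : Submodule k L :=
  ⊤ * XX k ρ c a * ⊤

variable {ρ : G →* L}

theorem x0_X : x0 ρ c ∈ XX k ρ c a := Submodule.subset_span (Set.mem_insert _ _)

theorem x1_X : x1 ρ c a ∈ XX k ρ c a :=
  Submodule.subset_span (Set.mem_insert_of_mem _ rfl)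

theorem top_B : (⊤ : Submodule k L) * BB k ρ c a = BB k ρ c a := by
  unfold BB
  rw [← mul_assoc, ← mul_assoc, top_mul_top]

theorem B_top : BB k ρ c a * (⊤ : Submodule k L) = BB k ρ c a := by
  unfold BB
  rw [mul_assoc, top_mul_top]

theorem left_B (x : L) {b : L} (hb : b ∈ BB k ρ c a) : x * b ∈ BB k ρ c a := by
  rw [← top_B]
  exact Submodule.mul_mem_mul trivial hb

theorem right_B (x : L) {b : L} (hb : b ∈ BB k ρ c a) : b * x ∈ BB k ρ c a := by
  rw [← B_top]
  exact Submodule.mul_mem_mul hb trivial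

theorem X_le_B : XX k ρ c a ≤ BB k ρ c a := by
  intro x hx
  have h1 := Submodule.mul_mem_mul (Submodule.mul_mem_mul (Submodule.mem_top : (1 : L) ∈
    (⊤ : Submodule k L)) hx) (Submodule.mem_top : (1 : L) ∈ (⊤ : Submodule k L))
  rwa [one_mul, mul_one] at h1

theorem B_le {D : Submodule k L} (hl : ⊤ * D ≤ D) (hr : D * ⊤ ≤ D) (h0 : x0 ρ c ∈ D)
    (h1 : x1 ρ c a ∈ D) : BB k ρ c a ≤ D := by
  have h2 : XX k ρ c a ≤ D := by
    apply Submodule.span_le.2
    rintro x (rfl | rfl)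
    · exact h0
    · exact h1
  calc BB k ρ c a ≤ ⊤ * D * ⊤ := mul_le_mul' (mul_le_mul' le_rfl h2) le_rfl
    _ ≤ D * ⊤ := mul_le_mul' hl le_rfl
    _ ≤ D := hr

/-- the ideal -/
def II (k : Type) [CommRing k] [Algebra k L] (ρ : G →* L) (c a : ℕ → G) : Ideal L where
  carrier := BB k ρ c a
  add_mem' := fun h1 h2 => Submodule.add_mem _ h1 h2
  zero_mem' := Submodule.zero_mem _
  smul_mem' := fun x _ hb => left_B x hb

theorem mem_II {x : L} : x ∈ II k ρ c a ↔ x ∈ BB k ρ c a := Iff.rfl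

instance II_two : (II k ρ c a).IsTwoSided :=
  ⟨fun y h => mem_II.2 (right_B (k := k) (ρ := ρ) (c := c) (a := a) y (mem_II.1 h))⟩

/-- the algebra is the sum of `PP` and of the ideal -/
theorem top_le (hg : 3 ≤ g) (hR : GrpRel g c a)
    (hcl : Subgroup.closure ({x | ∃ j < 2 * g, x = c j} ∪ {x | ∃ m < g, x = a m}) = ⊤)
    (h2 : IsUnit ((2 * g - 2 : ℕ) : k)) (hspan : Submodule.span k (Set.range ρ) = ⊤) :
    ⊤ ≤ PP k g (fun j => ρ (c j) - 1) ⊔ BB k ρ c a := by
  rw [← hspan, Submodule.span_le]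
  rintro _ ⟨y, rfl⟩
  let q : L →+* L ⧸ II k ρ c a := Ideal.Quotient.mk _
  let ρ' : G →* L ⧸ II k ρ c a := (q : L →* _).comp ρ
  have h0 : (ρ' (c 0) - 1) * (ρ' (c 0) - 1) = 0 := by
    have h3 : q (x0 ρ c) = 0 := Ideal.Quotient.eq_zero_iff_mem.2
      (mem_II.2 (X_le_B (k := k) (ρ := ρ) (c := c) (a := a) x0_X))
    unfold x0 at h3
    rw [map_mul, map_sub, map_one] at h3
    exact h3
  have h1 : (ρ' (a 1) - 1) * (ρ' (c 0) - 1) = 0 := by
    have h3 : q (x1 ρ c a) = 0 := Ideal.Quotient.eq_zero_iff_mem.2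
      (mem_II.2 (X_le_B (k := k) (ρ := ρ) (c := c) (a := a) x1_X))
    unfold x1 at h3
    rw [map_mul, map_sub, map_sub, map_one] at h3
    exact h3
  have hL := left_rel hg hR h2 ρ' h0 h1
  have hRR := right_rel hg hR h2 ρ' h0 h1
  have h3 := rho_PP (k := k) ρ' hcl hL hRR y 1 one_PP
  rw [mul_one] at h3
  have hN : (fun j => ρ' (c j) - 1) = fun j => q ((fun j => ρ (c j) - 1) j) := by
    funext j
    show q (ρ (c j)) - 1 = q (ρ (c j) - 1)
    rw [map_sub, map_one]
  have h4 : ∀ z ∈ PP k g (fun j => ρ' (c j) - 1), ∃ p ∈ PP k g (fun j => ρ (c j) - 1),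
      q p = z := by
    intro z hz
    induction hz using Submodule.span_induction with
    | mem x hx =>
      rcases hx with rfl | ⟨i, hi, j, hj, rfl⟩
      · exact ⟨1, one_PP, map_one q⟩
      · exact ⟨_, EE_PP hi hj, by rw [hN, EE_map]⟩
    | zero => exact ⟨0, Submodule.zero_mem _, map_zero q⟩
    | add x y _ _ h5 h6 =>
      obtain ⟨p, hp, rfl⟩ := h5
      obtain ⟨p', hp', rfl⟩ := h6
      exact ⟨p + p', Submodule.add_mem _ hp hp', map_add q _ _⟩
    | smul t x _ h5 =>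
      obtain ⟨p, hp, rfl⟩ := h5
      exact ⟨t • p, Submodule.smul_mem _ _ hp, rfl⟩
  obtain ⟨p, hp, h5⟩ := h4 _ h3
  have h6 : ρ y - p ∈ BB k ρ c a :=
    mem_II.1 (Ideal.Quotient.eq.1 (show q (ρ y) = q p from h5.symm))
  have h7 : ρ y = p + (ρ y - p) := by abel
  show ρ y ∈ _
  rw [h7]
  exact Submodule.add_mem_sup hp h6

/-- the ideal is generated by `P X P` modulo its square -/
theorem B_gen {P : Submodule k L} (hP : ⊤ ≤ P ⊔ BB k ρ c a) :
    BB k ρ c a ≤ P * XX k ρ c a * P ⊔ BB k ρ c a * BB k ρ c a := by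
  set B := BB k ρ c a with hB
  have hBt : B * ⊤ ≤ B := B_top.le
  have htB : ⊤ * B ≤ B := top_B.le
  have hX : XX k ρ c a ≤ B := X_le_B
  have hPt : P ≤ ⊤ := le_top
  have h1 : B ≤ (P ⊔ B) * XX k ρ c a * (P ⊔ B) :=
    mul_le_mul' (mul_le_mul' hP le_rfl) hP
  refine h1.trans ?_
  rw [Submodule.sup_mul, Submodule.mul_sup, Submodule.sup_mul, Submodule.sup_mul]
  refine sup_le (sup_le le_sup_left ?_) (sup_le ?_ ?_)
  · refine le_trans ?_ le_sup_right
    calc B * XX k ρ c a * P = B * (XX k ρ c a * P) := mul_assoc _ _ _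
      _ ≤ B * (B * ⊤) := mul_le_mul' le_rfl (mul_le_mul' hX hPt)
      _ ≤ B * B := mul_le_mul' le_rfl hBt
  · refine le_trans ?_ le_sup_right
    calc P * XX k ρ c a * B ≤ ⊤ * B * B :=
          mul_le_mul' (mul_le_mul' hPt hX) le_rfl
      _ ≤ B * B := mul_le_mul' htB le_rfl
  · refine le_trans ?_ le_sup_right
    calc B * XX k ρ c a * B = B * (XX k ρ c a * B) := mul_assoc _ _ _
      _ ≤ B * (⊤ * B) := mul_le_mul' le_rfl (mul_le_mul' le_top le_rfl)
      _ ≤ B * B := mul_le_mul' le_rfl htB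

theorem PP_fg {N : ℕ → L} : (PP k g N).FG := by
  apply Submodule.fg_span
  have h1 : {x | ∃ i < 2 * g, ∃ j < 2 * g, x = EE N i j} ⊆
      (fun t : ℕ × ℕ => EE N t.1 t.2) '' (Set.Iio (2 * g) ×ˢ Set.Iio (2 * g)) := by
    rintro _ ⟨i, hi, j, hj, rfl⟩
    exact ⟨(i, j), ⟨hi, hj⟩, rfl⟩
  exact (((Set.finite_Iio _).prod (Set.finite_Iio _)).image _ |>.subset h1).insert _

theorem XX_fg : (XX k ρ c a).FG := by
  apply Submodule.fg_span
  exact (Set.finite_singleton _).insert _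

theorem m_top_left (m : Ideal k) {x y : L} (h : y ∈ m • (⊤ : Submodule k L)) :
    x * y ∈ m • (⊤ : Submodule k L) := by
  induction h using Submodule.smul_induction_on' with
  | smul t ht z _ =>
    rw [Algebra.mul_smul_comm]
    exact Submodule.smul_mem_smul ht Submodule.mem_top
  | add z _ w _ h1 h2 =>
    rw [mul_add]
    exact Submodule.add_mem _ h1 h2

theorem m_top_right (m : Ideal k) {x y : L} (h : y ∈ m • (⊤ : Submodule k L)) :
    y * x ∈ m • (⊤ : Submodule k L) := by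
  induction h using Submodule.smul_induction_on' with
  | smul t ht z _ =>
    rw [Algebra.smul_mul_assoc]
    exact Submodule.smul_mem_smul ht Submodule.mem_top
  | add z _ w _ h1 h2 =>
    rw [add_mul]
    exact Submodule.add_mem _ h1 h2

/-- the ideal modulo a maximal ideal -/
theorem kill_mod (hg : 18 ≤ g) (hR : GrpRel g c a)
    (hcl : Subgroup.closure ({x | ∃ j < 2 * g, x = c j} ∪ {x | ∃ m < g, x = a m}) = ⊤)
    {A B al be T : ℕ → G} {tau : G} (r : HRel (g - 3) A B al be T tau) (hA0 : A 0 = c 0)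
    (hA1 : A 1 = a 1) (h2 : IsUnit ((2 * g - 2 : ℕ) : k))
    (hspan : Submodule.span k (Set.range ρ) = ⊤) (m : Ideal k) (hm : m.IsMaximal) :
    BB k ρ c a ≤ BB k ρ c a * BB k ρ c a ⊔ m • ⊤ := by
  have hPB := top_le (by omega) hR hcl h2 hspan
  have hgen := B_gen hPB
  set P := PP k g (fun j => ρ (c j) - 1) with hPdef
  set D : Submodule k L := BB k ρ c a * BB k ρ c a ⊔ m • ⊤ with hD
  have hDl : ∀ x : L, ∀ y ∈ D, x * y ∈ D := by
    intro x y hy
    obtain ⟨y1, hy1, y2, hy2, rfl⟩ := Submodule.mem_sup.1 hy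
    rw [mul_add]
    refine Submodule.add_mem _ (Submodule.mem_sup_left ?_)
      (Submodule.mem_sup_right (m_top_left m hy2))
    have h3 : x * y1 ∈ (⊤ : Submodule k L) * (BB k ρ c a * BB k ρ c a) :=
      Submodule.mul_mem_mul Submodule.mem_top hy1
    rwa [← mul_assoc, top_B] at h3
  have hDr : ∀ x : L, ∀ y ∈ D, y * x ∈ D := by
    intro x y hy
    obtain ⟨y1, hy1, y2, hy2, rfl⟩ := Submodule.mem_sup.1 hy
    rw [add_mul]
    refine Submodule.add_mem _ (Submodule.mem_sup_left ?_)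
      (Submodule.mem_sup_right (m_top_right m hy2))
    have h3 : y1 * x ∈ (BB k ρ c a * BB k ρ c a) * (⊤ : Submodule k L) :=
      Submodule.mul_mem_mul hy1 Submodule.mem_top
    rwa [mul_assoc, B_top] at h3
  have hBD : BB k ρ c a * BB k ρ c a ≤ D := le_sup_left
  let _ : Field (k ⧸ m) := Ideal.Quotient.field m
  have hT : Module.IsTorsionBySet k (L ⧸ D) m := (Module.isTorsionBySet_quotient_iff D m).2
    (fun x t ht => Submodule.mem_sup_right (Submodule.smul_mem_smul ht Submodule.mem_top))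
  let _ : Module (k ⧸ m) (L ⧸ D) := hT.module
  have : IsScalarTower k (k ⧸ m) (L ⧸ D) := hT.isScalarTower
  have hsmul : ∀ (t : k) (v : L ⧸ D), (Ideal.Quotient.mk m t) • v = t • v := fun t v => rfl
  have : Module.Finite k (L ⧸ D) := by
    refine ⟨?_⟩
    have h3 : (P ⊔ P * XX k ρ c a * P).FG := PP_fg.sup ((PP_fg.mul XX_fg).mul PP_fg)
    have h4 : (P ⊔ P * XX k ρ c a * P).map D.mkQ = ⊤ := by
      rw [eq_top_iff]
      rintro v -
      obtain ⟨x, rfl⟩ := Submodule.mkQ_surjective _ v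
      have h5 : x ∈ P ⊔ (P * XX k ρ c a * P ⊔ BB k ρ c a * BB k ρ c a) :=
        (hPB.trans (sup_le_sup_left hgen P)) Submodule.mem_top
      rw [← sup_assoc] at h5
      obtain ⟨y, hy, z, hz, rfl⟩ := Submodule.mem_sup.1 h5
      refine ⟨y, hy, ?_⟩
      rw [map_add, Submodule.mkQ_apply, Submodule.mkQ_apply,
        (Submodule.Quotient.mk_eq_zero D).2 (hBD hz), add_zero]
    rw [← h4]
    exact h3.map _
  have : Module.Finite (k ⧸ m) (L ⧸ D) := Module.Finite.of_restrictScalars_finite k _ _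
  have hs : Function.Surjective (algebraMap k (k ⧸ m)) := Ideal.Quotient.mk_surjective
  let act : L → Module.End (k ⧸ m) (L ⧸ D) := fun x =>
    LinearMap.extendScalarsOfSurjective hs (D.mapQ D (LinearMap.mulLeft k x) (hDl x))
  have hact : ∀ x v, act x (D.mkQ v) = D.mkQ (x * v) := fun x v => rfl
  let ρV : G →* Module.End (k ⧸ m) (L ⧸ D) :=
    { toFun := fun y => act (ρ y)
      map_one' := by
        apply LinearMap.ext
        intro v
        obtain ⟨x, rfl⟩ := Submodule.mkQ_surjective _ v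
        rw [hact, map_one, one_mul]
        rfl
      map_mul' := by
        intro y z
        apply LinearMap.ext
        intro v
        obtain ⟨x, rfl⟩ := Submodule.mkQ_surjective _ v
        rw [Module.End.mul_apply, hact, hact, hact, map_mul ρ, mul_assoc] }
  have hρ1 : ∀ y v, (ρV y - 1) (D.mkQ v) = D.mkQ ((ρ y - 1) * v) := by
    intro y v
    rw [LinearMap.sub_apply, Module.End.one_apply, sub_mul, one_mul, map_sub]
    rfl
  have hρ2 : ∀ y z v, ((ρV y - 1) * (ρV z - 1)) (D.mkQ v) =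
      D.mkQ ((ρ y - 1) * (ρ z - 1) * v) := by
    intro y z v
    rw [Module.End.mul_apply, hρ1, hρ1, mul_assoc]
  let PV : Submodule (k ⧸ m) (L ⧸ D) :=
    { carrier := {v | ∃ b ∈ BB k ρ c a, D.mkQ b = v}
      add_mem' := by
        rintro _ _ ⟨b, hb, rfl⟩ ⟨b', hb', rfl⟩
        exact ⟨b + b', Submodule.add_mem _ hb hb', map_add _ _ _⟩
      zero_mem' := ⟨0, Submodule.zero_mem _, map_zero _⟩
      smul_mem' := by
        rintro s _ ⟨b, hb, rfl⟩
        obtain ⟨t, rfl⟩ := Ideal.Quotient.mk_surjective s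
        exact ⟨t • b, Submodule.smul_mem _ _ hb, rfl⟩ }
  have h2' : ((2 * g - 2 : ℕ) : k ⧸ m) ≠ 0 := by
    have h3 := h2.map (Ideal.Quotient.mk m)
    rw [map_natCast] at h3
    exact h3.ne_zero
  have hx0 : (ρ (c 0) - 1) * (ρ (c 0) - 1) ∈ BB k ρ c a := X_le_B (k := k) (a := a) x0_X
  have hx1 : (ρ (a 1) - 1) * (ρ (c 0) - 1) ∈ BB k ρ c a := X_le_B (k := k) (a := a) x1_X
  have hmk : ∀ {x : L}, x ∈ D → D.mkQ x = 0 := fun h => (Submodule.Quotient.mk_eq_zero D).2 h
  have hz := Ext.ext_zero hg hR hcl r hA0 hA1 h2' _ (L ⧸ D) ρV PV rfl (by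
      rintro x _ ⟨b, hb, rfl⟩
      exact ⟨ρ x * b, left_B _ hb, rfl⟩) (by
      rintro _ ⟨b, hb, rfl⟩
      rw [hρ2, hρ2]
      exact ⟨hmk (hBD (Submodule.mul_mem_mul hx0 hb)), hmk (hBD (Submodule.mul_mem_mul hx1 hb))⟩)
    (by
      intro v
      obtain ⟨x, rfl⟩ := Submodule.mkQ_surjective _ v
      rw [hρ2, hρ2]
      exact ⟨⟨_, right_B x hx0, rfl⟩, ⟨_, right_B x hx1, rfl⟩⟩)
  have hd0 : x0 ρ c ∈ D := by
    have h3 := LinearMap.congr_fun hz.1 (D.mkQ 1)
    rw [hρ2, mul_one] at h3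
    exact (Submodule.Quotient.mk_eq_zero D).1 h3
  have hd1 : x1 ρ c a ∈ D := by
    have h3 := LinearMap.congr_fun hz.2 (D.mkQ 1)
    rw [hρ2, mul_one] at h3
    exact (Submodule.Quotient.mk_eq_zero D).1 h3
  exact B_le (Submodule.mul_le.2 fun x _ y hy => hDl x y hy)
    (Submodule.mul_le.2 fun y hy x _ => hDr x y hy) hd0 hd1

/-- the ideal is idempotent -/
theorem B_le_sq (hg : 18 ≤ g) (hR : GrpRel g c a)
    (hcl : Subgroup.closure ({x | ∃ j < 2 * g, x = c j} ∪ {x | ∃ m < g, x = a m}) = ⊤)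
    {A B al be T : ℕ → G} {tau : G} (r : HRel (g - 3) A B al be T tau) (hA0 : A 0 = c 0)
    (hA1 : A 1 = a 1) (h2 : IsUnit ((2 * g - 2 : ℕ) : k))
    (hspan : Submodule.span k (Set.range ρ) = ⊤)
    (hdis : ∀ x ∈ PP k g (fun j => ρ (c j) - 1), x ∈ BB k ρ c a → x = 0) :
    BB k ρ c a ≤ BB k ρ c a * BB k ρ c a := by
  have hPB := top_le (by omega) hR hcl h2 hspan
  have hgen := B_gen hPB
  have hB2 : BB k ρ c a * BB k ρ c a ≤ BB k ρ c a :=
    (mul_le_mul' le_rfl le_top).trans B_top.le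
  have hPXP : PP k g (fun j => ρ (c j) - 1) * XX k ρ c a * PP k g (fun j => ρ (c j) - 1) ≤
      BB k ρ c a := mul_le_mul' (mul_le_mul' le_top le_rfl) le_top
  by_contra hne
  let I : Ideal k :=
    { carrier := {t | ∀ b ∈ BB k ρ c a, t • b ∈ BB k ρ c a * BB k ρ c a}
      add_mem' := fun {s t} h3 h4 b hb => by
        rw [add_smul]
        exact Submodule.add_mem _ (h3 b hb) (h4 b hb)
      zero_mem' := fun b _ => by
        rw [zero_smul]
        exact Submodule.zero_mem _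
      smul_mem' := fun s t h3 b hb => by
        rw [smul_eq_mul, mul_smul]
        exact Submodule.smul_mem _ _ (h3 b hb) }
  have hI : I ≠ ⊤ := by
    intro h3
    apply hne
    intro b hb
    have h4 : (1 : k) ∈ I := by rw [h3]; exact Submodule.mem_top
    have h5 := h4 b hb
    rwa [one_smul] at h5
  obtain ⟨m, hm, hle⟩ := Ideal.exists_le_maximal I hI
  -- the modular law
  have h3 : BB k ρ c a ≤ BB k ρ c a * BB k ρ c a ⊔ m • BB k ρ c a := by
    intro b hb
    have h4 := kill_mod hg hR hcl r hA0 hA1 h2 hspan m hm hb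
    obtain ⟨x, hx, y, hy, rfl⟩ := Submodule.mem_sup.1 h4
    have h5 : y ∈ m • (PP k g (fun j => ρ (c j) - 1) ⊔ BB k ρ c a) :=
      Submodule.smul_mono le_rfl hPB hy
    rw [Submodule.smul_sup] at h5
    obtain ⟨p, hp, q, hq, rfl⟩ := Submodule.mem_sup.1 h5
    have hp' : p ∈ PP k g (fun j => ρ (c j) - 1) := Submodule.smul_le_right hp
    have hq' : q ∈ BB k ρ c a := Submodule.smul_le_right hq
    have h6 : p ∈ BB k ρ c a := by
      have h7 := Submodule.sub_mem _ (Submodule.sub_mem _ hb (hB2 hx)) hq'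
      have h8 : x + (p + q) - x - q = p := by abel
      rwa [h8] at h7
    rw [hdis p hp' h6, zero_add]
    exact Submodule.add_mem_sup hx hq
  have h4 : BB k ρ c a ≤ BB k ρ c a * BB k ρ c a ⊔ m • (PP k g (fun j => ρ (c j) - 1) *
      XX k ρ c a * PP k g (fun j => ρ (c j) - 1)) := by
    refine h3.trans (sup_le le_sup_left ?_)
    refine (Submodule.smul_mono le_rfl hgen).trans ?_
    rw [Submodule.smul_sup]
    exact sup_le le_sup_right (Submodule.smul_le_right.trans le_sup_left)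
  obtain ⟨s, hs, hs2⟩ := Submodule.exists_sub_one_mem_and_smul_le_of_fg_of_le_sup
    ((PP_fg.mul XX_fg).mul PP_fg) hPXP h4
  have h5 : s ∈ I := fun b hb => hs2 (Submodule.smul_mem_pointwise_smul b s _ hb)
  apply hm.ne_top
  rw [Ideal.eq_top_iff_one]
  have h6 := m.sub_mem (hle h5) hs
  rwa [sub_sub_cancel] at h6

end abs

end Pool.Agent.U379.TR.Univ
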